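import Pool.Agent.Lib_MP_638f75_lc.RSat

/-!
# Block R: arcs and names (piece RED)

PAPER PROOF. `clN_iff`: the value `idxOf v` is the first `i` with `(flt I)[i] = v`: if
`i < length`, `(flt I)[i] = v` and `(flt I)[i'] ≠ v` for all `i' < i` then `i = idxOf v`
(`List.idxOf_eq_...`, or by trichotomy: `(flt I)[idxOf v] = v` excludes `idxOf v < i`, and
`List.not_of_lt_idxOf`/`List.idxOf_le...` excludes `i < idxOf v`), and conversely; use `dat_idx`.
The number `2 (3 l + h) + [sign]` is `(dat I).st l h`.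
`edN_iff`: case distinction on `u`, `v`; `arcE a b = true` implies `a < 10` and `b < 10` (finite
check), in particular `arcE 10 b = false = arcE a 10`.
-/

namespace Pool.Agent.RAC

open Pool.Agent.Lib_MP_8cd8c6_lc

variable {ν : Type} [DecidableEq ν] [Inhabited ν]

theorem arcE_10l : ∀ b : ℕ, b < 11 → arcE 10 b = false := by decide

theorem arcE_10r : ∀ a : ℕ, a < 11 → arcE a 10 = false := by decide

theorem clN_iff (I : List (Trip ν)) (l : Fin I.length) (i : Fin (3 * I.length)) (j : ℕ)
    (h : Fin 3) : clN I l.val i.val j h = true ↔ (dat I).idx l h = i ∧ j = (dat I).st l h := by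
  have hlen := flt_length I
  have hid := dat_idx I l h
  have hmem : (ltr I l.val h).1 ∈ flt I := List.mem_of_getElem? (flt_get I l h)
  have hst : (dat I).st l h = 2 * (3 * l.val + h.val) + (if (ltr I l.val h).2 then 1 else 0) := rfl
  have hlt : (flt I).idxOf (ltr I l.val h).1 < (flt I).length := List.idxOf_lt_length_of_mem hmem
  have hget : (flt I)[(flt I).idxOf (ltr I l.val h).1]?.getD default = (ltr I l.val h).1 := by
    rw [List.getElem?_eq_getElem hlt, Option.getD_some, List.getElem_idxOf]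
  have hbef : ∀ i' : ℕ, i' < (flt I).idxOf (ltr I l.val h).1 →
      (flt I)[i']?.getD default ≠ (ltr I l.val h).1 := by
    intro i' hi' e
    have h1 : i' < (flt I).length := hi'.trans hlt
    rw [List.getElem?_eq_getElem h1, Option.getD_some] at e
    have := List.not_of_lt_findIdx (p := (· == (ltr I l.val h).1)) (xs := flt I) (i := i') hi'
    rw [e] at this
    simp at this
  rw [hst]
  unfold clN
  simp only [Bool.and_eq_true, decide_eq_true_eq, List.all_eq_true, List.mem_range,
    Bool.not_eq_true', decide_eq_false_iff_not]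
  constructor
  · rintro ⟨h1, h2, h3, h4⟩
    refine ⟨?_, h1⟩
    apply Fin.ext
    rw [hid]
    rcases lt_trichotomy ((flt I).idxOf (ltr I l.val h).1) i.val with h5 | h5 | h5
    · exact absurd hget (h4 _ h5)
    · exact h5
    · exact absurd h3 (hbef _ h5)
  · rintro ⟨h1, h2⟩
    have h3 : (flt I).idxOf (ltr I l.val h).1 = i.val := by
      rw [← hid, h1]
    refine ⟨h2, ?_, ?_, ?_⟩
    · rw [← h3]
      exact hlt
    · rw [← h3]
      exact hget
    · intro i' hi'
      exact hbef i' (by rw [h3]; exact hi')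

theorem edN_iff (I : List (Trip ν)) (u v : VS (dat I)) :
    edN I (nmS (dat I) u) (nmS (dat I) v) = true ↔ (dat I).edS u v := by
  rcases u with ⟨i, j, a⟩ | l <;> rcases v with ⟨i', j', b⟩ | l'
  · have h1 : ¬ (a.val = 10) := by
      have := a.2
      omega
    simp only [edN, nmS, Dat.edS, h1, false_and, or_false, Bool.and_eq_true,
      Bool.or_eq_true, decide_eq_true_eq, Fin.ext_iff]
  · have h1 : arcE a.val 10 = false := arcE_10r _ (by omega)
    simp [edN, nmS, Dat.edS, h1]
  · have h1 : arcE 10 b.val = false := arcE_10l _ (by omega)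
    simp only [edN, nmS, Dat.edS, h1, Bool.and_false, Bool.false_or, Bool.and_eq_true,
      Bool.or_eq_true, decide_eq_true_eq]
    have h2 : ∀ h : Fin 3, clN I l.val i'.val j'.val h = true ↔
        (dat I).idx l h = i' ∧ j'.val = (dat I).st l h := fun h => clN_iff I l i' j'.val h
    rw [h2, h2, h2]
    constructor
    · rintro (h | h)
      · omega
      · refine ⟨h.2.1, ?_⟩
        rcases h.2.2 with h3 | h3 | h3
        · exact ⟨0, h3⟩
        · exact ⟨1, h3⟩
        · exact ⟨2, h3⟩
    · rintro ⟨h3, h, h4⟩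
      refine Or.inr ⟨trivial, h3, ?_⟩
      fin_cases h
      · exact Or.inl h4
      · exact Or.inr (Or.inl h4)
      · exact Or.inr (Or.inr h4)
  · have h1 : arcE 10 10 = false := arcE_10l _ (by omega)
    simp [edN, nmS, Dat.edS, h1]

theorem ptN_eq (I : List (Trip ν)) (u v : VS (dat I)) (h : (dat I).edS u v) :
    ptN (nmS (dat I) u) (nmS (dat I) v) = (dat I).ptS u v := by
  rcases u with ⟨i, j, a⟩ | l <;> rcases v with ⟨i', j', b⟩ | l'
  · have h1 : ¬ (a.val = 10) := by
      have := a.2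
      omega
    simp only [ptN, nmS, Dat.ptS, h1, decide_false, Bool.false_or]
    congr 1
    exact decide_eq_decide.2 Fin.ext_iff.symm
  · exact h.elim
  · simp [ptN, nmS, Dat.ptS]
  · exact h.elim

theorem nmS_inj (D : Dat) : Function.Injective (nmS D) := by
  rintro (⟨i, j, a⟩ | l) (⟨i', j', b⟩ | l') h
  · simp only [nmS, Prod.mk.injEq] at h
    obtain ⟨h1, h2, h3⟩ := h
    rw [Fin.ext h1, Fin.ext h2, Fin.ext h3]
  · simp only [nmS, Prod.mk.injEq] at h
    have := a.2
    omega
  · simp only [nmS, Prod.mk.injEq] at h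
    have := b.2
    omega
  · simp only [nmS, Prod.mk.injEq] at h
    rw [Fin.ext h.1]

theorem mem_vsN {m : ℕ} {p : NS} : p ∈ vsN m ↔
    (p.1 < 3 * m ∧ p.2.1 < 6 * m ∧ p.2.2 < 10) ∨ (p.1 < m ∧ p.2.1 = 0 ∧ p.2.2 = 10) := by
  obtain ⟨i, j, a⟩ := p
  simp only [vsN, List.mem_append, List.mem_flatMap, List.mem_map, List.mem_range,
    Prod.mk.injEq]
  constructor
  · rintro (⟨i', h1, j', h2, a', h3, h4, h5, h6⟩ | ⟨l, h1, h2, h3, h4⟩)
    · subst h4 h5 h6
      exact Or.inl ⟨h1, h2, h3⟩
    · subst h2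
      exact Or.inr ⟨h1, h3.symm, h4.symm⟩
  · rintro (⟨h1, h2, h3⟩ | ⟨h1, h2, h3⟩)
    · exact Or.inl ⟨i, h1, j, h2, a, h3, rfl, rfl, rfl⟩
    · exact Or.inr ⟨i, h1, rfl, h2.symm, h3.symm⟩

theorem nmS_mem (I : List (Trip ν)) (u : VS (dat I)) : nmS (dat I) u ∈ vsN I.length := by
  rw [mem_vsN]
  rcases u with ⟨i, j, a⟩ | l
  · exact Or.inl ⟨i.2, j.2, a.2⟩
  · exact Or.inr ⟨l.2, rfl, rfl⟩

theorem nmS_surj (I : List (Trip ν)) {p : NS} (h : p ∈ vsN I.length) :
    ∃ u : VS (dat I), nmS (dat I) u = p := by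
  obtain ⟨i, j, a⟩ := p
  rw [mem_vsN] at h
  rcases h with ⟨h1, h2, h3⟩ | ⟨h1, h2, h3⟩
  · exact ⟨.inl (⟨i, h1⟩, ⟨j, h2⟩, ⟨a, h3⟩), rfl⟩
  · refine ⟨.inr ⟨i, h1⟩, ?_⟩
    simp only at h2 h3
    rw [h2, h3]
    rfl

theorem vsN_nodup (m : ℕ) : (vsN m).Nodup := by
  unfold vsN
  refine List.Nodup.append ?_ ?_ ?_
  · rw [List.nodup_flatMap]
    refine ⟨fun i _ => ?_, ?_⟩
    · rw [List.nodup_flatMap]
      refine ⟨fun j _ => ?_, ?_⟩
      · refine List.nodup_range.map ?_
        intro a b h
        simpa using h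
      · refine List.Pairwise.imp ?_ (List.nodup_range (n := 6 * m))
        intro j j' hj
        rw [Function.onFun, List.disjoint_left]
        intro x hx hx'
        simp only [List.mem_map] at hx hx'
        obtain ⟨a, -, rfl⟩ := hx
        obtain ⟨b, -, h⟩ := hx'
        simp only [Prod.mk.injEq] at h
        exact hj h.2.1.symm
    · refine List.Pairwise.imp ?_ (List.nodup_range (n := 3 * m))
      intro i i' hi
      rw [Function.onFun, List.disjoint_left]
      intro x hx hx'
      simp only [List.mem_flatMap, List.mem_map] at hx hx'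
      obtain ⟨j, -, a, -, rfl⟩ := hx
      obtain ⟨j', -, b, -, h⟩ := hx'
      simp only [Prod.mk.injEq] at h
      exact hi h.1.symm
  · refine List.nodup_range.map ?_
    intro a b h
    simpa using h
  · rw [List.disjoint_left]
    intro x hx hx'
    simp only [List.mem_flatMap, List.mem_map, List.mem_range] at hx hx'
    obtain ⟨i, -, j, -, a, ha, rfl⟩ := hx
    obtain ⟨l, -, h⟩ := hx'
    simp only [Prod.mk.injEq] at h
    omega

end Pool.Agent.RAC
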