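import Pool.Agent.Lib_MP_638f75_lc.SLoc

/-!
# Block S, completeness (piece SCOMP)

PAPER PROOF. Let `X` be the assignment, `x i j = xor (X i) (decide (j % 2 = 1))` the main colour of
the stage `(i, j)`, and `y i j = !x i j` the other colour. Inside a stage the edges
`01, 02, 25, 53, 34, 16, 69, 97, 78` have the main colour and the edges
`03, 32, 24, 45, 59, 17, 76, 68, 89` the other colour (table `mainT`); the edge from `(i, j, 8)` to
`(i, j + 1, 0)` has the colour `x i j = y i (j + 1)`; the edge from the clause vertex `l` to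
`(idx l h, st l h, 4)` has the colour `x (idx l h) (st l h) = xor (X (idx l h)) (sg l h)`.
Positions on the main path `4 3 5 2 0 1 6 9 7 8`: `posM = 1, …, 10`; on the other path
`0 3 2 4 5 9 8 6 7 1`: `posN = 1, …, 10`.
Potentials: `φ b (i, j, κ) = σ i j * posM κ` if `b = x i j`, and `σ i (j - 1) * (10 + posN κ)` if
`b = y i j` (with `σ i (-1) = 1`), `φ b (.inr l) = 0`; here `σ i j = -1` if there are `l`, `h < h'`
with `i = idx l h`, `j = st l h` and
`xor (X (idx l h)) (sg l h) = xor (X (idx l h')) (sg l h')`, and `σ i j = 1` otherwise (`st` is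
injective, so there is at most one `(l, h)`).
Check of the condition at a vertex `v` with two different neighbours `w`, `w'` and the same colour:
(1) `v = (i, j, κ)`, `w`, `w'` in the same stage: the differences are `σ` times the differences of
the tables; `(pos w - pos v) (pos w' - pos v) < 0` is a finite check on the tables (`decide`).
(2) `v = (i, j, 0)`, `w = (i, j - 1, 8)`: colour `b = x i (j - 1) = y i j`, the only other
neighbour of colour `b` is `(i, j, 3)`; potentials `10 σ, 11 σ, 12 σ` with `σ = σ i (j - 1)`.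
(3) `v = (i, j, 8)`, `w = (i, j + 1, 0)`, other neighbour `(i, j, 7)`: `9 σ, 10 σ, 11 σ`.
(4) `v = (i, j, 4)`, `w = .inr l`, other neighbour of colour `x i j`: `(i, j, 3)`; `0, σ, 2 σ`.
(5) `v = .inr l`, `w = (idx l h, st l h, 4)`, `w'` the same for `h'`, same colour: the potentials
are `σ` and `σ'`; if `h < h'` then `σ = -1`, and `σ' = 1`, because otherwise there is `h'' > h'`
with the same colour, and all three literals of the clause have the same value.
-/

namespace Pool.Agent.RAC

/-- the edges of a stage with the main colour -/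
def mT (a b : Fin 10) : Bool :=
  [(0, 1), (0, 2), (2, 5), (5, 3), (3, 4), (1, 6), (6, 9), (9, 7), (7, 8)].any (fun e : ℕ × ℕ =>
    (e.1 == a.val && e.2 == b.val) || (e.1 == b.val && e.2 == a.val))

/-- positions on the main path -/
def pM (a : Fin 10) : ℤ := ![5, 6, 4, 2, 1, 3, 7, 9, 10, 8] a

/-- positions on the other path -/
def pN (a : Fin 10) : ℤ := ![1, 10, 3, 2, 4, 5, 8, 9, 7, 6] a

theorem mT_symm : ∀ a b : Fin 10, mT a b = mT b a := by decide

/-- neighbours, the neighbour outside of the stage is `none` -/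
def nbT (k : Fin 10) : Option (Fin 10) → Bool
  | some a => arcE k.val a.val || arcE a.val k.val
  | none => k.val == 8 || k.val == 0 || k.val == 4

/-- does the edge have the main colour -/
def coT (k : Fin 10) : Option (Fin 10) → Bool
  | some a => mT k a
  | none => !(k.val == 0)

/-- difference of the potentials -/
def deT (k : Fin 10) : Option (Fin 10) → ℤ
  | some a => if mT k a then pM a - pM k else pN a - pN k
  | none => if k.val = 8 then 1 else -1

set_option maxRecDepth 100000 in
theorem table : ∀ k : Fin 10, ∀ o o' : Option (Fin 10), o ≠ o' → nbT k o = true → nbT k o' = true →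
    coT k o = coT k o' → deT k o * deT k o' < 0 := by decide

section

variable (D : Dat) (X : Fin D.N → Bool)

/-- the main colour -/
def xc (i : Fin D.N) (j : ℕ) : Bool := xor (X i) (decide (j % 2 = 1))

/-- the value of a literal -/
def vl (l : Fin D.m) (h : Fin 3) : Bool := xor (X (D.idx l h)) (D.sg l h)

open Classical in
/-- the signs -/
noncomputable def sgm (i : Fin D.N) (j : ℕ) : ℝ :=
  if ∃ (l : Fin D.m) (h h' : Fin 3), h < h' ∧ D.idx l h = i ∧ D.st l h = j ∧
    vl D X l h = vl D X l h' then -1 else 1

/-- the previous sign -/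
noncomputable def prv (i : Fin D.N) (j : ℕ) : ℝ := if j = 0 then 1 else sgm D X i (j - 1)

/-- the colouring -/
def colS : VS D → VS D → Bool
  | .inl u, .inl v => if u.1 = v.1 then (if u.2.1 = v.2.1 then
      (if mT u.2.2 v.2.2 then xc D X u.1 u.2.1.val else !xc D X u.1 u.2.1.val)
      else xc D X u.1 (min u.2.1.val v.2.1.val)) else false
  | .inl u, .inr _ => xc D X u.1 u.2.1.val
  | .inr _, .inl v => xc D X v.1 v.2.1.val
  | .inr _, .inr _ => false

/-- the potentials -/
noncomputable def phiS (b : Bool) : VS D → ℝ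
  | .inl u => if b = xc D X u.1 u.2.1.val then sgm D X u.1 u.2.1.val * (pM u.2.2 : ℝ)
      else prv D X u.1 u.2.1.val * (10 + (pN u.2.2 : ℝ))
  | .inr _ => 0

/-- the neighbour outside of the stage -/
def ExtP (i : Fin D.N) (j : Fin (6 * D.m)) (k : Fin 10) (w : VS D) : Prop :=
  (k.val = 8 ∧ ∃ j' : Fin (6 * D.m), j'.val = j.val + 1 ∧ w = .inl (i, j', 0)) ∨
  (k.val = 0 ∧ ∃ j' : Fin (6 * D.m), j.val = j'.val + 1 ∧ w = .inl (i, j', 8)) ∨
  (k.val = 4 ∧ ∃ l h, D.idx l h = i ∧ j.val = D.st l h ∧ w = .inr l)

/-- the neighbour with the code `o` -/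
def Own (i : Fin D.N) (j : Fin (6 * D.m)) (k : Fin 10) (w : VS D) : Option (Fin 10) → Prop
  | some a => w = .inl (i, j, a)
  | none => ExtP D i j k w

theorem own_uniq {i : Fin D.N} {j : Fin (6 * D.m)} {k : Fin 10} {w w' : VS D}
    {o : Option (Fin 10)} (h : Own D i j k w o) (h' : Own D i j k w' o) : w = w' := by
  rcases o with _ | a
  · rcases h with ⟨h1, j1, h2, h3⟩ | ⟨h1, j1, h2, h3⟩ | ⟨h1, l1, g1, h2, h3, h4⟩ <;>
      rcases h' with ⟨h1', j1', h2', h3'⟩ | ⟨h1', j1', h2', h3'⟩ | ⟨h1', l1', g1', h2', h3', h4'⟩
    · rw [h3, h3', Fin.ext (h2.trans h2'.symm)]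
    · omega
    · omega
    · omega
    · rw [h3, h3', Fin.ext (by omega : j1.val = j1'.val)]
    · omega
    · omega
    · omega
    · rw [h4, h4', (D.st_inj (h3.symm.trans h3')).1]
  · exact (show w = _ from h).trans (show w' = _ from h').symm

theorem sgm_sq (i : Fin D.N) (j : ℕ) : sgm D X i j * sgm D X i j = 1 := by
  unfold sgm
  split_ifs <;> norm_num

theorem prv_sq (i : Fin D.N) (j : ℕ) : prv D X i j * prv D X i j = 1 := by
  unfold prv
  split_ifs
  · norm_num
  · exact sgm_sq D X i _

theorem xc_succ (i : Fin D.N) (j : ℕ) : xc D X i (j + 1) = !xc D X i j := by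
  unfold xc
  rcases Nat.mod_two_eq_zero_or_one j with h | h
  · have h1 : (j + 1) % 2 = 1 := by omega
    rw [h1, h]
    simp
  · have h1 : (j + 1) % 2 = 0 := by omega
    rw [h1, h]
    simp

theorem xc_st (l : Fin D.m) (h : Fin 3) : xc D X (D.idx l h) (D.st l h) = vl D X l h := by
  unfold xc vl Dat.st
  rcases hs : D.sg l h with _ | _
  · have h1 : (2 * (3 * l.val + h.val) + (if false = true then 1 else 0)) % 2 = 0 := by
      simp
    rw [h1]
    simp
  · have h1 : (2 * (3 * l.val + h.val) + (if true = true then 1 else 0)) % 2 = 1 := by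
      simp only [if_true]
      omega
    rw [h1]
    simp

theorem nbS (i : Fin D.N) (j : Fin (6 * D.m)) (k : Fin 10) (w : VS D)
    (hw : D.gam.Nb (.inl (i, j, k)) w) :
    ∃ o : Option (Fin 10), nbT k o = true ∧ Own D i j k w o ∧
      colS D X (.inl (i, j, k)) w = (if coT k o then xc D X i j.val else !xc D X i j.val) ∧
      phiS D X (colS D X (.inl (i, j, k)) w) w - phiS D X (colS D X (.inl (i, j, k)) w) (.inl (i, j, k)) =
        (if coT k o then sgm D X i j.val else prv D X i j.val) * (deT k o : ℝ) := by
  rcases w with ⟨i', j', a⟩ | l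
  · have hcase : (i = i' ∧ j = j' ∧ nbT k (some a) = true) ∨
        (i = i' ∧ j'.val = j.val + 1 ∧ k.val = 8 ∧ a.val = 0) ∨
        (i = i' ∧ j.val = j'.val + 1 ∧ a.val = 8 ∧ k.val = 0) := by
      rcases hw with ⟨h1, h2 | h2⟩ | ⟨h1, h2 | h2⟩
      · refine Or.inl ⟨h1, h2.1, ?_⟩
        have h3 : arcE k.val a.val = true := h2.2
        simp [nbT, h3]
      · exact Or.inr (Or.inl ⟨h1, h2⟩)
      · refine Or.inl ⟨h1.symm, h2.1.symm, ?_⟩
        have h3 : arcE a.val k.val = true := h2.2
        simp [nbT, h3]
      · exact Or.inr (Or.inr ⟨h1.symm, h2⟩)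
    rcases hcase with ⟨h1, h2, h3⟩ | ⟨h1, h2, h3, h4⟩ | ⟨h1, h2, h3, h4⟩
    · subst h1 h2
      have hcol : colS D X (.inl (i, j, k)) (.inl (i, j, a)) =
          (if coT k (some a) then xc D X i j.val else !xc D X i j.val) := by
        simp [colS, coT]
      refine ⟨some a, h3, rfl, hcol, ?_⟩
      rw [hcol]
      unfold phiS coT deT
      rcases hm : mT k a with _ | _
      · simp [hm]
        ring
      · simp [hm]
        ring
    · subst h1
      have hk : k = 8 := Fin.ext h3
      have ha : a = 0 := Fin.ext h4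
      subst hk ha
      have hne : j ≠ j' := fun e => by rw [e] at h2; omega
      have hmin : min j.val j'.val = j.val := by omega
      have hcol : colS D X (.inl (i, j, 8)) (.inl (i, j', 0)) = xc D X i j.val := by
        simp [colS, hne, hmin]
      have hx : xc D X i j'.val = !xc D X i j.val := by rw [h2]; exact xc_succ D X i j.val
      have hp : prv D X i j'.val = sgm D X i j.val := by
        unfold prv
        rw [h2, if_neg (by omega), Nat.add_sub_cancel]
      refine ⟨none, by decide, Or.inl ⟨rfl, j', h2, rfl⟩, by rw [hcol]; simp [coT], ?_⟩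
      rw [hcol]
      unfold phiS coT deT
      simp only [hx, hp]
      have e1 : (pM 8 : ℝ) = 10 := by rw [show pM 8 = 10 from rfl]; norm_num
      have e2 : (pN 0 : ℝ) = 1 := by rw [show pN 0 = 1 from rfl]; norm_num
      rcases xc D X i j.val with _ | _ <;> simp [e1, e2] <;> ring
    · subst h1
      have hk : k = 0 := Fin.ext h4
      have ha : a = 8 := Fin.ext h3
      subst hk ha
      have hne : j ≠ j' := fun e => by rw [e] at h2; omega
      have hmin : min j.val j'.val = j'.val := by omega
      have hcol : colS D X (.inl (i, j, 0)) (.inl (i, j', 8)) = xc D X i j'.val := by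
        simp [colS, hne, hmin]
      have hx : xc D X i j.val = !xc D X i j'.val := by rw [h2]; exact xc_succ D X i j'.val
      have hp : prv D X i j.val = sgm D X i j'.val := by
        unfold prv
        rw [h2, if_neg (by omega), Nat.add_sub_cancel]
      refine ⟨none, by decide, Or.inr (Or.inl ⟨rfl, j', h2, rfl⟩), by rw [hcol, hx]; simp [coT], ?_⟩
      rw [hcol]
      unfold phiS coT deT
      simp only [hx, hp]
      have e1 : (pM 8 : ℝ) = 10 := by rw [show pM 8 = 10 from rfl]; norm_num
      have e2 : (pN 0 : ℝ) = 1 := by rw [show pN 0 = 1 from rfl]; norm_num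
      rcases xc D X i j'.val with _ | _ <;> simp [e1, e2] <;> ring
  · rcases hw with h | h
    · exact h.elim
    · obtain ⟨h1, h, h2, h3⟩ := h
      have hk : k = 4 := Fin.ext h1
      subst hk
      have hcol : colS D X (.inl (i, j, 4)) (.inr l) = xc D X i j.val := rfl
      refine ⟨none, by decide, Or.inr (Or.inr ⟨rfl, l, h, h2, h3, rfl⟩), by rw [hcol]; simp [coT], ?_⟩
      rw [hcol]
      unfold phiS coT deT
      have e1 : (pM 4 : ℝ) = 1 := by rw [show pM 4 = 1 from rfl]; norm_num
      simp [e1]

end

theorem Dat.complete (D : Dat) (h : D.Sat) : TLF D.gam := by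
  obtain ⟨X, hX⟩ := h
  refine ⟨colS D X, phiS D X, ?_, ?_⟩
  · rintro (⟨i, j, a⟩ | l) (⟨i', j', b⟩ | l')
    · unfold colS
      by_cases hi : i = i'
      · subst hi
        by_cases hj : j = j'
        · subst hj
          simp [mT_symm a b]
        · have hj' : j' ≠ j := fun e => hj e.symm
          simp [hj, hj', min_comm]
      · have hi' : i' ≠ i := fun e => hi e.symm
        simp [hi, hi']
    · rfl
    · rfl
    · rfl
  · rintro b (⟨i, j, k⟩ | l) w w' hne n1 n2 c1 c2
    · obtain ⟨o, t1, t2, t3, t4⟩ := nbS D X i j k w n1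
      obtain ⟨o', t1', t2', t3', t4'⟩ := nbS D X i j k w' n2
      rw [c1] at t3 t4
      rw [c2] at t3' t4'
      have hoo : o ≠ o' := by
        rintro rfl
        exact hne (own_uniq D t2 t2')
      have hco : coT k o = coT k o' := by
        rw [t3'] at t3
        revert t3
        rcases coT k o with _ | _ <;> rcases coT k o' with _ | _ <;> rcases xc D X i j.val with _ | _ <;> simp
      have ht := table k o o' hoo t1 t1' hco
      have ht' : (deT k o : ℝ) * (deT k o' : ℝ) < 0 := by exact_mod_cast ht
      rw [t4, t4', ← hco]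
      rcases coT k o with _ | _
      · have := prv_sq D X i j.val
        simp only [Bool.false_eq_true, if_false]
        nlinarith
      · have := sgm_sq D X i j.val
        simp only [if_true]
        nlinarith
    · -- clause vertex
      have key : ∀ w, D.gam.Nb (.inr l) w → ∃ h : Fin 3,
          w = .inl (D.idx l h, ⟨D.st l h, D.st_lt l h⟩, 4) := by
        rintro (⟨i, j, a⟩ | l') (hh | hh)
        · obtain ⟨h1, h, h2, h3⟩ := hh
          refine ⟨h, ?_⟩
          simp only at h1 h2 h3
          rw [h2, Fin.ext h1 (b := (4 : Fin 10)), Fin.ext h3 (b := ⟨D.st l h, D.st_lt l h⟩)]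
        · exact hh.elim
        · exact hh.elim
        · exact hh.elim
      obtain ⟨g, rfl⟩ := key w n1
      obtain ⟨g', rfl⟩ := key w' n2
      have hg : g ≠ g' := by
        rintro rfl
        exact hne rfl
      have d1 : vl D X l g = b := by
        rw [← c1, ← xc_st D X l g]
        rfl
      have d2 : vl D X l g' = b := by
        rw [← c2, ← xc_st D X l g']
        rfl
      have e1 : (pM 4 : ℝ) = 1 := by rw [show pM 4 = 1 from rfl]; norm_num
      have f : ∀ g : Fin 3, vl D X l g = b →
          phiS D X b (.inl (D.idx l g, ⟨D.st l g, D.st_lt l g⟩, 4)) - phiS D X b (.inr l) =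
          sgm D X (D.idx l g) (D.st l g) := by
        intro g hb
        unfold phiS
        simp only
        rw [if_pos (by rw [xc_st D X l g, hb]), e1, mul_one, sub_zero]
      rw [f g d1, f g' d2]
      have lo : ∀ g g' : Fin 3, g < g' → vl D X l g = vl D X l g' → sgm D X (D.idx l g) (D.st l g) = -1 := by
        intro g g' h1 h2
        unfold sgm
        rw [if_pos ⟨l, g, g', h1, rfl, rfl, h2⟩]
      have hi : ∀ g g' : Fin 3, g < g' → vl D X l g = b → vl D X l g' = b →
          sgm D X (D.idx l g') (D.st l g') = 1 := by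
        intro g g' h1 h2 h3
        unfold sgm
        rw [if_neg]
        rintro ⟨l1, k, k', hk, -, h5, h6⟩
        obtain ⟨h7, h8⟩ := D.st_inj h5
        subst h7 h8
        rw [h3] at h6
        obtain ⟨a, a', ha⟩ := hX l1
        apply ha
        have all : ∀ a : Fin 3, vl D X l1 a = b := by
          intro a
          have : a = g ∨ a = k ∨ a = k' := by omega
          rcases this with rfl | rfl | rfl
          · exact h2
          · exact h3
          · exact h6.symm
        exact (all a).trans (all a').symm
      rcases lt_or_gt_of_ne hg with h1 | h1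
      · rw [lo g g' h1 (d1.trans d2.symm), hi g g' h1 d1 d2]
        norm_num
      · rw [lo g' g h1 (d2.trans d1.symm), hi g' g h1 d2 d1]
        norm_num

end Pool.Agent.RAC
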