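import Pool.Agent.Lib_MP_638f75_lc.SSound
import Pool.Agent.Lib_MP_638f75_lc.SComp
import Pool.Agent.Lib_MP_8cd8c6_lc.Complete

/-!
# Block R: names of the vertices of the reduction graphs
-/

namespace Pool.Agent.RAC

open Pool.Agent.Lib_MP_8cd8c6_lc

/-! ### From a list of clauses to `Dat` -/

section inst

variable {ν : Type} [DecidableEq ν] [Inhabited ν]

/-- the `h`-th literal of the `l`-th clause -/
def ltr (I : List (Trip ν)) (l : ℕ) (h : Fin 3) : ν × Bool := lit3 (I[l]?.getD (dl, dl, dl)) h

/-- the list of the variables of all positions -/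
def flt (I : List (Trip ν)) : List ν := I.flatMap (fun c => [c.1.1, c.2.1.1, c.2.2.1])

/-- the instance `Dat` of a list of clauses: the variable of a literal is the first position with
the same variable -/
def dat (I : List (Trip ν)) : Dat where
  N := 3 * I.length
  m := I.length
  idx := fun l h => ⟨min ((flt I).idxOf (ltr I l.val h).1) (3 * I.length - 1), by
    have := l.2
    omega⟩
  sg := fun l h => (ltr I l.val h).2

end inst

/-! ### Graphs on lists of names -/

/-- the graph on the positions of a list with a given generating relation -/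
def graphL {T : Type} (L : List T) (R : T → T → Bool) : SimpleGraph (Fin L.length) where
  Adj i j := L.get i ≠ L.get j ∧ (R (L.get i) (L.get j) = true ∨ R (L.get j) (L.get i) = true)
  symm := ⟨fun _ _ h => ⟨h.1.symm, h.2.symm⟩⟩
  loopless := ⟨fun _ h => h.1 rfl⟩

/-- `name` is a bijection of the vertices of `G` to the elements of `L`, and the adjacency is
given by `R` -/
structure Named {W T : Type} (G : SimpleGraph W) (L : List T) (R : T → T → Bool)
    (name : W → T) : Prop where
  nodup : L.Nodup
  inj : Function.Injective name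
  mem : ∀ w, name w ∈ L
  surj : ∀ x ∈ L, ∃ w, name w = x
  adj : ∀ u v, G.Adj u v ↔ u ≠ v ∧ (R (name u) (name v) = true ∨ R (name v) (name u) = true)

/-! ### The names -/

/-- names of the vertices of `(dat I).gam`: `(i, j, κ)` for the stages, `(l, 0, 10)` for the clauses -/
abbrev NS := ℕ × ℕ × ℕ

/-- names of the vertices of the reduction graphs: kind, copy, and two names of vertices -/
abbrev NR := ℕ × ℕ × NS × NS

/-- the names of the vertices of `(dat I).gam`, `m` clauses -/
def vsN (m : ℕ) : List NS :=
  (List.range (3 * m)).flatMap (fun i => (List.range (6 * m)).flatMap (fun j =>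
    (List.range 10).map (fun κ => (i, j, κ)))) ++ (List.range m).map (fun l => (l, 0, 10))

section

variable {ν : Type} [DecidableEq ν] [Inhabited ν]

/-- arc from the clause vertex `l` to `(i, j, 4)` for the literal `h` -/
def clN (I : List (Trip ν)) (l i j : ℕ) (h : Fin 3) : Bool :=
  decide (j = 2 * (3 * l + h.val) + (if (ltr I l h).2 then 1 else 0)) &&
    (decide (i < (flt I).length) && (decide ((flt I)[i]?.getD default = (ltr I l h).1) &&
      (List.range i).all (fun i' => !decide ((flt I)[i']?.getD default = (ltr I l h).1))))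

/-- the arcs between names -/
def edN (I : List (Trip ν)) (p q : NS) : Bool :=
  (decide (p.1 = q.1) && ((decide (p.2.1 = q.2.1) && arcE p.2.2 q.2.2) ||
    (decide (q.2.1 = p.2.1 + 1) && (decide (p.2.2 = 8) && decide (q.2.2 = 0))))) ||
  (decide (p.2.2 = 10) && (decide (q.2.2 = 4) &&
    (clN I p.1 q.1 q.2.1 0 || (clN I p.1 q.1 q.2.1 1 || clN I p.1 q.1 q.2.1 2))))

/-- the ports -/
def ptN (p q : NS) : Bool :=
  decide (p.2.2 = 10) || (decide (p.2.1 = q.2.1) && arcP p.2.2 q.2.2)

/-- the empty name -/
def z3 : NS := (0, 0, 0)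

/-- vertices of the graph for two bends -/
def L2 (M : ℕ) (I : List (Trip ν)) : List NR :=
  (List.range 8).map (fun h => (0, h, z3, z3)) ++
  (List.range M).flatMap (fun a => (vsN I.length).map (fun p => (1, a, p, z3)))

/-- generating relation of the graph for two bends -/
def R2 (I : List (Trip ν)) (x y : NR) : Bool :=
  (decide (x.1 = 0) && decide (y.1 = 1)) ||
  (decide (x.1 = 1) && (decide (y.1 = 1) && (decide (x.2.1 = y.2.1) && edN I x.2.2.1 y.2.2.1)))

/-- vertices of the graph for one bend -/
def L1 (M : ℕ) (I : List (Trip ν)) : List NR :=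
  (List.range 4).map (fun h => (0, h, z3, z3)) ++
  ((List.range M).flatMap (fun a => (vsN I.length).flatMap (fun p =>
    (List.range 2).map (fun b => (1, a, p, (b, 0, 0))))) ++
  (List.range M).flatMap (fun a => (vsN I.length).flatMap (fun p =>
    (vsN I.length).flatMap (fun q => if edN I p q then [(2, a, p, q)] else []))))

/-- generating relation of the graph for one bend -/
def R1 (x y : NR) : Bool :=
  (decide (x.1 = 0) && decide (y.1 = 1)) ||
  ((decide (x.1 = 1) && (decide (y.1 = 1) && (decide (x.2.1 = y.2.1) &&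
    (decide (x.2.2.1 = y.2.2.1) && (decide (x.2.2.2.1 = 0) && decide (y.2.2.2.1 = 1)))))) ||
  (decide (x.1 = 2) && (decide (y.1 = 1) && (decide (x.2.1 = y.2.1) &&
    (decide (y.2.2.1 = x.2.2.1) || (decide (y.2.2.1 = x.2.2.2) &&
      decide (y.2.2.2.1 = if ptN x.2.2.1 x.2.2.2 then 1 else 0)))))))

end

/-- the name of a vertex of the digraph -/
def nmS (D : Dat) : VS D → NS
  | .inl v => (v.1.val, v.2.1.val, v.2.2.val)
  | .inr l => (l.val, 0, 10)

/-- the name of a vertex of the graph for two bends -/
def nm2 (D : Dat) (M : ℕ) : V2 (Fin M × VS D) → NR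
  | .inl h => (0, h.val, z3, z3)
  | .inr v => (1, v.1.val, nmS D v.2, z3)

/-- the name of a vertex of the graph for one bend -/
def nm1 (D : Dat) (M : ℕ) : V1 (D.gam.copies M) → NR
  | .inl h => (0, h.val, z3, z3)
  | .inr (.inl v) => (1, v.1.1.val, nmS D v.1.2, (if v.2 then 1 else 0, 0, 0))
  | .inr (.inr e) => (2, e.1.1.1.val, nmS D e.1.1.2, nmS D e.1.2.2)

end Pool.Agent.RAC
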