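import Pool.Agent.Lib_MP_638f75_lc.RDefs

/-!
# Block R: computability in polynomial time (piece RFP)

HOW TO: combinators `FP.and`, `FP.or`, `FP.not`, `FP.natEq`, `FP.natLt`, `FP.add`, `FP.mulConst`,
`FP.range`, `FP.flatMapE`, `FP.mapE`, `FP.appendE`, `FP.getE`, `FP.lengthE`, `FP.ite`, `FP.pair`,
`FP.comp`, `FP.fst`, `FP.snd`, `FP.const` of `Lib_MP_42fe4d_lc/TM`, `fp_lit3`, `fp_any`, `FP.eqR`
(equality of elements of a type with an injective representation) of `Lib_MP_8cd8c6_lc/Nae.lean` and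
`fp_allE` of `Lib_MP_8cd8c6_lc/Complete.lean`; examples in the same files (`fp_relB`, `fp_vertsD`,
`fp_check`). `arcE a b` is a finite disjunction (`fp_any` over `arcT`, or unfold).
-/

namespace Pool.Agent.RAC

open Pool.Agent.Lib_MP_8cd8c6_lc
open Pool.Agent.PartSep Pool.Agent.PartSep.TM Pool.Agent.PartSep.CL
open Pool.Agent.PartSep.TM.Rep

set_option synthInstance.maxSize 2000

variable {E : Type} [Rep E]

theorem fp_arcE {a b : E → ℕ} (ha : FP a) (hb : FP b) : FP (fun x => arcE (a x) (b x)) := by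
  unfold arcE
  refine fp_any (E := E) arcT (g := fun e x => e.1 == a x && e.2.1 == b x) (fun e => ?_)
  exact (FP.and (FP.natEq (FP.const e.1) ha) (FP.natEq (FP.const e.2.1) hb)).congr
    (fun x => by simp only [beq_eq_decide])

theorem fp_arcP {a b : E → ℕ} (ha : FP a) (hb : FP b) : FP (fun x => arcP (a x) (b x)) := by
  unfold arcP
  refine fp_any (E := E) arcT (g := fun e x => e.1 == a x && e.2.1 == b x && e.2.2) (fun e => ?_)
  exact (FP.and (FP.and (FP.natEq (FP.const e.1) ha) (FP.natEq (FP.const e.2.1) hb))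
    (FP.const e.2.2)).congr (fun x => by simp only [beq_eq_decide])

theorem fp_ltr {I : E → List (Trip (NV Name))} (hI : FP I) {l : E → ℕ} (hl : FP l) (h : Fin 3) :
    FP (fun x => ltr (I x) (l x) h) := by
  unfold ltr
  exact fp_lit3 (FP.getE hI hl _) h

theorem fp_flt {I : E → List (Trip (NV Name))} (hI : FP I) : FP (fun x => flt (I x)) := by
  unfold flt
  refine FP.flatMapE hI (g := fun y : E × Trip (NV Name) => [y.2.1.1, y.2.2.1.1, y.2.2.2.1]) ?_
  have h : FP (fun y : E × Trip (NV Name) => y.2) := FP.snd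
  exact FP.consE (FP.comp FP.fst (FP.comp FP.fst h)) (FP.consE
    (FP.comp FP.fst (FP.comp FP.fst (FP.comp FP.snd h))) (FP.consE
    (FP.comp FP.fst (FP.comp FP.snd (FP.comp FP.snd h))) (FP.const [])))

theorem fp_vsN {m : E → ℕ} (hm : FP m) : FP (fun x => vsN (m x)) := by
  unfold vsN
  refine FP.appendE ?_ ?_
  · refine FP.flatMapE (FP.range (FP.mulConst hm 3)) (g := fun y : E × ℕ =>
      (List.range (6 * m y.1)).flatMap (fun j => (List.range 10).map (fun κ => (y.2, j, κ)))) ?_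
    refine FP.flatMapE (FP.range (FP.mulConst (FP.comp hm FP.fst) 6)) (g := fun z : (E × ℕ) × ℕ =>
      (List.range 10).map (fun κ => (z.1.2, z.2, κ))) ?_
    exact mapConst _ (fun κ => FP.pair (FP.comp FP.snd FP.fst) (FP.pair FP.snd (FP.const κ)))
  · exact FP.mapE (FP.range hm) (g := fun y : E × ℕ => ((y.2, 0, 10) : NS))
      (FP.pair FP.snd (FP.const _))

theorem fp_clN {I : E → List (Trip (NV Name))} (hI : FP I) {l i j : E → ℕ} (hl : FP l)
    (hi : FP i) (hj : FP j) (h : Fin 3) : FP (fun x => clN (I x) (l x) (i x) (j x) h) := by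
  unfold clN
  have hL := fp_ltr hI hl h
  have hF := fp_flt hI
  refine FP.and (FP.natEq hj (FP.add (FP.mulConst (FP.add (FP.mulConst hl 3) (FP.const h.val)) 2)
    (FP.ite (FP.comp FP.snd hL) (FP.const 1) (FP.const 0)))) (FP.and
    (FP.natLt hi (FP.lengthE hF)) (FP.and (FP.eqR (FP.getE hF hi _) (FP.comp FP.fst hL)) ?_))
  refine fp_allE (FP.range hi) (p := fun y : E × ℕ =>
    !decide ((flt (I y.1))[y.2]?.getD default = (ltr (I y.1) (l y.1) h).1)) ?_
  exact FP.not (FP.eqR (FP.getE (FP.comp hF FP.fst) FP.snd _)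
    (FP.comp FP.fst (FP.comp hL FP.fst)))

theorem fp_edN {I : E → List (Trip (NV Name))} (hI : FP I) {p q : E → NS} (hp : FP p)
    (hq : FP q) : FP (fun x => edN (I x) (p x) (q x)) := by
  unfold edN
  have p1 := FP.comp FP.fst hp
  have p2 := FP.comp FP.fst (FP.comp FP.snd hp)
  have p3 := FP.comp FP.snd (FP.comp FP.snd hp)
  have q1 := FP.comp FP.fst hq
  have q2 := FP.comp FP.fst (FP.comp FP.snd hq)
  have q3 := FP.comp FP.snd (FP.comp FP.snd hq)
  exact FP.or (FP.and (FP.natEq p1 q1) (FP.or (FP.and (FP.natEq p2 q2) (fp_arcE p3 q3))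
    (FP.and (FP.natEq q2 (FP.add p2 (FP.const 1))) (FP.and (FP.natEq p3 (FP.const 8))
      (FP.natEq q3 (FP.const 0)))))) (FP.and (FP.natEq p3 (FP.const 10)) (FP.and
    (FP.natEq q3 (FP.const 4)) (FP.or (fp_clN hI p1 q1 q2 0) (FP.or (fp_clN hI p1 q1 q2 1)
      (fp_clN hI p1 q1 q2 2)))))

theorem fp_ptN {p q : E → NS} (hp : FP p) (hq : FP q) : FP (fun x => ptN (p x) (q x)) := by
  unfold ptN
  have p2 := FP.comp FP.fst (FP.comp FP.snd hp)
  have p3 := FP.comp FP.snd (FP.comp FP.snd hp)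
  have q2 := FP.comp FP.fst (FP.comp FP.snd hq)
  have q3 := FP.comp FP.snd (FP.comp FP.snd hq)
  exact FP.or (FP.natEq p3 (FP.const 10)) (FP.and (FP.natEq p2 q2) (fp_arcP p3 q3))

theorem fp_L2 (M : ℕ) {I : E → List (Trip (NV Name))} (hI : FP I) : FP (fun x => L2 M (I x)) := by
  unfold L2
  refine FP.appendE (FP.const _) ?_
  refine FP.flatMapE (FP.const (List.range M)) (g := fun y : E × ℕ =>
    (vsN (I y.1).length).map (fun p => ((1, y.2, p, z3) : NR))) ?_
  exact FP.mapE (fp_vsN (FP.lengthE (FP.comp hI FP.fst))) (g := fun z : (E × ℕ) × NS =>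
    ((1, z.1.2, z.2, z3) : NR)) (FP.pair (FP.const _) (FP.pair (FP.comp FP.snd FP.fst)
      (FP.pair FP.snd (FP.const _))))

theorem fp_L1 (M : ℕ) {I : E → List (Trip (NV Name))} (hI : FP I) : FP (fun x => L1 M (I x)) := by
  unfold L1
  refine FP.appendE (FP.const _) (FP.appendE ?_ ?_)
  · refine FP.flatMapE (FP.const (List.range M)) (g := fun y : E × ℕ =>
      (vsN (I y.1).length).flatMap (fun p =>
        (List.range 2).map (fun b => ((1, y.2, p, (b, 0, 0)) : NR)))) ?_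
    refine FP.flatMapE (fp_vsN (FP.lengthE (FP.comp hI FP.fst))) (g := fun z : (E × ℕ) × NS =>
      (List.range 2).map (fun b => ((1, z.1.2, z.2, (b, 0, 0)) : NR))) ?_
    exact mapConst _ (fun b => FP.pair (FP.const _) (FP.pair (FP.comp FP.snd FP.fst)
      (FP.pair FP.snd (FP.const _))))
  · refine FP.flatMapE (FP.const (List.range M)) (g := fun y : E × ℕ =>
      (vsN (I y.1).length).flatMap (fun p => (vsN (I y.1).length).flatMap (fun q =>
        if edN (I y.1) p q then [((2, y.2, p, q) : NR)] else []))) ?_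
    refine FP.flatMapE (fp_vsN (FP.lengthE (FP.comp hI FP.fst))) (g := fun z : (E × ℕ) × NS =>
      (vsN (I z.1.1).length).flatMap (fun q =>
        if edN (I z.1.1) z.2 q then [((2, z.1.2, z.2, q) : NR)] else [])) ?_
    have h1 : FP (fun z : (E × ℕ) × NS => I z.1.1) := FP.comp hI (FP.comp FP.fst FP.fst)
    refine FP.flatMapE (fp_vsN (FP.lengthE h1)) (g := fun w : ((E × ℕ) × NS) × NS =>
        if edN (I w.1.1.1) w.1.2 w.2 then [((2, w.1.1.2, w.1.2, w.2) : NR)] else []) ?_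
    have k1 : FP (fun w : ((E × ℕ) × NS) × NS => w.1.2) := FP.comp FP.snd FP.fst
    have k2 : FP (fun w : ((E × ℕ) × NS) × NS => w.2) := FP.snd
    have k3 : FP (fun w : ((E × ℕ) × NS) × NS => w.1.1.2) :=
      FP.comp FP.snd (FP.comp FP.fst FP.fst)
    exact FP.ite (fp_edN (FP.comp h1 FP.fst) k1 k2) (FP.consE (FP.pair (FP.const _)
      (FP.pair k3 (FP.pair k1 k2))) (FP.const [])) (FP.const [])

theorem fp_R2 {I : E → List (Trip (NV Name))} (hI : FP I) {x y : E → NR} (hx : FP x)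
    (hy : FP y) : FP (fun z => R2 (I z) (x z) (y z)) := by
  unfold R2
  have x1 := FP.comp FP.fst hx
  have x2 := FP.comp FP.fst (FP.comp FP.snd hx)
  have x3 := FP.comp FP.fst (FP.comp FP.snd (FP.comp FP.snd hx))
  have y1 := FP.comp FP.fst hy
  have y2 := FP.comp FP.fst (FP.comp FP.snd hy)
  have y3 := FP.comp FP.fst (FP.comp FP.snd (FP.comp FP.snd hy))
  exact FP.or (FP.and (FP.natEq x1 (FP.const 0)) (FP.natEq y1 (FP.const 1))) (FP.and
    (FP.natEq x1 (FP.const 1)) (FP.and (FP.natEq y1 (FP.const 1)) (FP.and (FP.natEq x2 y2)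
      (fp_edN hI x3 y3))))

theorem fp_R1 {x y : E → NR} (hx : FP x) (hy : FP y) : FP (fun z => R1 (x z) (y z)) := by
  unfold R1
  have x1 := FP.comp FP.fst hx
  have x2 := FP.comp FP.fst (FP.comp FP.snd hx)
  have x3 := FP.comp FP.fst (FP.comp FP.snd (FP.comp FP.snd hx))
  have x4 := FP.comp FP.snd (FP.comp FP.snd (FP.comp FP.snd hx))
  have y1 := FP.comp FP.fst hy
  have y2 := FP.comp FP.fst (FP.comp FP.snd hy)
  have y3 := FP.comp FP.fst (FP.comp FP.snd (FP.comp FP.snd hy))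
  have y4 := FP.comp FP.snd (FP.comp FP.snd (FP.comp FP.snd hy))
  exact FP.or (FP.and (FP.natEq x1 (FP.const 0)) (FP.natEq y1 (FP.const 1))) (FP.or (FP.and
    (FP.natEq x1 (FP.const 1)) (FP.and (FP.natEq y1 (FP.const 1)) (FP.and (FP.natEq x2 y2)
      (FP.and (FP.eqR x3 y3) (FP.and (FP.natEq (FP.comp FP.fst x4) (FP.const 0))
        (FP.natEq (FP.comp FP.fst y4) (FP.const 1))))))) (FP.and (FP.natEq x1 (FP.const 2))
    (FP.and (FP.natEq y1 (FP.const 1)) (FP.and (FP.natEq x2 y2) (FP.or (FP.eqR y3 x3) (FP.and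
      (FP.eqR y3 x4) (FP.natEq (FP.comp FP.fst y4) (FP.ite (fp_ptN x3 x4) (FP.const 1)
        (FP.const 0)))))))))

end Pool.Agent.RAC
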