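import Pool.Agent.Lib_MP_638f75_lc.RDefs

/-!
# Block R: satisfiability (piece RSAT)

PAPER PROOF. `flt I` has length `3 * I.length`, and its element with number `3 l + h` is
`(ltr I l h).1` (`flt_length`, `flt_get`). So `(ltr I l h).1 ∈ flt I`, and
`((dat I).idx l h).val = (flt I).idxOf (ltr I l h).1` (`dat_idx`), as `idxOf` is smaller than the
length (`List.idxOf_lt_length_iff`). Literals with the same variable have the same index, and
`(flt I)[idxOf v] = v` (`List.getElem_idxOf`).
`dat_sat`, from left to right: `a v := X ⟨idxOf v, _⟩` if `idxOf v < 3 * I.length`, else `false`.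
From right to left: `X i := a ((flt I)[i]?.getD default)`.
For a clause `c ∈ I`, `I[l]? = some c`, the literals `c.1`, `c.2.1`, `c.2.2` are `ltr I l 0`,
`ltr I l 1`, `ltr I l 2`.
-/

namespace Pool.Agent.RAC

open Pool.Agent.Lib_MP_8cd8c6_lc

variable {ν : Type} [DecidableEq ν] [Inhabited ν]

private theorem rsat_flt_cons (c : Trip ν) (I : List (Trip ν)) :
    flt (c :: I) = c.1.1 :: c.2.1.1 :: c.2.2.1 :: flt I := rfl

theorem flt_length (I : List (Trip ν)) : (flt I).length = 3 * I.length := by
  induction I with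
  | nil => rfl
  | cons c I ih =>
    rw [rsat_flt_cons, List.length_cons, List.length_cons, List.length_cons, List.length_cons, ih]
    ring

private theorem rsat_get : ∀ (I : List (Trip ν)) (l : ℕ) (h : Fin 3), l < I.length →
    (flt I)[3 * l + h.val]? = some (ltr I l h).1 := by
  intro I
  induction I with
  | nil => intro l h hl; exact absurd hl (by simp)
  | cons c I ih =>
    intro l h hl
    rw [rsat_flt_cons]
    cases l with
    | zero =>
      fin_cases h <;> simp [ltr, lit3]
    | succ l =>
      have e : 3 * (l + 1) + h.val = (3 * l + h.val) + 1 + 1 + 1 := by ring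
      rw [e, List.getElem?_cons_succ, List.getElem?_cons_succ, List.getElem?_cons_succ,
        ih l h (by simpa using hl)]
      simp [ltr]

theorem flt_get (I : List (Trip ν)) (l : Fin I.length) (h : Fin 3) :
    (flt I)[3 * l.val + h.val]? = some (ltr I l.val h).1 :=
  rsat_get I l.val h l.2

private theorem rsat_mem (I : List (Trip ν)) (l : Fin I.length) (h : Fin 3) :
    (ltr I l.val h).1 ∈ flt I :=
  List.mem_of_getElem? (flt_get I l h)

theorem dat_idx (I : List (Trip ν)) (l : Fin I.length) (h : Fin 3) :
    ((dat I).idx l h).val = (flt I).idxOf (ltr I l.val h).1 := by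
  have h1 : (flt I).idxOf (ltr I l.val h).1 < (flt I).length :=
    List.idxOf_lt_length_iff.2 (rsat_mem I l h)
  rw [flt_length] at h1
  show min ((flt I).idxOf (ltr I l.val h).1) (3 * I.length - 1) = _
  omega

private theorem rsat_lit (I : List (Trip ν)) (l : ℕ) (c : Trip ν) (hc : I[l]? = some c) (h : Fin 3) :
    ltr I l h = lit3 c h := by
  unfold ltr
  rw [hc]
  rfl

theorem dat_sat (I : List (Trip ν)) : (dat I).Sat ↔ NSat I := by
  constructor
  · rintro ⟨X, hX⟩
    refine ⟨fun v => if hv : (flt I).idxOf v < 3 * I.length then X ⟨(flt I).idxOf v, hv⟩ else false, ?_⟩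
    intro c hc
    obtain ⟨l, hl, hlc⟩ := List.mem_iff_getElem.1 hc
    have hlc' : I[l]? = some c := by rw [List.getElem?_eq_getElem hl, hlc]
    have key : ∀ h : Fin 3, xor (X ((dat I).idx ⟨l, hl⟩ h)) ((dat I).sg ⟨l, hl⟩ h) =
        lv (fun v => if hv : (flt I).idxOf v < 3 * I.length then X ⟨(flt I).idxOf v, hv⟩ else false)
          (lit3 c h) := by
      intro h
      have h1 : (flt I).idxOf (ltr I l h).1 < 3 * I.length := by
        rw [← flt_length]
        exact List.idxOf_lt_length_iff.2 (rsat_mem I ⟨l, hl⟩ h)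
      have h2 : (dat I).idx ⟨l, hl⟩ h = ⟨(flt I).idxOf (ltr I l h).1, h1⟩ :=
        Fin.ext (dat_idx I ⟨l, hl⟩ h)
      rw [← rsat_lit I l c hlc' h]
      unfold lv
      have h3 : (fun v => if hv : (flt I).idxOf v < 3 * I.length then X ⟨(flt I).idxOf v, hv⟩ else false)
          (ltr I l h).1 = X ((dat I).idx ⟨l, hl⟩ h) := by
        rw [h2]
        exact dif_pos h1
      rw [h3]
      rfl
    obtain ⟨h, h', hne⟩ := hX ⟨l, hl⟩
    rw [key, key] at hne
    fin_cases h <;> fin_cases h' <;> simp only [lit3] at hne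
    · exact absurd rfl hne
    · exact Or.inl hne
    · exact Or.inr (Or.inl hne)
    · exact Or.inl (Ne.symm hne)
    · exact absurd rfl hne
    · exact Or.inr (Or.inr hne)
    · exact Or.inr (Or.inl (Ne.symm hne))
    · exact Or.inr (Or.inr (Ne.symm hne))
    · exact absurd rfl hne
  · rintro ⟨a, ha⟩
    refine ⟨fun i => a ((flt I)[i.val]?.getD default), ?_⟩
    intro l
    have hlc' : I[l.val]? = some (I[l.val]'l.2) := List.getElem?_eq_getElem l.2
    have key : ∀ h : Fin 3, xor (a ((flt I)[((dat I).idx l h).val]?.getD default)) ((dat I).sg l h) =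
        lv a (lit3 (I[l.val]'l.2) h) := by
      intro h
      rw [dat_idx I l h, List.getElem?_idxOf (rsat_mem I l h), ← rsat_lit I l.val _ hlc' h]
      rfl
    have hc := ha (I[l.val]'l.2) (List.getElem_mem l.2)
    rcases hc with hc | hc | hc
    · refine ⟨0, 1, ?_⟩
      rw [key, key]
      exact hc
    · refine ⟨0, 2, ?_⟩
      rw [key, key]
      exact hc
    · refine ⟨1, 2, ?_⟩
      rw [key, key]
      exact hc

end Pool.Agent.RAC
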