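import Mathlib

/-!
# MP_638f75_lc: right-angle-crossing drawings with few bends: the plane
-/

namespace Pool.Agent.RAC

/-- points of the plane -/
abbrev Pt := ℝ × ℝ

/-- scalar product -/
def dot (a b : Pt) : ℝ := a.1 * b.1 + a.2 * b.2

/-- cross product -/
def crs (a b : Pt) : ℝ := a.1 * b.2 - a.2 * b.1

/-- rotation by 90 degrees counterclockwise -/
def J (a : Pt) : Pt := (-a.2, a.1)

/-- `s` and `t` (closed straight segments) are disjoint or cross at a right angle in a point which
is interior to both. -/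
def Ok (s t : Pt × Pt) : Prop :=
  ∀ z, z ∈ segment ℝ s.1 s.2 → z ∈ segment ℝ t.1 t.2 →
    z ∈ openSegment ℝ s.1 s.2 ∧ z ∈ openSegment ℝ t.1 t.2 ∧ dot (s.2 - s.1) (t.2 - t.1) = 0

/-- `s` and `t` cross (in a point which is interior to both) -/
def Xx (s t : Pt × Pt) : Prop :=
  ∃ z, z ∈ openSegment ℝ s.1 s.2 ∧ z ∈ openSegment ℝ t.1 t.2

open Classical in
/-- the number of crossings of two segments, modulo 2 -/
noncomputable def cr (s t : Pt × Pt) : ZMod 2 := if Xx s t then 1 else 0

/-- the segments of a polygonal chain -/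
def segs (c : List Pt) : List (Pt × Pt) := c.zip c.tail

/-- `z` lies on the polygonal chain `c` -/
def OnChain (c : List Pt) (z : Pt) : Prop := ∃ s ∈ segs c, z ∈ segment ℝ s.1 s.2

/-- the polygonal chain `c` does not cross or touch itself -/
def SimpleChain (c : List Pt) : Prop :=
  ∀ i j : ℕ, ∀ s t : Pt × Pt, i < j → (segs c)[i]? = some s → (segs c)[j]? = some t →
    ∀ z, z ∈ segment ℝ s.1 s.2 → z ∈ segment ℝ t.1 t.2 → j = i + 1 ∧ z = s.2

end Pool.Agent.RAC
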