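import Pool.Agent.Lib_MP_638f75_lc.D1Glob

/-!
# Block D1: the legs
-/

namespace Pool.Agent.RAC
namespace D1
theorem f4 (i : Fin 4) : i = 0 ∨ i = 1 ∨ i = 2 ∨ i = 3 := by
  revert i; decide

namespace Dat

variable {V : Type*} {Γ : Gam V} (D : Dat Γ)

/-- bounds for the labels -/
theorem lbd (v : V) (l : Bool) : 32 ≤ (D.P v (lab l)).1 ∧ (D.P v (lab l)).1 < D.R ∧
    32 ≤ (D.P v (lab l)).2 ∧ (D.P v (lab l)).2 < D.R := by
  have e5 := D.lx v l
  have e6 := D.ly v l
  have hx0 := D.X0 v
  have hx1 := D.Xn v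
  have hy0 := D.Y0 v
  have hy1 := D.Yn v
  simp only [x, y, R] at e5 e6 ⊢
  omega

/-- straight parts of two legs -/
theorem okH {v w : V} {l m : Bool} {i j : Fin 4} (h : (v, l) ≠ (w, m) ∨ i ≠ j) :
    D.Ok (.ray v l i) (.ray w m j) := by
  have b1 := D.lbd v l
  have b2 := D.lbd w m
  by_cases hvw : (v, l) = (w, m)
  · have hij : i ≠ j := by
      rcases h with h | h
      · exact absurd hvw h
      · exact h
    obtain ⟨rfl, rfl⟩ := Prod.mk.injEq _ _ _ _ ▸ hvw
    refine cEss (D.lab_mem v l) ?_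
    rcases f4 i with rfl | rfl | rfl | rfl <;> rcases f4 j with rfl | rfl | rfl | rfl <;> first | exact absurd rfl hij | skip
    all_goals first
      | (refine dirH ?_; simp only [ev, wall, hub, true_and]; omega)
      | (refine dirV ?_; simp only [ev, wall, hub, true_and]; omega)
      | (refine dirO ?_; simp only [ev, wall, hub, true_and]; omega)
      | (refine dirO' ?_; simp only [ev, wall, hub, true_and]; omega)
  · have e1 := D.lxne hvw
    have e2 := D.lyne hvw
    rcases f4 i with rfl | rfl | rfl | rfl <;> rcases f4 j with rfl | rfl | rfl | rfl 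
    all_goals first
      | (refine gYY ?_; simp only [ev, wall, hub, true_and]; omega)
      | (refine gXX ?_; simp only [ev, wall, hub, true_and]; omega)
      | (refine gHV ?_; simp only [ev, wall, hub, true_and]; omega)
      | (refine gVH ?_; simp only [ev, wall, hub, true_and]; omega)

/-- straight part and slanted part -/
theorem okI1 {v w : V} {l m : Bool} {i j : Fin 4} (h : (v, l) ≠ (w, m) ∨ i ≠ j) :
    D.Ok (.ray v l i) (.sl w m j) := by
  have b1 := D.lbd v l
  have b2 := D.lbd w m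
  by_cases hij : i = j
  · have hvw : (v, l) ≠ (w, m) := by
      rcases h with h | h
      · exact h
      · exact absurd hij h
    have e1 := D.lxne hvw
    have e2 := D.lyne hvw
    subst hij
    rcases f4 i with rfl | rfl | rfl | rfl
    · (refine OkC.flip (gTX ?_); simp only [ev, wall, hub, true_and]; omega)
    · (refine OkC.flip (gTY ?_); simp only [ev, wall, hub, true_and]; omega)
    · (refine OkC.flip (gTX ?_); simp only [ev, wall, hub, true_and]; omega)
    · (refine OkC.flip (gTY ?_); simp only [ev, wall, hub, true_and]; omega)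
  · rcases f4 i with rfl | rfl | rfl | rfl <;> rcases f4 j with rfl | rfl | rfl | rfl <;> first | exact absurd rfl hij | skip
    all_goals first
      | (refine gSX ?_; simp only [ev, wall, hub, true_and]; omega)
      | (refine gSY ?_; simp only [ev, wall, hub, true_and]; omega)

/-- slanted parts -/
theorem okI2 {v w : V} {l m : Bool} {i j : Fin 4} (h : (v, l) ≠ (w, m) ∨ i ≠ j) :
    D.Ok (.sl v l i) (.sl w m j) := by
  have b1 := D.lbd v l
  have b2 := D.lbd w m
  by_cases hij : i = j
  · have hvw : (v, l) ≠ (w, m) := by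
      rcases h with h | h
      · exact h
      · exact absurd hij h
    have e1 := D.lxne hvw
    have e2 := D.lyne hvw
    subst hij
    refine cEee (D.hub_mem i) ?_
    rcases f4 i with rfl | rfl | rfl | rfl
    · (refine dirL' ?_; simp only [ev, wall, hub, true_and]; omega)
    · (refine dirL ?_; simp only [ev, wall, hub, true_and]; omega)
    · (refine dirL' ?_; simp only [ev, wall, hub, true_and]; omega)
    · (refine dirL ?_; simp only [ev, wall, hub, true_and]; omega)
  · rcases f4 i with rfl | rfl | rfl | rfl <;> rcases f4 j with rfl | rfl | rfl | rfl <;> first | exact absurd rfl hij | skip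
    all_goals first
      | (refine gSX ?_; simp only [ev, wall, hub, true_and]; omega)
      | (refine gSY ?_; simp only [ev, wall, hub, true_and]; omega)

/-- points inside the frame -/
def Inn (p : ℤ × ℤ) : Prop := 24 ≤ p.1 ∧ p.1 < D.R ∧ 24 ≤ p.2 ∧ p.2 < D.R

theorem inn_P (v : V) {p : ℤ × ℤ} (h : -8 ≤ p.1 ∧ p.1 ≤ 24) (h' : -8 ≤ p.2 ∧ p.2 ≤ 24) :
    D.Inn (D.P v p) := by
  have e1 := D.P1 v h
  have e2 := D.P2 v h'
  have hx0 := D.X0 v
  have hx1 := D.Xn v
  have hy0 := D.Y0 v
  have hy1 := D.Yn v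
  simp only [x, y, R, Inn] at e1 e2 ⊢
  omega

theorem inn_F (a : Ar Γ) : D.Inn (D.F a) := by
  refine D.inn_P _ ?_ ?_ <;> cases D.side a.1.1 a.1.2 <;> simp [Sd.fp]

theorem inn_G (a : Ar Γ) : D.Inn (D.G a) := by
  refine D.inn_P _ ?_ ?_ <;> cases D.side a.1.2 a.1.1 <;> simp [Sd.hb]

theorem inn_lab (v : V) (l : Bool) : D.Inn (D.P v (lab l)) := by
  refine D.inn_P _ ?_ ?_ <;> cases l <;> simp [lab]

theorem okI (v : V) (l : Bool) (i : Fin 4) {a b : ℤ × ℤ} (ha : D.Inn a) (hb : D.Inn b) :
    OkC D.C (cz (D.ev (.sl v l i : Sg Γ)).1, cz (D.ev (.sl v l i : Sg Γ)).2) (cz a, cz b) := by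
  have b1 := D.lbd v l
  obtain ⟨a1, a2, a3, a4⟩ := ha
  obtain ⟨c1, c2, c3, c4⟩ := hb
  rcases f4 i with rfl | rfl | rfl | rfl
  · (refine gSX ?_; simp only [ev, wall, hub, true_and]; omega)
  · (refine gSY ?_; simp only [ev, wall, hub, true_and]; omega)
  · (refine gSX ?_; simp only [ev, wall, hub, true_and]; omega)
  · (refine gSY ?_; simp only [ev, wall, hub, true_and]; omega)

/-- slanted part and local segment -/
theorem okI3 (v : V) (l : Bool) (i : Fin 4) (w : V) (K : Kd) : D.Ok (.sl v l i) (.loc w K) := by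
  obtain ⟨⟨b1, b2, b3, b4⟩, c1, c2, c3, c4⟩ := K.box
  exact D.okI v l i (D.inn_P w ⟨b1, b2⟩ ⟨b3, b4⟩) (D.inn_P w ⟨c1, c2⟩ ⟨c3, c4⟩)

/-- slanted part and channel -/
theorem okI4 (v : V) (l : Bool) (i : Fin 4) (a : Ar Γ) : D.Ok (.sl v l i) (.chan a) :=
  D.okI v l i (D.inn_F a) (D.inn_G a)

end Dat
end D1
end Pool.Agent.RAC
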