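import Pool.Agent.Lib_MP_638f75_lc.D1Pair
import Pool.Agent.Lib_MP_638f75_lc.D1Leg

/-!
# Block D1: assembly of the crossing conditions
-/

namespace Pool.Agent.RAC
namespace D1
namespace Dat

variable {V : Type*} {Γ : Gam V} (D : Dat Γ)

/-- different neighbours are on different sides -/
theorem side_inj {v w w' : V} (h : Γ.Nb v w) (h' : Γ.Nb v w') (e : D.side v w = D.side v w') :
    w = w' := by
  by_cases hc : D.c v w = true
  · have hc' : D.c v w' = true := by
      by_contra hcc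
      rw [Bool.not_eq_true] at hcc
      rcases D.sideH hc with h1 | h1 <;> rcases D.sideV hcc with h2 | h2 <;>
        rw [h1, h2] at e <;> exact absurd e (by decide)
    have k1 := D.cH _ _ h hc
    have k2 := D.cH _ _ h' hc'
    simp only [side, mkSd, hc, hc', if_true] at e
    have : decide (D.Y v < D.Y w) = decide (D.Y v < D.Y w') := by
      by_cases h1 : decide (D.Y v < D.Y w) = D.sy v <;>
        by_cases h2 : decide (D.Y v < D.Y w') = D.sy v
      · rw [h1, h2]
      · rw [if_pos h1, if_neg h2] at e; exact absurd e (by decide)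
      · rw [if_neg h1, if_pos h2] at e; exact absurd e (by decide)
      · cases h3 : decide (D.Y v < D.Y w) <;> cases h4 : decide (D.Y v < D.Y w') <;>
          cases h5 : D.sy v <;> simp_all
    rw [decide_eq_decide] at this
    apply D.Yinj
    by_cases h3 : D.Y v < D.Y w
    · have h4 := this.1 h3
      omega
    · have h4 : ¬ D.Y v < D.Y w' := fun h => h3 (this.2 h)
      omega
  · rw [Bool.not_eq_true] at hc
    have hc' : D.c v w' = false := by
      by_contra hcc
      rw [Bool.not_eq_false] at hcc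
      rcases D.sideV hc with h1 | h1 <;> rcases D.sideH hcc with h2 | h2 <;>
        rw [h1, h2] at e <;> exact absurd e (by decide)
    have k1 := D.cV _ _ h hc
    have k2 := D.cV _ _ h' hc'
    simp only [side, mkSd, hc, hc', Bool.false_eq_true, if_false] at e
    have : decide (D.X v < D.X w) = decide (D.X v < D.X w') := by
      by_cases h1 : decide (D.X v < D.X w) = D.sx v <;>
        by_cases h2 : decide (D.X v < D.X w') = D.sx v
      · rw [h1, h2]
      · rw [if_pos h1, if_neg h2] at e; exact absurd e (by decide)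
      · rw [if_neg h1, if_pos h2] at e; exact absurd e (by decide)
      · cases h3 : decide (D.X v < D.X w) <;> cases h4 : decide (D.X v < D.X w') <;>
          cases h5 : D.sx v <;> simp_all
    rw [decide_eq_decide] at this
    apply D.Xinj
    by_cases h3 : D.X v < D.X w
    · have h4 := this.1 h3
      omega
    · have h4 : ¬ D.X v < D.X w' := fun h => h3 (this.2 h)
      omega

/-- `u`, `w` are the ends of the arc `a` -/
def End (a : Ar Γ) (u w : V) : Prop := (a.1.1 = u ∧ a.1.2 = w) ∨ (a.1.1 = w ∧ a.1.2 = u)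

theorem End.nb {a : Ar Γ} {u w : V} (h : End a u w) : Γ.Nb u w := by
  rcases h with ⟨rfl, rfl⟩ | ⟨rfl, rfl⟩
  · exact .inl a.2
  · exact .inr a.2

theorem End.uniq {a b : Ar Γ} {u w : V} (h : End a u w) (h' : End b u w) : a = b := by
  rcases h with ⟨rfl, rfl⟩ | ⟨rfl, rfl⟩ <;> rcases h' with ⟨h1, h2⟩ | ⟨h1, h2⟩
  · exact Subtype.ext (Prod.ext h1.symm h2.symm)
  · exact absurd a.2 (by rw [← h1, ← h2]; exact Γ.asym _ _ b.2)
  · exact absurd a.2 (by rw [← h1, ← h2]; exact Γ.asym _ _ b.2)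
  · exact Subtype.ext (Prod.ext h1.symm h2.symm)

theorem side_ne {a b : Ar Γ} (hab : a ≠ b) {u w w' : V} (h : End a u w) (h' : End b u w') :
    D.side u w ≠ D.side u w' := by
  intro e
  have := D.side_inj h.nb h'.nb e
  subst this
  exact hab (h.uniq h')

/-- `K` at `u` is a local segment of the arc `a` -/
def LocOf (a : Ar Γ) (u : V) (K : Kd) : Prop := ∃ w, End a u w ∧ K.side = some (D.side u w)

theorem ok_ray_loc (v : V) (l : Bool) (i : Fin 4) (w : V) (K : Kd) :
    D.Ok (.ray v l i) (.loc w K) := by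
  by_cases h : v = w
  · subst h; exact D.okE v l i K
  · exact D.okF h l i K

theorem ok_dir_loc {a : Ar Γ} {v w : V} {K : Kd} (h : D.LocOf a w K) :
    D.Ok (.loc v .dir) (.loc w K) := by
  by_cases hv : v = w
  · subst hv
    obtain ⟨u, -, h⟩ := h
    refine D.okA _ _ _ ?_
    rw [h]
    exact fun h => nomatch h
  · exact D.okB hv _ _

theorem ok_loc_loc {a b : Ar Γ} (hab : a ≠ b) {v w : V} {K K' : Kd} (h : D.LocOf a v K)
    (h' : D.LocOf b w K') : D.Ok (.loc v K) (.loc w K') := by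
  by_cases hv : v = w
  · subst hv
    obtain ⟨u, h1, h2⟩ := h
    obtain ⟨u', h1', h2'⟩ := h'
    refine D.okA _ _ _ ?_
    rw [h2, h2']
    intro e
    exact D.side_ne hab h1 h1' (Option.some.inj e)
  · exact D.okB hv _ _

theorem ok_chan_loc {a b : Ar Γ} (hab : a ≠ b) {w : V} {K : Kd} (h : D.LocOf b w K) :
    D.Ok (.chan a) (.loc w K) := by
  obtain ⟨u, h1, h2⟩ := h
  refine D.okC a w K ?_ ?_
  · rintro rfl
    rw [h2]
    intro e
    exact D.side_ne hab (.inl ⟨rfl, rfl⟩) h1 (Option.some.inj e).symm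
  · rintro rfl
    rw [h2]
    intro e
    exact D.side_ne hab (.inr ⟨rfl, rfl⟩) h1 (Option.some.inj e).symm

theorem ok_chan_dir (a : Ar Γ) (v : V) : D.Ok (.chan a) (.loc v .dir) :=
  D.okC a v _ (fun _ h => nomatch h) (fun _ h => nomatch h)

/-- all segments of the arc `a` -/
inductive SOf (a : Ar Γ) : Sg Γ → Prop
  | near : SOf a (.loc a.1.1 (.near (D.side a.1.1 a.1.2)))
  | far1 : SOf a (.loc a.1.1 (.far1 (D.side a.1.1 a.1.2)))
  | far2 : SOf a (.loc a.1.1 (.far2 (D.side a.1.1 a.1.2)))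
  | chan : SOf a (.chan a)
  | hd : SOf a (.loc a.1.2 (.hd (D.side a.1.2 a.1.1)))

theorem sof_cases {a : Ar Γ} {s : Sg Γ} (h : D.SOf a s) :
    s = .chan a ∨ ∃ w K, s = .loc w K ∧ D.LocOf a w K := by
  cases h
  · exact .inr ⟨_, _, rfl, _, .inl ⟨rfl, rfl⟩, rfl⟩
  · exact .inr ⟨_, _, rfl, _, .inl ⟨rfl, rfl⟩, rfl⟩
  · exact .inr ⟨_, _, rfl, _, .inl ⟨rfl, rfl⟩, rfl⟩
  · exact .inl rfl
  · exact .inr ⟨_, _, rfl, _, .inr ⟨rfl, rfl⟩, rfl⟩

theorem ok_arc_arc {a b : Ar Γ} (hab : a ≠ b) {s t : Sg Γ} (hs : D.SOf a s) (ht : D.SOf b t) :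
    D.Ok s t := by
  rcases D.sof_cases hs with rfl | ⟨v, K, rfl, h⟩ <;>
    rcases D.sof_cases ht with rfl | ⟨w, K', rfl, h'⟩
  · exact D.okD hab
  · exact D.ok_chan_loc hab h'
  · exact (D.ok_chan_loc hab.symm h).symm
  · exact D.ok_loc_loc hab h h'

theorem ok_ray_arc {a : Ar Γ} {s : Sg Γ} (hs : D.SOf a s) (v : V) (l : Bool) (i : Fin 4) :
    D.Ok (.ray v l i) s := by
  rcases D.sof_cases hs with rfl | ⟨w, K, rfl, h⟩
  · exact D.okG v l i a
  · exact D.ok_ray_loc v l i w K

theorem ok_sl_arc {a : Ar Γ} {s : Sg Γ} (hs : D.SOf a s) (v : V) (l : Bool) (i : Fin 4) :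
    D.Ok (.sl v l i) s := by
  rcases D.sof_cases hs with rfl | ⟨w, K, rfl, h⟩
  · exact D.okI4 v l i a
  · exact D.okI3 v l i w K

theorem ok_dir_arc {a : Ar Γ} {s : Sg Γ} (hs : D.SOf a s) (v : V) :
    D.Ok (.loc v .dir) s := by
  rcases D.sof_cases hs with rfl | ⟨w, K, rfl, h⟩
  · exact (D.ok_chan_dir a v).symm
  · exact D.ok_dir_loc h

/-- the arc of an edge -/
def arc? : Ed Γ → Option (Ar Γ)
  | .near a => some a
  | .far a => some a
  | .head a => some a
  | _ => none

theorem sof_of_mem {e : Ed Γ} {a : Ar Γ} (he : arc? e = some a) {s : Sg Γ} (hs : s ∈ D.sg e) :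
    D.SOf a s := by
  cases e with
  | leg v l i => exact absurd he (fun h => nomatch h)
  | dir v => exact absurd he (fun h => nomatch h)
  | near b =>
    obtain rfl := Option.some.inj he
    simp only [sg, List.mem_cons, List.not_mem_nil, or_false] at hs
    subst hs
    exact .near
  | far b =>
    obtain rfl := Option.some.inj he
    simp only [sg, List.mem_cons, List.not_mem_nil, or_false] at hs
    rcases hs with rfl | rfl
    · exact .far1
    · exact .far2
  | head b =>
    obtain rfl := Option.some.inj he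
    simp only [sg, List.mem_cons, List.not_mem_nil, or_false] at hs
    rcases hs with rfl | rfl
    · exact .chan
    · exact .hd

theorem ok_leg_arc {a : Ar Γ} {e : Ed Γ} (he : arc? e = some a) (v : V) (l : Bool) (i : Fin 4) :
    ∀ s ∈ D.sg (.leg v l i), ∀ t ∈ D.sg e, D.Ok s t := by
  intro s hs t ht
  have h := D.sof_of_mem he ht
  simp only [sg, List.mem_cons, List.not_mem_nil, or_false] at hs
  rcases hs with rfl | rfl
  · exact D.ok_ray_arc h v l i
  · exact D.ok_sl_arc h v l i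

theorem ok_dir_arc' {a : Ar Γ} {e : Ed Γ} (he : arc? e = some a) (v : V) :
    ∀ s ∈ D.sg (.dir v), ∀ t ∈ D.sg e, D.Ok s t := by
  intro s hs t ht
  have h := D.sof_of_mem he ht
  simp only [sg, List.mem_cons, List.not_mem_nil, or_false] at hs
  subst hs
  exact D.ok_dir_arc h v

theorem ok_leg_dir (v : V) (l : Bool) (i : Fin 4) (w : V) :
    ∀ s ∈ D.sg (.leg v l i), ∀ t ∈ D.sg (.dir w : Ed Γ), D.Ok s t := by
  intro s hs t ht
  simp only [sg, List.mem_cons, List.not_mem_nil, or_false] at hs ht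
  subst ht
  rcases hs with rfl | rfl
  · exact D.ok_ray_loc v l i w _
  · exact D.okI3 v l i w _

theorem ok_leg_leg {v w : V} {l m : Bool} {i j : Fin 4}
    (h : (Ed.leg v l i : Ed Γ) ≠ .leg w m j) :
    ∀ s ∈ D.sg (.leg v l i), ∀ t ∈ D.sg (.leg w m j), D.Ok s t := by
  have h' : (v, l) ≠ (w, m) ∨ i ≠ j := by
    by_contra hcon
    rw [not_or, not_not, not_not] at hcon
    obtain ⟨h1, rfl⟩ := hcon
    obtain ⟨rfl, rfl⟩ := Prod.mk.injEq _ _ _ _ ▸ h1
    exact h rfl
  have h'' : (w, m) ≠ (v, l) ∨ j ≠ i := h'.imp Ne.symm Ne.symm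
  intro s hs t ht
  simp only [sg, List.mem_cons, List.not_mem_nil, or_false] at hs ht
  rcases hs with rfl | rfl <;> rcases ht with rfl | rfl
  · exact D.okH h'
  · exact D.okI1 h'
  · exact (D.okI1 h'').symm
  · exact D.okI2 h'

theorem ok_dir_dir {v w : V} (h : (Ed.dir v : Ed Γ) ≠ .dir w) :
    ∀ s ∈ D.sg (.dir v), ∀ t ∈ D.sg (.dir w), D.Ok s t := by
  intro s hs t ht
  simp only [sg, List.mem_cons, List.not_mem_nil, or_false] at hs ht
  subst hs ht
  exact D.okB (fun e => h (by rw [e])) _ _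

theorem ok_near_far (a : Ar Γ) : ∀ s ∈ D.sg (.near a), ∀ t ∈ D.sg (.far a), D.Ok s t := by
  intro s hs t ht
  simp only [sg, List.mem_cons, List.not_mem_nil, or_false] at hs ht
  subst hs
  rcases ht with rfl | rfl
  · exact D.okNF1 a
  · exact D.okNF2 a

theorem ok_near_head (a : Ar Γ) : ∀ s ∈ D.sg (.near a), ∀ t ∈ D.sg (.head a), D.Ok s t := by
  intro s hs t ht
  simp only [sg, List.mem_cons, List.not_mem_nil, or_false] at hs ht
  subst hs
  rcases ht with rfl | rfl
  · exact (D.okCS a _ (.inl rfl)).symm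
  · exact D.okB (Γ.irr _ _ a.2) _ _

theorem ok_far_head (a : Ar Γ) : ∀ s ∈ D.sg (.far a), ∀ t ∈ D.sg (.head a), D.Ok s t := by
  intro s hs t ht
  simp only [sg, List.mem_cons, List.not_mem_nil, or_false] at hs ht
  rcases hs with rfl | rfl <;> rcases ht with rfl | rfl
  · exact (D.okCS a _ (.inr (.inl rfl))).symm
  · exact D.okB (Γ.irr _ _ a.2) _ _
  · exact (D.okCS a _ (.inr (.inr rfl))).symm
  · exact D.okB (Γ.irr _ _ a.2) _ _

theorem ok_comm {e e' : Ed Γ} (h : ∀ s ∈ D.sg e, ∀ t ∈ D.sg e', D.Ok s t) :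
    ∀ s ∈ D.sg e', ∀ t ∈ D.sg e, D.Ok s t := fun s hs t ht => (h t ht s hs).symm

theorem ok_all (e e' : Ed Γ) (hne : e ≠ e') : ∀ s ∈ D.sg e, ∀ t ∈ D.sg e', D.Ok s t := by
  have key : ∀ {e e' : Ed Γ} {a b : Ar Γ}, arc? e = some a → arc? e' = some b → a ≠ b →
      ∀ s ∈ D.sg e, ∀ t ∈ D.sg e', D.Ok s t := fun he he' hab s hs t ht =>
    D.ok_arc_arc hab (D.sof_of_mem he hs) (D.sof_of_mem he' ht)
  rcases e with ⟨v, l, i⟩ | v | a | a | a <;> rcases e' with ⟨w, m, j⟩ | w | b | b | b
  · exact D.ok_leg_leg hne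
  · exact D.ok_leg_dir v l i w
  · exact D.ok_leg_arc rfl v l i
  · exact D.ok_leg_arc rfl v l i
  · exact D.ok_leg_arc rfl v l i
  · exact D.ok_comm (D.ok_leg_dir w m j v)
  · exact D.ok_dir_dir hne
  · exact D.ok_dir_arc' rfl v
  · exact D.ok_dir_arc' rfl v
  · exact D.ok_dir_arc' rfl v
  · exact D.ok_comm (D.ok_leg_arc rfl w m j)
  · exact D.ok_comm (D.ok_dir_arc' rfl w)
  · exact key rfl rfl (fun h => hne (by rw [h]))
  · by_cases hab : a = b
    · subst hab; exact D.ok_near_far a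
    · exact key rfl rfl hab
  · by_cases hab : a = b
    · subst hab; exact D.ok_near_head a
    · exact key rfl rfl hab
  · exact D.ok_comm (D.ok_leg_arc rfl w m j)
  · exact D.ok_comm (D.ok_dir_arc' rfl w)
  · by_cases hab : a = b
    · subst hab; exact D.ok_comm (D.ok_near_far a)
    · exact key rfl rfl hab
  · exact key rfl rfl (fun h => hne (by rw [h]))
  · by_cases hab : a = b
    · subst hab; exact D.ok_far_head a
    · exact key rfl rfl hab
  · exact D.ok_comm (D.ok_leg_arc rfl w m j)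
  · exact D.ok_comm (D.ok_dir_arc' rfl w)
  · by_cases hab : a = b
    · subst hab; exact D.ok_comm (D.ok_near_head a)
    · exact key rfl rfl hab
  · by_cases hab : a = b
    · subst hab; exact D.ok_comm (D.ok_far_head a)
    · exact key rfl rfl hab
  · exact key rfl rfl (fun h => hne (by rw [h]))

end Dat
end D1
end Pool.Agent.RAC
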