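import Pool.Agent.Lib_MP_638f75_lc.Draw

/-!
# Block D: orders from the potentials
-/

namespace Pool.Agent.RAC

/-- a graph in which every two neighbours of a vertex lie on different sides (for a potential) can be
numbered such that neighbours get consecutive numbers -/
theorem ordAux {V : Type*} [DecidableEq V] (φ : V → ℝ) (N : V → V → Prop)
    (hs : ∀ v w, N v w → N w v) (hl : ∀ v, ¬ N v v)
    (h : ∀ v w w', w ≠ w' → N v w → N v w' → (φ w - φ v) * (φ w' - φ v) < 0) (m : ℕ) :
    ∀ S : Finset V, S.card = m → ∃ g : V → ℤ, Set.InjOn g S ∧ (∀ v ∈ S, 0 ≤ g v ∧ g v < m) ∧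
      ∀ v ∈ S, ∀ w ∈ S, N v w → g v - g w = 1 ∨ g w - g v = 1 := by
  induction m with
  | zero =>
    intro S hS
    rw [Finset.card_eq_zero] at hS
    subst hS
    exact ⟨fun _ => 0, by simp, by simp, by simp⟩
  | succ m ih =>
    intro S hS
    have hne : S.Nonempty := by rw [← Finset.card_pos]; omega
    obtain ⟨v, hv, hmin⟩ := S.exists_min_image φ hne
    obtain ⟨g, ginj, gr, gN⟩ := ih (S.erase v) (by rw [Finset.card_erase_of_mem hv, hS]; rfl)
    have huniq : ∀ w ∈ S, ∀ w' ∈ S, N v w → N v w' → w = w' := by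
      intro w hw w' hw' h1 h2
      by_contra hne
      have := h v w w' hne h1 h2
      have a1 := hmin w hw
      have a2 := hmin w' hw'
      nlinarith
    -- insertion at the position `p`
    have ins : ∀ p : ℤ, 0 ≤ p → p ≤ m →
        (∀ w ∈ S, N v w → g w = p ∨ g w + 1 = p) →
        (∀ u ∈ S.erase v, ∀ u' ∈ S.erase v, N u u' → ¬ (g u + 1 = p ∧ g u' = p)) →
        ∃ g : V → ℤ, Set.InjOn g S ∧ (∀ v ∈ S, 0 ≤ g v ∧ g v < (m + 1 : ℕ)) ∧
          ∀ v ∈ S, ∀ w ∈ S, N v w → g v - g w = 1 ∨ g w - g v = 1 := by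
      intro p hp0 hpm hp1 hp2
      have memE : ∀ u ∈ S, u ≠ v → u ∈ S.erase v := fun u hu hne => Finset.mem_erase.2 ⟨hne, hu⟩
      refine ⟨fun u => if u = v then p else if p ≤ g u then g u + 1 else g u, ?_, ?_, ?_⟩
      · intro a ha b hb hab
        rw [Finset.mem_coe] at ha hb
        simp only at hab
        by_cases h1 : a = v <;> by_cases h2 : b = v
        · rw [h1, h2]
        · rw [if_pos h1, if_neg h2] at hab
          split_ifs at hab <;> omega
        · rw [if_neg h1, if_pos h2] at hab
          split_ifs at hab <;> omega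
        · rw [if_neg h1, if_neg h2] at hab
          apply ginj (Finset.mem_coe.2 (memE a ha h1)) (Finset.mem_coe.2 (memE b hb h2))
          split_ifs at hab <;> omega
      · intro a ha
        simp only
        by_cases h1 : a = v
        · rw [if_pos h1]; push_cast; omega
        · rw [if_neg h1]
          have := gr a (memE a ha h1)
          split_ifs <;> push_cast <;> omega
      · intro a ha b hb hab
        simp only
        by_cases h1 : a = v <;> by_cases h2 : b = v
        · subst h1; subst h2; exact absurd hab (hl _)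
        · rw [if_pos h1, if_neg h2]
          rw [h1] at hab
          rcases hp1 b hb hab with h3 | h3 <;> split_ifs <;> omega
        · rw [if_neg h1, if_pos h2]
          rw [h2] at hab
          rcases hp1 a ha (hs _ _ hab) with h3 | h3 <;> split_ifs <;> omega
        · rw [if_neg h1, if_neg h2]
          have h3 := gN a (memE a ha h1) b (memE b hb h2) hab
          have h4 := hp2 a (memE a ha h1) b (memE b hb h2) hab
          have h5 := hp2 b (memE b hb h2) a (memE a ha h1) (hs _ _ hab)
          split_ifs <;> omega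
    by_cases hex : ∃ w ∈ S, N v w
    · obtain ⟨w, hw, hvw⟩ := hex
      have hwv : w ≠ v := by rintro rfl; exact hl _ hvw
      have hwE : w ∈ S.erase v := Finset.mem_erase.2 ⟨hwv, hw⟩
      have hgw := gr w hwE
      -- `w` has at most one neighbour besides `v`
      have two : ∀ u ∈ S.erase v, ∀ u' ∈ S.erase v, N w u → N w u' → u = u' := by
        intro u hu u' hu' h1 h2
        by_contra hne
        have hu1 := (Finset.mem_erase.1 hu).1
        have hu2 := (Finset.mem_erase.1 hu').1
        have e1 := h w u u' hne h1 h2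
        have e2 := h w v u (Ne.symm hu1) (hs _ _ hvw) h1
        have e3 := h w v u' (Ne.symm hu2) (hs _ _ hvw) h2
        have : 0 < ((φ v - φ w) * (φ u - φ w)) * ((φ v - φ w) * (φ u' - φ w)) :=
          mul_pos_of_neg_of_neg e2 e3
        have e4 : ((φ v - φ w) * (φ u - φ w)) * ((φ v - φ w) * (φ u' - φ w)) =
            (φ v - φ w) ^ 2 * ((φ u - φ w) * (φ u' - φ w)) := by ring
        rw [e4] at this
        nlinarith [sq_nonneg (φ v - φ w)]
      by_cases hup : ∃ u ∈ S.erase v, N w u ∧ g u = g w + 1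
      · obtain ⟨u, hu, hwu, hgu⟩ := hup
        refine ins (g w) hgw.1 hgw.2.le (fun w' hw' hvw' => ?_) (fun a ha b hb hab hc => ?_)
        · rw [huniq w' hw' w hw hvw' hvw]; exact .inl rfl
        · have hbw : b = w := ginj (Finset.mem_coe.2 hb) (Finset.mem_coe.2 hwE) hc.2
          subst hbw
          have hau := two a ha u hu (hs _ _ hab) hwu
          subst hau
          omega
      · refine ins (g w + 1) (by omega) (by omega) (fun w' hw' hvw' => ?_)
          (fun a ha b hb hab hc => ?_)
        · rw [huniq w' hw' w hw hvw' hvw]; exact .inr rfl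
        · have haw : a = w :=
            ginj (Finset.mem_coe.2 ha) (Finset.mem_coe.2 hwE) (by omega)
          subst haw
          exact hup ⟨b, hb, hab, hc.2⟩
    · refine ins m (by omega) le_rfl (fun w hw hvw => absurd ⟨w, hw, hvw⟩ hex)
        (fun a ha b hb hab hc => ?_)
      have := gr b hb
      omega

/-- the orders of the drawing -/
theorem ord_of_TLF {V : Type*} [Fintype V] {Γ : Gam V} (h : TLF Γ) :
    ∃ (c : V → V → Bool) (X Y : V → ℤ), (∀ u v, c u v = c v u) ∧ Function.Injective X ∧
      Function.Injective Y ∧ (∀ v, 0 ≤ X v ∧ X v < Fintype.card V) ∧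
      (∀ v, 0 ≤ Y v ∧ Y v < Fintype.card V) ∧
      (∀ u v, Γ.Nb u v → c u v = true → Y u - Y v = 1 ∨ Y v - Y u = 1) ∧
      (∀ u v, Γ.Nb u v → c u v = false → X u - X v = 1 ∨ X v - X u = 1) := by
  classical
  obtain ⟨c, φ, hc, hφ⟩ := h
  have nbs : ∀ u v, Γ.Nb u v → Γ.Nb v u := fun u v h => h.symm
  have nbi : ∀ v, ¬ Γ.Nb v v := fun v h => h.elim (fun h => Γ.irr _ _ h rfl) fun h => Γ.irr _ _ h rfl
  have key : ∀ b, ∃ g : V → ℤ, Function.Injective g ∧ (∀ v, 0 ≤ g v ∧ g v < Fintype.card V) ∧
      ∀ u v, Γ.Nb u v → c u v = b → g u - g v = 1 ∨ g v - g u = 1 := by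
    intro b
    obtain ⟨g, g1, g2, g3⟩ := ordAux (φ b) (fun u v => Γ.Nb u v ∧ c u v = b)
      (fun u v h => ⟨nbs _ _ h.1, by rw [hc]; exact h.2⟩) (fun v h => nbi v h.1)
      (fun v w w' hne h1 h2 => hφ b v w w' hne h1.1 h2.1 h1.2 h2.2) (Fintype.card V)
      Finset.univ rfl
    exact ⟨g, fun a b hab => g1 (by simp) (by simp) hab, fun v => g2 v (Finset.mem_univ _),
      fun u v h1 h2 => g3 u (Finset.mem_univ _) v (Finset.mem_univ _) ⟨h1, h2⟩⟩
  obtain ⟨Y, y1, y2, y3⟩ := key true
  obtain ⟨X, x1, x2, x3⟩ := key false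
  exact ⟨c, X, Y, hc, x1, y1, x2, y2, y3, x3⟩

end Pool.Agent.RAC
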