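import Pool.Agent.Lib_MP_638f75_lc.DCert
import Pool.Agent.Lib_MP_638f75_lc.DOrd

/-!
# Block D1: definitions for the drawing with one bend
-/

namespace Pool.Agent.RAC
namespace D1

/-- the four sides of a vertex (in local coordinates) -/
inductive Sd | T | B | R | L
  deriving DecidableEq

/-- local coordinates of the two vertices `(v, false)`, `(v, true)` -/
def lab : Bool → ℤ × ℤ
  | false => (0, 0)
  | true => (16, 16)

/-- the label next to a side -/
def Sd.near : Sd → Bool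
  | .T => true
  | .B => false
  | .R => true
  | .L => false

/-- position of the vertex of an outgoing arc -/
def Sd.fp : Sd → ℤ × ℤ
  | .T => (6, 24)
  | .B => (10, -8)
  | .R => (24, 4)
  | .L => (-8, 12)

/-- bend of the far edge -/
def Sd.fb : Sd → ℤ × ℤ
  | .T => (6, 8)
  | .B => (10, 8)
  | .R => (7, 4)
  | .L => (9, 12)

/-- bend of the edge to the head -/
def Sd.hb : Sd → ℤ × ℤ
  | .T => (13, 24)
  | .B => (3, -8)
  | .R => (24, 13)
  | .L => (-8, 3)

/-- kinds of local segments -/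
inductive Kd
  | dir
  | near (s : Sd)
  | far1 (s : Sd)
  | far2 (s : Sd)
  | hd (s : Sd)

/-- first end of a local segment -/
def Kd.p : Kd → ℤ × ℤ
  | .dir => lab false
  | .near s => s.fp
  | .far1 s => s.fp
  | .far2 s => s.fb
  | .hd s => s.hb

/-- second end of a local segment -/
def Kd.q : Kd → ℤ × ℤ
  | .dir => lab true
  | .near s => lab s.near
  | .far1 s => s.fb
  | .far2 s => lab (!s.near)
  | .hd s => lab s.near

/-- the side of a local segment -/
def Kd.side : Kd → Option Sd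
  | .dir => none
  | .near s => some s
  | .far1 s => some s
  | .far2 s => some s
  | .hd s => some s

/-- local to global coordinates -/
def Pl (x y : ℤ) (f g : Bool) (p : ℤ × ℤ) : ℤ × ℤ :=
  (x + (if f then p.1 else 16 - p.1), y + (if g then p.2 else 16 - p.2))

/-- the side: colour `c`, `b`: the other end is above (`c = true`) or to the right, `f`, `g` flags -/
def mkSd (c b f g : Bool) : Sd :=
  if c then (if b = g then .T else .B) else (if b = f then .R else .L)

/-- data of the drawing -/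
structure Dat {V : Type*} (Γ : Gam V) where
  n : ℤ
  n0 : 0 ≤ n
  c : V → V → Bool
  X : V → ℤ
  Y : V → ℤ
  sx : V → Bool
  sy : V → Bool
  csymm : ∀ u v, c u v = c v u
  Xinj : Function.Injective X
  Yinj : Function.Injective Y
  X0 : ∀ v, 0 ≤ X v
  Xn : ∀ v, X v < n
  Y0 : ∀ v, 0 ≤ Y v
  Yn : ∀ v, Y v < n
  cH : ∀ u v, Γ.Nb u v → c u v = true → Y u = Y v + 1 ∨ Y v = Y u + 1
  cV : ∀ u v, Γ.Nb u v → c u v = false → X u = X v + 1 ∨ X v = X u + 1
  flag : ∀ t h, Γ.ed t h →
    (mkSd (c h t) (if c h t then decide (Y h < Y t) else decide (X h < X t)) (sx h) (sy h)).near =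
      Γ.pt t h

namespace Dat

variable {V : Type*} {Γ : Gam V} (D : Dat Γ)

/-- the side of `v` on which `w` lies -/
def side (v w : V) : Sd :=
  mkSd (D.c v w) (if D.c v w then decide (D.Y v < D.Y w) else decide (D.X v < D.X w))
    (D.sx v) (D.sy v)

def x (v : V) : ℤ := 32 * (D.X v + 1)
def y (v : V) : ℤ := 32 * (D.Y v + 1)
def R : ℤ := 32 * (D.n + 2)

/-- the point with local coordinates `p` at `v` -/
def P (v : V) (p : ℤ × ℤ) : ℤ × ℤ := Pl (D.x v) (D.y v) (D.sx v) (D.sy v) p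

/-- the hubs -/
def hub : Fin 4 → ℤ × ℤ
  | 0 => (D.R + 32, 8)
  | 1 => (8, D.R + 32)
  | 2 => (-32, 8)
  | 3 => (8, -32)

/-- the bend of a leg from `p` to the hub `i` -/
def wall (p : ℤ × ℤ) : Fin 4 → ℤ × ℤ
  | 0 => (D.R, p.2)
  | 1 => (p.1, D.R)
  | 2 => (0, p.2)
  | 3 => (p.1, 0)

end Dat

/-- arcs -/
abbrev Ar {V : Type*} (Γ : Gam V) := {e : V × V // Γ.ed e.1 e.2}

/-- oriented edges of the graph `G1 Γ` -/
inductive Ed {V : Type*} (Γ : Gam V)
  | leg (v : V) (l : Bool) (i : Fin 4)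
  | dir (v : V)
  | near (a : Ar Γ)
  | far (a : Ar Γ)
  | head (a : Ar Γ)

/-- segments of the drawing -/
inductive Sg {V : Type*} (Γ : Gam V)
  | loc (v : V) (K : Kd)
  | chan (a : Ar Γ)
  | ray (v : V) (l : Bool) (i : Fin 4)
  | sl (v : V) (l : Bool) (i : Fin 4)

namespace Dat

variable {V : Type*} {Γ : Gam V} (D : Dat Γ)

/-- position of the vertex of an arc -/
def F (a : Ar Γ) : ℤ × ℤ := D.P a.1.1 (D.side a.1.1 a.1.2).fp

/-- bend of the edge to the head -/
def G (a : Ar Γ) : ℤ × ℤ := D.P a.1.2 (D.side a.1.2 a.1.1).hb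

/-- positions -/
def pos : V1 Γ → ℤ × ℤ
  | .inl i => D.hub i
  | .inr (.inl p) => D.P p.1 (lab p.2)
  | .inr (.inr a) => D.F a

/-- the segments -/
def ev : Sg Γ → (ℤ × ℤ) × (ℤ × ℤ)
  | .loc v K => (D.P v K.p, D.P v K.q)
  | .chan a => (D.F a, D.G a)
  | .ray v l i => (D.P v (lab l), D.wall (D.P v (lab l)) i)
  | .sl v l i => (D.wall (D.P v (lab l)) i, D.hub i)

end Dat

/-- source of an edge -/
def Ed.src {V : Type*} {Γ : Gam V} : Ed Γ → V1 Γ
  | .leg v l _ => .inr (.inl (v, l))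
  | .dir v => .inr (.inl (v, false))
  | .near a => .inr (.inr a)
  | .far a => .inr (.inr a)
  | .head a => .inr (.inr a)

namespace Dat

variable {V : Type*} {Γ : Gam V} (D : Dat Γ)

/-- target of an edge -/
def tgt : Ed Γ → V1 Γ
  | .leg _ _ i => .inl i
  | .dir v => .inr (.inl (v, true))
  | .near a => .inr (.inl (a.1.1, (D.side a.1.1 a.1.2).near))
  | .far a => .inr (.inl (a.1.1, !(D.side a.1.1 a.1.2).near))
  | .head a => .inr (.inl (a.1.2, Γ.pt a.1.1 a.1.2))

/-- the chains -/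
def ch : Ed Γ → List (ℤ × ℤ)
  | .leg v l i => [D.P v (lab l), D.wall (D.P v (lab l)) i, D.hub i]
  | .dir v => [D.P v (lab false), D.P v (lab true)]
  | .near a => [D.F a, D.P a.1.1 (lab (D.side a.1.1 a.1.2).near)]
  | .far a => [D.F a, D.P a.1.1 (D.side a.1.1 a.1.2).fb,
      D.P a.1.1 (lab (!(D.side a.1.1 a.1.2).near))]
  | .head a => [D.F a, D.G a, D.P a.1.2 (lab (D.side a.1.2 a.1.1).near)]

/-- the segments of an edge -/
def sg : Ed Γ → List (Sg Γ)
  | .leg v l i => [.ray v l i, .sl v l i]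
  | .dir v => [.loc v .dir]
  | .near a => [.loc a.1.1 (.near (D.side a.1.1 a.1.2))]
  | .far a => [.loc a.1.1 (.far1 (D.side a.1.1 a.1.2)), .loc a.1.1 (.far2 (D.side a.1.1 a.1.2))]
  | .head a => [.chan a, .loc a.1.2 (.hd (D.side a.1.2 a.1.1))]

theorem segsZ_ch (e : Ed Γ) : segsZ (D.ch e) = (D.sg e).map D.ev := by
  cases e <;> rfl

/-- the set of allowed common points -/
def C : Set Pt := Set.range fun w => cz (D.pos w)

theorem lab_mem (v : V) (l : Bool) : cz (D.P v (lab l)) ∈ D.C := ⟨.inr (.inl (v, l)), rfl⟩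
theorem F_mem (a : Ar Γ) : cz (D.F a) ∈ D.C := ⟨.inr (.inr a), rfl⟩
theorem hub_mem (i : Fin 4) : cz (D.hub i) ∈ D.C := ⟨.inl i, rfl⟩

/-- the segments `s`, `t` are compatible -/
def Ok (s t : Sg Γ) : Prop :=
  OkC D.C (cz (D.ev s).1, cz (D.ev s).2) (cz (D.ev t).1, cz (D.ev t).2)

theorem Ok.symm {D : Dat Γ} {s t : Sg Γ} (h : D.Ok s t) : D.Ok t s := OkC.symm h

theorem side_near {t h : V} (e : Γ.ed t h) : (D.side h t).near = Γ.pt t h := D.flag t h e

end Dat
end D1
end Pool.Agent.RAC
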