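import Pool.Agent.Lib_MP_638f75_lc.D1Loc

/-!
# Block D1: global coordinates, the pairs of segments
-/

namespace Pool.Agent.RAC
namespace D1

theorem gSX {C : Set Pt} {a b c d : ℤ × ℤ}
    (h : (a.1 < c.1 ∧ a.1 < d.1 ∧ b.1 < c.1 ∧ b.1 < d.1) ∨
      (c.1 < a.1 ∧ d.1 < a.1 ∧ c.1 < b.1 ∧ d.1 < b.1)) : OkC C (cz a, cz b) (cz c, cz d) :=
  cSXd C (a1 := a.1) (a2 := a.2) (b1 := b.1) (b2 := b.2) (c1 := c.1) (c2 := c.2) (d1 := d.1)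
    (d2 := d.2) h

theorem gSY {C : Set Pt} {a b c d : ℤ × ℤ}
    (h : (a.2 < c.2 ∧ a.2 < d.2 ∧ b.2 < c.2 ∧ b.2 < d.2) ∨
      (c.2 < a.2 ∧ d.2 < a.2 ∧ c.2 < b.2 ∧ d.2 < b.2)) : OkC C (cz a, cz b) (cz c, cz d) :=
  cSYd C (a1 := a.1) (a2 := a.2) (b1 := b.1) (b2 := b.2) (c1 := c.1) (c2 := c.2) (d1 := d.1)
    (d2 := d.2) h

theorem gHV {C : Set Pt} {a b c d : ℤ × ℤ}
    (h : a.2 = b.2 ∧ c.1 = d.1 ∧ a.2 ≠ c.2 ∧ a.2 ≠ d.2 ∧ c.1 ≠ a.1 ∧ c.1 ≠ b.1) :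
    OkC C (cz a, cz b) (cz c, cz d) :=
  cHV C (a1 := a.1) (a2 := a.2) (b1 := b.1) (b2 := b.2) (c1 := c.1) (c2 := c.2) (d1 := d.1)
    (d2 := d.2) h

theorem gVH {C : Set Pt} {a b c d : ℤ × ℤ}
    (h : c.2 = d.2 ∧ a.1 = b.1 ∧ c.2 ≠ a.2 ∧ c.2 ≠ b.2 ∧ a.1 ≠ c.1 ∧ a.1 ≠ d.1) :
    OkC C (cz a, cz b) (cz c, cz d) := (gHV h).symm

theorem gYY {C : Set Pt} {a b c d : ℤ × ℤ} (h : a.2 = b.2 ∧ c.2 = d.2 ∧ a.2 ≠ c.2) :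
    OkC C (cz a, cz b) (cz c, cz d) := gSY (by omega)

theorem gXX {C : Set Pt} {a b c d : ℤ × ℤ} (h : a.1 = b.1 ∧ c.1 = d.1 ∧ a.1 ≠ c.1) :
    OkC C (cz a, cz b) (cz c, cz d) := gSX (by omega)

theorem gTX {C : Set Pt} {a b c d : ℤ × ℤ}
    (h : a.1 = c.1 ∧ a.2 ≠ c.2 ∧ ((b.1 < a.1 ∧ a.1 < d.1) ∨ (a.1 < b.1 ∧ d.1 < a.1))) :
    OkC C (cz a, cz b) (cz c, cz d) :=
  cTX C (a1 := a.1) (a2 := a.2) (b1 := b.1) (b2 := b.2) (c1 := c.1) (c2 := c.2) (d1 := d.1)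
    (d2 := d.2) h

theorem gTY {C : Set Pt} {a b c d : ℤ × ℤ}
    (h : a.2 = c.2 ∧ a.1 ≠ c.1 ∧ ((b.2 < a.2 ∧ a.2 < d.2) ∨ (a.2 < b.2 ∧ d.2 < a.2))) :
    OkC C (cz a, cz b) (cz c, cz d) :=
  cTY C (a1 := a.1) (a2 := a.2) (b1 := b.1) (b2 := b.2) (c1 := c.1) (c2 := c.2) (d1 := d.1)
    (d2 := d.2) h

/-! ### bounds for the local segments -/

theorem Kd.box (K : Kd) : (-8 ≤ K.p.1 ∧ K.p.1 ≤ 24 ∧ -8 ≤ K.p.2 ∧ K.p.2 ≤ 24) ∧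
    (-8 ≤ K.q.1 ∧ K.q.1 ≤ 24 ∧ -8 ≤ K.q.2 ∧ K.q.2 ≤ 24) := by
  rcases K with _ | s | s | s | s <;> (try cases s) <;>
    simp [Kd.p, Kd.q, Sd.fp, Sd.hb, Sd.fb, Sd.near, lab]

theorem Kd.thin (K : Kd) : (0 ≤ K.p.1 ∧ K.p.1 ≤ 16 ∧ 0 ≤ K.q.1 ∧ K.q.1 ≤ 16) ∨
    (0 ≤ K.p.2 ∧ K.p.2 ≤ 16 ∧ 0 ≤ K.q.2 ∧ K.q.2 ≤ 16) := by
  rcases K with _ | s | s | s | s <;> (try cases s) <;>
    simp [Kd.p, Kd.q, Sd.fp, Sd.hb, Sd.fb, Sd.near, lab]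

namespace Dat

variable {V : Type*} {Γ : Gam V} (D : Dat Γ)

theorem P1 (v : V) {p : ℤ × ℤ} (h : -8 ≤ p.1 ∧ p.1 ≤ 24) :
    D.x v - 8 ≤ (D.P v p).1 ∧ (D.P v p).1 ≤ D.x v + 24 := by
  simp only [P, Pl]
  split_ifs <;> omega

theorem P2 (v : V) {p : ℤ × ℤ} (h : -8 ≤ p.2 ∧ p.2 ≤ 24) :
    D.y v - 8 ≤ (D.P v p).2 ∧ (D.P v p).2 ≤ D.y v + 24 := by
  simp only [P, Pl]
  split_ifs <;> omega

theorem P1' (v : V) {p : ℤ × ℤ} (h : 0 ≤ p.1 ∧ p.1 ≤ 16) :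
    D.x v ≤ (D.P v p).1 ∧ (D.P v p).1 ≤ D.x v + 16 := by
  simp only [P, Pl]
  split_ifs <;> omega

theorem P2' (v : V) {p : ℤ × ℤ} (h : 0 ≤ p.2 ∧ p.2 ≤ 16) :
    D.y v ≤ (D.P v p).2 ∧ (D.P v p).2 ≤ D.y v + 16 := by
  simp only [P, Pl]
  split_ifs <;> omega

theorem lx (v : V) (l : Bool) : (D.P v (lab l)).1 = D.x v ∨ (D.P v (lab l)).1 = D.x v + 16 := by
  cases l <;> simp only [P, Pl, lab] <;> split_ifs <;> simp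

theorem ly (v : V) (l : Bool) : (D.P v (lab l)).2 = D.y v ∨ (D.P v (lab l)).2 = D.y v + 16 := by
  cases l <;> simp only [P, Pl, lab] <;> split_ifs <;> simp

theorem lxne {v w : V} {l m : Bool} (h : (v, l) ≠ (w, m)) :
    (D.P v (lab l)).1 ≠ (D.P w (lab m)).1 := by
  intro e
  have h1 := D.lx v l
  have h2 := D.lx w m
  simp only [x] at h1 h2
  have hvw : D.X v = D.X w := by omega
  have := D.Xinj hvw
  subst this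
  apply h
  rw [Prod.mk.injEq]
  refine ⟨rfl, ?_⟩
  simp only [P, Pl] at e
  cases l <;> cases m <;> simp only [lab] at e <;> first | rfl | (split_ifs at e <;> omega)

theorem lyne {v w : V} {l m : Bool} (h : (v, l) ≠ (w, m)) :
    (D.P v (lab l)).2 ≠ (D.P w (lab m)).2 := by
  intro e
  have h1 := D.ly v l
  have h2 := D.ly w m
  simp only [y] at h1 h2
  have hvw : D.Y v = D.Y w := by omega
  have := D.Yinj hvw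
  subst this
  apply h
  rw [Prod.mk.injEq]
  refine ⟨rfl, ?_⟩
  simp only [P, Pl] at e
  cases l <;> cases m <;> simp only [lab] at e <;> first | rfl | (split_ifs at e <;> omega)

/-- the channel of an arc of colour `true` -/
theorem chH (a : Ar Γ) (hc : D.c a.1.1 a.1.2 = true) : (D.F a).2 = (D.G a).2 ∧
    ((((D.F a).2 = D.y a.1.1 + 24 ∧ D.Y a.1.2 = D.Y a.1.1 + 1) ∨
      ((D.F a).2 = D.y a.1.1 - 8 ∧ D.Y a.1.1 = D.Y a.1.2 + 1)) ∧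
    ((D.F a).1 = D.x a.1.1 + 6 ∨ (D.F a).1 = D.x a.1.1 + 10) ∧
    ((D.G a).1 = D.x a.1.2 + 3 ∨ (D.G a).1 = D.x a.1.2 + 13)) := by
  have hc' : D.c a.1.2 a.1.1 = true := by rw [D.csymm]; exact hc
  have h := D.cH _ _ (.inl a.2) hc
  simp only [F, G, side, hc, hc', if_true, mkSd, P, Pl]
  rcases h with h | h
  · have h1 : ¬ D.Y a.1.1 < D.Y a.1.2 := by omega
    have h2 : D.Y a.1.2 < D.Y a.1.1 := by omega
    simp only [h1, h2, decide_true, decide_false, y, h]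
    cases D.sx a.1.1 <;> cases D.sy a.1.1 <;> cases D.sx a.1.2 <;> cases D.sy a.1.2 <;>
      simp [Sd.fp, Sd.hb] <;> omega
  · have h1 : ¬ D.Y a.1.2 < D.Y a.1.1 := by omega
    have h2 : D.Y a.1.1 < D.Y a.1.2 := by omega
    simp only [h1, h2, decide_true, decide_false, y, h]
    cases D.sx a.1.1 <;> cases D.sy a.1.1 <;> cases D.sx a.1.2 <;> cases D.sy a.1.2 <;>
      simp [Sd.fp, Sd.hb] <;> omega

/-- the channel of an arc of colour `false` -/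
theorem chV (a : Ar Γ) (hc : D.c a.1.1 a.1.2 = false) : (D.F a).1 = (D.G a).1 ∧
    ((((D.F a).1 = D.x a.1.1 + 24 ∧ D.X a.1.2 = D.X a.1.1 + 1) ∨
      ((D.F a).1 = D.x a.1.1 - 8 ∧ D.X a.1.1 = D.X a.1.2 + 1)) ∧
    ((D.F a).2 = D.y a.1.1 + 4 ∨ (D.F a).2 = D.y a.1.1 + 12) ∧
    ((D.G a).2 = D.y a.1.2 + 3 ∨ (D.G a).2 = D.y a.1.2 + 13)) := by
  have hc' : D.c a.1.2 a.1.1 = false := by rw [D.csymm]; exact hc
  have h := D.cV _ _ (.inl a.2) hc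
  simp only [F, G, side, hc, hc', mkSd, P, Pl]
  rcases h with h | h
  · have h1 : ¬ D.X a.1.1 < D.X a.1.2 := by omega
    have h2 : D.X a.1.2 < D.X a.1.1 := by omega
    simp only [h1, h2, decide_true, decide_false, x, h]
    cases D.sx a.1.1 <;> cases D.sy a.1.1 <;> cases D.sx a.1.2 <;> cases D.sy a.1.2 <;>
      simp [Sd.fp, Sd.hb] <;> omega
  · have h1 : ¬ D.X a.1.2 < D.X a.1.1 := by omega
    have h2 : D.X a.1.1 < D.X a.1.2 := by omega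
    simp only [h1, h2, decide_true, decide_false, x, h]
    cases D.sx a.1.1 <;> cases D.sy a.1.1 <;> cases D.sx a.1.2 <;> cases D.sy a.1.2 <;>
      simp [Sd.fp, Sd.hb] <;> omega

end Dat
end D1
end Pool.Agent.RAC
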