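import Pool.Agent.Lib_MP_638f75_lc.D1Defs

/-!
# Block D1: local coordinates
-/

namespace Pool.Agent.RAC
namespace D1

/-- real version of the passage from local to global coordinates -/
def Phi (x y : ℤ) (f g : Bool) (p : Pt) : Pt :=
  ((x : ℝ) + (if f then p.1 else 16 - p.1), (y : ℝ) + (if g then p.2 else 16 - p.2))

theorem cz_Pl (x y : ℤ) (f g : Bool) (p : ℤ × ℤ) : cz (Pl x y f g p) = Phi x y f g (cz p) := by
  cases f <;> cases g <;> simp [cz, Pl, Phi]

theorem Phi_inj {x y : ℤ} {f g : Bool} {a b : Pt} (h : Phi x y f g a = Phi x y f g b) : a = b := by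
  have h1 := congrArg Prod.fst h
  have h2 := congrArg Prod.snd h
  apply Prod.ext
  · cases f <;> simp [Phi] at h1 <;> exact h1
  · cases g <;> simp [Phi] at h2 <;> exact h2

theorem Phi_seg {x y : ℤ} {f g : Bool} {a b z : Pt}
    (h : z ∈ segment ℝ (Phi x y f g a) (Phi x y f g b)) :
    ∃ w ∈ segment ℝ a b, Phi x y f g w = z := by
  obtain ⟨t, t0, t1, e1, e2⟩ := seg_par h
  refine ⟨(a.1 + t * (b.1 - a.1), a.2 + t * (b.2 - a.2)), ?_, ?_⟩
  · rw [segment_eq_image']
    exact ⟨t, ⟨t0, t1⟩, Prod.ext (by simp) (by simp)⟩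
  · apply Prod.ext
    · rw [e1]; cases f <;> simp [Phi] <;> ring
    · rw [e2]; cases g <;> simp [Phi] <;> ring

theorem Phi_open {x y : ℤ} {f g : Bool} {a b w : Pt} (h : w ∈ openSegment ℝ a b) :
    Phi x y f g w ∈ openSegment ℝ (Phi x y f g a) (Phi x y f g b) := by
  rw [openSegment_eq_image'] at h ⊢
  obtain ⟨t, ht, rfl⟩ := h
  refine ⟨t, ht, ?_⟩
  apply Prod.ext
  · cases f <;> simp [Phi] <;> ring
  · cases g <;> simp [Phi] <;> ring

/-- transport from local to global coordinates -/
theorem OkC.Pl {C : Set Pt} {x y : ℤ} {f g : Bool} {p q r s : ℤ × ℤ}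
    (h : OkC (Phi x y f g ⁻¹' C) (cz p, cz q) (cz r, cz s)) :
    OkC C (cz (Pl x y f g p), cz (Pl x y f g q)) (cz (Pl x y f g r), cz (Pl x y f g s)) := by
  simp only [cz_Pl]
  intro z hz hz'
  obtain ⟨w, hw, rfl⟩ := Phi_seg hz
  obtain ⟨w', hw', e⟩ := Phi_seg hz'
  obtain rfl := Phi_inj e
  rcases h _ hw hw' with h | ⟨h1, h2, h3⟩
  · exact .inl h
  · refine .inr ⟨Phi_open h1, Phi_open h2, ?_⟩
    rw [← h3]
    cases f <;> cases g <;> simp [Phi, dot] <;> ring

/-- side of the line through `a`, `b` on which `z` lies -/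
def lsd (a b z : ℤ × ℤ) : ℤ := (b.1 - a.1) * (z.2 - a.2) - (b.2 - a.2) * (z.1 - a.1)

/-- the second segment lies strictly on one side of the line of the first one -/
theorem cLS (C : Set Pt) {a b c d : ℤ × ℤ}
    (h : (0 < lsd a b c ∧ 0 < lsd a b d) ∨ (lsd a b c < 0 ∧ lsd a b d < 0)) :
    OkC C (cz a, cz b) (cz c, cz d) := by
  intro z hz hz'
  exfalso
  obtain ⟨t, t0, t1, e1, e2⟩ := seg_par hz
  obtain ⟨u, u0, u1, f1, f2⟩ := seg_par hz'
  simp only [cz] at e1 e2 f1 f2
  have key : ((b.1 : ℝ) - a.1) * (z.2 - a.2) - (b.2 - a.2) * (z.1 - a.1) = 0 := by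
    rw [e1, e2]; ring
  have key2 : ((b.1 : ℝ) - a.1) * (z.2 - a.2) - (b.2 - a.2) * (z.1 - a.1) =
      (1 - u) * (lsd a b c : ℤ) + u * (lsd a b d : ℤ) := by
    rw [f1, f2]; simp only [lsd]; push_cast; ring
  rw [key] at key2
  rcases h with ⟨h1, h2⟩ | ⟨h1, h2⟩
  · have h1' : (0 : ℝ) < (lsd a b c : ℤ) := by exact_mod_cast h1
    have h2' : (0 : ℝ) < (lsd a b d : ℤ) := by exact_mod_cast h2
    rcases eq_or_lt_of_le u0 with h3 | h3
    · rw [← h3] at key2; linarith
    · have := mul_pos h3 h2'
      have := mul_nonneg (sub_nonneg.2 u1) h1'.le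
      linarith
  · have h1' : ((lsd a b c : ℤ) : ℝ) < 0 := by exact_mod_cast h1
    have h2' : ((lsd a b d : ℤ) : ℝ) < 0 := by exact_mod_cast h2
    rcases eq_or_lt_of_le u0 with h3 | h3
    · rw [← h3] at key2; linarith
    · have := mul_neg_of_pos_of_neg h3 h2'
      have := mul_nonpos_of_nonneg_of_nonpos (sub_nonneg.2 u1) h1'.le
      linarith

/-- local segments on different sides of a vertex -/
theorem locA {C : Set Pt} (h0 : ∀ l, cz (lab l) ∈ C) (K K' : Kd) (h : K.side ≠ K'.side) :
    OkC C (cz K.p, cz K.q) (cz K'.p, cz K'.q) := by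
  rcases K with _ | s | s | s | s <;> rcases K' with _ | s' | s' | s' | s' <;>
    (try cases s) <;> (try cases s') <;> first | exact absurd rfl h | skip
  all_goals
    simp only [Kd.p, Kd.q, Sd.fp, Sd.hb, Sd.fb, Sd.near, lab, Bool.not_true, Bool.not_false]
  all_goals first
    | exact cSX _ (by decide)
    | exact cSX' _ (by decide)
    | exact cSY _ (by decide)
    | exact cSY' _ (by decide)
    | exact cHV _ (by decide)
    | exact cVH _ (by decide)
    | exact cLS _ (by unfold lsd; decide)
    | exact (cLS _ (by unfold lsd; decide)).symm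
    | exact cEee (h0 false) (by unfold Dir; decide)
    | exact cEee (h0 true) (by unfold Dir; decide)
    | exact cEse (h0 false) (by unfold Dir; decide)
    | exact cEse (h0 true) (by unfold Dir; decide)
    | exact cEes (h0 false) (by unfold Dir; decide)
    | exact cEes (h0 true) (by unfold Dir; decide)
    | exact cEss (h0 false) (by unfold Dir; decide)
    | exact cEss (h0 true) (by unfold Dir; decide)

/-- horizontal rays from a label -/
theorem rayH {C : Set Pt} (h0 : ∀ l, cz (lab l) ∈ C) (K : Kd) (l : Bool) (W : ℤ)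
    (hW : 24 < W ∨ W < -8) :
    OkC C (cz (lab l), cz (W, (lab l).2)) (cz K.p, cz K.q) := by
  have h0t := h0 true
  have h0f := h0 false
  simp only [lab] at h0t h0f
  rcases hW with hW | hW <;> rcases K with _ | s | s | s | s <;> (try cases s) <;> cases l
  all_goals
    simp only [Kd.p, Kd.q, Sd.fp, Sd.hb, Sd.fb, Sd.near, lab, Bool.not_true, Bool.not_false]
  all_goals first
    | exact cSY _ (by omega)
    | exact cSY' _ (by omega)
    | exact cSX _ (by omega)
    | exact cSX' _ (by omega)
    | exact cHV _ (by omega)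
    | exact cVH _ (by omega)
    | exact cEss h0f (dirH (by omega))
    | exact cEss h0f (dirV (by omega))
    | exact cEse h0f (dirH (by omega))
    | exact cEse h0f (dirV (by omega))
    | exact cEss h0t (dirH (by omega))
    | exact cEss h0t (dirV (by omega))
    | exact cEse h0t (dirH (by omega))
    | exact cEse h0t (dirV (by omega))

/-- vertical rays from a label -/
theorem rayV {C : Set Pt} (h0 : ∀ l, cz (lab l) ∈ C) (K : Kd) (l : Bool) (W : ℤ)
    (hW : 24 < W ∨ W < -8) :
    OkC C (cz (lab l), cz ((lab l).1, W)) (cz K.p, cz K.q) := by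
  have h0t := h0 true
  have h0f := h0 false
  simp only [lab] at h0t h0f
  rcases hW with hW | hW <;> rcases K with _ | s | s | s | s <;> (try cases s) <;> cases l
  all_goals
    simp only [Kd.p, Kd.q, Sd.fp, Sd.hb, Sd.fb, Sd.near, lab, Bool.not_true, Bool.not_false]
  all_goals first
    | exact cSY _ (by omega)
    | exact cSY' _ (by omega)
    | exact cSX _ (by omega)
    | exact cSX' _ (by omega)
    | exact cHV _ (by omega)
    | exact cVH _ (by omega)
    | exact cEss h0f (dirH (by omega))
    | exact cEss h0f (dirV (by omega))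
    | exact cEse h0f (dirH (by omega))
    | exact cEse h0f (dirV (by omega))
    | exact cEss h0t (dirH (by omega))
    | exact cEss h0t (dirV (by omega))
    | exact cEse h0t (dirH (by omega))
    | exact cEse h0t (dirV (by omega))

/-- `near` against `far` on the same side -/
theorem nearFar1 {C : Set Pt} (s : Sd) (h : cz s.fp ∈ C) :
    OkC C (cz (Kd.near s).p, cz (Kd.near s).q) (cz (Kd.far1 s).p, cz (Kd.far1 s).q) := by
  cases s <;>
    simp only [Kd.p, Kd.q, Sd.fp, Sd.hb, Sd.fb, Sd.near, lab, Bool.not_true, Bool.not_false] <;>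
    exact cEss h (by unfold Dir; decide)

theorem nearFar2 {C : Set Pt} (s : Sd) :
    OkC C (cz (Kd.near s).p, cz (Kd.near s).q) (cz (Kd.far2 s).p, cz (Kd.far2 s).q) := by
  cases s <;>
    simp only [Kd.p, Kd.q, Sd.fp, Sd.hb, Sd.fb, Sd.near, lab, Bool.not_true, Bool.not_false] <;>
  first
    | exact cSX _ (by decide)
    | exact cSX' _ (by decide)
    | exact cSY _ (by decide)
    | exact cSY' _ (by decide)
    | exact cLS _ (by unfold lsd; decide)

/-- the other end of a channel which starts at the local point `p` on the side `s` -/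
def Sd.co (s : Sd) (p : ℤ × ℤ) (W : ℤ) : ℤ × ℤ :=
  match s with
  | .T => (W, p.2)
  | .B => (W, p.2)
  | .R => (p.1, W)
  | .L => (p.1, W)

/-- channels against local segments on other sides -/
theorem chanK {C : Set Pt} (s : Sd) (K : Kd) (h : K.side ≠ some s) (W : ℤ) (p : ℤ × ℤ)
    (hp : p = s.fp ∨ p = s.hb) :
    OkC C (cz p, cz (s.co p W)) (cz K.p, cz K.q) := by
  rcases K with _ | s' | s' | s' | s' <;> cases s <;> (try cases s') <;>
    first | exact absurd rfl h | skip
  all_goals rcases hp with rfl | rfl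
  all_goals
    simp only [Kd.p, Kd.q, Sd.fp, Sd.hb, Sd.fb, Sd.near, lab, Bool.not_true, Bool.not_false, Sd.co]
  all_goals first
    | exact cSX _ (by decide)
    | exact cSX' _ (by decide)
    | exact cSY _ (by decide)
    | exact cSY' _ (by decide)

/-- channels against the segments of the same arc -/
theorem chanS {C : Set Pt} (s : Sd) (h : cz s.fp ∈ C) (W : ℤ) (hW : 24 < W ∨ W < -8) (K : Kd)
    (hK : K = .near s ∨ K = .far1 s ∨ K = .far2 s) :
    OkC C (cz s.fp, cz (s.co s.fp W)) (cz K.p, cz K.q) := by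
  rcases hK with rfl | rfl | rfl <;> cases s <;>
    simp only [Kd.p, Kd.q, Sd.fp, Sd.hb, Sd.fb, Sd.near, lab, Bool.not_true, Bool.not_false,
      Sd.co] at h ⊢ <;> first
      | exact cSY _ (by omega)
      | exact cSY' _ (by omega)
      | exact cSX _ (by omega)
      | exact cSX' _ (by omega)
      | exact cHV _ (by omega)
      | exact cVH _ (by omega)
      | exact cEss h (dirH (by omega))
      | exact cEss h (dirV (by omega))
      | exact cEse h (dirH (by omega))
      | exact cEse h (dirV (by omega))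

end D1
end Pool.Agent.RAC
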