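import Pool.Agent.Lib_MP_638f75_lc.D1Pos

/-!
# Block D1: the drawing with one bend
-/

namespace Pool.Agent.RAC
namespace D1

/-- choice of the flags for one direction -/
theorem flags {V : Type*} (Γ : Gam V) (Y : V → ℤ) (Yinj : Function.Injective Y)
    (Q : V → V → Prop) (hQ : ∀ t h, Γ.ed t h → Q h t → Y t = Y h + 1 ∨ Y h = Y t + 1) (h : V) :
    ∃ s : Bool, ∀ t, Γ.ed t h → Q h t → (decide (Y h < Y t) = s ↔ Γ.pt t h = true) := by
  by_cases hex : ∃ t, Γ.ed t h ∧ Q h t
  · obtain ⟨t, e, q⟩ := hex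
    refine ⟨if Γ.pt t h then decide (Y h < Y t) else !decide (Y h < Y t), ?_⟩
    intro t' e' q'
    by_cases htt : t' = t
    · subst htt
      cases Γ.pt t' h <;> cases decide (Y h < Y t') <;> simp
    · have hp : Γ.pt t' h ≠ Γ.pt t h := fun hp => htt (Γ.port _ _ _ e' e hp)
      have h1 := hQ _ _ e q
      have h2 := hQ _ _ e' q'
      have h3 : Y t' ≠ Y t := fun h => htt (Yinj h)
      have h4 : decide (Y h < Y t') = !decide (Y h < Y t) := by
        by_cases h5 : Y h < Y t
        · have h6 : ¬ Y h < Y t' := by omega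
          rw [decide_eq_true h5, decide_eq_false h6]; rfl
        · have h6 : Y h < Y t' := by omega
          rw [decide_eq_false h5, decide_eq_true h6]; rfl
      rw [h4]
      revert hp
      cases Γ.pt t' h <;> cases Γ.pt t h <;> cases decide (Y h < Y t) <;> simp
  · exact ⟨true, fun t e q => absurd ⟨t, e, q⟩ hex⟩

/-- the data of the drawing -/
theorem exists_dat {V : Type*} [Fintype V] {Γ : Gam V} (h : TLF Γ) : Nonempty (Dat Γ) := by
  obtain ⟨c, X, Y, hc, Xinj, Yinj, hX, hY, cH, cV⟩ := ord_of_TLF h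
  have hy := flags Γ Y Yinj (fun h t => c h t = true) (fun t h e q => by
    have := cH h t (.inr e) q
    omega)
  have hx := flags Γ X Xinj (fun h t => c h t = false) (fun t h e q => by
    have := cV h t (.inr e) q
    omega)
  choose sy hsy using hy
  choose sx hsx using hx
  refine ⟨{ n := Fintype.card V, n0 := by positivity, c := c, X := X, Y := Y, sx := sx, sy := sy,
            csymm := hc, Xinj := Xinj, Yinj := Yinj, X0 := fun v => (hX v).1,
            Xn := fun v => (hX v).2, Y0 := fun v => (hY v).1, Yn := fun v => (hY v).2,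
            cH := fun u v e q => ?_, cV := fun u v e q => ?_, flag := fun t h e => ?_ }⟩
  · have := cH u v e q
    omega
  · have := cV u v e q
    omega
  · by_cases q : c h t = true
    · have h1 := hsy h t e q
      simp only [q, mkSd, if_true]
      revert h1
      cases Γ.pt t h <;> cases decide (Y h < Y t) <;> cases sy h <;> simp [Sd.near]
    · rw [Bool.not_eq_true] at q
      have h1 := hsx h t e q
      simp only [q, mkSd, Bool.false_eq_true, if_false]
      revert h1
      cases Γ.pt t h <;> cases decide (X h < X t) <;> cases sx h <;> simp [Sd.near]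

namespace Dat

variable {V : Type*} {Γ : Gam V} (D : Dat Γ)

theorem F_ne_G (a : Ar Γ) : D.F a ≠ D.G a := by
  intro h
  have h1 := congrArg Prod.fst h
  have h2 := congrArg Prod.snd h
  have hX : D.X a.1.1 ≠ D.X a.1.2 := fun h => Γ.irr _ _ a.2 (D.Xinj h)
  have hY : D.Y a.1.1 ≠ D.Y a.1.2 := fun h => Γ.irr _ _ a.2 (D.Yinj h)
  by_cases hc : D.c a.1.1 a.1.2 = true
  · obtain ⟨g1, g2, g3, g4⟩ := D.chH a hc
    simp only [x] at g3 g4
    omega
  · rw [Bool.not_eq_true] at hc
    obtain ⟨g1, g2, g3, g4⟩ := D.chV a hc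
    simp only [y] at g3 g4
    omega

theorem P_ne {v : V} {p q : ℤ × ℤ} (h : p ≠ q) : D.P v p ≠ D.P v q := fun e => h (Pl_inj e)

theorem wall_ne (v : V) (l : Bool) (i : Fin 4) :
    D.P v (lab l) ≠ D.wall (D.P v (lab l)) i ∧ D.wall (D.P v (lab l)) i ≠ D.hub i := by
  have hb := D.lbd v l
  constructor <;> intro h <;> have h1 := congrArg Prod.fst h <;> have h2 := congrArg Prod.snd h <;>
    rcases f4 i with rfl | rfl | rfl | rfl <;> simp only [wall, hub] at h1 h2 <;> omega

theorem G_ne (a : Ar Γ) : D.G a ≠ D.P a.1.2 (lab (D.side a.1.2 a.1.1).near) := by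
  refine D.P_ne ?_
  cases D.side a.1.2 a.1.1 <;> decide

theorem hnd (e : Ed Γ) : (D.ch e).IsChain (· ≠ ·) := by
  rcases e with ⟨v, l, i⟩ | v | a | a | a
  · simp only [ch, List.isChain_cons_cons, List.isChain_singleton, and_true]
    exact D.wall_ne v l i
  · simp only [ch, List.isChain_cons_cons, List.isChain_singleton, and_true]
    exact D.P_ne (by decide)
  · simp only [ch, List.isChain_cons_cons, List.isChain_singleton, and_true]
    refine D.P_ne ?_
    cases D.side a.1.1 a.1.2 <;> decide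
  · simp only [ch, List.isChain_cons_cons, List.isChain_singleton, and_true]
    refine ⟨D.P_ne ?_, D.P_ne ?_⟩ <;> cases D.side a.1.1 a.1.2 <;> decide
  · simp only [ch, List.isChain_cons_cons, List.isChain_singleton, and_true]
    exact ⟨D.F_ne_G a, D.G_ne a⟩

theorem hsimple (e : Ed Γ) : SimpleChain ((D.ch e).map cz) := by
  rcases e with ⟨v, l, i⟩ | v | a | a | a
  · refine simple3 ?_
    have hb := D.lbd v l
    rcases f4 i with rfl | rfl | rfl | rfl
    · refine dirH ?_
      simp only [wall, hub, true_and]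
      omega
    · refine dirV ?_
      simp only [wall, hub, true_and]
      omega
    · refine dirH ?_
      simp only [wall, hub, true_and]
      omega
    · refine dirV ?_
      simp only [wall, hub, true_and]
      omega
  · exact simple2 _ _
  · exact simple2 _ _
  · refine simple3 (dir_Pl ?_)
    cases D.side a.1.1 a.1.2 <;> simp [Dir, Sd.fb, Sd.fp, Sd.near, lab]
  · refine simple3 ?_
    have hn := D.F_ne_G a
    have e3 := D.lx a.1.2 (D.side a.1.2 a.1.1).near
    have e4 := D.ly a.1.2 (D.side a.1.2 a.1.1).near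
    have hX : D.X a.1.1 ≠ D.X a.1.2 := fun h => Γ.irr _ _ a.2 (D.Xinj h)
    have hY : D.Y a.1.1 ≠ D.Y a.1.2 := fun h => Γ.irr _ _ a.2 (D.Yinj h)
    by_cases hc : D.c a.1.1 a.1.2 = true
    · obtain ⟨g1, g2, g3, g4⟩ := D.chH a hc
      refine dirH ?_
      simp only [x, y] at g2 g3 g4 e3 e4
      omega
    · rw [Bool.not_eq_true] at hc
      obtain ⟨g1, g2, g3, g4⟩ := D.chV a hc
      refine dirV ?_
      simp only [x, y] at g2 g3 g4 e3 e4
      omega

theorem havoid (e : Ed Γ) : ∀ s ∈ segsZ (D.ch e), ∀ w, InBox (D.pos w) s →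
    (w = e.src ∧ s.1 = D.pos e.src) ∨ (w = D.tgt e ∧ s.2 = D.pos (D.tgt e)) := by
  intro s hs w hw
  rw [segsZ_ch, List.mem_map] at hs
  obtain ⟨s, hs, rfl⟩ := hs
  rcases e with ⟨v, l, i⟩ | v | a | a | a <;>
    simp only [sg, List.mem_cons, List.not_mem_nil, or_false] at hs
  · rcases hs with rfl | rfl
    · exact .inl ⟨D.av_ray hw, rfl⟩
    · exact .inr ⟨D.av_sl hw, rfl⟩
  · subst hs
    rcases D.av_loc hw with ⟨l, rfl, -⟩ | ⟨a, -, -, h⟩
    · cases l
      · exact .inl ⟨rfl, rfl⟩
      · exact .inr ⟨rfl, rfl⟩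
    · rcases box_fp _ _ h with h | h <;> exact nomatch h
  · subst hs
    rcases D.av_loc hw with ⟨l, rfl, h⟩ | ⟨b, rfl, hb, h⟩
    · right
      rcases box_lab _ _ h with h | ⟨h, -⟩
      · have := lab_inj h
        subst this
        exact ⟨rfl, rfl⟩
      · exact nomatch h
    · left
      rcases box_fp _ _ h with h | h
      · have h1 := Kd.near.inj h
        rw [← hb] at h1
        have h2 := D.side_inj (.inl (hb ▸ a.2)) (.inl b.2) (by rw [hb] at h1 ⊢; exact h1)
        have : a = b := Subtype.ext (Prod.ext hb.symm h2)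
        subst this
        exact ⟨rfl, rfl⟩
      · exact nomatch h
  · rcases hs with rfl | rfl
    · rcases D.av_loc hw with ⟨l, rfl, h⟩ | ⟨b, rfl, hb, h⟩
      · rcases box_lab _ _ h with h | ⟨h, -⟩
        · exfalso
          revert h
          cases D.side a.1.1 a.1.2 <;> cases l <;> decide
        · exact nomatch h
      · left
        rcases box_fp _ _ h with h | h
        · exact nomatch h
        · have h1 := Kd.far1.inj h
          have h2 := D.side_inj (.inl a.2) (.inl (hb ▸ b.2)) h1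
          have : a = b := Subtype.ext (Prod.ext hb.symm h2)
          subst this
          exact ⟨rfl, rfl⟩
    · rcases D.av_loc hw with ⟨l, rfl, h⟩ | ⟨b, rfl, hb, h⟩
      · right
        rcases box_lab _ _ h with h | ⟨h, -⟩
        · have := lab_inj h
          subst this
          exact ⟨rfl, rfl⟩
        · exact nomatch h
      · rcases box_fp _ _ h with h | h <;> exact nomatch h
  · rcases hs with rfl | rfl
    · exact .inl ⟨D.av_chan hw, rfl⟩
    · rcases D.av_loc hw with ⟨l, rfl, h⟩ | ⟨b, rfl, hb, h⟩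
      · right
        rcases box_lab _ _ h with h | ⟨h, -⟩
        · have := lab_inj h
          subst this
          refine ⟨?_, ?_⟩
          · simp only [tgt, D.side_near a.2]
          · simp only [tgt, pos, ← D.side_near a.2]
            rfl
        · exact nomatch h
      · rcases box_fp _ _ h with h | h <;> exact nomatch h

theorem hcross (e e' : Ed Γ) (hne : e ≠ e') : ∀ s ∈ segsZ (D.ch e), ∀ t ∈ segsZ (D.ch e'),
    OkC {z | ∃ w, (w = e.src ∨ w = D.tgt e) ∧ (w = e'.src ∨ w = D.tgt e') ∧ z = cz (D.pos w)}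
      (cz s.1, cz s.2) (cz t.1, cz t.2) := by
  intro s hs t ht z hz hz'
  have av := D.havoid e s hs
  have av' := D.havoid e' t ht
  rw [segsZ_ch, List.mem_map] at hs ht
  obtain ⟨s, hs, rfl⟩ := hs
  obtain ⟨t, ht, rfl⟩ := ht
  rcases D.ok_all e e' hne s hs t ht z hz hz' with ⟨w, rfl⟩ | h
  · left
    have h1 := av w (inBox_of_mem hz)
    have h2 := av' w (inBox_of_mem hz')
    exact ⟨w, h1.imp (·.1) (·.1), h2.imp (·.1) (·.1), rfl⟩
  · exact .inr h

theorem hadj (u v : V1 Γ) (h : (G1 Γ).Adj u v) :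
    ∃ e : Ed Γ, (e.src = u ∧ D.tgt e = v) ∨ (e.src = v ∧ D.tgt e = u) := by
  have key : ∀ u v : V1 Γ, rel1 Γ u v →
      ∃ e : Ed Γ, (e.src = u ∧ D.tgt e = v) ∨ (e.src = v ∧ D.tgt e = u) := by
    rintro (i | ⟨v, l⟩ | a) (j | ⟨w, m⟩ | b) h
    · exact h.elim
    · exact ⟨.leg w m i, .inr ⟨rfl, rfl⟩⟩
    · exact h.elim
    · exact h.elim
    · obtain ⟨h1, h2, h3⟩ := h
      simp only at h1 h2 h3
      subst h1 h2 h3
      exact ⟨.dir v, .inl ⟨rfl, rfl⟩⟩
    · exact h.elim
    · exact h.elim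
    · rcases h with h | ⟨h1, h2⟩
      · simp only at h
        subst h
        by_cases hm : m = (D.side a.1.1 a.1.2).near
        · subst hm
          exact ⟨.near a, .inl ⟨rfl, rfl⟩⟩
        · have hm' : m = !(D.side a.1.1 a.1.2).near := by
            revert hm
            cases m <;> cases (D.side a.1.1 a.1.2).near <;> simp
          subst hm'
          exact ⟨.far a, .inl ⟨rfl, rfl⟩⟩
      · simp only at h1 h2
        subst h1 h2
        exact ⟨.head a, .inl ⟨rfl, rfl⟩⟩
    · exact h.elim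
  rcases h with h | h
  · exact key u v h
  · obtain ⟨e, he⟩ := key v u h
    exact ⟨e, he.symm⟩

theorem hloop (e : Ed Γ) : e.src ≠ D.tgt e := by
  rcases e with ⟨v, l, i⟩ | v | a | a | a <;> simp [Ed.src, tgt]

theorem huniq (e e' : Ed Γ) (h : s(e.src, D.tgt e) = s(e'.src, D.tgt e')) : e = e' := by
  rw [Sym2.eq_iff] at h
  rcases e with ⟨v, l, i⟩ | v | a | a | a <;> rcases e' with ⟨w, m, j⟩ | w | b | b | b <;>
    simp only [Ed.src, tgt, Sum.inr.injEq, Sum.inl.injEq, Prod.mk.injEq, reduceCtorEq, false_and,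
      and_false, or_false, false_or, or_self, Bool.true_eq_false, Bool.false_eq_true,
      and_true] at h
  · obtain ⟨⟨rfl, rfl⟩, rfl⟩ := h; rfl
  · obtain ⟨rfl, -⟩ := h; rfl
  · obtain ⟨rfl, -⟩ := h; rfl
  · obtain ⟨rfl, -, h⟩ := h
    exact absurd h (by cases (D.side a.1.1 a.1.2).near <;> decide)
  · obtain ⟨rfl, h, -⟩ := h
    exact absurd h (Γ.irr _ _ a.2)
  · obtain ⟨rfl, -, h⟩ := h
    exact absurd h (by cases (D.side a.1.1 a.1.2).near <;> decide)
  · obtain ⟨rfl, -⟩ := h; rfl
  · obtain ⟨rfl, h, -⟩ := h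
    exact absurd h (Γ.irr _ _ a.2)
  · obtain ⟨rfl, h, -⟩ := h
    exact absurd h.symm (Γ.irr _ _ a.2)
  · obtain ⟨rfl, h, -⟩ := h
    exact absurd h.symm (Γ.irr _ _ a.2)
  · obtain ⟨rfl, -⟩ := h; rfl

include D in
theorem main : SD 1 (G1 Γ) := by
  refine mkSD 1 (G1 Γ) D.pos Ed.src D.tgt D.ch D.hadj D.hloop D.huniq D.pos_inj ?_ ?_ ?_ D.hnd
    D.havoid D.hcross D.hsimple
  · intro e
    rcases e with ⟨v, l, i⟩ | v | a | a | a <;> rfl
  · intro e
    rcases e with ⟨v, l, i⟩ | v | a | a | a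
    · rfl
    · rfl
    · rfl
    · rfl
    · simp only [ch, tgt, pos, ← D.side_near a.2]
      rfl
  · intro e
    rcases e with ⟨v, l, i⟩ | v | a | a | a <;> simp [ch]

end Dat
end D1

/-- **Completeness for one bend.** -/
theorem COMPL_1 (V : Type) [Fintype V] (Γ : Gam V) (h : TLF Γ) : SD 1 (G1 Γ) := by
  obtain ⟨D⟩ := D1.exists_dat h
  exact D.main

end Pool.Agent.RAC
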