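import Pool.Agent.Lib_MP_638f75_lc.D1Glob

/-!
# Block D1: the pairs of segments
-/

namespace Pool.Agent.RAC
namespace D1
namespace Dat

variable {V : Type*} {Γ : Gam V} (D : Dat Γ)

theorem hP (v : V) : ∀ l, cz (lab l) ∈ Phi (D.x v) (D.y v) (D.sx v) (D.sy v) ⁻¹' D.C := by
  intro l
  rw [Set.mem_preimage, ← cz_Pl]
  exact D.lab_mem v l

/-- local segments at the same vertex -/
theorem okA (v : V) (K K' : Kd) (h : K.side ≠ K'.side) : D.Ok (.loc v K) (.loc v K') :=
  OkC.Pl (locA (D.hP v) K K' h)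

/-- local segments at different vertices -/
theorem okB {v w : V} (hvw : v ≠ w) (K K' : Kd) : D.Ok (.loc v K) (.loc w K') := by
  have hX : D.X v ≠ D.X w := fun h => hvw (D.Xinj h)
  have hY : D.Y v ≠ D.Y w := fun h => hvw (D.Yinj h)
  obtain ⟨⟨b1, b2, b3, b4⟩, c1, c2, c3, c4⟩ := K'.box
  rcases K.thin with ⟨h1, h2, h3, h4⟩ | ⟨h1, h2, h3, h4⟩
  · have e1 := D.P1' v ⟨h1, h2⟩
    have e2 := D.P1' v ⟨h3, h4⟩
    have e3 := D.P1 w ⟨b1, b2⟩
    have e4 := D.P1 w ⟨c1, c2⟩
    simp only [x] at e1 e2 e3 e4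
    refine gSX ?_
    simp only [ev]
    omega
  · have e1 := D.P2' v ⟨h1, h2⟩
    have e2 := D.P2' v ⟨h3, h4⟩
    have e3 := D.P2 w ⟨b3, b4⟩
    have e4 := D.P2 w ⟨c3, c4⟩
    simp only [y] at e1 e2 e3 e4
    refine gSY ?_
    simp only [ev]
    omega

theorem okNF1 (a : Ar Γ) : D.Ok (.loc a.1.1 (.near (D.side a.1.1 a.1.2)))
    (.loc a.1.1 (.far1 (D.side a.1.1 a.1.2))) := by
  refine OkC.Pl (nearFar1 _ ?_)
  rw [Set.mem_preimage, ← cz_Pl]
  exact D.F_mem a

theorem okNF2 (a : Ar Γ) : D.Ok (.loc a.1.1 (.near (D.side a.1.1 a.1.2)))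
    (.loc a.1.1 (.far2 (D.side a.1.1 a.1.2))) :=
  OkC.Pl (nearFar2 _)

theorem sideH {v w : V} (hc : D.c v w = true) : D.side v w = .T ∨ D.side v w = .B := by
  rw [side, mkSd, hc]
  simp only [if_true]
  by_cases h : decide (D.Y v < D.Y w) = D.sy v
  · rw [if_pos h]; exact .inl rfl
  · rw [if_neg h]; exact .inr rfl

theorem sideV {v w : V} (hc : D.c v w = false) : D.side v w = .R ∨ D.side v w = .L := by
  rw [side, mkSd, hc]
  simp only [Bool.false_eq_true, if_false]
  by_cases h : decide (D.X v < D.X w) = D.sx v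
  · rw [if_pos h]; exact .inl rfl
  · rw [if_neg h]; exact .inr rfl

/-- the bend `G a` in local coordinates at the tail -/
theorem G_co (a : Ar Γ) : ∃ W : ℤ, (24 < W ∨ W < -8) ∧
    D.G a = D.P a.1.1 ((D.side a.1.1 a.1.2).co (D.side a.1.1 a.1.2).fp W) := by
  by_cases hc : D.c a.1.1 a.1.2 = true
  · obtain ⟨h1, h2, h3, h4⟩ := D.chH a hc
    have hX : D.X a.1.1 ≠ D.X a.1.2 := fun h => Γ.irr _ _ a.2 (D.Xinj h)
    refine ⟨if D.sx a.1.1 = true then (D.G a).1 - D.x a.1.1 else 16 - ((D.G a).1 - D.x a.1.1),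
      ?_, ?_⟩
    · simp only [x] at h3 h4 ⊢
      split_ifs <;> omega
    · have hs := D.sideH hc
      have e2 : (D.P a.1.1 ((D.side a.1.1 a.1.2).co (D.side a.1.1 a.1.2).fp
          (if D.sx a.1.1 = true then (D.G a).1 - D.x a.1.1
            else 16 - ((D.G a).1 - D.x a.1.1)))).2 = (D.F a).2 := by
        rcases hs with hs | hs <;> simp only [F, hs, Sd.co, P, Pl]
      have e1 : (D.P a.1.1 ((D.side a.1.1 a.1.2).co (D.side a.1.1 a.1.2).fp
          (if D.sx a.1.1 = true then (D.G a).1 - D.x a.1.1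
            else 16 - ((D.G a).1 - D.x a.1.1)))).1 = (D.G a).1 := by
        rcases hs with hs | hs <;> simp only [hs, Sd.co, P, Pl] <;> split_ifs <;> omega
      exact Prod.ext e1.symm (h1.symm.trans e2.symm)
  · rw [Bool.not_eq_true] at hc
    obtain ⟨h1, h2, h3, h4⟩ := D.chV a hc
    have hY : D.Y a.1.1 ≠ D.Y a.1.2 := fun h => Γ.irr _ _ a.2 (D.Yinj h)
    refine ⟨if D.sy a.1.1 = true then (D.G a).2 - D.y a.1.1 else 16 - ((D.G a).2 - D.y a.1.1),
      ?_, ?_⟩
    · simp only [y] at h3 h4 ⊢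
      split_ifs <;> omega
    · have hs := D.sideV hc
      have e2 : (D.P a.1.1 ((D.side a.1.1 a.1.2).co (D.side a.1.1 a.1.2).fp
          (if D.sy a.1.1 = true then (D.G a).2 - D.y a.1.1
            else 16 - ((D.G a).2 - D.y a.1.1)))).1 = (D.F a).1 := by
        rcases hs with hs | hs <;> simp only [F, hs, Sd.co, P, Pl]
      have e1 : (D.P a.1.1 ((D.side a.1.1 a.1.2).co (D.side a.1.1 a.1.2).fp
          (if D.sy a.1.1 = true then (D.G a).2 - D.y a.1.1
            else 16 - ((D.G a).2 - D.y a.1.1)))).2 = (D.G a).2 := by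
        rcases hs with hs | hs <;> simp only [hs, Sd.co, P, Pl] <;> split_ifs <;> omega
      exact Prod.ext (h1.symm.trans e2.symm) e1.symm

/-- the point `F a` in local coordinates at the head -/
theorem F_co (a : Ar Γ) : ∃ W : ℤ,
    D.F a = D.P a.1.2 ((D.side a.1.2 a.1.1).co (D.side a.1.2 a.1.1).hb W) := by
  by_cases hc : D.c a.1.1 a.1.2 = true
  · have hc' : D.c a.1.2 a.1.1 = true := by rw [D.csymm]; exact hc
    obtain ⟨h1, h2, h3, h4⟩ := D.chH a hc
    refine ⟨if D.sx a.1.2 = true then (D.F a).1 - D.x a.1.2 else 16 - ((D.F a).1 - D.x a.1.2),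
      ?_⟩
    have hs := D.sideH hc'
    have e2 : (D.P a.1.2 ((D.side a.1.2 a.1.1).co (D.side a.1.2 a.1.1).hb
        (if D.sx a.1.2 = true then (D.F a).1 - D.x a.1.2
          else 16 - ((D.F a).1 - D.x a.1.2)))).2 = (D.G a).2 := by
      rcases hs with hs | hs <;> simp only [G, hs, Sd.co, P, Pl]
    have e1 : (D.P a.1.2 ((D.side a.1.2 a.1.1).co (D.side a.1.2 a.1.1).hb
        (if D.sx a.1.2 = true then (D.F a).1 - D.x a.1.2
          else 16 - ((D.F a).1 - D.x a.1.2)))).1 = (D.F a).1 := by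
      rcases hs with hs | hs <;> simp only [hs, Sd.co, P, Pl] <;> split_ifs <;> omega
    exact Prod.ext e1.symm (h1.trans e2.symm)
  · rw [Bool.not_eq_true] at hc
    have hc' : D.c a.1.2 a.1.1 = false := by rw [D.csymm]; exact hc
    obtain ⟨h1, h2, h3, h4⟩ := D.chV a hc
    refine ⟨if D.sy a.1.2 = true then (D.F a).2 - D.y a.1.2 else 16 - ((D.F a).2 - D.y a.1.2),
      ?_⟩
    have hs := D.sideV hc'
    have e2 : (D.P a.1.2 ((D.side a.1.2 a.1.1).co (D.side a.1.2 a.1.1).hb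
        (if D.sy a.1.2 = true then (D.F a).2 - D.y a.1.2
          else 16 - ((D.F a).2 - D.y a.1.2)))).1 = (D.G a).1 := by
      rcases hs with hs | hs <;> simp only [G, hs, Sd.co, P, Pl]
    have e1 : (D.P a.1.2 ((D.side a.1.2 a.1.1).co (D.side a.1.2 a.1.1).hb
        (if D.sy a.1.2 = true then (D.F a).2 - D.y a.1.2
          else 16 - ((D.F a).2 - D.y a.1.2)))).2 = (D.F a).2 := by
      rcases hs with hs | hs <;> simp only [hs, Sd.co, P, Pl] <;> split_ifs <;> omega
    exact Prod.ext (h1.trans e2.symm) e1.symm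

/-- channel against the segments of the same arc at the tail -/
theorem okCS (a : Ar Γ) (K : Kd) (hK : K = .near (D.side a.1.1 a.1.2) ∨
    K = .far1 (D.side a.1.1 a.1.2) ∨ K = .far2 (D.side a.1.1 a.1.2)) :
    D.Ok (.chan a) (.loc a.1.1 K) := by
  obtain ⟨W, hW, e⟩ := D.G_co a
  have h := chanS (C := Phi (D.x a.1.1) (D.y a.1.1) (D.sx a.1.1) (D.sy a.1.1) ⁻¹' D.C)
    (D.side a.1.1 a.1.2) (by rw [Set.mem_preimage, ← cz_Pl]; exact D.F_mem a) W hW K hK
  have h' := OkC.Pl h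
  show OkC D.C (cz (D.F a), cz (D.G a)) _
  rw [e]
  exact h'

/-- channel against local segments of other arcs -/
theorem okC (a : Ar Γ) (v : V) (K : Kd)
    (h1 : v = a.1.1 → K.side ≠ some (D.side a.1.1 a.1.2))
    (h2 : v = a.1.2 → K.side ≠ some (D.side a.1.2 a.1.1)) : D.Ok (.chan a) (.loc v K) := by
  by_cases hv1 : v = a.1.1
  · obtain ⟨W, hW, e⟩ := D.G_co a
    have h := chanK (C := Phi (D.x v) (D.y v) (D.sx v) (D.sy v) ⁻¹' D.C)
      (D.side a.1.1 a.1.2) K (h1 hv1) W _ (.inl rfl)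
    have h' := OkC.Pl h
    show OkC D.C (cz (D.F a), cz (D.G a)) _
    rw [e]
    subst hv1
    exact h'
  · by_cases hv2 : v = a.1.2
    · obtain ⟨W, e⟩ := D.F_co a
      have h := chanK (C := Phi (D.x v) (D.y v) (D.sx v) (D.sy v) ⁻¹' D.C)
        (D.side a.1.2 a.1.1) K (h2 hv2) W _ (.inr rfl)
      have h' := OkC.flip (OkC.Pl h)
      show OkC D.C (cz (D.F a), cz (D.G a)) _
      rw [e]
      subst hv2
      exact h'
    · have hX1 : D.X v ≠ D.X a.1.1 := fun h => hv1 (D.Xinj h)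
      have hY1 : D.Y v ≠ D.Y a.1.1 := fun h => hv1 (D.Yinj h)
      have hX2 : D.X v ≠ D.X a.1.2 := fun h => hv2 (D.Xinj h)
      have hY2 : D.Y v ≠ D.Y a.1.2 := fun h => hv2 (D.Yinj h)
      obtain ⟨⟨b1, b2, b3, b4⟩, c1, c2, c3, c4⟩ := K.box
      by_cases hc : D.c a.1.1 a.1.2 = true
      · obtain ⟨g1, g2, g3, g4⟩ := D.chH a hc
        have e3 := D.P2 v ⟨b3, b4⟩
        have e4 := D.P2 v ⟨c3, c4⟩
        simp only [y] at e3 e4 g2
        refine gSY ?_
        simp only [ev]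
        omega
      · rw [Bool.not_eq_true] at hc
        obtain ⟨g1, g2, g3, g4⟩ := D.chV a hc
        have e3 := D.P1 v ⟨b1, b2⟩
        have e4 := D.P1 v ⟨c1, c2⟩
        simp only [x] at e3 e4 g2
        refine gSX ?_
        simp only [ev]
        omega

/-- channels of different arcs -/
theorem okD {a b : Ar Γ} (hab : a ≠ b) : D.Ok (.chan a) (.chan b) := by
  by_cases hca : D.c a.1.1 a.1.2 = true <;> by_cases hcb : D.c b.1.1 b.1.2 = true
  · obtain ⟨g1, g2, g3, g4⟩ := D.chH a hca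
    obtain ⟨k1, k2, k3, k4⟩ := D.chH b hcb
    refine gYY ⟨g1, k1, fun e => hab ?_⟩
    simp only [ev] at e
    have h : (D.Y a.1.1 = D.Y b.1.1 ∧ D.Y a.1.2 = D.Y b.1.2) ∨
        (D.Y a.1.1 = D.Y b.1.2 ∧ D.Y a.1.2 = D.Y b.1.1) := by
      simp only [y] at g2 k2
      omega
    rcases h with ⟨h, h'⟩ | ⟨h, h'⟩
    · exact Subtype.ext (Prod.ext (D.Yinj h) (D.Yinj h'))
    · have e1 := D.Yinj h
      have e2 := D.Yinj h'
      exact absurd a.2 (by rw [e1, e2]; exact Γ.asym _ _ b.2)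
  · rw [Bool.not_eq_true] at hcb
    obtain ⟨g1, g2, g3, g4⟩ := D.chH a hca
    obtain ⟨k1, k2, k3, k4⟩ := D.chV b hcb
    simp only [x, y] at g2 g3 g4 k2 k3 k4
    refine gHV ?_
    simp only [ev]
    omega
  · rw [Bool.not_eq_true] at hca
    obtain ⟨g1, g2, g3, g4⟩ := D.chV a hca
    obtain ⟨k1, k2, k3, k4⟩ := D.chH b hcb
    simp only [x, y] at g2 g3 g4 k2 k3 k4
    refine gVH ?_
    simp only [ev]
    omega
  · rw [Bool.not_eq_true] at hca hcb
    obtain ⟨g1, g2, g3, g4⟩ := D.chV a hca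
    obtain ⟨k1, k2, k3, k4⟩ := D.chV b hcb
    refine gXX ⟨g1, k1, fun e => hab ?_⟩
    simp only [ev] at e
    have h : (D.X a.1.1 = D.X b.1.1 ∧ D.X a.1.2 = D.X b.1.2) ∨
        (D.X a.1.1 = D.X b.1.2 ∧ D.X a.1.2 = D.X b.1.1) := by
      simp only [x] at g2 k2
      omega
    rcases h with ⟨h, h'⟩ | ⟨h, h'⟩
    · exact Subtype.ext (Prod.ext (D.Xinj h) (D.Xinj h'))
    · have e1 := D.Xinj h
      have e2 := D.Xinj h'
      exact absurd a.2 (by rw [e1, e2]; exact Γ.asym _ _ b.2)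

/-- the bend of a leg in local coordinates -/
theorem wall_co (v : V) (l : Bool) (i : Fin 4) : ∃ W : ℤ, (24 < W ∨ W < -8) ∧
    (D.wall (D.P v (lab l)) i = D.P v (W, (lab l).2) ∨
      D.wall (D.P v (lab l)) i = D.P v ((lab l).1, W)) := by
  have hx0 := D.X0 v
  have hx1 := D.Xn v
  have hy0 := D.Y0 v
  have hy1 := D.Yn v
  fin_cases i
  · refine ⟨if D.sx v = true then D.R - D.x v else 16 - (D.R - D.x v), ?_, .inl ?_⟩
    · simp only [x, R]
      split_ifs <;> omega
    · simp only [wall, P, Pl]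
      refine Prod.ext ?_ rfl
      simp only
      split_ifs <;> omega
  · refine ⟨if D.sy v = true then D.R - D.y v else 16 - (D.R - D.y v), ?_, .inr ?_⟩
    · simp only [y, R]
      split_ifs <;> omega
    · simp only [wall, P, Pl]
      refine Prod.ext rfl ?_
      simp only
      split_ifs <;> omega
  · refine ⟨if D.sx v = true then 0 - D.x v else 16 - (0 - D.x v), ?_, .inl ?_⟩
    · simp only [x]
      split_ifs <;> omega
    · simp only [wall, P, Pl]
      refine Prod.ext ?_ rfl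
      simp only
      split_ifs <;> omega
  · refine ⟨if D.sy v = true then 0 - D.y v else 16 - (0 - D.y v), ?_, .inr ?_⟩
    · simp only [y]
      split_ifs <;> omega
    · simp only [wall, P, Pl]
      refine Prod.ext rfl ?_
      simp only
      split_ifs <;> omega

/-- leg and local segment at the same vertex -/
theorem okE (v : V) (l : Bool) (i : Fin 4) (K : Kd) : D.Ok (.ray v l i) (.loc v K) := by
  obtain ⟨W, hW, e | e⟩ := D.wall_co v l i
  · have h := OkC.Pl (rayH (D.hP v) K l W hW)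
    show OkC D.C (cz (D.P v (lab l)), cz (D.wall (D.P v (lab l)) i)) _
    rw [e]
    exact h
  · have h := OkC.Pl (rayV (D.hP v) K l W hW)
    show OkC D.C (cz (D.P v (lab l)), cz (D.wall (D.P v (lab l)) i)) _
    rw [e]
    exact h

/-- leg and local segment at different vertices -/
theorem okF {v w : V} (hvw : v ≠ w) (l : Bool) (i : Fin 4) (K : Kd) :
    D.Ok (.ray v l i) (.loc w K) := by
  have hX : D.X v ≠ D.X w := fun h => hvw (D.Xinj h)
  have hY : D.Y v ≠ D.Y w := fun h => hvw (D.Yinj h)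
  obtain ⟨⟨b1, b2, b3, b4⟩, c1, c2, c3, c4⟩ := K.box
  have e1 := D.P1 w ⟨b1, b2⟩
  have e2 := D.P1 w ⟨c1, c2⟩
  have e3 := D.P2 w ⟨b3, b4⟩
  have e4 := D.P2 w ⟨c3, c4⟩
  have e5 := D.lx v l
  have e6 := D.ly v l
  simp only [x, y] at e1 e2 e3 e4 e5 e6
  fin_cases i
  · refine gSY ?_
    simp only [ev, wall]
    omega
  · refine gSX ?_
    simp only [ev, wall]
    omega
  · refine gSY ?_
    simp only [ev, wall]
    omega
  · refine gSX ?_
    simp only [ev, wall]
    omega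

/-- leg and channel -/
theorem okG (v : V) (l : Bool) (i : Fin 4) (a : Ar Γ) : D.Ok (.ray v l i) (.chan a) := by
  have e5 := D.lx v l
  have e6 := D.ly v l
  have hx0 := D.X0 v
  have hx1 := D.Xn v
  have hy0 := D.Y0 v
  have hy1 := D.Yn v
  by_cases hc : D.c a.1.1 a.1.2 = true
  · obtain ⟨g1, g2, g3, g4⟩ := D.chH a hc
    simp only [x, y] at e5 e6 g2 g3 g4
    fin_cases i
    · refine gYY ?_
      simp only [ev, wall, true_and]
      omega
    · refine gVH ?_
      simp only [ev, wall, true_and, R]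
      omega
    · refine gYY ?_
      simp only [ev, wall, true_and]
      omega
    · refine gVH ?_
      simp only [ev, wall, true_and]
      omega
  · rw [Bool.not_eq_true] at hc
    obtain ⟨g1, g2, g3, g4⟩ := D.chV a hc
    simp only [x, y] at e5 e6 g2 g3 g4
    fin_cases i
    · refine gHV ?_
      simp only [ev, wall, true_and, R]
      omega
    · refine gXX ?_
      simp only [ev, wall, true_and]
      omega
    · refine gHV ?_
      simp only [ev, wall, true_and]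
      omega
    · refine gXX ?_
      simp only [ev, wall, true_and]
      omega

end Dat
end D1
end Pool.Agent.RAC
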