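import Pool.Agent.Lib_MP_638f75_lc.D1Asm

/-!
# Block D1: positions, boxes, simple chains
-/

namespace Pool.Agent.RAC
namespace D1

theorem Pl_inj {x y : ℤ} {f g : Bool} {a b : ℤ × ℤ} (h : Pl x y f g a = Pl x y f g b) : a = b := by
  have h1 := congrArg Prod.fst h
  have h2 := congrArg Prod.snd h
  simp only [Pl] at h1 h2
  apply Prod.ext
  · split_ifs at h1 <;> omega
  · split_ifs at h2 <;> omega

theorem inBox_Pl {x y : ℤ} {f g : Bool} {a b c : ℤ × ℤ}
    (h : InBox (Pl x y f g a) (Pl x y f g b, Pl x y f g c)) : InBox a (b, c) := by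
  simp only [InBox, Pl] at h ⊢
  split_ifs at h <;> omega

theorem dir_Pl {x y : ℤ} {f g : Bool} {a b c : ℤ × ℤ} (h : Dir a b c) :
    Dir (Pl x y f g a) (Pl x y f g b) (Pl x y f g c) := by
  simp only [Dir, Pl] at h ⊢
  rcases h with h | h
  · left
    intro e
    apply h
    cases f <;> cases g <;> simp only [if_true, if_false, Bool.false_eq_true] at e <;>
      linarith
  · right
    cases f <;> cases g <;> simp only [if_true, if_false, Bool.false_eq_true] <;>
      linarith

/-- labels in the boxes of the local segments -/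
theorem box_lab (K : Kd) (l : Bool) (h : InBox (lab l) (K.p, K.q)) :
    lab l = K.q ∨ (K = .dir ∧ lab l = K.p) := by
  rcases K with _ | s | s | s | s <;> cases l <;> (try cases s) <;>
    first
    | exact .inl rfl
    | exact .inr ⟨rfl, rfl⟩
    | (exfalso; revert h; simp only [InBox, Kd.p, Kd.q, Sd.fp, Sd.hb, Sd.fb, Sd.near, lab,
        Bool.not_true, Bool.not_false]; decide)

/-- vertices of arcs in the boxes of the local segments -/
theorem box_fp (K : Kd) (s : Sd) (h : InBox s.fp (K.p, K.q)) : K = .near s ∨ K = .far1 s := by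
  rcases K with _ | s' | s' | s' | s' <;> cases s <;> (try cases s') <;>
    first
    | exact .inl rfl
    | exact .inr rfl
    | (exfalso; revert h; simp only [InBox, Kd.p, Kd.q, Sd.fp, Sd.hb, Sd.fb, Sd.near, lab,
        Bool.not_true, Bool.not_false]; decide)

theorem lab_inj {l m : Bool} (h : lab l = lab m) : l = m := by
  cases l <;> cases m <;> first | rfl | exact absurd h (by decide)

namespace Dat

variable {V : Type*} {Γ : Gam V} (D : Dat Γ)

/-- classification of `F a` -/
theorem Fco (a : Ar Γ) :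
    (D.c a.1.1 a.1.2 = true ∧ ((D.F a).2 = D.y a.1.1 + 24 ∨ (D.F a).2 = D.y a.1.1 - 8) ∧
      ((D.F a).1 = D.x a.1.1 + 6 ∨ (D.F a).1 = D.x a.1.1 + 10)) ∨
    (D.c a.1.1 a.1.2 = false ∧ ((D.F a).1 = D.x a.1.1 + 24 ∨ (D.F a).1 = D.x a.1.1 - 8) ∧
      ((D.F a).2 = D.y a.1.1 + 4 ∨ (D.F a).2 = D.y a.1.1 + 12)) := by
  by_cases hc : D.c a.1.1 a.1.2 = true
  · obtain ⟨-, h2, h3, -⟩ := D.chH a hc
    exact .inl ⟨hc, h2.imp (·.1) (·.1), h3⟩
  · rw [Bool.not_eq_true] at hc
    obtain ⟨-, h2, h3, -⟩ := D.chV a hc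
    exact .inr ⟨hc, h2.imp (·.1) (·.1), h3⟩

theorem F_tail {a b : Ar Γ} (h : D.F a = D.F b) : a.1.1 = b.1.1 := by
  have h1 := congrArg Prod.fst h
  have h2 := congrArg Prod.snd h
  rcases D.Fco a with ⟨-, h3, h4⟩ | ⟨-, h3, h4⟩ <;> rcases D.Fco b with ⟨-, h5, h6⟩ | ⟨-, h5, h6⟩
  · simp only [x] at h4 h6
    exact D.Xinj (by omega)
  · simp only [x, y] at h3 h4 h5 h6
    omega
  · simp only [x, y] at h3 h4 h5 h6
    omega
  · simp only [y] at h4 h6
    exact D.Yinj (by omega)

theorem fp_inj {s s' : Sd} (h : s.fp = s'.fp) : s = s' := by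
  cases s <;> cases s' <;> first | rfl | exact absurd h (by decide)

theorem F_inj {a b : Ar Γ} (h : D.F a = D.F b) : a = b := by
  have ht := D.F_tail h
  have h' : D.P a.1.1 (D.side a.1.1 a.1.2).fp = D.P a.1.1 (D.side b.1.1 b.1.2).fp := by
    conv_rhs => rw [ht]
    exact h
  have h'' := fp_inj (Pl_inj h')
  rw [← ht] at h''
  have e := D.side_inj (.inl a.2) (.inl (ht ▸ b.2)) h''
  exact Subtype.ext (Prod.ext ht e)

theorem R64 : 64 ≤ D.R := by
  have := D.n0
  simp only [R]
  omega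

theorem pos_inj : Function.Injective D.pos := by
  have hR := D.R64
  have hub_lab : ∀ i v l, D.hub i ≠ D.P v (lab l) := by
    intro i v l h
    have h1 := congrArg Prod.fst h
    have h2 := congrArg Prod.snd h
    have h3 := D.lbd v l
    rcases f4 i with rfl | rfl | rfl | rfl <;> simp only [hub] at h1 h2 <;> omega
  have hub_F : ∀ i a, D.hub i ≠ D.F a := by
    intro i a h
    have h1 := congrArg Prod.fst h
    have h2 := congrArg Prod.snd h
    obtain ⟨h3, h4, h5, h6⟩ := D.inn_F a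
    rcases f4 i with rfl | rfl | rfl | rfl <;> simp only [hub] at h1 h2 <;> omega
  have lab_F : ∀ v l a, D.P v (lab l) ≠ D.F a := by
    intro v l a h
    have h1 := congrArg Prod.fst h
    have h2 := congrArg Prod.snd h
    have h3 := D.lx v l
    have h4 := D.ly v l
    have h5 := D.Fco a
    simp only [x, y] at h3 h4 h5
    omega
  rintro (i | ⟨v, l⟩ | a) (j | ⟨w, m⟩ | b) h
  · have h1 := congrArg Prod.fst h
    have h2 := congrArg Prod.snd h
    simp only [pos] at h1 h2
    rcases f4 i with rfl | rfl | rfl | rfl <;> rcases f4 j with rfl | rfl | rfl | rfl <;>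
      first | rfl | (simp only [hub] at h1 h2; omega)
  · exact absurd h (hub_lab _ _ _)
  · exact absurd h (hub_F _ _)
  · exact absurd h.symm (hub_lab _ _ _)
  · by_cases hvw : (v, l) = (w, m)
    · rw [hvw]
    · exact absurd (congrArg Prod.fst h) (D.lxne hvw)
  · exact absurd h (lab_F _ _ _)
  · exact absurd h.symm (hub_F _ _)
  · exact absurd h.symm (lab_F _ _ _)
  · rw [D.F_inj h]

/-- boxes of the segments and the positions of the vertices: local segments -/
theorem av_loc {v : V} {K : Kd} {w : V1 Γ} (h : InBox (D.pos w) (D.ev (.loc v K))) :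
    (∃ l, w = .inr (.inl (v, l)) ∧ InBox (lab l) (K.p, K.q)) ∨
      (∃ a, w = .inr (.inr a) ∧ a.1.1 = v ∧
        InBox (D.side v a.1.2).fp (K.p, K.q)) := by
  have hR := D.R64
  obtain ⟨⟨b1, b2, b3, b4⟩, c1, c2, c3, c4⟩ := K.box
  obtain ⟨p1, p2, p3, p4⟩ := D.inn_P v ⟨b1, b2⟩ ⟨b3, b4⟩
  obtain ⟨q1, q2, q3, q4⟩ := D.inn_P v ⟨c1, c2⟩ ⟨c3, c4⟩
  rcases w with i | ⟨u, l⟩ | a
  · exfalso
    rcases f4 i with rfl | rfl | rfl | rfl <;>
      simp only [InBox, pos, hub, ev] at h <;> omega
  · left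
    have e1 := D.P1 v ⟨b1, b2⟩
    have e2 := D.P1 v ⟨c1, c2⟩
    by_cases huv : u = v
    · subst huv
      exact ⟨l, rfl, inBox_Pl h⟩
    · exfalso
      have hX : D.X u ≠ D.X v := fun h => huv (D.Xinj h)
      have e3 := D.lx u l
      simp only [InBox, pos, ev] at h
      simp only [x] at e1 e2 e3
      omega
  · right
    by_cases hav : a.1.1 = v
    · refine ⟨a, rfl, hav, ?_⟩
      subst hav
      exact inBox_Pl h
    · exfalso
      have hX : D.X a.1.1 ≠ D.X v := fun h => hav (D.Xinj h)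
      have hY : D.Y a.1.1 ≠ D.Y v := fun h => hav (D.Yinj h)
      have e1 := D.P1 v ⟨b1, b2⟩
      have e2 := D.P1 v ⟨c1, c2⟩
      have e3 := D.P2 v ⟨b3, b4⟩
      have e4 := D.P2 v ⟨c3, c4⟩
      simp only [InBox, pos, ev] at h
      rcases D.Fco a with ⟨-, h3, h4⟩ | ⟨-, h3, h4⟩
      · simp only [x] at e1 e2 h4
        omega
      · simp only [y] at e3 e4 h4
        omega

/-- channels -/
theorem av_chan {a : Ar Γ} {w : V1 Γ} (h : InBox (D.pos w) (D.ev (.chan a))) :
    w = .inr (.inr a) := by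
  have hR := D.R64
  obtain ⟨p1, p2, p3, p4⟩ := D.inn_F a
  obtain ⟨q1, q2, q3, q4⟩ := D.inn_G a
  rcases w with i | ⟨u, l⟩ | b
  · exfalso
    rcases f4 i with rfl | rfl | rfl | rfl <;>
      simp only [InBox, pos, hub, ev] at h <;> omega
  · exfalso
    simp only [InBox, pos, ev] at h
    have e3 := D.lx u l
    have e4 := D.ly u l
    by_cases hc : D.c a.1.1 a.1.2 = true
    · obtain ⟨g1, g2, g3, g4⟩ := D.chH a hc
      simp only [x, y] at g2 g3 g4 e3 e4
      omega
    · rw [Bool.not_eq_true] at hc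
      obtain ⟨g1, g2, g3, g4⟩ := D.chV a hc
      simp only [x, y] at g2 g3 g4 e3 e4
      omega
  · by_cases hab : a = b
    · rw [hab]
    · exfalso
      simp only [InBox, pos, ev] at h
      by_cases hca : D.c a.1.1 a.1.2 = true <;> by_cases hcb : D.c b.1.1 b.1.2 = true
      · obtain ⟨g1, g2, g3, g4⟩ := D.chH a hca
        obtain ⟨k1, k2, k3, k4⟩ := D.chH b hcb
        have h : (D.Y a.1.1 = D.Y b.1.1 ∧ D.Y a.1.2 = D.Y b.1.2) ∨
            (D.Y a.1.1 = D.Y b.1.2 ∧ D.Y a.1.2 = D.Y b.1.1) := by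
          simp only [y] at g2 k2
          omega
        rcases h with ⟨h, h'⟩ | ⟨h, h'⟩
        · exact hab (Subtype.ext (Prod.ext (D.Yinj h) (D.Yinj h')))
        · have e1 := D.Yinj h
          have e2 := D.Yinj h'
          exact absurd a.2 (by rw [e1, e2]; exact Γ.asym _ _ b.2)
      · rw [Bool.not_eq_true] at hcb
        obtain ⟨g1, g2, g3, g4⟩ := D.chH a hca
        obtain ⟨k1, k2, k3, k4⟩ := D.chV b hcb
        simp only [x, y] at g2 g3 g4 k2 k3 k4
        omega
      · rw [Bool.not_eq_true] at hca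
        obtain ⟨g1, g2, g3, g4⟩ := D.chV a hca
        obtain ⟨k1, k2, k3, k4⟩ := D.chH b hcb
        simp only [x, y] at g2 g3 g4 k2 k3 k4
        omega
      · rw [Bool.not_eq_true] at hca hcb
        obtain ⟨g1, g2, g3, g4⟩ := D.chV a hca
        obtain ⟨k1, k2, k3, k4⟩ := D.chV b hcb
        have h : (D.X a.1.1 = D.X b.1.1 ∧ D.X a.1.2 = D.X b.1.2) ∨
            (D.X a.1.1 = D.X b.1.2 ∧ D.X a.1.2 = D.X b.1.1) := by
          simp only [x] at g2 k2
          omega
        rcases h with ⟨h, h'⟩ | ⟨h, h'⟩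
        · exact hab (Subtype.ext (Prod.ext (D.Xinj h) (D.Xinj h')))
        · have e1 := D.Xinj h
          have e2 := D.Xinj h'
          exact absurd a.2 (by rw [e1, e2]; exact Γ.asym _ _ b.2)

/-- straight parts of the legs -/
theorem av_ray {v : V} {l : Bool} {i : Fin 4} {w : V1 Γ}
    (h : InBox (D.pos w) (D.ev (.ray v l i))) : w = .inr (.inl (v, l)) := by
  have hR := D.R64
  have hb := D.lbd v l
  rcases w with j | ⟨u, m⟩ | b
  · exfalso
    rcases f4 i with rfl | rfl | rfl | rfl <;> rcases f4 j with rfl | rfl | rfl | rfl <;>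
      simp only [InBox, pos, hub, ev, wall] at h <;> omega
  · by_cases huv : (u, m) = (v, l)
    · rw [huv]
    · exfalso
      have h1 := D.lxne huv
      have h2 := D.lyne huv
      rcases f4 i with rfl | rfl | rfl | rfl <;>
        simp only [InBox, pos, ev, wall] at h <;> omega
  · exfalso
    have e3 := D.lx v l
    have e4 := D.ly v l
    have h5 := D.Fco b
    have e5 : (∃ k, (D.F b).1 = 32 * k + 6 ∨ (D.F b).1 = 32 * k + 10 ∨ (D.F b).1 = 32 * k + 24) ∧
        (∃ k, (D.F b).2 = 32 * k + 4 ∨ (D.F b).2 = 32 * k + 12 ∨ (D.F b).2 = 32 * k + 24) := by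
      simp only [x, y] at h5
      constructor
      · exact ⟨(D.F b).1 / 32, by omega⟩
      · exact ⟨(D.F b).2 / 32, by omega⟩
    obtain ⟨⟨k, hk⟩, k', hk'⟩ := e5
    simp only [x, y] at e3 e4
    rcases f4 i with rfl | rfl | rfl | rfl <;>
      simp only [InBox, pos, ev, wall] at h <;> omega

/-- slanted parts of the legs -/
theorem av_sl {v : V} {l : Bool} {i : Fin 4} {w : V1 Γ}
    (h : InBox (D.pos w) (D.ev (.sl v l i))) : w = .inl i := by
  have hR := D.R64
  have hb := D.lbd v l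
  rcases w with j | ⟨u, m⟩ | b
  · rcases f4 i with rfl | rfl | rfl | rfl <;> rcases f4 j with rfl | rfl | rfl | rfl <;>
      first | rfl | (exfalso; simp only [InBox, pos, hub, ev, wall] at h; omega)
  · exfalso
    have hb' := D.lbd u m
    rcases f4 i with rfl | rfl | rfl | rfl <;>
      simp only [InBox, pos, hub, ev, wall] at h <;> omega
  · exfalso
    obtain ⟨h3, h4, h5, h6⟩ := D.inn_F b
    rcases f4 i with rfl | rfl | rfl | rfl <;>
      simp only [InBox, pos, hub, ev, wall] at h <;> omega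

end Dat
end D1
end Pool.Agent.RAC
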