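import Pool.Agent.Lib_MP_638f75_lc.D2Def

/-!
# Block D2: pairs of edges at hubs, first part
-/

namespace Pool.Agent.RAC

theorem nn00 (C : Set Pt) {n X0 Y0 X1 Y1 : ℤ}
    (h0 : 0 ≤ X0 ∧ X0 < n ∧ 0 ≤ Y0 ∧ Y0 < n) (h1 : 0 ≤ X1 ∧ X1 < n ∧ 0 ≤ Y1 ∧ Y1 < n)
    (n01 : X0 ≠ X1 ∧ Y0 ≠ Y1)
    (hC : cz (hb n 0) ∈ C)
    : OkL C (chN n 0 X0 Y0) (chN n 0 X1 Y1) :=
  okL44 (cYY _ (by omega))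
    (cHV _ (by omega))
    (cSY _ (by omega))
    (cVH _ (by omega))
    (cXX _ (by omega))
    ((cTY _ (by omega)).flip)
    (cSY' _ (by omega))
    ((cTY _ (by omega)).flip')
    (cEee hC (dirL (by omega)))

theorem nn01 (C : Set Pt) {n X0 Y0 X1 Y1 : ℤ}
    (h0 : 0 ≤ X0 ∧ X0 < n ∧ 0 ≤ Y0 ∧ Y0 < n) (h1 : 0 ≤ X1 ∧ X1 < n ∧ 0 ≤ Y1 ∧ Y1 < n)
    (n01 : X0 ≠ X1 ∧ Y0 ≠ Y1)
    : OkL C (chN n 0 X0 Y0) (chN n 1 X1 Y1) :=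
  okL44 (cHV _ (by omega))
    (cSY _ (by omega))
    (cSX' _ (by omega))
    (cSX' _ (by omega))
    (cSX' _ (by omega))
    (cSX' _ (by omega))
    (cSX' _ (by omega))
    (cSX' _ (by omega))
    (cSX' _ (by omega))

theorem nn02 (C : Set Pt) {n X0 Y0 X1 Y1 : ℤ}
    (h0 : 0 ≤ X0 ∧ X0 < n ∧ 0 ≤ Y0 ∧ Y0 < n) (h1 : 0 ≤ X1 ∧ X1 < n ∧ 0 ≤ Y1 ∧ Y1 < n)
    (n01 : X0 ≠ X1 ∧ Y0 ≠ Y1)
    : OkL C (chN n 0 X0 Y0) (chN n 2 X1 Y1) :=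
  okL44 (cYY _ (by omega))
    (cSX' _ (by omega))
    (cSX' _ (by omega))
    (cSX' _ (by omega))
    (cSX' _ (by omega))
    (cSX' _ (by omega))
    (cSX' _ (by omega))
    (cSX' _ (by omega))
    (cSX' _ (by omega))

theorem nn03 (C : Set Pt) {n X0 Y0 X1 Y1 : ℤ}
    (h0 : 0 ≤ X0 ∧ X0 < n ∧ 0 ≤ Y0 ∧ Y0 < n) (h1 : 0 ≤ X1 ∧ X1 < n ∧ 0 ≤ Y1 ∧ Y1 < n)
    (n01 : X0 ≠ X1 ∧ Y0 ≠ Y1)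
    : OkL C (chN n 0 X0 Y0) (chN n 3 X1 Y1) :=
  okL44 (cHV _ (by omega))
    (cSY' _ (by omega))
    (cSY' _ (by omega))
    (cSX' _ (by omega))
    (cSX' _ (by omega))
    (cSY' _ (by omega))
    (cSX' _ (by omega))
    (cSX' _ (by omega))
    (cSY' _ (by omega))

theorem nn04 (C : Set Pt) {n X0 Y0 X1 Y1 : ℤ}
    (h0 : 0 ≤ X0 ∧ X0 < n ∧ 0 ≤ Y0 ∧ Y0 < n) (h1 : 0 ≤ X1 ∧ X1 < n ∧ 0 ≤ Y1 ∧ Y1 < n)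
    (n01 : X0 ≠ X1 ∧ Y0 ≠ Y1)
    : OkL C (chN n 0 X0 Y0) (chN n 4 X1 Y1) :=
  okL44 (cSYd _ (by omega))
    (cYY _ (by omega))
    (cSX _ (by omega))
    (cSX' _ (by omega))
    (cVH _ (by omega))
    (cSX _ (by omega))
    (cSX' _ (by omega))
    (cSY' _ (by omega))
    (cSX _ (by omega))

theorem nn05 (C : Set Pt) {n X0 Y0 X1 Y1 : ℤ}
    (h0 : 0 ≤ X0 ∧ X0 < n ∧ 0 ≤ Y0 ∧ Y0 < n) (h1 : 0 ≤ X1 ∧ X1 < n ∧ 0 ≤ Y1 ∧ Y1 < n)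
    (n01 : X0 ≠ X1 ∧ Y0 ≠ Y1)
    : OkL C (chN n 0 X0 Y0) (chN n 5 X1 Y1) :=
  okL44 (cSYd _ (by omega))
    (cHV _ (by omega))
    (cSY _ (by omega))
    (cSX' _ (by omega))
    (cSX' _ (by omega))
    (cSX' _ (by omega))
    (cSX' _ (by omega))
    (cSX' _ (by omega))
    (cSX' _ (by omega))

theorem nn06 (C : Set Pt) {n X0 Y0 X1 Y1 : ℤ}
    (h0 : 0 ≤ X0 ∧ X0 < n ∧ 0 ≤ Y0 ∧ Y0 < n) (h1 : 0 ≤ X1 ∧ X1 < n ∧ 0 ≤ Y1 ∧ Y1 < n)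
    (n01 : X0 ≠ X1 ∧ Y0 ≠ Y1)
    : OkL C (chN n 0 X0 Y0) (chN n 6 X1 Y1) :=
  okL44 (cSYd _ (by omega))
    (cYY _ (by omega))
    (cSX' _ (by omega))
    (cSX' _ (by omega))
    (cSX' _ (by omega))
    (cSX' _ (by omega))
    (cSX' _ (by omega))
    (cSX' _ (by omega))
    (cSX' _ (by omega))

theorem nn07 (C : Set Pt) {n X0 Y0 X1 Y1 : ℤ}
    (h0 : 0 ≤ X0 ∧ X0 < n ∧ 0 ≤ Y0 ∧ Y0 < n) (h1 : 0 ≤ X1 ∧ X1 < n ∧ 0 ≤ Y1 ∧ Y1 < n)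
    (n01 : X0 ≠ X1 ∧ Y0 ≠ Y1)
    : OkL C (chN n 0 X0 Y0) (chN n 7 X1 Y1) :=
  okL44 (cSYd _ (by omega))
    (cHV _ (by omega))
    (cSY' _ (by omega))
    (cSX' _ (by omega))
    (cSX' _ (by omega))
    (cSX' _ (by omega))
    (cSX' _ (by omega))
    (cSX' _ (by omega))
    (cSX' _ (by omega))

theorem nn11 (C : Set Pt) {n X0 Y0 X1 Y1 : ℤ}
    (h0 : 0 ≤ X0 ∧ X0 < n ∧ 0 ≤ Y0 ∧ Y0 < n) (h1 : 0 ≤ X1 ∧ X1 < n ∧ 0 ≤ Y1 ∧ Y1 < n)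
    (n01 : X0 ≠ X1 ∧ Y0 ≠ Y1)
    (hC : cz (hb n 1) ∈ C)
    : OkL C (chN n 1 X0 Y0) (chN n 1 X1 Y1) :=
  okL44 (cXX _ (by omega))
    (cVH _ (by omega))
    (cSX' _ (by omega))
    (cHV _ (by omega))
    (cYY _ (by omega))
    ((cTX _ (by omega)).flip)
    (cSX _ (by omega))
    ((cTX _ (by omega)).flip')
    (cEee hC (dirL' (by omega)))

theorem nn12 (C : Set Pt) {n X0 Y0 X1 Y1 : ℤ}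
    (h0 : 0 ≤ X0 ∧ X0 < n ∧ 0 ≤ Y0 ∧ Y0 < n) (h1 : 0 ≤ X1 ∧ X1 < n ∧ 0 ≤ Y1 ∧ Y1 < n)
    (n01 : X0 ≠ X1 ∧ Y0 ≠ Y1)
    : OkL C (chN n 1 X0 Y0) (chN n 2 X1 Y1) :=
  okL44 (cVH _ (by omega))
    (cSX' _ (by omega))
    (cSX' _ (by omega))
    (cSY' _ (by omega))
    (cSX' _ (by omega))
    (cSX' _ (by omega))
    (cSY' _ (by omega))
    (cSY' _ (by omega))
    (cSY' _ (by omega))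

theorem nn13 (C : Set Pt) {n X0 Y0 X1 Y1 : ℤ}
    (h0 : 0 ≤ X0 ∧ X0 < n ∧ 0 ≤ Y0 ∧ Y0 < n) (h1 : 0 ≤ X1 ∧ X1 < n ∧ 0 ≤ Y1 ∧ Y1 < n)
    (n01 : X0 ≠ X1 ∧ Y0 ≠ Y1)
    : OkL C (chN n 1 X0 Y0) (chN n 3 X1 Y1) :=
  okL44 (cXX _ (by omega))
    (cSY' _ (by omega))
    (cSX _ (by omega))
    (cSY' _ (by omega))
    (cSY' _ (by omega))
    (cSX _ (by omega))
    (cSX _ (by omega))
    (cSX _ (by omega))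
    (cSX _ (by omega))

theorem nn14 (C : Set Pt) {n X0 Y0 X1 Y1 : ℤ}
    (h0 : 0 ≤ X0 ∧ X0 < n ∧ 0 ≤ Y0 ∧ Y0 < n) (h1 : 0 ≤ X1 ∧ X1 < n ∧ 0 ≤ Y1 ∧ Y1 < n)
    (n01 : X0 ≠ X1 ∧ Y0 ≠ Y1)
    : OkL C (chN n 1 X0 Y0) (chN n 4 X1 Y1) :=
  okL44 (cSXd _ (by omega))
    (cVH _ (by omega))
    (cSX _ (by omega))
    (cSY' _ (by omega))
    (cSY' _ (by omega))
    (cSX _ (by omega))
    (cSX _ (by omega))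
    (cSX _ (by omega))
    (cSX _ (by omega))

theorem nn15 (C : Set Pt) {n X0 Y0 X1 Y1 : ℤ}
    (h0 : 0 ≤ X0 ∧ X0 < n ∧ 0 ≤ Y0 ∧ Y0 < n) (h1 : 0 ≤ X1 ∧ X1 < n ∧ 0 ≤ Y1 ∧ Y1 < n)
    (n01 : X0 ≠ X1 ∧ Y0 ≠ Y1)
    : OkL C (chN n 1 X0 Y0) (chN n 5 X1 Y1) :=
  okL44 (cSXd _ (by omega))
    (cXX _ (by omega))
    (cSY _ (by omega))
    (cSY' _ (by omega))
    (cHV _ (by omega))
    (cSY _ (by omega))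
    (cSX _ (by omega))
    (cSX _ (by omega))
    (cSX _ (by omega))

theorem nn16 (C : Set Pt) {n X0 Y0 X1 Y1 : ℤ}
    (h0 : 0 ≤ X0 ∧ X0 < n ∧ 0 ≤ Y0 ∧ Y0 < n) (h1 : 0 ≤ X1 ∧ X1 < n ∧ 0 ≤ Y1 ∧ Y1 < n)
    (n01 : X0 ≠ X1 ∧ Y0 ≠ Y1)
    : OkL C (chN n 1 X0 Y0) (chN n 6 X1 Y1) :=
  okL44 (cSXd _ (by omega))
    (cVH _ (by omega))
    (cSX' _ (by omega))
    (cSY' _ (by omega))
    (cSY' _ (by omega))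
    (cSX' _ (by omega))
    (cSX _ (by omega))
    (cSY' _ (by omega))
    (cSX' _ (by omega))

theorem nn17 (C : Set Pt) {n X0 Y0 X1 Y1 : ℤ}
    (h0 : 0 ≤ X0 ∧ X0 < n ∧ 0 ≤ Y0 ∧ Y0 < n) (h1 : 0 ≤ X1 ∧ X1 < n ∧ 0 ≤ Y1 ∧ Y1 < n)
    (n01 : X0 ≠ X1 ∧ Y0 ≠ Y1)
    : OkL C (chN n 1 X0 Y0) (chN n 7 X1 Y1) :=
  okL44 (cSXd _ (by omega))
    (cXX _ (by omega))
    (cSY' _ (by omega))
    (cSY' _ (by omega))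
    (cSY' _ (by omega))
    (cSY' _ (by omega))
    (cSX _ (by omega))
    (cSX _ (by omega))
    (cSX _ (by omega))

theorem nn22 (C : Set Pt) {n X0 Y0 X1 Y1 : ℤ}
    (h0 : 0 ≤ X0 ∧ X0 < n ∧ 0 ≤ Y0 ∧ Y0 < n) (h1 : 0 ≤ X1 ∧ X1 < n ∧ 0 ≤ Y1 ∧ Y1 < n)
    (n01 : X0 ≠ X1 ∧ Y0 ≠ Y1)
    (hC : cz (hb n 2) ∈ C)
    : OkL C (chN n 2 X0 Y0) (chN n 2 X1 Y1) :=
  okL44 (cYY _ (by omega))
    (cHV _ (by omega))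
    (cSY' _ (by omega))
    (cVH _ (by omega))
    (cXX _ (by omega))
    ((cTY _ (by omega)).flip)
    (cSY _ (by omega))
    ((cTY _ (by omega)).flip')
    (cEee hC (dirL (by omega)))

theorem nn23 (C : Set Pt) {n X0 Y0 X1 Y1 : ℤ}
    (h0 : 0 ≤ X0 ∧ X0 < n ∧ 0 ≤ Y0 ∧ Y0 < n) (h1 : 0 ≤ X1 ∧ X1 < n ∧ 0 ≤ Y1 ∧ Y1 < n)
    (n01 : X0 ≠ X1 ∧ Y0 ≠ Y1)
    : OkL C (chN n 2 X0 Y0) (chN n 3 X1 Y1) :=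
  okL44 (cHV _ (by omega))
    (cSY' _ (by omega))
    (cSX _ (by omega))
    (cSX _ (by omega))
    (cSX _ (by omega))
    (cSX _ (by omega))
    (cSX _ (by omega))
    (cSX _ (by omega))
    (cSX _ (by omega))

theorem nn24 (C : Set Pt) {n X0 Y0 X1 Y1 : ℤ}
    (h0 : 0 ≤ X0 ∧ X0 < n ∧ 0 ≤ Y0 ∧ Y0 < n) (h1 : 0 ≤ X1 ∧ X1 < n ∧ 0 ≤ Y1 ∧ Y1 < n)
    (n01 : X0 ≠ X1 ∧ Y0 ≠ Y1)
    : OkL C (chN n 2 X0 Y0) (chN n 4 X1 Y1) :=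
  okL44 (cSYd _ (by omega))
    (cYY _ (by omega))
    (cSX _ (by omega))
    (cSX _ (by omega))
    (cSX _ (by omega))
    (cSX _ (by omega))
    (cSX _ (by omega))
    (cSX _ (by omega))
    (cSX _ (by omega))


end Pool.Agent.RAC
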