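import Pool.Agent.Lib_MP_638f75_lc.D2Def

/-!
# Block D2: pairs of edges at hubs, second part
-/

namespace Pool.Agent.RAC

theorem nn25 (C : Set Pt) {n X0 Y0 X1 Y1 : ℤ}
    (h0 : 0 ≤ X0 ∧ X0 < n ∧ 0 ≤ Y0 ∧ Y0 < n) (h1 : 0 ≤ X1 ∧ X1 < n ∧ 0 ≤ Y1 ∧ Y1 < n)
    (n01 : X0 ≠ X1 ∧ Y0 ≠ Y1)
    : OkL C (chN n 2 X0 Y0) (chN n 5 X1 Y1) :=
  okL44 (cSYd _ (by omega))
    (cHV _ (by omega))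
    (cSY _ (by omega))
    (cSX _ (by omega))
    (cSX _ (by omega))
    (cSX _ (by omega))
    (cSX _ (by omega))
    (cSX _ (by omega))
    (cSX _ (by omega))

theorem nn26 (C : Set Pt) {n X0 Y0 X1 Y1 : ℤ}
    (h0 : 0 ≤ X0 ∧ X0 < n ∧ 0 ≤ Y0 ∧ Y0 < n) (h1 : 0 ≤ X1 ∧ X1 < n ∧ 0 ≤ Y1 ∧ Y1 < n)
    (n01 : X0 ≠ X1 ∧ Y0 ≠ Y1)
    : OkL C (chN n 2 X0 Y0) (chN n 6 X1 Y1) :=
  okL44 (cSYd _ (by omega))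
    (cYY _ (by omega))
    (cSX' _ (by omega))
    (cSX _ (by omega))
    (cVH _ (by omega))
    (cSX' _ (by omega))
    (cSX _ (by omega))
    (cSY _ (by omega))
    (cSX' _ (by omega))

theorem nn27 (C : Set Pt) {n X0 Y0 X1 Y1 : ℤ}
    (h0 : 0 ≤ X0 ∧ X0 < n ∧ 0 ≤ Y0 ∧ Y0 < n) (h1 : 0 ≤ X1 ∧ X1 < n ∧ 0 ≤ Y1 ∧ Y1 < n)
    (n01 : X0 ≠ X1 ∧ Y0 ≠ Y1)
    : OkL C (chN n 2 X0 Y0) (chN n 7 X1 Y1) :=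
  okL44 (cSYd _ (by omega))
    (cHV _ (by omega))
    (cSY' _ (by omega))
    (cSX _ (by omega))
    (cSX _ (by omega))
    (cSX _ (by omega))
    (cSX _ (by omega))
    (cSX _ (by omega))
    (cSX _ (by omega))

theorem nn33 (C : Set Pt) {n X0 Y0 X1 Y1 : ℤ}
    (h0 : 0 ≤ X0 ∧ X0 < n ∧ 0 ≤ Y0 ∧ Y0 < n) (h1 : 0 ≤ X1 ∧ X1 < n ∧ 0 ≤ Y1 ∧ Y1 < n)
    (n01 : X0 ≠ X1 ∧ Y0 ≠ Y1)
    (hC : cz (hb n 3) ∈ C)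
    : OkL C (chN n 3 X0 Y0) (chN n 3 X1 Y1) :=
  okL44 (cXX _ (by omega))
    (cVH _ (by omega))
    (cSX _ (by omega))
    (cHV _ (by omega))
    (cYY _ (by omega))
    ((cTX _ (by omega)).flip)
    (cSX' _ (by omega))
    ((cTX _ (by omega)).flip')
    (cEee hC (dirL' (by omega)))

theorem nn34 (C : Set Pt) {n X0 Y0 X1 Y1 : ℤ}
    (h0 : 0 ≤ X0 ∧ X0 < n ∧ 0 ≤ Y0 ∧ Y0 < n) (h1 : 0 ≤ X1 ∧ X1 < n ∧ 0 ≤ Y1 ∧ Y1 < n)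
    (n01 : X0 ≠ X1 ∧ Y0 ≠ Y1)
    : OkL C (chN n 3 X0 Y0) (chN n 4 X1 Y1) :=
  okL44 (cSXd _ (by omega))
    (cVH _ (by omega))
    (cSX _ (by omega))
    (cSY _ (by omega))
    (cSY _ (by omega))
    (cSX _ (by omega))
    (cSX' _ (by omega))
    (cSY _ (by omega))
    (cSX _ (by omega))

theorem nn35 (C : Set Pt) {n X0 Y0 X1 Y1 : ℤ}
    (h0 : 0 ≤ X0 ∧ X0 < n ∧ 0 ≤ Y0 ∧ Y0 < n) (h1 : 0 ≤ X1 ∧ X1 < n ∧ 0 ≤ Y1 ∧ Y1 < n)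
    (n01 : X0 ≠ X1 ∧ Y0 ≠ Y1)
    : OkL C (chN n 3 X0 Y0) (chN n 5 X1 Y1) :=
  okL44 (cSXd _ (by omega))
    (cXX _ (by omega))
    (cSY _ (by omega))
    (cSY _ (by omega))
    (cSY _ (by omega))
    (cSY _ (by omega))
    (cSX' _ (by omega))
    (cSX' _ (by omega))
    (cSX' _ (by omega))

theorem nn36 (C : Set Pt) {n X0 Y0 X1 Y1 : ℤ}
    (h0 : 0 ≤ X0 ∧ X0 < n ∧ 0 ≤ Y0 ∧ Y0 < n) (h1 : 0 ≤ X1 ∧ X1 < n ∧ 0 ≤ Y1 ∧ Y1 < n)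
    (n01 : X0 ≠ X1 ∧ Y0 ≠ Y1)
    : OkL C (chN n 3 X0 Y0) (chN n 6 X1 Y1) :=
  okL44 (cSXd _ (by omega))
    (cVH _ (by omega))
    (cSX' _ (by omega))
    (cSY _ (by omega))
    (cSY _ (by omega))
    (cSX' _ (by omega))
    (cSX' _ (by omega))
    (cSX' _ (by omega))
    (cSX' _ (by omega))

theorem nn37 (C : Set Pt) {n X0 Y0 X1 Y1 : ℤ}
    (h0 : 0 ≤ X0 ∧ X0 < n ∧ 0 ≤ Y0 ∧ Y0 < n) (h1 : 0 ≤ X1 ∧ X1 < n ∧ 0 ≤ Y1 ∧ Y1 < n)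
    (n01 : X0 ≠ X1 ∧ Y0 ≠ Y1)
    : OkL C (chN n 3 X0 Y0) (chN n 7 X1 Y1) :=
  okL44 (cSXd _ (by omega))
    (cXX _ (by omega))
    (cSY' _ (by omega))
    (cSY _ (by omega))
    (cHV _ (by omega))
    (cSY' _ (by omega))
    (cSX' _ (by omega))
    (cSX' _ (by omega))
    (cSX' _ (by omega))

theorem nn44 (C : Set Pt) {n X0 Y0 X1 Y1 : ℤ}
    (h0 : 0 ≤ X0 ∧ X0 < n ∧ 0 ≤ Y0 ∧ Y0 < n) (h1 : 0 ≤ X1 ∧ X1 < n ∧ 0 ≤ Y1 ∧ Y1 < n)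
    (n01 : X0 ≠ X1 ∧ Y0 ≠ Y1)
    (hC : cz (hb n 4) ∈ C)
    : OkL C (chN n 4 X0 Y0) (chN n 4 X1 Y1) :=
  okL44 (cSYd _ (by omega))
    (cSYd _ (by omega))
    (cSX _ (by omega))
    (cSYd _ (by omega))
    (cYY _ (by omega))
    ((cTX _ (by omega)).flip)
    (cSX' _ (by omega))
    ((cTX _ (by omega)).flip')
    (cEee hC (dirL' (by omega)))

theorem nn45 (C : Set Pt) {n X0 Y0 X1 Y1 : ℤ}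
    (h0 : 0 ≤ X0 ∧ X0 < n ∧ 0 ≤ Y0 ∧ Y0 < n) (h1 : 0 ≤ X1 ∧ X1 < n ∧ 0 ≤ Y1 ∧ Y1 < n)
    (n01 : X0 ≠ X1 ∧ Y0 ≠ Y1)
    : OkL C (chN n 4 X0 Y0) (chN n 5 X1 Y1) :=
  okL44 (cSYd _ (by omega))
    (cSXd _ (by omega))
    (cSY _ (by omega))
    (cSYd _ (by omega))
    (cHV _ (by omega))
    (cSY _ (by omega))
    (cSX' _ (by omega))
    (cSX' _ (by omega))
    (cSX' _ (by omega))

theorem nn46 (C : Set Pt) {n X0 Y0 X1 Y1 : ℤ}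
    (h0 : 0 ≤ X0 ∧ X0 < n ∧ 0 ≤ Y0 ∧ Y0 < n) (h1 : 0 ≤ X1 ∧ X1 < n ∧ 0 ≤ Y1 ∧ Y1 < n)
    (n01 : X0 ≠ X1 ∧ Y0 ≠ Y1)
    : OkL C (chN n 4 X0 Y0) (chN n 6 X1 Y1) :=
  okL44 (cSYd _ (by omega))
    (cSYd _ (by omega))
    (cSX' _ (by omega))
    (cSYd _ (by omega))
    (cYY _ (by omega))
    (cSX' _ (by omega))
    (cSX' _ (by omega))
    (cSX' _ (by omega))
    (cSX' _ (by omega))

theorem nn47 (C : Set Pt) {n X0 Y0 X1 Y1 : ℤ}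
    (h0 : 0 ≤ X0 ∧ X0 < n ∧ 0 ≤ Y0 ∧ Y0 < n) (h1 : 0 ≤ X1 ∧ X1 < n ∧ 0 ≤ Y1 ∧ Y1 < n)
    (n01 : X0 ≠ X1 ∧ Y0 ≠ Y1)
    : OkL C (chN n 4 X0 Y0) (chN n 7 X1 Y1) :=
  okL44 (cSYd _ (by omega))
    (cSXd _ (by omega))
    (cSY' _ (by omega))
    (cSYd _ (by omega))
    (cHV _ (by omega))
    (cSY' _ (by omega))
    (cSX' _ (by omega))
    (cSX' _ (by omega))
    (cSX' _ (by omega))

theorem nn55 (C : Set Pt) {n X0 Y0 X1 Y1 : ℤ}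
    (h0 : 0 ≤ X0 ∧ X0 < n ∧ 0 ≤ Y0 ∧ Y0 < n) (h1 : 0 ≤ X1 ∧ X1 < n ∧ 0 ≤ Y1 ∧ Y1 < n)
    (n01 : X0 ≠ X1 ∧ Y0 ≠ Y1)
    (hC : cz (hb n 5) ∈ C)
    : OkL C (chN n 5 X0 Y0) (chN n 5 X1 Y1) :=
  okL44 (cSYd _ (by omega))
    (cSXd _ (by omega))
    (cSY _ (by omega))
    (cSXd _ (by omega))
    (cXX _ (by omega))
    ((cTY _ (by omega)).flip)
    (cSY' _ (by omega))
    ((cTY _ (by omega)).flip')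
    (cEee hC (dirL (by omega)))

theorem nn56 (C : Set Pt) {n X0 Y0 X1 Y1 : ℤ}
    (h0 : 0 ≤ X0 ∧ X0 < n ∧ 0 ≤ Y0 ∧ Y0 < n) (h1 : 0 ≤ X1 ∧ X1 < n ∧ 0 ≤ Y1 ∧ Y1 < n)
    (n01 : X0 ≠ X1 ∧ Y0 ≠ Y1)
    : OkL C (chN n 5 X0 Y0) (chN n 6 X1 Y1) :=
  okL44 (cSYd _ (by omega))
    (cSYd _ (by omega))
    (cSX' _ (by omega))
    (cSXd _ (by omega))
    (cVH _ (by omega))
    (cSX' _ (by omega))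
    (cSY' _ (by omega))
    (cSY' _ (by omega))
    (cSX' _ (by omega))

theorem nn57 (C : Set Pt) {n X0 Y0 X1 Y1 : ℤ}
    (h0 : 0 ≤ X0 ∧ X0 < n ∧ 0 ≤ Y0 ∧ Y0 < n) (h1 : 0 ≤ X1 ∧ X1 < n ∧ 0 ≤ Y1 ∧ Y1 < n)
    (n01 : X0 ≠ X1 ∧ Y0 ≠ Y1)
    : OkL C (chN n 5 X0 Y0) (chN n 7 X1 Y1) :=
  okL44 (cSYd _ (by omega))
    (cSXd _ (by omega))
    (cSY' _ (by omega))
    (cSXd _ (by omega))
    (cXX _ (by omega))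
    (cSY' _ (by omega))
    (cSY' _ (by omega))
    (cSY' _ (by omega))
    (cSY' _ (by omega))

theorem nn66 (C : Set Pt) {n X0 Y0 X1 Y1 : ℤ}
    (h0 : 0 ≤ X0 ∧ X0 < n ∧ 0 ≤ Y0 ∧ Y0 < n) (h1 : 0 ≤ X1 ∧ X1 < n ∧ 0 ≤ Y1 ∧ Y1 < n)
    (n01 : X0 ≠ X1 ∧ Y0 ≠ Y1)
    (hC : cz (hb n 6) ∈ C)
    : OkL C (chN n 6 X0 Y0) (chN n 6 X1 Y1) :=
  okL44 (cSYd _ (by omega))
    (cSYd _ (by omega))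
    (cSX' _ (by omega))
    (cSYd _ (by omega))
    (cYY _ (by omega))
    ((cTX _ (by omega)).flip)
    (cSX _ (by omega))
    ((cTX _ (by omega)).flip')
    (cEee hC (dirL' (by omega)))

theorem nn67 (C : Set Pt) {n X0 Y0 X1 Y1 : ℤ}
    (h0 : 0 ≤ X0 ∧ X0 < n ∧ 0 ≤ Y0 ∧ Y0 < n) (h1 : 0 ≤ X1 ∧ X1 < n ∧ 0 ≤ Y1 ∧ Y1 < n)
    (n01 : X0 ≠ X1 ∧ Y0 ≠ Y1)
    : OkL C (chN n 6 X0 Y0) (chN n 7 X1 Y1) :=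
  okL44 (cSYd _ (by omega))
    (cSXd _ (by omega))
    (cSY' _ (by omega))
    (cSYd _ (by omega))
    (cHV _ (by omega))
    (cSY' _ (by omega))
    (cSX _ (by omega))
    (cSX _ (by omega))
    (cSX _ (by omega))

theorem nn77 (C : Set Pt) {n X0 Y0 X1 Y1 : ℤ}
    (h0 : 0 ≤ X0 ∧ X0 < n ∧ 0 ≤ Y0 ∧ Y0 < n) (h1 : 0 ≤ X1 ∧ X1 < n ∧ 0 ≤ Y1 ∧ Y1 < n)
    (n01 : X0 ≠ X1 ∧ Y0 ≠ Y1)
    (hC : cz (hb n 7) ∈ C)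
    : OkL C (chN n 7 X0 Y0) (chN n 7 X1 Y1) :=
  okL44 (cSYd _ (by omega))
    (cSXd _ (by omega))
    (cSY' _ (by omega))
    (cSXd _ (by omega))
    (cXX _ (by omega))
    ((cTY _ (by omega)).flip)
    (cSY _ (by omega))
    ((cTY _ (by omega)).flip')
    (cEee hC (dirL (by omega)))


end Pool.Agent.RAC
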