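import Pool.Agent.Lib_MP_638f75_lc.D2Def

/-!
# Block D2: pairs of edges at hubs with a common vertex
-/

namespace Pool.Agent.RAC

theorem ne01 (C : Set Pt) {n X0 Y0 : ℤ}
    (h0 : 0 ≤ X0 ∧ X0 < n ∧ 0 ≤ Y0 ∧ Y0 < n)
    (hC : cz (16 * (X0 + 1), 16 * (Y0 + 1)) ∈ C)
    : OkL C (chN n 0 X0 Y0) (chN n 1 X0 Y0) :=
  okL44 (cEss hC (dirH (by omega)))
    (cSY _ (by omega))
    (cSX' _ (by omega))
    (cSX' _ (by omega))
    (cSX' _ (by omega))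
    (cSX' _ (by omega))
    (cSX' _ (by omega))
    (cSX' _ (by omega))
    (cSX' _ (by omega))

theorem ne02 (C : Set Pt) {n X0 Y0 : ℤ}
    (h0 : 0 ≤ X0 ∧ X0 < n ∧ 0 ≤ Y0 ∧ Y0 < n)
    (hC : cz (16 * (X0 + 1), 16 * (Y0 + 1)) ∈ C)
    : OkL C (chN n 0 X0 Y0) (chN n 2 X0 Y0) :=
  okL44 (cEss hC (dirO (by omega)))
    (cSX' _ (by omega))
    (cSX' _ (by omega))
    (cSX' _ (by omega))
    (cSX' _ (by omega))
    (cSX' _ (by omega))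
    (cSX' _ (by omega))
    (cSX' _ (by omega))
    (cSX' _ (by omega))

theorem ne03 (C : Set Pt) {n X0 Y0 : ℤ}
    (h0 : 0 ≤ X0 ∧ X0 < n ∧ 0 ≤ Y0 ∧ Y0 < n)
    (hC : cz (16 * (X0 + 1), 16 * (Y0 + 1)) ∈ C)
    : OkL C (chN n 0 X0 Y0) (chN n 3 X0 Y0) :=
  okL44 (cEss hC (dirH (by omega)))
    (cSY' _ (by omega))
    (cSY' _ (by omega))
    (cSX' _ (by omega))
    (cSX' _ (by omega))
    (cSY' _ (by omega))
    (cSX' _ (by omega))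
    (cSX' _ (by omega))
    (cSY' _ (by omega))

theorem ne04 (C : Set Pt) {n X0 Y0 : ℤ}
    (h0 : 0 ≤ X0 ∧ X0 < n ∧ 0 ≤ Y0 ∧ Y0 < n)
    (hC : cz (16 * (X0 + 1), 16 * (Y0 + 1)) ∈ C)
    : OkL C (chN n 0 X0 Y0) (chN n 4 X0 Y0) :=
  okL44 (cEss hC (dirH (by omega)))
    (cSY _ (by omega))
    (cSX _ (by omega))
    (cSX' _ (by omega))
    (cVH _ (by omega))
    (cSX _ (by omega))
    (cSX' _ (by omega))
    (cSY' _ (by omega))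
    (cSX _ (by omega))

theorem ne05 (C : Set Pt) {n X0 Y0 : ℤ}
    (h0 : 0 ≤ X0 ∧ X0 < n ∧ 0 ≤ Y0 ∧ Y0 < n)
    (hC : cz (16 * (X0 + 1), 16 * (Y0 + 1)) ∈ C)
    : OkL C (chN n 0 X0 Y0) (chN n 5 X0 Y0) :=
  okL44 (cEss hC (dirH (by omega)))
    (cSX' _ (by omega))
    (cSY _ (by omega))
    (cSX' _ (by omega))
    (cSX' _ (by omega))
    (cSX' _ (by omega))
    (cSX' _ (by omega))
    (cSX' _ (by omega))
    (cSX' _ (by omega))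

theorem ne06 (C : Set Pt) {n X0 Y0 : ℤ}
    (h0 : 0 ≤ X0 ∧ X0 < n ∧ 0 ≤ Y0 ∧ Y0 < n)
    (hC : cz (16 * (X0 + 1), 16 * (Y0 + 1)) ∈ C)
    : OkL C (chN n 0 X0 Y0) (chN n 6 X0 Y0) :=
  okL44 (cEss hC (dirH (by omega)))
    (cSX' _ (by omega))
    (cSX' _ (by omega))
    (cSX' _ (by omega))
    (cSX' _ (by omega))
    (cSX' _ (by omega))
    (cSX' _ (by omega))
    (cSX' _ (by omega))
    (cSX' _ (by omega))

theorem ne07 (C : Set Pt) {n X0 Y0 : ℤ}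
    (h0 : 0 ≤ X0 ∧ X0 < n ∧ 0 ≤ Y0 ∧ Y0 < n)
    (hC : cz (16 * (X0 + 1), 16 * (Y0 + 1)) ∈ C)
    : OkL C (chN n 0 X0 Y0) (chN n 7 X0 Y0) :=
  okL44 (cEss hC (dirH (by omega)))
    (cSY' _ (by omega))
    (cSY' _ (by omega))
    (cSX' _ (by omega))
    (cSX' _ (by omega))
    (cSX' _ (by omega))
    (cSX' _ (by omega))
    (cSX' _ (by omega))
    (cSX' _ (by omega))

theorem ne12 (C : Set Pt) {n X0 Y0 : ℤ}
    (h0 : 0 ≤ X0 ∧ X0 < n ∧ 0 ≤ Y0 ∧ Y0 < n)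
    (hC : cz (16 * (X0 + 1), 16 * (Y0 + 1)) ∈ C)
    : OkL C (chN n 1 X0 Y0) (chN n 2 X0 Y0) :=
  okL44 (cEss hC ((dirH (by omega)).symm))
    (cSX' _ (by omega))
    (cSX' _ (by omega))
    (cSY' _ (by omega))
    (cSX' _ (by omega))
    (cSX' _ (by omega))
    (cSY' _ (by omega))
    (cSY' _ (by omega))
    (cSY' _ (by omega))

theorem ne13 (C : Set Pt) {n X0 Y0 : ℤ}
    (h0 : 0 ≤ X0 ∧ X0 < n ∧ 0 ≤ Y0 ∧ Y0 < n)
    (hC : cz (16 * (X0 + 1), 16 * (Y0 + 1)) ∈ C)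
    : OkL C (chN n 1 X0 Y0) (chN n 3 X0 Y0) :=
  okL44 (cEss hC (dirO' (by omega)))
    (cSY' _ (by omega))
    (cSX _ (by omega))
    (cSY' _ (by omega))
    (cSY' _ (by omega))
    (cSX _ (by omega))
    (cSX _ (by omega))
    (cSX _ (by omega))
    (cSX _ (by omega))

theorem ne14 (C : Set Pt) {n X0 Y0 : ℤ}
    (h0 : 0 ≤ X0 ∧ X0 < n ∧ 0 ≤ Y0 ∧ Y0 < n)
    (hC : cz (16 * (X0 + 1), 16 * (Y0 + 1)) ∈ C)
    : OkL C (chN n 1 X0 Y0) (chN n 4 X0 Y0) :=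
  okL44 (cEss hC (dirV (by omega)))
    (cSX _ (by omega))
    (cSX _ (by omega))
    (cSY' _ (by omega))
    (cSX _ (by omega))
    (cSX _ (by omega))
    (cSX _ (by omega))
    (cSX _ (by omega))
    (cSX _ (by omega))

theorem ne15 (C : Set Pt) {n X0 Y0 : ℤ}
    (h0 : 0 ≤ X0 ∧ X0 < n ∧ 0 ≤ Y0 ∧ Y0 < n)
    (hC : cz (16 * (X0 + 1), 16 * (Y0 + 1)) ∈ C)
    : OkL C (chN n 1 X0 Y0) (chN n 5 X0 Y0) :=
  okL44 (cEss hC (dirV (by omega)))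
    (cSX' _ (by omega))
    (cSY _ (by omega))
    (cSY' _ (by omega))
    (cHV _ (by omega))
    (cSY _ (by omega))
    (cSX _ (by omega))
    (cSX _ (by omega))
    (cSX _ (by omega))

theorem ne16 (C : Set Pt) {n X0 Y0 : ℤ}
    (h0 : 0 ≤ X0 ∧ X0 < n ∧ 0 ≤ Y0 ∧ Y0 < n)
    (hC : cz (16 * (X0 + 1), 16 * (Y0 + 1)) ∈ C)
    : OkL C (chN n 1 X0 Y0) (chN n 6 X0 Y0) :=
  okL44 (cEss hC (dirV (by omega)))
    (cSX' _ (by omega))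
    (cSX' _ (by omega))
    (cSY' _ (by omega))
    (cSY' _ (by omega))
    (cSX' _ (by omega))
    (cSX _ (by omega))
    (cSY' _ (by omega))
    (cSX' _ (by omega))

theorem ne17 (C : Set Pt) {n X0 Y0 : ℤ}
    (h0 : 0 ≤ X0 ∧ X0 < n ∧ 0 ≤ Y0 ∧ Y0 < n)
    (hC : cz (16 * (X0 + 1), 16 * (Y0 + 1)) ∈ C)
    : OkL C (chN n 1 X0 Y0) (chN n 7 X0 Y0) :=
  okL44 (cEss hC (dirV (by omega)))
    (cSX _ (by omega))
    (cSY' _ (by omega))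
    (cSY' _ (by omega))
    (cSX _ (by omega))
    (cSY' _ (by omega))
    (cSX _ (by omega))
    (cSX _ (by omega))
    (cSX _ (by omega))

theorem ne23 (C : Set Pt) {n X0 Y0 : ℤ}
    (h0 : 0 ≤ X0 ∧ X0 < n ∧ 0 ≤ Y0 ∧ Y0 < n)
    (hC : cz (16 * (X0 + 1), 16 * (Y0 + 1)) ∈ C)
    : OkL C (chN n 2 X0 Y0) (chN n 3 X0 Y0) :=
  okL44 (cEss hC (dirH (by omega)))
    (cSY' _ (by omega))
    (cSX _ (by omega))
    (cSX _ (by omega))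
    (cSX _ (by omega))
    (cSX _ (by omega))
    (cSX _ (by omega))
    (cSX _ (by omega))
    (cSX _ (by omega))

theorem ne24 (C : Set Pt) {n X0 Y0 : ℤ}
    (h0 : 0 ≤ X0 ∧ X0 < n ∧ 0 ≤ Y0 ∧ Y0 < n)
    (hC : cz (16 * (X0 + 1), 16 * (Y0 + 1)) ∈ C)
    : OkL C (chN n 2 X0 Y0) (chN n 4 X0 Y0) :=
  okL44 (cEss hC (dirH (by omega)))
    (cSX _ (by omega))
    (cSX _ (by omega))
    (cSX _ (by omega))
    (cSX _ (by omega))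
    (cSX _ (by omega))
    (cSX _ (by omega))
    (cSX _ (by omega))
    (cSX _ (by omega))

theorem ne25 (C : Set Pt) {n X0 Y0 : ℤ}
    (h0 : 0 ≤ X0 ∧ X0 < n ∧ 0 ≤ Y0 ∧ Y0 < n)
    (hC : cz (16 * (X0 + 1), 16 * (Y0 + 1)) ∈ C)
    : OkL C (chN n 2 X0 Y0) (chN n 5 X0 Y0) :=
  okL44 (cEss hC (dirH (by omega)))
    (cSY _ (by omega))
    (cSY _ (by omega))
    (cSX _ (by omega))
    (cSX _ (by omega))
    (cSX _ (by omega))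
    (cSX _ (by omega))
    (cSX _ (by omega))
    (cSX _ (by omega))

theorem ne26 (C : Set Pt) {n X0 Y0 : ℤ}
    (h0 : 0 ≤ X0 ∧ X0 < n ∧ 0 ≤ Y0 ∧ Y0 < n)
    (hC : cz (16 * (X0 + 1), 16 * (Y0 + 1)) ∈ C)
    : OkL C (chN n 2 X0 Y0) (chN n 6 X0 Y0) :=
  okL44 (cEss hC (dirH (by omega)))
    (cSY' _ (by omega))
    (cSX' _ (by omega))
    (cSX _ (by omega))
    (cVH _ (by omega))
    (cSX' _ (by omega))
    (cSX _ (by omega))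
    (cSY _ (by omega))
    (cSX' _ (by omega))

theorem ne27 (C : Set Pt) {n X0 Y0 : ℤ}
    (h0 : 0 ≤ X0 ∧ X0 < n ∧ 0 ≤ Y0 ∧ Y0 < n)
    (hC : cz (16 * (X0 + 1), 16 * (Y0 + 1)) ∈ C)
    : OkL C (chN n 2 X0 Y0) (chN n 7 X0 Y0) :=
  okL44 (cEss hC (dirH (by omega)))
    (cSX _ (by omega))
    (cSY' _ (by omega))
    (cSX _ (by omega))
    (cSX _ (by omega))
    (cSX _ (by omega))
    (cSX _ (by omega))
    (cSX _ (by omega))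
    (cSX _ (by omega))

theorem ne34 (C : Set Pt) {n X0 Y0 : ℤ}
    (h0 : 0 ≤ X0 ∧ X0 < n ∧ 0 ≤ Y0 ∧ Y0 < n)
    (hC : cz (16 * (X0 + 1), 16 * (Y0 + 1)) ∈ C)
    : OkL C (chN n 3 X0 Y0) (chN n 4 X0 Y0) :=
  okL44 (cEss hC (dirV (by omega)))
    (cSX _ (by omega))
    (cSX _ (by omega))
    (cSY _ (by omega))
    (cSY _ (by omega))
    (cSX _ (by omega))
    (cSX' _ (by omega))
    (cSY _ (by omega))
    (cSX _ (by omega))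

theorem ne35 (C : Set Pt) {n X0 Y0 : ℤ}
    (h0 : 0 ≤ X0 ∧ X0 < n ∧ 0 ≤ Y0 ∧ Y0 < n)
    (hC : cz (16 * (X0 + 1), 16 * (Y0 + 1)) ∈ C)
    : OkL C (chN n 3 X0 Y0) (chN n 5 X0 Y0) :=
  okL44 (cEss hC (dirV (by omega)))
    (cSX' _ (by omega))
    (cSY _ (by omega))
    (cSY _ (by omega))
    (cSX' _ (by omega))
    (cSY _ (by omega))
    (cSX' _ (by omega))
    (cSX' _ (by omega))
    (cSX' _ (by omega))

theorem ne36 (C : Set Pt) {n X0 Y0 : ℤ}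
    (h0 : 0 ≤ X0 ∧ X0 < n ∧ 0 ≤ Y0 ∧ Y0 < n)
    (hC : cz (16 * (X0 + 1), 16 * (Y0 + 1)) ∈ C)
    : OkL C (chN n 3 X0 Y0) (chN n 6 X0 Y0) :=
  okL44 (cEss hC (dirV (by omega)))
    (cSX' _ (by omega))
    (cSX' _ (by omega))
    (cSY _ (by omega))
    (cSX' _ (by omega))
    (cSX' _ (by omega))
    (cSX' _ (by omega))
    (cSX' _ (by omega))
    (cSX' _ (by omega))

theorem ne37 (C : Set Pt) {n X0 Y0 : ℤ}
    (h0 : 0 ≤ X0 ∧ X0 < n ∧ 0 ≤ Y0 ∧ Y0 < n)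
    (hC : cz (16 * (X0 + 1), 16 * (Y0 + 1)) ∈ C)
    : OkL C (chN n 3 X0 Y0) (chN n 7 X0 Y0) :=
  okL44 (cEss hC (dirV (by omega)))
    (cSX _ (by omega))
    (cSY' _ (by omega))
    (cSY _ (by omega))
    (cHV _ (by omega))
    (cSY' _ (by omega))
    (cSX' _ (by omega))
    (cSX' _ (by omega))
    (cSX' _ (by omega))

theorem ne45 (C : Set Pt) {n X0 Y0 : ℤ}
    (h0 : 0 ≤ X0 ∧ X0 < n ∧ 0 ≤ Y0 ∧ Y0 < n)
    (hC : cz (16 * (X0 + 1), 16 * (Y0 + 1)) ∈ C)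
    : OkL C (chN n 4 X0 Y0) (chN n 5 X0 Y0) :=
  okL44 (cEss hC (dirN (5) (4) (-4) (5) (by omega) (by decide)))
    (cSX' _ (by omega))
    (cSY _ (by omega))
    (cSX' _ (by omega))
    (cSX' _ (by omega))
    (cSY _ (by omega))
    (cSX' _ (by omega))
    (cSX' _ (by omega))
    (cSX' _ (by omega))

theorem ne46 (C : Set Pt) {n X0 Y0 : ℤ}
    (h0 : 0 ≤ X0 ∧ X0 < n ∧ 0 ≤ Y0 ∧ Y0 < n)
    (hC : cz (16 * (X0 + 1), 16 * (Y0 + 1)) ∈ C)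
    : OkL C (chN n 4 X0 Y0) (chN n 6 X0 Y0) :=
  okL44 (cEss hC (dirN (5) (4) (-5) (-4) (by omega) (by decide)))
    (cSX' _ (by omega))
    (cSX' _ (by omega))
    (cSX' _ (by omega))
    (cSX' _ (by omega))
    (cSX' _ (by omega))
    (cSX' _ (by omega))
    (cSX' _ (by omega))
    (cSX' _ (by omega))

theorem ne47 (C : Set Pt) {n X0 Y0 : ℤ}
    (h0 : 0 ≤ X0 ∧ X0 < n ∧ 0 ≤ Y0 ∧ Y0 < n)
    (hC : cz (16 * (X0 + 1), 16 * (Y0 + 1)) ∈ C)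
    : OkL C (chN n 4 X0 Y0) (chN n 7 X0 Y0) :=
  okL44 (cEss hC (dirN (5) (4) (4) (-5) (by omega) (by decide)))
    (cSY' _ (by omega))
    (cSY' _ (by omega))
    (cSX' _ (by omega))
    (cSX' _ (by omega))
    (cSX' _ (by omega))
    (cSX' _ (by omega))
    (cSX' _ (by omega))
    (cSX' _ (by omega))

theorem ne56 (C : Set Pt) {n X0 Y0 : ℤ}
    (h0 : 0 ≤ X0 ∧ X0 < n ∧ 0 ≤ Y0 ∧ Y0 < n)
    (hC : cz (16 * (X0 + 1), 16 * (Y0 + 1)) ∈ C)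
    : OkL C (chN n 5 X0 Y0) (chN n 6 X0 Y0) :=
  okL44 (cEss hC (dirN (-4) (5) (-5) (-4) (by omega) (by decide)))
    (cSX' _ (by omega))
    (cSX' _ (by omega))
    (cSY' _ (by omega))
    (cSX' _ (by omega))
    (cSX' _ (by omega))
    (cSY' _ (by omega))
    (cSX' _ (by omega))
    (cSX' _ (by omega))

theorem ne57 (C : Set Pt) {n X0 Y0 : ℤ}
    (h0 : 0 ≤ X0 ∧ X0 < n ∧ 0 ≤ Y0 ∧ Y0 < n)
    (hC : cz (16 * (X0 + 1), 16 * (Y0 + 1)) ∈ C)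
    : OkL C (chN n 5 X0 Y0) (chN n 7 X0 Y0) :=
  okL44 (cEss hC (dirN (-4) (5) (4) (-5) (by omega) (by decide)))
    (cSX _ (by omega))
    (cSY' _ (by omega))
    (cSX _ (by omega))
    (cSX _ (by omega))
    (cSY' _ (by omega))
    (cSY' _ (by omega))
    (cSY' _ (by omega))
    (cSY' _ (by omega))

theorem ne67 (C : Set Pt) {n X0 Y0 : ℤ}
    (h0 : 0 ≤ X0 ∧ X0 < n ∧ 0 ≤ Y0 ∧ Y0 < n)
    (hC : cz (16 * (X0 + 1), 16 * (Y0 + 1)) ∈ C)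
    : OkL C (chN n 6 X0 Y0) (chN n 7 X0 Y0) :=
  okL44 (cEss hC (dirN (-5) (-4) (4) (-5) (by omega) (by decide)))
    (cSX _ (by omega))
    (cSY' _ (by omega))
    (cSX _ (by omega))
    (cSX _ (by omega))
    (cSY' _ (by omega))
    (cSX _ (by omega))
    (cSX _ (by omega))
    (cSX _ (by omega))


end Pool.Agent.RAC
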