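import Pool.Agent.Lib_MP_638f75_lc.D2Def

/-!
# Block D2: edges of the two colours with the edges at hubs
-/

namespace Pool.Agent.RAC

theorem hn00 (C : Set Pt) {n X0 Y0 X1 Y1 : ℤ}
    (h0 : 0 ≤ X0 ∧ X0 < n ∧ 0 ≤ Y0 ∧ Y0 < n) (h1 : 0 ≤ X1 ∧ X1 < n ∧ 0 ≤ Y1 ∧ Y1 < n)
    (n01 : X0 ≠ X1 ∧ Y0 ≠ Y1)
    (hY : Y1 = Y0 + 1)
    (hC : cz (16 * (X0 + 1), 16 * (Y0 + 1)) ∈ C)
    : OkL C (chH X0 Y0 X1 Y1) (chN n 0 X0 Y0) :=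
  okL44 (cEss hC ((dirH (by omega)).symm))
    (cSX _ (by omega))
    (cSX _ (by omega))
    (cSY' _ (by omega))
    (cSX _ (by omega))
    (cSX _ (by omega))
    (cSY' _ (by omega))
    (cSX _ (by omega))
    (cSX _ (by omega))

theorem hn10 (C : Set Pt) {n X0 Y0 X1 Y1 : ℤ}
    (h0 : 0 ≤ X0 ∧ X0 < n ∧ 0 ≤ Y0 ∧ Y0 < n) (h1 : 0 ≤ X1 ∧ X1 < n ∧ 0 ≤ Y1 ∧ Y1 < n)
    (n01 : X0 ≠ X1 ∧ Y0 ≠ Y1)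
    (hY : Y1 = Y0 + 1)
    (hC : cz (16 * (X1 + 1), 16 * (Y1 + 1)) ∈ C)
    : OkL C (chH X0 Y0 X1 Y1) (chN n 0 X1 Y1) :=
  okL44 (cSY _ (by omega))
    (cSX _ (by omega))
    (cSX _ (by omega))
    (cSY _ (by omega))
    (cSX _ (by omega))
    (cSX _ (by omega))
    (cEes hC ((dirH (by omega)).symm))
    (cSX _ (by omega))
    (cSX _ (by omega))

theorem hn20 (C : Set Pt) {n X0 Y0 X1 Y1 X2 Y2 : ℤ}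
    (h0 : 0 ≤ X0 ∧ X0 < n ∧ 0 ≤ Y0 ∧ Y0 < n) (h1 : 0 ≤ X1 ∧ X1 < n ∧ 0 ≤ Y1 ∧ Y1 < n) (h2 : 0 ≤ X2 ∧ X2 < n ∧ 0 ≤ Y2 ∧ Y2 < n)
    (n01 : X0 ≠ X1 ∧ Y0 ≠ Y1) (n02 : X0 ≠ X2 ∧ Y0 ≠ Y2) (n12 : X1 ≠ X2 ∧ Y1 ≠ Y2)
    (hY : Y1 = Y0 + 1)
    : OkL C (chH X0 Y0 X1 Y1) (chN n 0 X2 Y2) :=
  okL44 (cSYd _ (by omega))
    (cSX _ (by omega))
    (cSX _ (by omega))
    (cYY _ (by omega))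
    (cSX _ (by omega))
    (cSX _ (by omega))
    (cSYd _ (by omega))
    (cSX _ (by omega))
    (cSX _ (by omega))

theorem hn01 (C : Set Pt) {n X0 Y0 X1 Y1 : ℤ}
    (h0 : 0 ≤ X0 ∧ X0 < n ∧ 0 ≤ Y0 ∧ Y0 < n) (h1 : 0 ≤ X1 ∧ X1 < n ∧ 0 ≤ Y1 ∧ Y1 < n)
    (n01 : X0 ≠ X1 ∧ Y0 ≠ Y1)
    (hY : Y1 = Y0 + 1)
    (hC : cz (16 * (X0 + 1), 16 * (Y0 + 1)) ∈ C)
    : OkL C (chH X0 Y0 X1 Y1) (chN n 1 X0 Y0) :=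
  okL44 (cEss hC ((dirV (by omega)).symm))
    (cSY _ (by omega))
    (cSX' _ (by omega))
    (cHV _ (by omega))
    (cSY _ (by omega))
    (cSX' _ (by omega))
    (cSXd _ (by omega))
    (cSY _ (by omega))
    (cSX' _ (by omega))

theorem hn11 (C : Set Pt) {n X0 Y0 X1 Y1 : ℤ}
    (h0 : 0 ≤ X0 ∧ X0 < n ∧ 0 ≤ Y0 ∧ Y0 < n) (h1 : 0 ≤ X1 ∧ X1 < n ∧ 0 ≤ Y1 ∧ Y1 < n)
    (n01 : X0 ≠ X1 ∧ Y0 ≠ Y1)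
    (hY : Y1 = Y0 + 1)
    (hC : cz (16 * (X1 + 1), 16 * (Y1 + 1)) ∈ C)
    : OkL C (chH X0 Y0 X1 Y1) (chN n 1 X1 Y1) :=
  okL44 (cSY _ (by omega))
    (cSY _ (by omega))
    (cSX' _ (by omega))
    (cSY _ (by omega))
    (cSY _ (by omega))
    (cSX' _ (by omega))
    (cEes hC ((dirV (by omega)).symm))
    (cSY _ (by omega))
    (cSX' _ (by omega))

theorem hn21 (C : Set Pt) {n X0 Y0 X1 Y1 X2 Y2 : ℤ}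
    (h0 : 0 ≤ X0 ∧ X0 < n ∧ 0 ≤ Y0 ∧ Y0 < n) (h1 : 0 ≤ X1 ∧ X1 < n ∧ 0 ≤ Y1 ∧ Y1 < n) (h2 : 0 ≤ X2 ∧ X2 < n ∧ 0 ≤ Y2 ∧ Y2 < n)
    (n01 : X0 ≠ X1 ∧ Y0 ≠ Y1) (n02 : X0 ≠ X2 ∧ Y0 ≠ Y2) (n12 : X1 ≠ X2 ∧ Y1 ≠ Y2)
    (hY : Y1 = Y0 + 1)
    : OkL C (chH X0 Y0 X1 Y1) (chN n 1 X2 Y2) :=
  okL44 (cSXd _ (by omega))
    (cSY _ (by omega))
    (cSX' _ (by omega))
    (cHV _ (by omega))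
    (cSY _ (by omega))
    (cSX' _ (by omega))
    (cSXd _ (by omega))
    (cSY _ (by omega))
    (cSX' _ (by omega))

theorem hn02 (C : Set Pt) {n X0 Y0 X1 Y1 : ℤ}
    (h0 : 0 ≤ X0 ∧ X0 < n ∧ 0 ≤ Y0 ∧ Y0 < n) (h1 : 0 ≤ X1 ∧ X1 < n ∧ 0 ≤ Y1 ∧ Y1 < n)
    (n01 : X0 ≠ X1 ∧ Y0 ≠ Y1)
    (hY : Y1 = Y0 + 1)
    (hC : cz (16 * (X0 + 1), 16 * (Y0 + 1)) ∈ C)
    : OkL C (chH X0 Y0 X1 Y1) (chN n 2 X0 Y0) :=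
  okL44 (cEss hC ((dirH (by omega)).symm))
    (cSX' _ (by omega))
    (cSX' _ (by omega))
    (cSY' _ (by omega))
    (cSX' _ (by omega))
    (cSX' _ (by omega))
    (cSY' _ (by omega))
    (cSX' _ (by omega))
    (cSX' _ (by omega))

theorem hn12 (C : Set Pt) {n X0 Y0 X1 Y1 : ℤ}
    (h0 : 0 ≤ X0 ∧ X0 < n ∧ 0 ≤ Y0 ∧ Y0 < n) (h1 : 0 ≤ X1 ∧ X1 < n ∧ 0 ≤ Y1 ∧ Y1 < n)
    (n01 : X0 ≠ X1 ∧ Y0 ≠ Y1)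
    (hY : Y1 = Y0 + 1)
    (hC : cz (16 * (X1 + 1), 16 * (Y1 + 1)) ∈ C)
    : OkL C (chH X0 Y0 X1 Y1) (chN n 2 X1 Y1) :=
  okL44 (cSY _ (by omega))
    (cSX' _ (by omega))
    (cSX' _ (by omega))
    (cSY _ (by omega))
    (cSX' _ (by omega))
    (cSX' _ (by omega))
    (cEes hC ((dirH (by omega)).symm))
    (cSX' _ (by omega))
    (cSX' _ (by omega))

theorem hn22 (C : Set Pt) {n X0 Y0 X1 Y1 X2 Y2 : ℤ}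
    (h0 : 0 ≤ X0 ∧ X0 < n ∧ 0 ≤ Y0 ∧ Y0 < n) (h1 : 0 ≤ X1 ∧ X1 < n ∧ 0 ≤ Y1 ∧ Y1 < n) (h2 : 0 ≤ X2 ∧ X2 < n ∧ 0 ≤ Y2 ∧ Y2 < n)
    (n01 : X0 ≠ X1 ∧ Y0 ≠ Y1) (n02 : X0 ≠ X2 ∧ Y0 ≠ Y2) (n12 : X1 ≠ X2 ∧ Y1 ≠ Y2)
    (hY : Y1 = Y0 + 1)
    : OkL C (chH X0 Y0 X1 Y1) (chN n 2 X2 Y2) :=
  okL44 (cSYd _ (by omega))
    (cSX' _ (by omega))
    (cSX' _ (by omega))
    (cYY _ (by omega))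
    (cSX' _ (by omega))
    (cSX' _ (by omega))
    (cSYd _ (by omega))
    (cSX' _ (by omega))
    (cSX' _ (by omega))

theorem hn03 (C : Set Pt) {n X0 Y0 X1 Y1 : ℤ}
    (h0 : 0 ≤ X0 ∧ X0 < n ∧ 0 ≤ Y0 ∧ Y0 < n) (h1 : 0 ≤ X1 ∧ X1 < n ∧ 0 ≤ Y1 ∧ Y1 < n)
    (n01 : X0 ≠ X1 ∧ Y0 ≠ Y1)
    (hY : Y1 = Y0 + 1)
    (hC : cz (16 * (X0 + 1), 16 * (Y0 + 1)) ∈ C)
    : OkL C (chH X0 Y0 X1 Y1) (chN n 3 X0 Y0) :=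
  okL44 (cEss hC ((dirV (by omega)).symm))
    (cSY' _ (by omega))
    (cSX _ (by omega))
    (cSY' _ (by omega))
    (cSY' _ (by omega))
    (cSX _ (by omega))
    (cSY' _ (by omega))
    (cSY' _ (by omega))
    (cSX _ (by omega))

theorem hn13 (C : Set Pt) {n X0 Y0 X1 Y1 : ℤ}
    (h0 : 0 ≤ X0 ∧ X0 < n ∧ 0 ≤ Y0 ∧ Y0 < n) (h1 : 0 ≤ X1 ∧ X1 < n ∧ 0 ≤ Y1 ∧ Y1 < n)
    (n01 : X0 ≠ X1 ∧ Y0 ≠ Y1)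
    (hY : Y1 = Y0 + 1)
    (hC : cz (16 * (X1 + 1), 16 * (Y1 + 1)) ∈ C)
    : OkL C (chH X0 Y0 X1 Y1) (chN n 3 X1 Y1) :=
  okL44 (cSXd _ (by omega))
    (cSY' _ (by omega))
    (cSX _ (by omega))
    (cHV _ (by omega))
    (cSY' _ (by omega))
    (cSX _ (by omega))
    (cEes hC ((dirV (by omega)).symm))
    (cSY' _ (by omega))
    (cSX _ (by omega))

theorem hn23 (C : Set Pt) {n X0 Y0 X1 Y1 X2 Y2 : ℤ}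
    (h0 : 0 ≤ X0 ∧ X0 < n ∧ 0 ≤ Y0 ∧ Y0 < n) (h1 : 0 ≤ X1 ∧ X1 < n ∧ 0 ≤ Y1 ∧ Y1 < n) (h2 : 0 ≤ X2 ∧ X2 < n ∧ 0 ≤ Y2 ∧ Y2 < n)
    (n01 : X0 ≠ X1 ∧ Y0 ≠ Y1) (n02 : X0 ≠ X2 ∧ Y0 ≠ Y2) (n12 : X1 ≠ X2 ∧ Y1 ≠ Y2)
    (hY : Y1 = Y0 + 1)
    : OkL C (chH X0 Y0 X1 Y1) (chN n 3 X2 Y2) :=
  okL44 (cSXd _ (by omega))
    (cSY' _ (by omega))
    (cSX _ (by omega))
    (cHV _ (by omega))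
    (cSY' _ (by omega))
    (cSX _ (by omega))
    (cSXd _ (by omega))
    (cSY' _ (by omega))
    (cSX _ (by omega))

theorem hn04 (C : Set Pt) {n X0 Y0 X1 Y1 : ℤ}
    (h0 : 0 ≤ X0 ∧ X0 < n ∧ 0 ≤ Y0 ∧ Y0 < n) (h1 : 0 ≤ X1 ∧ X1 < n ∧ 0 ≤ Y1 ∧ Y1 < n)
    (n01 : X0 ≠ X1 ∧ Y0 ≠ Y1)
    (hY : Y1 = Y0 + 1)
    (hC : cz (16 * (X0 + 1), 16 * (Y0 + 1)) ∈ C)
    : OkL C (chH X0 Y0 X1 Y1) (chN n 4 X0 Y0) :=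
  okL44 (cEss hC (dirN (3) (8) (5) (4) (by omega) (by decide)))
    (cSX _ (by omega))
    (cSX _ (by omega))
    (cSY' _ (by omega))
    (cSY' _ (by omega))
    (cSX _ (by omega))
    (cSY' _ (by omega))
    (cSY' _ (by omega))
    (cSX _ (by omega))

theorem hn14 (C : Set Pt) {n X0 Y0 X1 Y1 : ℤ}
    (h0 : 0 ≤ X0 ∧ X0 < n ∧ 0 ≤ Y0 ∧ Y0 < n) (h1 : 0 ≤ X1 ∧ X1 < n ∧ 0 ≤ Y1 ∧ Y1 < n)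
    (n01 : X0 ≠ X1 ∧ Y0 ≠ Y1)
    (hY : Y1 = Y0 + 1)
    (hC : cz (16 * (X1 + 1), 16 * (Y1 + 1)) ∈ C)
    : OkL C (chH X0 Y0 X1 Y1) (chN n 4 X1 Y1) :=
  okL44 (cSY _ (by omega))
    (cSY _ (by omega))
    (cSX _ (by omega))
    (cSY _ (by omega))
    (cSY _ (by omega))
    (cSX _ (by omega))
    (cEes hC (dirN (-3) (-8) (5) (4) (by omega) (by decide)))
    (cSX _ (by omega))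
    (cSX _ (by omega))

theorem hn24 (C : Set Pt) {n X0 Y0 X1 Y1 X2 Y2 : ℤ}
    (h0 : 0 ≤ X0 ∧ X0 < n ∧ 0 ≤ Y0 ∧ Y0 < n) (h1 : 0 ≤ X1 ∧ X1 < n ∧ 0 ≤ Y1 ∧ Y1 < n) (h2 : 0 ≤ X2 ∧ X2 < n ∧ 0 ≤ Y2 ∧ Y2 < n)
    (n01 : X0 ≠ X1 ∧ Y0 ≠ Y1) (n02 : X0 ≠ X2 ∧ Y0 ≠ Y2) (n12 : X1 ≠ X2 ∧ Y1 ≠ Y2)
    (hY : Y1 = Y0 + 1)
    : OkL C (chH X0 Y0 X1 Y1) (chN n 4 X2 Y2) :=
  okL44 (cSYd _ (by omega))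
    (cSYd _ (by omega))
    (cSX _ (by omega))
    (cSYd _ (by omega))
    (cYY _ (by omega))
    (cSX _ (by omega))
    (cSYd _ (by omega))
    (cSYd _ (by omega))
    (cSX _ (by omega))

theorem hn05 (C : Set Pt) {n X0 Y0 X1 Y1 : ℤ}
    (h0 : 0 ≤ X0 ∧ X0 < n ∧ 0 ≤ Y0 ∧ Y0 < n) (h1 : 0 ≤ X1 ∧ X1 < n ∧ 0 ≤ Y1 ∧ Y1 < n)
    (n01 : X0 ≠ X1 ∧ Y0 ≠ Y1)
    (hY : Y1 = Y0 + 1)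
    (hC : cz (16 * (X0 + 1), 16 * (Y0 + 1)) ∈ C)
    : OkL C (chH X0 Y0 X1 Y1) (chN n 5 X0 Y0) :=
  okL44 (cEss hC (dirN (3) (8) (-4) (5) (by omega) (by decide)))
    (cSX' _ (by omega))
    (cSY _ (by omega))
    (cSY' _ (by omega))
    (cHV _ (by omega))
    (cSY _ (by omega))
    (cSY' _ (by omega))
    (cSXd _ (by omega))
    (cSY _ (by omega))

theorem hn15 (C : Set Pt) {n X0 Y0 X1 Y1 : ℤ}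
    (h0 : 0 ≤ X0 ∧ X0 < n ∧ 0 ≤ Y0 ∧ Y0 < n) (h1 : 0 ≤ X1 ∧ X1 < n ∧ 0 ≤ Y1 ∧ Y1 < n)
    (n01 : X0 ≠ X1 ∧ Y0 ≠ Y1)
    (hY : Y1 = Y0 + 1)
    (hC : cz (16 * (X1 + 1), 16 * (Y1 + 1)) ∈ C)
    : OkL C (chH X0 Y0 X1 Y1) (chN n 5 X1 Y1) :=
  okL44 (cSY _ (by omega))
    (cSY _ (by omega))
    (cSY _ (by omega))
    (cSY _ (by omega))
    (cSY _ (by omega))
    (cSY _ (by omega))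
    (cEes hC (dirN (-3) (-8) (-4) (5) (by omega) (by decide)))
    (cSX' _ (by omega))
    (cSY _ (by omega))

theorem hn25 (C : Set Pt) {n X0 Y0 X1 Y1 X2 Y2 : ℤ}
    (h0 : 0 ≤ X0 ∧ X0 < n ∧ 0 ≤ Y0 ∧ Y0 < n) (h1 : 0 ≤ X1 ∧ X1 < n ∧ 0 ≤ Y1 ∧ Y1 < n) (h2 : 0 ≤ X2 ∧ X2 < n ∧ 0 ≤ Y2 ∧ Y2 < n)
    (n01 : X0 ≠ X1 ∧ Y0 ≠ Y1) (n02 : X0 ≠ X2 ∧ Y0 ≠ Y2) (n12 : X1 ≠ X2 ∧ Y1 ≠ Y2)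
    (hY : Y1 = Y0 + 1)
    : OkL C (chH X0 Y0 X1 Y1) (chN n 5 X2 Y2) :=
  okL44 (cSYd _ (by omega))
    (cSXd _ (by omega))
    (cSY _ (by omega))
    (cSYd _ (by omega))
    (cHV _ (by omega))
    (cSY _ (by omega))
    (cSYd _ (by omega))
    (cSXd _ (by omega))
    (cSY _ (by omega))

theorem hn06 (C : Set Pt) {n X0 Y0 X1 Y1 : ℤ}
    (h0 : 0 ≤ X0 ∧ X0 < n ∧ 0 ≤ Y0 ∧ Y0 < n) (h1 : 0 ≤ X1 ∧ X1 < n ∧ 0 ≤ Y1 ∧ Y1 < n)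
    (n01 : X0 ≠ X1 ∧ Y0 ≠ Y1)
    (hY : Y1 = Y0 + 1)
    (hC : cz (16 * (X0 + 1), 16 * (Y0 + 1)) ∈ C)
    : OkL C (chH X0 Y0 X1 Y1) (chN n 6 X0 Y0) :=
  okL44 (cEss hC (dirN (3) (8) (-5) (-4) (by omega) (by decide)))
    (cSX' _ (by omega))
    (cSX' _ (by omega))
    (cSY' _ (by omega))
    (cSY' _ (by omega))
    (cSX' _ (by omega))
    (cSY' _ (by omega))
    (cSY' _ (by omega))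
    (cSX' _ (by omega))

theorem hn16 (C : Set Pt) {n X0 Y0 X1 Y1 : ℤ}
    (h0 : 0 ≤ X0 ∧ X0 < n ∧ 0 ≤ Y0 ∧ Y0 < n) (h1 : 0 ≤ X1 ∧ X1 < n ∧ 0 ≤ Y1 ∧ Y1 < n)
    (n01 : X0 ≠ X1 ∧ Y0 ≠ Y1)
    (hY : Y1 = Y0 + 1)
    (hC : cz (16 * (X1 + 1), 16 * (Y1 + 1)) ∈ C)
    : OkL C (chH X0 Y0 X1 Y1) (chN n 6 X1 Y1) :=
  okL44 (cSY _ (by omega))
    (cSY _ (by omega))
    (cSX' _ (by omega))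
    (cSY _ (by omega))
    (cSY _ (by omega))
    (cSX' _ (by omega))
    (cEes hC (dirN (-3) (-8) (-5) (-4) (by omega) (by decide)))
    (cSX' _ (by omega))
    (cSX' _ (by omega))

theorem hn26 (C : Set Pt) {n X0 Y0 X1 Y1 X2 Y2 : ℤ}
    (h0 : 0 ≤ X0 ∧ X0 < n ∧ 0 ≤ Y0 ∧ Y0 < n) (h1 : 0 ≤ X1 ∧ X1 < n ∧ 0 ≤ Y1 ∧ Y1 < n) (h2 : 0 ≤ X2 ∧ X2 < n ∧ 0 ≤ Y2 ∧ Y2 < n)
    (n01 : X0 ≠ X1 ∧ Y0 ≠ Y1) (n02 : X0 ≠ X2 ∧ Y0 ≠ Y2) (n12 : X1 ≠ X2 ∧ Y1 ≠ Y2)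
    (hY : Y1 = Y0 + 1)
    : OkL C (chH X0 Y0 X1 Y1) (chN n 6 X2 Y2) :=
  okL44 (cSYd _ (by omega))
    (cSYd _ (by omega))
    (cSX' _ (by omega))
    (cSYd _ (by omega))
    (cYY _ (by omega))
    (cSX' _ (by omega))
    (cSYd _ (by omega))
    (cSYd _ (by omega))
    (cSX' _ (by omega))

theorem hn07 (C : Set Pt) {n X0 Y0 X1 Y1 : ℤ}
    (h0 : 0 ≤ X0 ∧ X0 < n ∧ 0 ≤ Y0 ∧ Y0 < n) (h1 : 0 ≤ X1 ∧ X1 < n ∧ 0 ≤ Y1 ∧ Y1 < n)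
    (n01 : X0 ≠ X1 ∧ Y0 ≠ Y1)
    (hY : Y1 = Y0 + 1)
    (hC : cz (16 * (X0 + 1), 16 * (Y0 + 1)) ∈ C)
    : OkL C (chH X0 Y0 X1 Y1) (chN n 7 X0 Y0) :=
  okL44 (cEss hC (dirN (3) (8) (4) (-5) (by omega) (by decide)))
    (cSX _ (by omega))
    (cSY' _ (by omega))
    (cSY' _ (by omega))
    (cSY' _ (by omega))
    (cSY' _ (by omega))
    (cSY' _ (by omega))
    (cSY' _ (by omega))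
    (cSY' _ (by omega))

theorem hn17 (C : Set Pt) {n X0 Y0 X1 Y1 : ℤ}
    (h0 : 0 ≤ X0 ∧ X0 < n ∧ 0 ≤ Y0 ∧ Y0 < n) (h1 : 0 ≤ X1 ∧ X1 < n ∧ 0 ≤ Y1 ∧ Y1 < n)
    (n01 : X0 ≠ X1 ∧ Y0 ≠ Y1)
    (hY : Y1 = Y0 + 1)
    (hC : cz (16 * (X1 + 1), 16 * (Y1 + 1)) ∈ C)
    : OkL C (chH X0 Y0 X1 Y1) (chN n 7 X1 Y1) :=
  okL44 (cSY _ (by omega))
    (cSXd _ (by omega))
    (cSY' _ (by omega))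
    (cSY _ (by omega))
    (cHV _ (by omega))
    (cSY' _ (by omega))
    (cEes hC (dirN (-3) (-8) (4) (-5) (by omega) (by decide)))
    (cSX _ (by omega))
    (cSY' _ (by omega))

theorem hn27 (C : Set Pt) {n X0 Y0 X1 Y1 X2 Y2 : ℤ}
    (h0 : 0 ≤ X0 ∧ X0 < n ∧ 0 ≤ Y0 ∧ Y0 < n) (h1 : 0 ≤ X1 ∧ X1 < n ∧ 0 ≤ Y1 ∧ Y1 < n) (h2 : 0 ≤ X2 ∧ X2 < n ∧ 0 ≤ Y2 ∧ Y2 < n)
    (n01 : X0 ≠ X1 ∧ Y0 ≠ Y1) (n02 : X0 ≠ X2 ∧ Y0 ≠ Y2) (n12 : X1 ≠ X2 ∧ Y1 ≠ Y2)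
    (hY : Y1 = Y0 + 1)
    : OkL C (chH X0 Y0 X1 Y1) (chN n 7 X2 Y2) :=
  okL44 (cSYd _ (by omega))
    (cSXd _ (by omega))
    (cSY' _ (by omega))
    (cSYd _ (by omega))
    (cHV _ (by omega))
    (cSY' _ (by omega))
    (cSYd _ (by omega))
    (cSXd _ (by omega))
    (cSY' _ (by omega))


end Pool.Agent.RAC
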