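import Pool.Agent.Lib_MP_638f75_lc.DCert

/-!
# Block D2: the chains
-/

namespace Pool.Agent.RAC

/-- positions of the hubs -/
def hb (n : ℤ) (i : Fin 8) : ℤ × ℤ :=
  match i with
  | 0 => (16 * (n + 1) + 8, 16 * (n + 1)+16)
  | 1 => (-16, 16 * (n + 1) + 8)
  | 2 => (-8, -16)
  | 3 => (16 * (n + 1)+16, -8)
  | 4 => (2 * (16 * (n + 1))+32, 9)
  | 5 => (16 * (n + 1)-9, 2 * (16 * (n + 1))+32)
  | 6 => (-(16 * (n + 1))-32, 16 * (n + 1)-9)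
  | 7 => (9, -(16 * (n + 1))-32)

/-- chain from the vertex with the numbers `X`, `Y` to the hub `i` -/
def chN (n : ℤ) (i : Fin 8) (X Y : ℤ) : List (ℤ × ℤ) :=
  match i with
  | 0 => [(16 * (X + 1), 16 * (Y + 1)), (16 * (n + 1)+16 * (Y + 1), 16 * (Y + 1)), (16 * (n + 1)+16 * (Y + 1), 16 * (n + 1)), (16 * (n + 1) + 8, 16 * (n + 1)+16)]
  | 1 => [(16 * (X + 1), 16 * (Y + 1)), (16 * (X + 1), 2 * (16 * (n + 1))-16 * (X + 1)), (0, 2 * (16 * (n + 1))-16 * (X + 1)), (-16, 16 * (n + 1) + 8)]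
  | 2 => [(16 * (X + 1), 16 * (Y + 1)), (16 * (Y + 1)-16 * (n + 1), 16 * (Y + 1)), (16 * (Y + 1)-16 * (n + 1), 0), (-8, -16)]
  | 3 => [(16 * (X + 1), 16 * (Y + 1)), (16 * (X + 1), -(16 * (X + 1))), (16 * (n + 1), -(16 * (X + 1))), (16 * (n + 1)+16, -8)]
  | 4 => [(16 * (X + 1), 16 * (Y + 1)), (16 * (X + 1) + 5, 16 * (Y + 1) + 4), (2 * (16 * (n + 1))+16, 16 * (Y + 1) + 4), (2 * (16 * (n + 1))+32, 9)]
  | 5 => [(16 * (X + 1), 16 * (Y + 1)), (16 * (X + 1) - 4, 16 * (Y + 1) + 5), (16 * (X + 1) - 4, 2 * (16 * (n + 1))+16), (16 * (n + 1)-9, 2 * (16 * (n + 1))+32)]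
  | 6 => [(16 * (X + 1), 16 * (Y + 1)), (16 * (X + 1) - 5, 16 * (Y + 1) - 4), (-(16 * (n + 1))-16, 16 * (Y + 1) - 4), (-(16 * (n + 1))-32, 16 * (n + 1)-9)]
  | 7 => [(16 * (X + 1), 16 * (Y + 1)), (16 * (X + 1) + 4, 16 * (Y + 1) - 5), (16 * (X + 1) + 4, -(16 * (n + 1))-16), (9, -(16 * (n + 1))-32)]

/-- edge of colour `true` (`Y' = Y + 1`) -/
def chH (X Y X' Y' : ℤ) : List (ℤ × ℤ) :=
  [(16 * (X + 1), 16 * (Y + 1)), (16 * (X + 1)+3, 16 * (Y + 1) + 8), (16 * (X' + 1)-3, 16 * (Y' + 1) - 8), (16 * (X' + 1), 16 * (Y' + 1))]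

/-- edge of colour `false` (`X' = X + 1`) -/
def chW (X Y X' Y' : ℤ) : List (ℤ × ℤ) :=
  [(16 * (X + 1), 16 * (Y + 1)), (16 * (X + 1) + 8, 16 * (Y + 1)-3), (16 * (X' + 1) - 8, 16 * (Y' + 1)+3), (16 * (X' + 1), 16 * (Y' + 1))]

end Pool.Agent.RAC
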