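import Pool.Agent.Lib_MP_638f75_lc.D2Def

/-!
# Block D2: pairs of coloured edges
-/

namespace Pool.Agent.RAC

theorem hh12 (C : Set Pt) {n X0 Y0 X1 Y1 X2 Y2 : ℤ}
    (h0 : 0 ≤ X0 ∧ X0 < n ∧ 0 ≤ Y0 ∧ Y0 < n) (h1 : 0 ≤ X1 ∧ X1 < n ∧ 0 ≤ Y1 ∧ Y1 < n) (h2 : 0 ≤ X2 ∧ X2 < n ∧ 0 ≤ Y2 ∧ Y2 < n)
    (n01 : X0 ≠ X1 ∧ Y0 ≠ Y1) (n02 : X0 ≠ X2 ∧ Y0 ≠ Y2) (n12 : X1 ≠ X2 ∧ Y1 ≠ Y2)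
    (hY : Y1 = Y0 + 1) (hY2 : Y2 = Y1 + 1)
    (hC : cz (16 * (X1 + 1), 16 * (Y1 + 1)) ∈ C)
    : OkL C (chH X0 Y0 X1 Y1) (chH X1 Y1 X2 Y2) :=
  okL44 (cSY _ (by omega))
    (cSY _ (by omega))
    (cSY _ (by omega))
    (cSY _ (by omega))
    (cSY _ (by omega))
    (cSY _ (by omega))
    (cEes hC (dirN (-3) (-8) (3) (8) (by omega) (by decide)))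
    (cSY _ (by omega))
    (cSY _ (by omega))

theorem hh23 (C : Set Pt) {n X0 Y0 X1 Y1 X2 Y2 X3 Y3 : ℤ}
    (h0 : 0 ≤ X0 ∧ X0 < n ∧ 0 ≤ Y0 ∧ Y0 < n) (h1 : 0 ≤ X1 ∧ X1 < n ∧ 0 ≤ Y1 ∧ Y1 < n) (h2 : 0 ≤ X2 ∧ X2 < n ∧ 0 ≤ Y2 ∧ Y2 < n) (h3 : 0 ≤ X3 ∧ X3 < n ∧ 0 ≤ Y3 ∧ Y3 < n)
    (n01 : X0 ≠ X1 ∧ Y0 ≠ Y1) (n02 : X0 ≠ X2 ∧ Y0 ≠ Y2) (n03 : X0 ≠ X3 ∧ Y0 ≠ Y3) (n12 : X1 ≠ X2 ∧ Y1 ≠ Y2) (n13 : X1 ≠ X3 ∧ Y1 ≠ Y3) (n23 : X2 ≠ X3 ∧ Y2 ≠ Y3)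
    (hY : Y1 = Y0 + 1) (hY2 : Y3 = Y2 + 1)
    : OkL C (chH X0 Y0 X1 Y1) (chH X2 Y2 X3 Y3) :=
  okL44 (cSYd _ (by omega))
    (cSYd _ (by omega))
    (cSYd _ (by omega))
    (cSYd _ (by omega))
    (cYY _ (by omega))
    (cSYd _ (by omega))
    (cSYd _ (by omega))
    (cSYd _ (by omega))
    (cSYd _ (by omega))

theorem ww12 (C : Set Pt) {n X0 Y0 X1 Y1 X2 Y2 : ℤ}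
    (h0 : 0 ≤ X0 ∧ X0 < n ∧ 0 ≤ Y0 ∧ Y0 < n) (h1 : 0 ≤ X1 ∧ X1 < n ∧ 0 ≤ Y1 ∧ Y1 < n) (h2 : 0 ≤ X2 ∧ X2 < n ∧ 0 ≤ Y2 ∧ Y2 < n)
    (n01 : X0 ≠ X1 ∧ Y0 ≠ Y1) (n02 : X0 ≠ X2 ∧ Y0 ≠ Y2) (n12 : X1 ≠ X2 ∧ Y1 ≠ Y2)
    (hX : X1 = X0 + 1) (hX2 : X2 = X1 + 1)
    (hC : cz (16 * (X1 + 1), 16 * (Y1 + 1)) ∈ C)
    : OkL C (chW X0 Y0 X1 Y1) (chW X1 Y1 X2 Y2) :=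
  okL44 (cSX _ (by omega))
    (cSX _ (by omega))
    (cSX _ (by omega))
    (cSX _ (by omega))
    (cSX _ (by omega))
    (cSX _ (by omega))
    (cEes hC (dirN (-8) (3) (8) (-3) (by omega) (by decide)))
    (cSX _ (by omega))
    (cSX _ (by omega))

theorem ww23 (C : Set Pt) {n X0 Y0 X1 Y1 X2 Y2 X3 Y3 : ℤ}
    (h0 : 0 ≤ X0 ∧ X0 < n ∧ 0 ≤ Y0 ∧ Y0 < n) (h1 : 0 ≤ X1 ∧ X1 < n ∧ 0 ≤ Y1 ∧ Y1 < n) (h2 : 0 ≤ X2 ∧ X2 < n ∧ 0 ≤ Y2 ∧ Y2 < n) (h3 : 0 ≤ X3 ∧ X3 < n ∧ 0 ≤ Y3 ∧ Y3 < n)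
    (n01 : X0 ≠ X1 ∧ Y0 ≠ Y1) (n02 : X0 ≠ X2 ∧ Y0 ≠ Y2) (n03 : X0 ≠ X3 ∧ Y0 ≠ Y3) (n12 : X1 ≠ X2 ∧ Y1 ≠ Y2) (n13 : X1 ≠ X3 ∧ Y1 ≠ Y3) (n23 : X2 ≠ X3 ∧ Y2 ≠ Y3)
    (hX : X1 = X0 + 1) (hX2 : X3 = X2 + 1)
    : OkL C (chW X0 Y0 X1 Y1) (chW X2 Y2 X3 Y3) :=
  okL44 (cSYd _ (by omega))
    (cSXd _ (by omega))
    (cSYd _ (by omega))
    (cSXd _ (by omega))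
    (cXX _ (by omega))
    (cSXd _ (by omega))
    (cSYd _ (by omega))
    (cSXd _ (by omega))
    (cSYd _ (by omega))

theorem hw02 (C : Set Pt) {n X0 Y0 X1 Y1 X2 Y2 : ℤ}
    (h0 : 0 ≤ X0 ∧ X0 < n ∧ 0 ≤ Y0 ∧ Y0 < n) (h1 : 0 ≤ X1 ∧ X1 < n ∧ 0 ≤ Y1 ∧ Y1 < n) (h2 : 0 ≤ X2 ∧ X2 < n ∧ 0 ≤ Y2 ∧ Y2 < n)
    (n01 : X0 ≠ X1 ∧ Y0 ≠ Y1) (n02 : X0 ≠ X2 ∧ Y0 ≠ Y2) (n12 : X1 ≠ X2 ∧ Y1 ≠ Y2)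
    (hY : Y1 = Y0 + 1) (hX : X2 = X0 + 1)
    (hC : cz (16 * (X0 + 1), 16 * (Y0 + 1)) ∈ C)
    : OkL C (chH X0 Y0 X1 Y1) (chW X0 Y0 X2 Y2) :=
  okL44 (cEss hC (dirN (3) (8) (8) (-3) (by omega) (by decide)))
    (cSX _ (by omega))
    (cSX _ (by omega))
    (cSY' _ (by omega))
    (cHV _ (by omega))
    (cSYd _ (by omega))
    (cSY' _ (by omega))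
    (cSXd _ (by omega))
    (cSYd _ (by omega))

theorem hw20 (C : Set Pt) {n X0 Y0 X1 Y1 X2 Y2 : ℤ}
    (h0 : 0 ≤ X0 ∧ X0 < n ∧ 0 ≤ Y0 ∧ Y0 < n) (h1 : 0 ≤ X1 ∧ X1 < n ∧ 0 ≤ Y1 ∧ Y1 < n) (h2 : 0 ≤ X2 ∧ X2 < n ∧ 0 ≤ Y2 ∧ Y2 < n)
    (n01 : X0 ≠ X1 ∧ Y0 ≠ Y1) (n02 : X0 ≠ X2 ∧ Y0 ≠ Y2) (n12 : X1 ≠ X2 ∧ Y1 ≠ Y2)
    (hY : Y1 = Y0 + 1) (hX : X0 = X2 + 1)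
    (hC : cz (16 * (X0 + 1), 16 * (Y0 + 1)) ∈ C)
    : OkL C (chH X0 Y0 X1 Y1) (chW X2 Y2 X0 Y0) :=
  okL44 (cSX' _ (by omega))
    (cSX' _ (by omega))
    (cEse hC (dirN (3) (8) (-8) (3) (by omega) (by decide)))
    (cSYd _ (by omega))
    (cHV _ (by omega))
    (cSY' _ (by omega))
    (cSYd _ (by omega))
    (cSXd _ (by omega))
    (cSY' _ (by omega))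

theorem hw12 (C : Set Pt) {n X0 Y0 X1 Y1 X2 Y2 : ℤ}
    (h0 : 0 ≤ X0 ∧ X0 < n ∧ 0 ≤ Y0 ∧ Y0 < n) (h1 : 0 ≤ X1 ∧ X1 < n ∧ 0 ≤ Y1 ∧ Y1 < n) (h2 : 0 ≤ X2 ∧ X2 < n ∧ 0 ≤ Y2 ∧ Y2 < n)
    (n01 : X0 ≠ X1 ∧ Y0 ≠ Y1) (n02 : X0 ≠ X2 ∧ Y0 ≠ Y2) (n12 : X1 ≠ X2 ∧ Y1 ≠ Y2)
    (hY : Y1 = Y0 + 1) (hX : X2 = X1 + 1)
    (hC : cz (16 * (X1 + 1), 16 * (Y1 + 1)) ∈ C)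
    : OkL C (chH X0 Y0 X1 Y1) (chW X1 Y1 X2 Y2) :=
  okL44 (cSY _ (by omega))
    (cSXd _ (by omega))
    (cSYd _ (by omega))
    (cSY _ (by omega))
    (cHV _ (by omega))
    (cSYd _ (by omega))
    (cEes hC (dirN (-3) (-8) (8) (-3) (by omega) (by decide)))
    (cSX _ (by omega))
    (cSX _ (by omega))

theorem hw21 (C : Set Pt) {n X0 Y0 X1 Y1 X2 Y2 : ℤ}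
    (h0 : 0 ≤ X0 ∧ X0 < n ∧ 0 ≤ Y0 ∧ Y0 < n) (h1 : 0 ≤ X1 ∧ X1 < n ∧ 0 ≤ Y1 ∧ Y1 < n) (h2 : 0 ≤ X2 ∧ X2 < n ∧ 0 ≤ Y2 ∧ Y2 < n)
    (n01 : X0 ≠ X1 ∧ Y0 ≠ Y1) (n02 : X0 ≠ X2 ∧ Y0 ≠ Y2) (n12 : X1 ≠ X2 ∧ Y1 ≠ Y2)
    (hY : Y1 = Y0 + 1) (hX : X1 = X2 + 1)
    (hC : cz (16 * (X1 + 1), 16 * (Y1 + 1)) ∈ C)
    : OkL C (chH X0 Y0 X1 Y1) (chW X2 Y2 X1 Y1) :=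
  okL44 (cSYd _ (by omega))
    (cSXd _ (by omega))
    (cSY _ (by omega))
    (cSYd _ (by omega))
    (cHV _ (by omega))
    (cSY _ (by omega))
    (cSX' _ (by omega))
    (cSX' _ (by omega))
    (cEee hC (dirN (-3) (-8) (-8) (3) (by omega) (by decide)))

theorem hw23 (C : Set Pt) {n X0 Y0 X1 Y1 X2 Y2 X3 Y3 : ℤ}
    (h0 : 0 ≤ X0 ∧ X0 < n ∧ 0 ≤ Y0 ∧ Y0 < n) (h1 : 0 ≤ X1 ∧ X1 < n ∧ 0 ≤ Y1 ∧ Y1 < n) (h2 : 0 ≤ X2 ∧ X2 < n ∧ 0 ≤ Y2 ∧ Y2 < n) (h3 : 0 ≤ X3 ∧ X3 < n ∧ 0 ≤ Y3 ∧ Y3 < n)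
    (n01 : X0 ≠ X1 ∧ Y0 ≠ Y1) (n02 : X0 ≠ X2 ∧ Y0 ≠ Y2) (n03 : X0 ≠ X3 ∧ Y0 ≠ Y3) (n12 : X1 ≠ X2 ∧ Y1 ≠ Y2) (n13 : X1 ≠ X3 ∧ Y1 ≠ Y3) (n23 : X2 ≠ X3 ∧ Y2 ≠ Y3)
    (hY : Y1 = Y0 + 1) (hX : X3 = X2 + 1)
    : OkL C (chH X0 Y0 X1 Y1) (chW X2 Y2 X3 Y3) :=
  okL44 (cSYd _ (by omega))
    (cSXd _ (by omega))
    (cSYd _ (by omega))
    (cSYd _ (by omega))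
    (cHV _ (by omega))
    (cSYd _ (by omega))
    (cSYd _ (by omega))
    (cSXd _ (by omega))
    (cSYd _ (by omega))


end Pool.Agent.RAC
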