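import Pool.Agent.Lib_MP_638f75_lc.D2Def

/-!
# Block D2: facts on one edge
-/

namespace Pool.Agent.RAC.D2

theorem hb_inj {n : ℤ} (hn : 0 ≤ n) {i j : Fin 8} (h : hb n i = hb n j) : i = j := by
  fin_cases i <;> fin_cases j <;> first | rfl | (simp only [hb, Prod.mk.injEq] at h; omega)

theorem hb_ne {n X Y : ℤ} (h : 0 ≤ X ∧ X < n ∧ 0 ≤ Y ∧ Y < n) (i : Fin 8) :
    hb n i ≠ (16 * (X + 1), 16 * (Y + 1)) := by
  intro e
  fin_cases i <;> (simp only [hb, Prod.mk.injEq] at e; omega)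

theorem avN_hub {n X Y : ℤ} (h : 0 ≤ X ∧ X < n ∧ 0 ≤ Y ∧ Y < n) (i j : Fin 8) :
    ∀ s ∈ segsZ (chN n i X Y), InBox (hb n j) s → j = i ∧ s.2 = hb n i := by
  intro s hs hbx
  fin_cases i <;> fin_cases j <;>
    simp only [chN, segsZ, List.tail_cons, List.zip_cons_cons, List.zip_nil_right, List.mem_cons,
      List.not_mem_nil, or_false] at hs <;>
    rcases hs with rfl | rfl | rfl <;>
    first
    | exact ⟨rfl, rfl⟩
    | (exfalso; simp only [InBox, hb] at hbx; omega)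

theorem avN_v {n X Y X' Y' : ℤ} (h : 0 ≤ X ∧ X < n ∧ 0 ≤ Y ∧ Y < n)
    (h' : 0 ≤ X' ∧ X' < n ∧ 0 ≤ Y' ∧ Y' < n) (i : Fin 8)
    (hne : (X' = X ∧ Y' = Y) ∨ (X' ≠ X ∧ Y' ≠ Y)) :
    ∀ s ∈ segsZ (chN n i X Y), InBox (16 * (X' + 1), 16 * (Y' + 1)) s →
      X' = X ∧ s.1 = (16 * (X + 1), 16 * (Y + 1)) := by
  intro s hs hbx
  rcases hne with ⟨rfl, rfl⟩ | hne
  · fin_cases i <;>
    simp only [chN, segsZ, List.tail_cons, List.zip_cons_cons, List.zip_nil_right, List.mem_cons,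
      List.not_mem_nil, or_false] at hs <;>
    rcases hs with rfl | rfl | rfl <;>
    first
    | exact ⟨rfl, rfl⟩
    | (exfalso; simp only [InBox] at hbx; omega)
  · exfalso
    fin_cases i <;>
    simp only [chN, segsZ, List.tail_cons, List.zip_cons_cons, List.zip_nil_right, List.mem_cons,
      List.not_mem_nil, or_false] at hs <;>
    rcases hs with rfl | rfl | rfl <;>
    (simp only [InBox] at hbx; omega)

theorem avH_hub {n X0 Y0 X1 Y1 : ℤ} (h0 : 0 ≤ X0 ∧ X0 < n ∧ 0 ≤ Y0 ∧ Y0 < n)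
    (h1 : 0 ≤ X1 ∧ X1 < n ∧ 0 ≤ Y1 ∧ Y1 < n) (hY : Y1 = Y0 + 1) (j : Fin 8) :
    ∀ s ∈ segsZ (chH X0 Y0 X1 Y1), ¬ InBox (hb n j) s := by
  intro s hs hbx
  fin_cases j <;>
    simp only [chH, segsZ, List.tail_cons, List.zip_cons_cons, List.zip_nil_right, List.mem_cons,
      List.not_mem_nil, or_false] at hs <;>
    rcases hs with rfl | rfl | rfl <;>
    (simp only [InBox, hb] at hbx; omega)

theorem avW_hub {n X0 Y0 X1 Y1 : ℤ} (h0 : 0 ≤ X0 ∧ X0 < n ∧ 0 ≤ Y0 ∧ Y0 < n)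
    (h1 : 0 ≤ X1 ∧ X1 < n ∧ 0 ≤ Y1 ∧ Y1 < n) (hX : X1 = X0 + 1) (j : Fin 8) :
    ∀ s ∈ segsZ (chW X0 Y0 X1 Y1), ¬ InBox (hb n j) s := by
  intro s hs hbx
  fin_cases j <;>
    simp only [chW, segsZ, List.tail_cons, List.zip_cons_cons, List.zip_nil_right, List.mem_cons,
      List.not_mem_nil, or_false] at hs <;>
    rcases hs with rfl | rfl | rfl <;>
    (simp only [InBox, hb] at hbx; omega)

theorem avH_v {X0 Y0 X1 Y1 X2 Y2 : ℤ} (hY : Y1 = Y0 + 1) (hX : X0 ≠ X1)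
    (h0 : (X2 = X0 ∧ Y2 = Y0) ∨ (X2 ≠ X0 ∧ Y2 ≠ Y0))
    (h1 : (X2 = X1 ∧ Y2 = Y1) ∨ (X2 ≠ X1 ∧ Y2 ≠ Y1)) :
    ∀ s ∈ segsZ (chH X0 Y0 X1 Y1), InBox (16 * (X2 + 1), 16 * (Y2 + 1)) s →
      (X2 = X0 ∧ s.1 = (16 * (X0 + 1), 16 * (Y0 + 1))) ∨
      (X2 = X1 ∧ s.2 = (16 * (X1 + 1), 16 * (Y1 + 1))) := by
  intro s hs hbx
  simp only [chH, segsZ, List.tail_cons, List.zip_cons_cons, List.zip_nil_right, List.mem_cons,
      List.not_mem_nil, or_false] at hs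
  rcases hs with rfl | rfl | rfl
  · left
    refine ⟨?_, rfl⟩
    simp only [InBox] at hbx
    omega
  · exfalso
    simp only [InBox] at hbx
    omega
  · right
    refine ⟨?_, rfl⟩
    simp only [InBox] at hbx
    omega

theorem avW_v {X0 Y0 X1 Y1 X2 Y2 : ℤ} (hX : X1 = X0 + 1) (hY : Y0 ≠ Y1)
    (h0 : (X2 = X0 ∧ Y2 = Y0) ∨ (X2 ≠ X0 ∧ Y2 ≠ Y0))
    (h1 : (X2 = X1 ∧ Y2 = Y1) ∨ (X2 ≠ X1 ∧ Y2 ≠ Y1)) :
    ∀ s ∈ segsZ (chW X0 Y0 X1 Y1), InBox (16 * (X2 + 1), 16 * (Y2 + 1)) s →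
      (X2 = X0 ∧ s.1 = (16 * (X0 + 1), 16 * (Y0 + 1))) ∨
      (X2 = X1 ∧ s.2 = (16 * (X1 + 1), 16 * (Y1 + 1))) := by
  intro s hs hbx
  simp only [chW, segsZ, List.tail_cons, List.zip_cons_cons, List.zip_nil_right, List.mem_cons,
      List.not_mem_nil, or_false] at hs
  rcases hs with rfl | rfl | rfl
  · left
    refine ⟨?_, rfl⟩
    simp only [InBox] at hbx
    omega
  · exfalso
    simp only [InBox] at hbx
    omega
  · right
    refine ⟨?_, rfl⟩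
    simp only [InBox] at hbx
    omega

theorem ndN {n X Y : ℤ} (h : 0 ≤ X ∧ X < n ∧ 0 ≤ Y ∧ Y < n) (i : Fin 8) :
    (chN n i X Y).IsChain (· ≠ ·) := by
  fin_cases i <;>
    simp only [chN, List.isChain_cons_cons, ne_eq, Prod.mk.injEq, List.isChain_singleton,
      and_true] <;>
    omega

theorem ndH {X0 Y0 X1 Y1 : ℤ} (hY : Y1 = Y0 + 1) :
    (chH X0 Y0 X1 Y1).IsChain (· ≠ ·) := by
  simp only [chH, List.isChain_cons_cons, ne_eq, Prod.mk.injEq, List.isChain_singleton, and_true]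
  omega

theorem ndW {X0 Y0 X1 Y1 : ℤ} (hX : X1 = X0 + 1) :
    (chW X0 Y0 X1 Y1).IsChain (· ≠ ·) := by
  simp only [chW, List.isChain_cons_cons, ne_eq, Prod.mk.injEq, List.isChain_singleton, and_true]
  omega

end Pool.Agent.RAC.D2
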