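import Pool.Agent.Lib_MP_638f75_lc.D2Def

/-!
# Block D2: the chains are simple
-/

namespace Pool.Agent.RAC.D2

theorem dSX {a1 a2 b1 b2 c1 c2 d1 d2 : ℤ} (h : a1 < c1 ∧ a1 < d1 ∧ b1 < c1 ∧ b1 < d1) :
    ∀ z, z ∈ segment ℝ (cz (a1, a2)) (cz (b1, b2)) →
      z ∈ segment ℝ (cz (c1, c2)) (cz (d1, d2)) → False := by
  intro z hz hz'
  obtain ⟨h1, h2, h3, h4⟩ := h
  have e1 : z.1 ≤ ((max a1 b1 : ℤ) : ℝ) := seg_le1 hz (by simp [cz]) (by simp [cz])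
  have e2 : ((min c1 d1 : ℤ) : ℝ) ≤ z.1 := seg_ge1 hz' (by simp [cz]) (by simp [cz])
  have e3 : max a1 b1 < min c1 d1 := max_lt (lt_min h1 h2) (lt_min h3 h4)
  have e4 : ((max a1 b1 : ℤ) : ℝ) < ((min c1 d1 : ℤ) : ℝ) := by exact_mod_cast e3
  linarith

theorem dSX' {a1 a2 b1 b2 c1 c2 d1 d2 : ℤ} (h : c1 < a1 ∧ d1 < a1 ∧ c1 < b1 ∧ d1 < b1) :
    ∀ z, z ∈ segment ℝ (cz (a1, a2)) (cz (b1, b2)) →
      z ∈ segment ℝ (cz (c1, c2)) (cz (d1, d2)) → False :=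
  fun z hz hz' => dSX ⟨h.1, h.2.2.1, h.2.1, h.2.2.2⟩ z hz' hz

theorem dSY {a1 a2 b1 b2 c1 c2 d1 d2 : ℤ} (h : a2 < c2 ∧ a2 < d2 ∧ b2 < c2 ∧ b2 < d2) :
    ∀ z, z ∈ segment ℝ (cz (a1, a2)) (cz (b1, b2)) →
      z ∈ segment ℝ (cz (c1, c2)) (cz (d1, d2)) → False := by
  intro z hz hz'
  obtain ⟨h1, h2, h3, h4⟩ := h
  have e1 : z.2 ≤ ((max a2 b2 : ℤ) : ℝ) := seg_le2 hz (by simp [cz]) (by simp [cz])
  have e2 : ((min c2 d2 : ℤ) : ℝ) ≤ z.2 := seg_ge2 hz' (by simp [cz]) (by simp [cz])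
  have e3 : max a2 b2 < min c2 d2 := max_lt (lt_min h1 h2) (lt_min h3 h4)
  have e4 : ((max a2 b2 : ℤ) : ℝ) < ((min c2 d2 : ℤ) : ℝ) := by exact_mod_cast e3
  linarith

theorem dSY' {a1 a2 b1 b2 c1 c2 d1 d2 : ℤ} (h : c2 < a2 ∧ d2 < a2 ∧ c2 < b2 ∧ d2 < b2) :
    ∀ z, z ∈ segment ℝ (cz (a1, a2)) (cz (b1, b2)) →
      z ∈ segment ℝ (cz (c1, c2)) (cz (d1, d2)) → False :=
  fun z hz hz' => dSY ⟨h.1, h.2.2.1, h.2.1, h.2.2.2⟩ z hz' hz

theorem simple4' {a b c d : ℤ × ℤ} (h : Dir b a c) (h' : Dir c b d)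
    (hd : ∀ z, z ∈ segment ℝ (cz a) (cz b) → z ∈ segment ℝ (cz c) (cz d) → False) :
    SimpleChain [cz a, cz b, cz c, cz d] := by
  intro i j s t hij hs ht z hz hz'
  simp only [segs, List.tail_cons, List.zip_cons_cons, List.zip_nil_right] at hs ht
  obtain ⟨hj, -⟩ := List.getElem?_eq_some_iff.1 ht
  simp only [List.length_cons, List.length_nil] at hj
  have hcase : (i = 0 ∧ j = 1) ∨ (i = 1 ∧ j = 2) ∨ (i = 0 ∧ j = 2) := by omega
  rcases hcase with ⟨rfl, rfl⟩ | ⟨rfl, rfl⟩ | ⟨rfl, rfl⟩ <;>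
    simp only [List.getElem?_cons_zero, List.getElem?_cons_succ, Option.some.injEq] at hs ht <;>
    subst hs ht
  · rw [segment_symm] at hz
    exact ⟨rfl, cE1 h hz hz'⟩
  · rw [segment_symm] at hz
    exact ⟨rfl, cE1 h' hz hz'⟩
  · exact (hd z hz hz').elim

theorem simN {n X Y : ℤ} (h : 0 ≤ X ∧ X < n ∧ 0 ≤ Y ∧ Y < n) (i : Fin 8) :
    SimpleChain ((chN n i X Y).map cz) := by
  match i with
  | 0 => exact simple4' (dirH (by omega)) (dirV (by omega)) (dSY (by omega))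
  | 1 => exact simple4' ((dirH (by omega)).symm) (dirH (by omega)) (dSX' (by omega))
  | 2 => exact simple4' (dirH (by omega)) (dirV (by omega)) (dSY' (by omega))
  | 3 => exact simple4' ((dirH (by omega)).symm) (dirH (by omega)) (dSX (by omega))
  | 4 => exact simple4' ((dirH (by omega)).symm) (dirH (by omega)) (dSX (by omega))
  | 5 => exact simple4' ((dirV (by omega)).symm) (dirV (by omega)) (dSY (by omega))
  | 6 => exact simple4' ((dirH (by omega)).symm) (dirH (by omega)) (dSX' (by omega))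
  | 7 => exact simple4' ((dirV (by omega)).symm) (dirV (by omega)) (dSY' (by omega))

theorem simH {X0 Y0 X1 Y1 : ℤ} (hY : Y1 = Y0 + 1) (hX : X0 ≠ X1) :
    SimpleChain ((chH X0 Y0 X1 Y1).map cz) :=
  simple4 ((dirH (by omega)).symm) (dirH (by omega)) ((cTY _ (by omega)).flip)
    (by simp [dot, cz]; norm_num)

theorem simW {X0 Y0 X1 Y1 : ℤ} (hX : X1 = X0 + 1) (hY : Y0 ≠ Y1) :
    SimpleChain ((chW X0 Y0 X1 Y1).map cz) :=
  simple4 ((dirV (by omega)).symm) (dirV (by omega)) ((cTX _ (by omega)).flip)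
    (by simp [dot, cz]; norm_num)

end Pool.Agent.RAC.D2
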