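import Pool.Agent.Lib_MP_638f75_lc.D2A
import Pool.Agent.Lib_MP_638f75_lc.D2B
import Pool.Agent.Lib_MP_638f75_lc.D2C
import Pool.Agent.Lib_MP_638f75_lc.D2D
import Pool.Agent.Lib_MP_638f75_lc.D2E
import Pool.Agent.Lib_MP_638f75_lc.D2F
import Pool.Agent.Lib_MP_638f75_lc.D2G
import Pool.Agent.Lib_MP_638f75_lc.D2H
import Pool.Agent.Lib_MP_638f75_lc.DOrd

/-!
# Block D2: assembly
-/

namespace Pool.Agent.RAC.D2

theorem hubs_ne (C : Set Pt) {n X0 Y0 X1 Y1 : ℤ}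
    (h0 : 0 ≤ X0 ∧ X0 < n ∧ 0 ≤ Y0 ∧ Y0 < n) (h1 : 0 ≤ X1 ∧ X1 < n ∧ 0 ≤ Y1 ∧ Y1 < n)
    (n01 : X0 ≠ X1 ∧ Y0 ≠ Y1) (i j : Fin 8) (hC : i = j → cz (hb n i) ∈ C) :
    OkL C (chN n i X0 Y0) (chN n j X1 Y1) :=
  have n10 : X1 ≠ X0 ∧ Y1 ≠ Y0 := ⟨n01.1.symm, n01.2.symm⟩
  match i, j, hC with
  | 0, 0, hC => nn00 C h0 h1 n01 (hC rfl)
  | 0, 1, _ => nn01 C h0 h1 n01
  | 0, 2, _ => nn02 C h0 h1 n01
  | 0, 3, _ => nn03 C h0 h1 n01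
  | 0, 4, _ => nn04 C h0 h1 n01
  | 0, 5, _ => nn05 C h0 h1 n01
  | 0, 6, _ => nn06 C h0 h1 n01
  | 0, 7, _ => nn07 C h0 h1 n01
  | 1, 0, _ => (nn01 C h1 h0 n10).symm
  | 1, 1, hC => nn11 C h0 h1 n01 (hC rfl)
  | 1, 2, _ => nn12 C h0 h1 n01
  | 1, 3, _ => nn13 C h0 h1 n01
  | 1, 4, _ => nn14 C h0 h1 n01
  | 1, 5, _ => nn15 C h0 h1 n01
  | 1, 6, _ => nn16 C h0 h1 n01
  | 1, 7, _ => nn17 C h0 h1 n01
  | 2, 0, _ => (nn02 C h1 h0 n10).symm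
  | 2, 1, _ => (nn12 C h1 h0 n10).symm
  | 2, 2, hC => nn22 C h0 h1 n01 (hC rfl)
  | 2, 3, _ => nn23 C h0 h1 n01
  | 2, 4, _ => nn24 C h0 h1 n01
  | 2, 5, _ => nn25 C h0 h1 n01
  | 2, 6, _ => nn26 C h0 h1 n01
  | 2, 7, _ => nn27 C h0 h1 n01
  | 3, 0, _ => (nn03 C h1 h0 n10).symm
  | 3, 1, _ => (nn13 C h1 h0 n10).symm
  | 3, 2, _ => (nn23 C h1 h0 n10).symm
  | 3, 3, hC => nn33 C h0 h1 n01 (hC rfl)
  | 3, 4, _ => nn34 C h0 h1 n01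
  | 3, 5, _ => nn35 C h0 h1 n01
  | 3, 6, _ => nn36 C h0 h1 n01
  | 3, 7, _ => nn37 C h0 h1 n01
  | 4, 0, _ => (nn04 C h1 h0 n10).symm
  | 4, 1, _ => (nn14 C h1 h0 n10).symm
  | 4, 2, _ => (nn24 C h1 h0 n10).symm
  | 4, 3, _ => (nn34 C h1 h0 n10).symm
  | 4, 4, hC => nn44 C h0 h1 n01 (hC rfl)
  | 4, 5, _ => nn45 C h0 h1 n01
  | 4, 6, _ => nn46 C h0 h1 n01
  | 4, 7, _ => nn47 C h0 h1 n01
  | 5, 0, _ => (nn05 C h1 h0 n10).symm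
  | 5, 1, _ => (nn15 C h1 h0 n10).symm
  | 5, 2, _ => (nn25 C h1 h0 n10).symm
  | 5, 3, _ => (nn35 C h1 h0 n10).symm
  | 5, 4, _ => (nn45 C h1 h0 n10).symm
  | 5, 5, hC => nn55 C h0 h1 n01 (hC rfl)
  | 5, 6, _ => nn56 C h0 h1 n01
  | 5, 7, _ => nn57 C h0 h1 n01
  | 6, 0, _ => (nn06 C h1 h0 n10).symm
  | 6, 1, _ => (nn16 C h1 h0 n10).symm
  | 6, 2, _ => (nn26 C h1 h0 n10).symm
  | 6, 3, _ => (nn36 C h1 h0 n10).symm
  | 6, 4, _ => (nn46 C h1 h0 n10).symm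
  | 6, 5, _ => (nn56 C h1 h0 n10).symm
  | 6, 6, hC => nn66 C h0 h1 n01 (hC rfl)
  | 6, 7, _ => nn67 C h0 h1 n01
  | 7, 0, _ => (nn07 C h1 h0 n10).symm
  | 7, 1, _ => (nn17 C h1 h0 n10).symm
  | 7, 2, _ => (nn27 C h1 h0 n10).symm
  | 7, 3, _ => (nn37 C h1 h0 n10).symm
  | 7, 4, _ => (nn47 C h1 h0 n10).symm
  | 7, 5, _ => (nn57 C h1 h0 n10).symm
  | 7, 6, _ => (nn67 C h1 h0 n10).symm
  | 7, 7, hC => nn77 C h0 h1 n01 (hC rfl)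

theorem hubs_eq (C : Set Pt) {n X0 Y0 : ℤ} (h0 : 0 ≤ X0 ∧ X0 < n ∧ 0 ≤ Y0 ∧ Y0 < n)
    (i j : Fin 8) (hC : cz (16 * (X0 + 1), 16 * (Y0 + 1)) ∈ C) (hij : i ≠ j) :
    OkL C (chN n i X0 Y0) (chN n j X0 Y0) :=
  match i, j, hij with
  | 0, 0, h => absurd rfl h
  | 0, 1, _ => ne01 C h0 hC
  | 0, 2, _ => ne02 C h0 hC
  | 0, 3, _ => ne03 C h0 hC
  | 0, 4, _ => ne04 C h0 hC
  | 0, 5, _ => ne05 C h0 hC
  | 0, 6, _ => ne06 C h0 hC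
  | 0, 7, _ => ne07 C h0 hC
  | 1, 0, _ => (ne01 C h0 hC).symm
  | 1, 1, h => absurd rfl h
  | 1, 2, _ => ne12 C h0 hC
  | 1, 3, _ => ne13 C h0 hC
  | 1, 4, _ => ne14 C h0 hC
  | 1, 5, _ => ne15 C h0 hC
  | 1, 6, _ => ne16 C h0 hC
  | 1, 7, _ => ne17 C h0 hC
  | 2, 0, _ => (ne02 C h0 hC).symm
  | 2, 1, _ => (ne12 C h0 hC).symm
  | 2, 2, h => absurd rfl h
  | 2, 3, _ => ne23 C h0 hC
  | 2, 4, _ => ne24 C h0 hC
  | 2, 5, _ => ne25 C h0 hC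
  | 2, 6, _ => ne26 C h0 hC
  | 2, 7, _ => ne27 C h0 hC
  | 3, 0, _ => (ne03 C h0 hC).symm
  | 3, 1, _ => (ne13 C h0 hC).symm
  | 3, 2, _ => (ne23 C h0 hC).symm
  | 3, 3, h => absurd rfl h
  | 3, 4, _ => ne34 C h0 hC
  | 3, 5, _ => ne35 C h0 hC
  | 3, 6, _ => ne36 C h0 hC
  | 3, 7, _ => ne37 C h0 hC
  | 4, 0, _ => (ne04 C h0 hC).symm
  | 4, 1, _ => (ne14 C h0 hC).symm
  | 4, 2, _ => (ne24 C h0 hC).symm
  | 4, 3, _ => (ne34 C h0 hC).symm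
  | 4, 4, h => absurd rfl h
  | 4, 5, _ => ne45 C h0 hC
  | 4, 6, _ => ne46 C h0 hC
  | 4, 7, _ => ne47 C h0 hC
  | 5, 0, _ => (ne05 C h0 hC).symm
  | 5, 1, _ => (ne15 C h0 hC).symm
  | 5, 2, _ => (ne25 C h0 hC).symm
  | 5, 3, _ => (ne35 C h0 hC).symm
  | 5, 4, _ => (ne45 C h0 hC).symm
  | 5, 5, h => absurd rfl h
  | 5, 6, _ => ne56 C h0 hC
  | 5, 7, _ => ne57 C h0 hC
  | 6, 0, _ => (ne06 C h0 hC).symm
  | 6, 1, _ => (ne16 C h0 hC).symm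
  | 6, 2, _ => (ne26 C h0 hC).symm
  | 6, 3, _ => (ne36 C h0 hC).symm
  | 6, 4, _ => (ne46 C h0 hC).symm
  | 6, 5, _ => (ne56 C h0 hC).symm
  | 6, 6, h => absurd rfl h
  | 6, 7, _ => ne67 C h0 hC
  | 7, 0, _ => (ne07 C h0 hC).symm
  | 7, 1, _ => (ne17 C h0 hC).symm
  | 7, 2, _ => (ne27 C h0 hC).symm
  | 7, 3, _ => (ne37 C h0 hC).symm
  | 7, 4, _ => (ne47 C h0 hC).symm
  | 7, 5, _ => (ne57 C h0 hC).symm
  | 7, 6, _ => (ne67 C h0 hC).symm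
  | 7, 7, h => absurd rfl h

theorem H_hub0 (C : Set Pt) {n X0 Y0 X1 Y1 : ℤ}
    (h0 : 0 ≤ X0 ∧ X0 < n ∧ 0 ≤ Y0 ∧ Y0 < n) (h1 : 0 ≤ X1 ∧ X1 < n ∧ 0 ≤ Y1 ∧ Y1 < n)
    (n01 : X0 ≠ X1 ∧ Y0 ≠ Y1) (hY : Y1 = Y0 + 1) (hC : cz (16 * (X0 + 1), 16 * (Y0 + 1)) ∈ C)
    (i : Fin 8) : OkL C (chH X0 Y0 X1 Y1) (chN n i X0 Y0) :=
  match i with
  | 0 => hn00 C h0 h1 n01 hY hC
  | 1 => hn01 C h0 h1 n01 hY hC
  | 2 => hn02 C h0 h1 n01 hY hC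
  | 3 => hn03 C h0 h1 n01 hY hC
  | 4 => hn04 C h0 h1 n01 hY hC
  | 5 => hn05 C h0 h1 n01 hY hC
  | 6 => hn06 C h0 h1 n01 hY hC
  | 7 => hn07 C h0 h1 n01 hY hC

theorem H_hub1 (C : Set Pt) {n X0 Y0 X1 Y1 : ℤ}
    (h0 : 0 ≤ X0 ∧ X0 < n ∧ 0 ≤ Y0 ∧ Y0 < n) (h1 : 0 ≤ X1 ∧ X1 < n ∧ 0 ≤ Y1 ∧ Y1 < n)
    (n01 : X0 ≠ X1 ∧ Y0 ≠ Y1) (hY : Y1 = Y0 + 1) (hC : cz (16 * (X1 + 1), 16 * (Y1 + 1)) ∈ C)
    (i : Fin 8) : OkL C (chH X0 Y0 X1 Y1) (chN n i X1 Y1) :=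
  match i with
  | 0 => hn10 C h0 h1 n01 hY hC
  | 1 => hn11 C h0 h1 n01 hY hC
  | 2 => hn12 C h0 h1 n01 hY hC
  | 3 => hn13 C h0 h1 n01 hY hC
  | 4 => hn14 C h0 h1 n01 hY hC
  | 5 => hn15 C h0 h1 n01 hY hC
  | 6 => hn16 C h0 h1 n01 hY hC
  | 7 => hn17 C h0 h1 n01 hY hC

theorem H_hub2 (C : Set Pt) {n X0 Y0 X1 Y1 X2 Y2 : ℤ}
    (h0 : 0 ≤ X0 ∧ X0 < n ∧ 0 ≤ Y0 ∧ Y0 < n) (h1 : 0 ≤ X1 ∧ X1 < n ∧ 0 ≤ Y1 ∧ Y1 < n)
    (h2 : 0 ≤ X2 ∧ X2 < n ∧ 0 ≤ Y2 ∧ Y2 < n) (n01 : X0 ≠ X1 ∧ Y0 ≠ Y1)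
    (n02 : X0 ≠ X2 ∧ Y0 ≠ Y2) (n12 : X1 ≠ X2 ∧ Y1 ≠ Y2) (hY : Y1 = Y0 + 1)
    (i : Fin 8) : OkL C (chH X0 Y0 X1 Y1) (chN n i X2 Y2) :=
  match i with
  | 0 => hn20 C h0 h1 h2 n01 n02 n12 hY
  | 1 => hn21 C h0 h1 h2 n01 n02 n12 hY
  | 2 => hn22 C h0 h1 h2 n01 n02 n12 hY
  | 3 => hn23 C h0 h1 h2 n01 n02 n12 hY
  | 4 => hn24 C h0 h1 h2 n01 n02 n12 hY
  | 5 => hn25 C h0 h1 h2 n01 n02 n12 hY
  | 6 => hn26 C h0 h1 h2 n01 n02 n12 hY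
  | 7 => hn27 C h0 h1 h2 n01 n02 n12 hY

theorem W_hub0 (C : Set Pt) {n X0 Y0 X1 Y1 : ℤ}
    (h0 : 0 ≤ X0 ∧ X0 < n ∧ 0 ≤ Y0 ∧ Y0 < n) (h1 : 0 ≤ X1 ∧ X1 < n ∧ 0 ≤ Y1 ∧ Y1 < n)
    (n01 : X0 ≠ X1 ∧ Y0 ≠ Y1) (hX : X1 = X0 + 1) (hC : cz (16 * (X0 + 1), 16 * (Y0 + 1)) ∈ C)
    (i : Fin 8) : OkL C (chW X0 Y0 X1 Y1) (chN n i X0 Y0) :=
  match i with
  | 0 => wn00 C h0 h1 n01 hX hC
  | 1 => wn01 C h0 h1 n01 hX hC
  | 2 => wn02 C h0 h1 n01 hX hC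
  | 3 => wn03 C h0 h1 n01 hX hC
  | 4 => wn04 C h0 h1 n01 hX hC
  | 5 => wn05 C h0 h1 n01 hX hC
  | 6 => wn06 C h0 h1 n01 hX hC
  | 7 => wn07 C h0 h1 n01 hX hC

theorem W_hub1 (C : Set Pt) {n X0 Y0 X1 Y1 : ℤ}
    (h0 : 0 ≤ X0 ∧ X0 < n ∧ 0 ≤ Y0 ∧ Y0 < n) (h1 : 0 ≤ X1 ∧ X1 < n ∧ 0 ≤ Y1 ∧ Y1 < n)
    (n01 : X0 ≠ X1 ∧ Y0 ≠ Y1) (hX : X1 = X0 + 1) (hC : cz (16 * (X1 + 1), 16 * (Y1 + 1)) ∈ C)
    (i : Fin 8) : OkL C (chW X0 Y0 X1 Y1) (chN n i X1 Y1) :=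
  match i with
  | 0 => wn10 C h0 h1 n01 hX hC
  | 1 => wn11 C h0 h1 n01 hX hC
  | 2 => wn12 C h0 h1 n01 hX hC
  | 3 => wn13 C h0 h1 n01 hX hC
  | 4 => wn14 C h0 h1 n01 hX hC
  | 5 => wn15 C h0 h1 n01 hX hC
  | 6 => wn16 C h0 h1 n01 hX hC
  | 7 => wn17 C h0 h1 n01 hX hC

theorem W_hub2 (C : Set Pt) {n X0 Y0 X1 Y1 X2 Y2 : ℤ}
    (h0 : 0 ≤ X0 ∧ X0 < n ∧ 0 ≤ Y0 ∧ Y0 < n) (h1 : 0 ≤ X1 ∧ X1 < n ∧ 0 ≤ Y1 ∧ Y1 < n)
    (h2 : 0 ≤ X2 ∧ X2 < n ∧ 0 ≤ Y2 ∧ Y2 < n) (n01 : X0 ≠ X1 ∧ Y0 ≠ Y1)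
    (n02 : X0 ≠ X2 ∧ Y0 ≠ Y2) (n12 : X1 ≠ X2 ∧ Y1 ≠ Y2) (hX : X1 = X0 + 1)
    (i : Fin 8) : OkL C (chW X0 Y0 X1 Y1) (chN n i X2 Y2) :=
  match i with
  | 0 => wn20 C h0 h1 h2 n01 n02 n12 hX
  | 1 => wn21 C h0 h1 h2 n01 n02 n12 hX
  | 2 => wn22 C h0 h1 h2 n01 n02 n12 hX
  | 3 => wn23 C h0 h1 h2 n01 n02 n12 hX
  | 4 => wn24 C h0 h1 h2 n01 n02 n12 hX
  | 5 => wn25 C h0 h1 h2 n01 n02 n12 hX
  | 6 => wn26 C h0 h1 h2 n01 n02 n12 hX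
  | 7 => wn27 C h0 h1 h2 n01 n02 n12 hX

variable {V : Type*}

/-- the oriented edges of the drawing -/
inductive E2 (Γ : Gam V) (c : V → V → Bool) (X Y : V → ℤ)
  | N (i : Fin 8) (v : V)
  | H (u v : V) (h : Γ.Nb u v ∧ c u v = true ∧ Y v = Y u + 1)
  | W (u v : V) (h : Γ.Nb u v ∧ c u v = false ∧ X v = X u + 1)

variable {Γ : Gam V} {c : V → V → Bool} {X Y : V → ℤ}

/-- first end -/
def E2.src : E2 Γ c X Y → V2 V
  | .N _ v => .inr v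
  | .H u _ _ => .inr u
  | .W u _ _ => .inr u

/-- second end -/
def E2.tgt : E2 Γ c X Y → V2 V
  | .N i _ => .inl i
  | .H _ v _ => .inr v
  | .W _ v _ => .inr v

/-- positions -/
def ps (n : ℤ) (X Y : V → ℤ) : V2 V → ℤ × ℤ
  | .inl i => hb n i
  | .inr v => (16 * (X v + 1), 16 * (Y v + 1))

/-- chains -/
def E2.chn (n : ℤ) : E2 Γ c X Y → List (ℤ × ℤ)
  | .N i v => chN n i (X v) (Y v)
  | .H u v _ => chH (X u) (Y u) (X v) (Y v)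
  | .W u v _ => chW (X u) (Y u) (X v) (Y v)

theorem compl2 [Fintype V] (h : TLF Γ) : SD 2 (G2 Γ) := by
  obtain ⟨c, X, Y, hc, Xi, Yi, Xr, Yr, hH, hW⟩ := ord_of_TLF h
  obtain ⟨n, hn⟩ : ∃ n : ℤ, n = (Fintype.card V : ℤ) := ⟨_, rfl⟩
  rw [← hn] at Xr Yr
  have n0 : 0 ≤ n := by rw [hn]; exact Int.natCast_nonneg _
  have rg : ∀ v, 0 ≤ X v ∧ X v < n ∧ 0 ≤ Y v ∧ Y v < n := fun v =>
    ⟨(Xr v).1, (Xr v).2, (Yr v).1, (Yr v).2⟩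
  have nn : ∀ u v, u ≠ v → X u ≠ X v ∧ Y u ≠ Y v := fun u v h =>
    ⟨fun e => h (Xi e), fun e => h (Yi e)⟩
  have dich : ∀ u v, (X u = X v ∧ Y u = Y v) ∨ (X u ≠ X v ∧ Y u ≠ Y v) := by
    intro u v
    by_cases e : u = v
    · subst e; exact .inl ⟨rfl, rfl⟩
    · exact .inr (nn u v e)
  have neH : ∀ u v, Y v = Y u + 1 → u ≠ v := by rintro u v h rfl; omega
  have neW : ∀ u v, X v = X u + 1 → u ≠ v := by rintro u v h rfl; omega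
  refine mkSD 2 (G2 Γ) (ps n X Y) (E2.src (Γ := Γ) (c := c) (X := X) (Y := Y)) E2.tgt (E2.chn n)
    ?_ ?_ ?_ ?_ ?_ ?_ ?_ ?_ ?_ ?_ ?_
  · -- every edge is represented
    intro u v huv
    rcases u with i | u <;> rcases v with j | v
    · exact huv.elim
    · exact ⟨.N i v, .inr ⟨rfl, rfl⟩⟩
    · exact ⟨.N j u, .inl ⟨rfl, rfl⟩⟩
    · have hnb : Γ.Nb u v := huv
      have hnb' : Γ.Nb v u := hnb.symm
      cases hcu : c u v with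
      | true =>
        rcases hH u v hnb hcu with h | h
        · exact ⟨.H v u ⟨hnb', by rw [hc]; exact hcu, by omega⟩, .inr ⟨rfl, rfl⟩⟩
        · exact ⟨.H u v ⟨hnb, hcu, by omega⟩, .inl ⟨rfl, rfl⟩⟩
      | false =>
        rcases hW u v hnb hcu with h | h
        · exact ⟨.W v u ⟨hnb', by rw [hc]; exact hcu, by omega⟩, .inr ⟨rfl, rfl⟩⟩
        · exact ⟨.W u v ⟨hnb, hcu, by omega⟩, .inl ⟨rfl, rfl⟩⟩
  · -- no loops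
    rintro (⟨i, v⟩ | ⟨u, v, h⟩ | ⟨u, v, h⟩)
    · simp [E2.src, E2.tgt]
    · simpa [E2.src, E2.tgt] using neH u v h.2.2
    · simpa [E2.src, E2.tgt] using neW u v h.2.2
  · -- uniqueness
    rintro (⟨i, v⟩ | ⟨u, v, h⟩ | ⟨u, v, h⟩) (⟨i', v'⟩ | ⟨u', v', h'⟩ | ⟨u', v', h'⟩) he <;>
      simp only [E2.src, E2.tgt, Sym2.eq_iff, Sum.inl.injEq, Sum.inr.injEq, reduceCtorEq,
        and_false, false_and, or_false] at he
    · obtain ⟨rfl, rfl⟩ := he; rfl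
    · rcases he with ⟨rfl, rfl⟩ | ⟨rfl, rfl⟩
      · rfl
      · exfalso; have := h.2.2; have := h'.2.2; omega
    · exfalso
      rcases he with ⟨rfl, rfl⟩ | ⟨rfl, rfl⟩
      · exact absurd (h.2.1.symm.trans h'.2.1) (by simp)
      · exact absurd (h.2.1.symm.trans ((hc _ _).trans h'.2.1)) (by simp)
    · exfalso
      rcases he with ⟨rfl, rfl⟩ | ⟨rfl, rfl⟩
      · exact absurd (h.2.1.symm.trans h'.2.1) (by simp)
      · exact absurd (h.2.1.symm.trans ((hc _ _).trans h'.2.1)) (by simp)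
    · rcases he with ⟨rfl, rfl⟩ | ⟨rfl, rfl⟩
      · rfl
      · exfalso; have := h.2.2; have := h'.2.2; omega
  · -- injectivity
    rintro (i | u) (j | v) he
    · rw [hb_inj n0 he]
    · exact absurd he (hb_ne (rg v) i)
    · exact absurd he.symm (hb_ne (rg u) j)
    · simp only [ps, Prod.mk.injEq] at he
      have : X u = X v := by omega
      rw [Xi this]
  · rintro (⟨i, v⟩ | ⟨u, v, h⟩ | ⟨u, v, h⟩)
    · fin_cases i <;> rfl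
    · rfl
    · rfl
  · rintro (⟨i, v⟩ | ⟨u, v, h⟩ | ⟨u, v, h⟩)
    · fin_cases i <;> rfl
    · rfl
    · rfl
  · rintro (⟨i, v⟩ | ⟨u, v, h⟩ | ⟨u, v, h⟩)
    · fin_cases i <;> exact le_rfl
    · exact le_rfl
    · exact le_rfl
  · rintro (⟨i, v⟩ | ⟨u, v, h⟩ | ⟨u, v, h⟩)
    · exact ndN (rg v) i
    · exact ndH h.2.2
    · exact ndW h.2.2
  · -- the chains avoid the other vertices
    rintro (⟨i, v⟩ | ⟨u, v, h⟩ | ⟨u, v, h⟩) s hs (j | w) hbx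
    · obtain ⟨h1, h2⟩ := avN_hub (rg v) i j s hs hbx
      subst h1
      exact .inr ⟨rfl, h2⟩
    · obtain ⟨h1, h2⟩ := avN_v (rg v) (rg w) i (dich w v) s hs hbx
      have := Xi h1
      subst this
      exact .inl ⟨rfl, h2⟩
    · exact absurd hbx (avH_hub (rg u) (rg v) h.2.2 j s hs)
    · rcases avH_v h.2.2 (nn u v (neH u v h.2.2)).1 (dich w u) (dich w v) s hs hbx with
        ⟨h1, h2⟩ | ⟨h1, h2⟩
      · have := Xi h1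
        subst this
        exact .inl ⟨rfl, h2⟩
      · have := Xi h1
        subst this
        exact .inr ⟨rfl, h2⟩
    · exact absurd hbx (avW_hub (rg u) (rg v) h.2.2 j s hs)
    · rcases avW_v h.2.2 (nn u v (neW u v h.2.2)).2 (dich w u) (dich w v) s hs hbx with
        ⟨h1, h2⟩ | ⟨h1, h2⟩
      · have := Xi h1
        subst this
        exact .inl ⟨rfl, h2⟩
      · have := Xi h1
        subst this
        exact .inr ⟨rfl, h2⟩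
  · -- crossings
    have hcomm : ∀ e e' : E2 Γ c X Y,
        {z | ∃ w, (w = e.src ∨ w = e.tgt) ∧ (w = e'.src ∨ w = e'.tgt) ∧ z = cz (ps n X Y w)} =
        {z | ∃ w, (w = e'.src ∨ w = e'.tgt) ∧ (w = e.src ∨ w = e.tgt) ∧ z = cz (ps n X Y w)} := by
      intro e e'
      ext z
      constructor <;> rintro ⟨w, h1, h2, h3⟩ <;> exact ⟨w, h2, h1, h3⟩
    have HN : ∀ u v h i w, OkL {z | ∃ w', (w' = (E2.H u v h : E2 Γ c X Y).src ∨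
        w' = (E2.H u v h : E2 Γ c X Y).tgt) ∧ (w' = (E2.N i w : E2 Γ c X Y).src ∨
        w' = (E2.N i w : E2 Γ c X Y).tgt) ∧ z = cz (ps n X Y w')}
        (chH (X u) (Y u) (X v) (Y v)) (chN n i (X w) (Y w)) := by
      intro u v h i w
      have huv := nn u v (neH u v h.2.2)
      by_cases e1 : w = u
      · subst e1
        refine H_hub0 _ (rg _) (rg _) huv h.2.2 ?_ i
        exact ⟨.inr w, .inl rfl, .inl rfl, rfl⟩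
      by_cases e2 : w = v
      · subst e2
        refine H_hub1 _ (rg _) (rg _) huv h.2.2 ?_ i
        exact ⟨.inr w, .inr rfl, .inl rfl, rfl⟩
      exact H_hub2 _ (rg _) (rg _) (rg _) huv (nn _ _ (Ne.symm e1)) (nn _ _ (Ne.symm e2)) h.2.2 i
    have WN : ∀ u v h i w, OkL {z | ∃ w', (w' = (E2.W u v h : E2 Γ c X Y).src ∨
        w' = (E2.W u v h : E2 Γ c X Y).tgt) ∧ (w' = (E2.N i w : E2 Γ c X Y).src ∨
        w' = (E2.N i w : E2 Γ c X Y).tgt) ∧ z = cz (ps n X Y w')}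
        (chW (X u) (Y u) (X v) (Y v)) (chN n i (X w) (Y w)) := by
      intro u v h i w
      have huv := nn u v (neW u v h.2.2)
      by_cases e1 : w = u
      · subst e1
        refine W_hub0 _ (rg _) (rg _) huv h.2.2 ?_ i
        exact ⟨.inr w, .inl rfl, .inl rfl, rfl⟩
      by_cases e2 : w = v
      · subst e2
        refine W_hub1 _ (rg _) (rg _) huv h.2.2 ?_ i
        exact ⟨.inr w, .inr rfl, .inl rfl, rfl⟩
      exact W_hub2 _ (rg _) (rg _) (rg _) huv (nn _ _ (Ne.symm e1)) (nn _ _ (Ne.symm e2)) h.2.2 i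
    have HW : ∀ u v h u' v' h', OkL {z | ∃ w', (w' = (E2.H u v h : E2 Γ c X Y).src ∨
        w' = (E2.H u v h : E2 Γ c X Y).tgt) ∧ (w' = (E2.W u' v' h' : E2 Γ c X Y).src ∨
        w' = (E2.W u' v' h' : E2 Γ c X Y).tgt) ∧ z = cz (ps n X Y w')}
        (chH (X u) (Y u) (X v) (Y v)) (chW (X u') (Y u') (X v') (Y v')) := by
      intro u v h u' v' h'
      have huv := neH u v h.2.2
      have huv' := neW u' v' h'.2.2
      by_cases e1 : u' = u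
      · subst e1
        have e2 : v' ≠ v := by
          rintro rfl
          exact absurd (h.2.1.symm.trans h'.2.1) (by simp)
        exact hw02 _ (rg _) (rg _) (rg _) (nn _ _ huv) (nn _ _ huv') (nn _ _ e2.symm) h.2.2 h'.2.2
          ⟨.inr u', .inl rfl, .inl rfl, rfl⟩
      by_cases e2 : v' = u
      · subst e2
        have e3 : u' ≠ v := by
          rintro rfl
          exact absurd (h.2.1.symm.trans ((hc _ _).trans h'.2.1)) (by simp)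
        exact hw20 _ (rg _) (rg _) (rg _) (nn _ _ huv) (nn _ _ huv'.symm) (nn _ _ e3.symm) h.2.2
          h'.2.2 ⟨.inr v', .inl rfl, .inr rfl, rfl⟩
      by_cases e3 : u' = v
      · subst e3
        exact hw12 _ (rg _) (rg _) (rg _) (nn _ _ huv) (nn _ _ (Ne.symm e2)) (nn _ _ huv') h.2.2
          h'.2.2 ⟨.inr u', .inr rfl, .inl rfl, rfl⟩
      by_cases e4 : v' = v
      · subst e4
        exact hw21 _ (rg _) (rg _) (rg _) (nn _ _ huv) (nn _ _ (Ne.symm e1)) (nn _ _ huv'.symm)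
          h.2.2 h'.2.2 ⟨.inr v', .inr rfl, .inr rfl, rfl⟩
      exact hw23 _ (rg _) (rg _) (rg _) (rg _) (nn _ _ huv) (nn _ _ (Ne.symm e1))
        (nn _ _ (Ne.symm e2)) (nn _ _ (Ne.symm e3)) (nn _ _ (Ne.symm e4)) (nn _ _ huv') h.2.2
        h'.2.2
    rintro (⟨i, v⟩ | ⟨u, v, h⟩ | ⟨u, v, h⟩) (⟨i', v'⟩ | ⟨u', v', h'⟩ | ⟨u', v', h'⟩) hne
    · by_cases e : v = v'
      · subst e
        have hii : i ≠ i' := by rintro rfl; exact hne rfl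
        exact hubs_eq _ (rg v) i i' ⟨.inr v, .inl rfl, .inl rfl, rfl⟩ hii
      · refine hubs_ne _ (rg v) (rg v') (nn _ _ e) i i' ?_
        rintro rfl
        exact ⟨.inl i, .inr rfl, .inr rfl, rfl⟩
    · rw [hcomm]
      exact (HN u' v' h' i v).symm
    · rw [hcomm]
      exact (WN u' v' h' i v).symm
    · exact HN u v h i' v'
    · -- H, H
      have huv := neH u v h.2.2
      have huv' := neH u' v' h'.2.2
      by_cases e1 : u' = u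
      · exfalso
        subst e1
        have : v = v' := Yi (by rw [h.2.2, h'.2.2])
        subst this
        exact hne rfl
      by_cases e2 : v' = v
      · exfalso
        subst e2
        have e3 : Y u = Y u' := by have := h.2.2; have := h'.2.2; omega
        exact e1 (Yi e3).symm
      by_cases e3 : u' = v
      · subst e3
        have e4 : u ≠ v' := by
          rintro rfl
          have := h.2.2; have := h'.2.2; omega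
        exact hh12 _ (rg _) (rg _) (rg _) (nn _ _ huv) (nn _ _ e4) (nn _ _ huv') h.2.2 h'.2.2
          ⟨.inr u', .inr rfl, .inl rfl, rfl⟩
      by_cases e4 : v' = u
      · subst e4
        rw [hcomm]
        refine OkL.symm ?_
        exact hh12 _ (rg _) (rg _) (rg _) (nn _ _ huv') (nn _ _ e3) (nn _ _ huv) h'.2.2 h.2.2
          ⟨.inr v', .inr rfl, .inl rfl, rfl⟩
      exact hh23 _ (rg _) (rg _) (rg _) (rg _) (nn _ _ huv) (nn _ _ (Ne.symm e1))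
        (nn _ _ (Ne.symm e4)) (nn _ _ (Ne.symm e3)) (nn _ _ (Ne.symm e2)) (nn _ _ huv') h.2.2
        h'.2.2
    · exact HW u v h u' v' h'
    · exact WN u v h i' v'
    · rw [hcomm]
      exact (HW u' v' h' u v h).symm
    · -- W, W
      have huv := neW u v h.2.2
      have huv' := neW u' v' h'.2.2
      by_cases e1 : u' = u
      · exfalso
        subst e1
        have : v = v' := Xi (by rw [h.2.2, h'.2.2])
        subst this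
        exact hne rfl
      by_cases e2 : v' = v
      · exfalso
        subst e2
        have e3 : X u = X u' := by have := h.2.2; have := h'.2.2; omega
        exact e1 (Xi e3).symm
      by_cases e3 : u' = v
      · subst e3
        have e4 : u ≠ v' := by
          rintro rfl
          have := h.2.2; have := h'.2.2; omega
        exact ww12 _ (rg _) (rg _) (rg _) (nn _ _ huv) (nn _ _ e4) (nn _ _ huv') h.2.2 h'.2.2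
          ⟨.inr u', .inr rfl, .inl rfl, rfl⟩
      by_cases e4 : v' = u
      · subst e4
        rw [hcomm]
        refine OkL.symm ?_
        exact ww12 _ (rg _) (rg _) (rg _) (nn _ _ huv') (nn _ _ e3) (nn _ _ huv) h'.2.2 h.2.2
          ⟨.inr v', .inr rfl, .inl rfl, rfl⟩
      exact ww23 _ (rg _) (rg _) (rg _) (rg _) (nn _ _ huv) (nn _ _ (Ne.symm e1))
        (nn _ _ (Ne.symm e4)) (nn _ _ (Ne.symm e3)) (nn _ _ (Ne.symm e2)) (nn _ _ huv') h.2.2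
        h'.2.2
  · rintro (⟨i, v⟩ | ⟨u, v, h⟩ | ⟨u, v, h⟩)
    · exact simN (rg v) i
    · exact simH h.2.2 (nn _ _ (neH u v h.2.2)).1
    · exact simW h.2.2 (nn _ _ (neW u v h.2.2)).2

end Pool.Agent.RAC.D2

namespace Pool.Agent.RAC

/-- **COMPL_2**: drawings with two bends. -/
theorem COMPL_2 (V : Type) [Fintype V] (Γ : Gam V) (h : TLF Γ) : SD 2 (G2 Γ) := D2.compl2 h

end Pool.Agent.RAC
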