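import Pool.Agent.Lib_MP_638f75_lc.Draw

/-!
# Blocks D1, D2: certificates for pairs of segments, drawings from oriented edges
-/

namespace Pool.Agent.RAC

/-- the closed segments `s`, `t` meet only in points of `C` or cross at right angles in interior
points -/
def OkC (C : Set Pt) (s t : Pt × Pt) : Prop :=
  ∀ z, z ∈ segment ℝ s.1 s.2 → z ∈ segment ℝ t.1 t.2 →
    z ∈ C ∨
    (z ∈ openSegment ℝ s.1 s.2 ∧ z ∈ openSegment ℝ t.1 t.2 ∧ dot (s.2 - s.1) (t.2 - t.1) = 0)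

/-- integer points -/
def cz (p : ℤ × ℤ) : Pt := ((p.1 : ℝ), (p.2 : ℝ))

theorem cz_inj {p q : ℤ × ℤ} (h : cz p = cz q) : p = q := by
  obtain ⟨a, b⟩ := p
  obtain ⟨c, d⟩ := q
  simp only [cz, Prod.mk.injEq, Int.cast_inj] at h
  exact Prod.ext h.1 h.2

theorem OkC.symm {C : Set Pt} {s t : Pt × Pt} (h : OkC C s t) : OkC C t s := by
  intro z hz hz'
  rcases h z hz' hz with h | ⟨h1, h2, h3⟩
  · exact .inl h
  · refine .inr ⟨h2, h1, ?_⟩
    rw [← h3]
    simp only [dot]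
    ring

theorem OkC.mono {C C' : Set Pt} (hC : C ⊆ C') {s t : Pt × Pt} (h : OkC C s t) : OkC C' s t :=
  fun z hz hz' => (h z hz hz').imp (fun x => hC x) id

theorem OkC.flip {C : Set Pt} {a b : Pt} {t : Pt × Pt} (h : OkC C (a, b) t) : OkC C (b, a) t := by
  intro z hz hz'
  rw [segment_symm] at hz
  rcases h z hz hz' with h | ⟨h1, h2, h3⟩
  · exact .inl h
  · refine .inr ⟨?_, h2, ?_⟩
    · rw [openSegment_symm]; exact h1
    · simp only [dot, Prod.fst_sub, Prod.snd_sub] at h3 ⊢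
      linarith

theorem OkC.flip' {C : Set Pt} {a b : Pt} {s : Pt × Pt} (h : OkC C s (a, b)) : OkC C s (b, a) :=
  h.symm.flip.symm

/-- parametrisation of a segment -/
theorem seg_par {a b z : Pt} (h : z ∈ segment ℝ a b) :
    ∃ t : ℝ, 0 ≤ t ∧ t ≤ 1 ∧ z.1 = a.1 + t * (b.1 - a.1) ∧ z.2 = a.2 + t * (b.2 - a.2) := by
  rw [segment_eq_image'] at h
  obtain ⟨t, ⟨h0, h1⟩, rfl⟩ := h
  exact ⟨t, h0, h1, by simp, by simp⟩

theorem seg_open {a b z : Pt} (h : z ∈ segment ℝ a b) (ha : z ≠ a) (hb : z ≠ b) :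
    z ∈ openSegment ℝ a b :=
  mem_openSegment_of_ne_left_right (fun e => ha e.symm) (fun e => hb e.symm) h

theorem seg_le1 {a b z : Pt} (h : z ∈ segment ℝ a b) {m : ℝ} (ha : a.1 ≤ m) (hb : b.1 ≤ m) :
    z.1 ≤ m := by
  obtain ⟨t, h0, h1, e, _⟩ := seg_par h
  rw [e]; nlinarith

theorem seg_lt1 {a b z : Pt} (h : z ∈ segment ℝ a b) {m : ℝ} (ha : a.1 < m) (hb : b.1 < m) :
    z.1 < m :=
  lt_of_le_of_lt (seg_le1 h (le_max_left _ _) (le_max_right _ _)) (max_lt ha hb)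

theorem seg_ge1 {a b z : Pt} (h : z ∈ segment ℝ a b) {m : ℝ} (ha : m ≤ a.1) (hb : m ≤ b.1) :
    m ≤ z.1 := by
  obtain ⟨t, h0, h1, e, _⟩ := seg_par h
  rw [e]; nlinarith

theorem seg_gt1 {a b z : Pt} (h : z ∈ segment ℝ a b) {m : ℝ} (ha : m < a.1) (hb : m < b.1) :
    m < z.1 :=
  lt_of_lt_of_le (lt_min ha hb) (seg_ge1 h (min_le_left _ _) (min_le_right _ _))

theorem seg_le2 {a b z : Pt} (h : z ∈ segment ℝ a b) {m : ℝ} (ha : a.2 ≤ m) (hb : b.2 ≤ m) :
    z.2 ≤ m := by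
  obtain ⟨t, h0, h1, _, e⟩ := seg_par h
  rw [e]; nlinarith

theorem seg_lt2 {a b z : Pt} (h : z ∈ segment ℝ a b) {m : ℝ} (ha : a.2 < m) (hb : b.2 < m) :
    z.2 < m :=
  lt_of_le_of_lt (seg_le2 h (le_max_left _ _) (le_max_right _ _)) (max_lt ha hb)

theorem seg_ge2 {a b z : Pt} (h : z ∈ segment ℝ a b) {m : ℝ} (ha : m ≤ a.2) (hb : m ≤ b.2) :
    m ≤ z.2 := by
  obtain ⟨t, h0, h1, _, e⟩ := seg_par h
  rw [e]; nlinarith

theorem seg_gt2 {a b z : Pt} (h : z ∈ segment ℝ a b) {m : ℝ} (ha : m < a.2) (hb : m < b.2) :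
    m < z.2 :=
  lt_of_lt_of_le (lt_min ha hb) (seg_ge2 h (min_le_left _ _) (min_le_right _ _))

/-- disjoint ranges of abscissas -/
theorem cSX (C : Set Pt) {a1 a2 b1 b2 c1 c2 d1 d2 : ℤ}
    (h : a1 < c1 ∧ a1 < d1 ∧ b1 < c1 ∧ b1 < d1) :
    OkC C (cz (a1, a2), cz (b1, b2)) (cz (c1, c2), cz (d1, d2)) := by
  intro z hz hz'
  exfalso
  obtain ⟨h1, h2, h3, h4⟩ := h
  have e1 : z.1 ≤ ((max a1 b1 : ℤ) : ℝ) := seg_le1 hz (by simp [cz]) (by simp [cz])
  have e2 : ((min c1 d1 : ℤ) : ℝ) ≤ z.1 := seg_ge1 hz' (by simp [cz]) (by simp [cz])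
  have e3 : max a1 b1 < min c1 d1 := max_lt (lt_min h1 h2) (lt_min h3 h4)
  have e4 : ((max a1 b1 : ℤ) : ℝ) < ((min c1 d1 : ℤ) : ℝ) := by exact_mod_cast e3
  linarith

theorem cSX' (C : Set Pt) {a1 a2 b1 b2 c1 c2 d1 d2 : ℤ}
    (h : c1 < a1 ∧ d1 < a1 ∧ c1 < b1 ∧ d1 < b1) :
    OkC C (cz (a1, a2), cz (b1, b2)) (cz (c1, c2), cz (d1, d2)) :=
  (cSX C ⟨h.1, h.2.2.1, h.2.1, h.2.2.2⟩).symm

/-- disjoint ranges of ordinates -/
theorem cSY (C : Set Pt) {a1 a2 b1 b2 c1 c2 d1 d2 : ℤ}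
    (h : a2 < c2 ∧ a2 < d2 ∧ b2 < c2 ∧ b2 < d2) :
    OkC C (cz (a1, a2), cz (b1, b2)) (cz (c1, c2), cz (d1, d2)) := by
  intro z hz hz'
  exfalso
  obtain ⟨h1, h2, h3, h4⟩ := h
  have e1 : z.2 ≤ ((max a2 b2 : ℤ) : ℝ) := seg_le2 hz (by simp [cz]) (by simp [cz])
  have e2 : ((min c2 d2 : ℤ) : ℝ) ≤ z.2 := seg_ge2 hz' (by simp [cz]) (by simp [cz])
  have e3 : max a2 b2 < min c2 d2 := max_lt (lt_min h1 h2) (lt_min h3 h4)
  have e4 : ((max a2 b2 : ℤ) : ℝ) < ((min c2 d2 : ℤ) : ℝ) := by exact_mod_cast e3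
  linarith

theorem cSY' (C : Set Pt) {a1 a2 b1 b2 c1 c2 d1 d2 : ℤ}
    (h : c2 < a2 ∧ d2 < a2 ∧ c2 < b2 ∧ d2 < b2) :
    OkC C (cz (a1, a2), cz (b1, b2)) (cz (c1, c2), cz (d1, d2)) :=
  (cSY C ⟨h.1, h.2.2.1, h.2.1, h.2.2.2⟩).symm

/-- horizontal and vertical segment, no end of one on the line of the other -/
theorem cHV (C : Set Pt) {a1 a2 b1 b2 c1 c2 d1 d2 : ℤ}
    (h : a2 = b2 ∧ c1 = d1 ∧ a2 ≠ c2 ∧ a2 ≠ d2 ∧ c1 ≠ a1 ∧ c1 ≠ b1) :
    OkC C (cz (a1, a2), cz (b1, b2)) (cz (c1, c2), cz (d1, d2)) := by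
  intro z hz hz'
  right
  obtain ⟨rfl, rfl, h1, h2, h3, h4⟩ := h
  have e1 : z.2 = a2 :=
    le_antisymm (seg_le2 hz (by simp [cz]) (by simp [cz])) (seg_ge2 hz (by simp [cz]) (by simp [cz]))
  have e2 : z.1 = c1 :=
    le_antisymm (seg_le1 hz' (by simp [cz]) (by simp [cz]))
      (seg_ge1 hz' (by simp [cz]) (by simp [cz]))
  refine ⟨seg_open hz ?_ ?_, seg_open hz' ?_ ?_, ?_⟩
  · rintro rfl; simp only [cz, Int.cast_inj] at e2; exact h3 e2.symm
  · rintro rfl; simp only [cz, Int.cast_inj] at e2; exact h4 e2.symm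
  · rintro rfl; simp only [cz, Int.cast_inj] at e1; exact h1 e1.symm
  · rintro rfl; simp only [cz, Int.cast_inj] at e1; exact h2 e1.symm
  · simp [dot, cz]

theorem cVH (C : Set Pt) {a1 a2 b1 b2 c1 c2 d1 d2 : ℤ}
    (h : c2 = d2 ∧ a1 = b1 ∧ c2 ≠ a2 ∧ c2 ≠ b2 ∧ a1 ≠ c1 ∧ a1 ≠ d1) :
    OkC C (cz (a1, a2), cz (b1, b2)) (cz (c1, c2), cz (d1, d2)) :=
  (cHV C h).symm

/-- two segments with the common end `p`, other ends `q`, `r` -/
theorem cE0 {p q r : Pt} (h : crs (q - p) (r - p) ≠ 0 ∨ dot (q - p) (r - p) < 0) {z : Pt}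
    (hz : z ∈ segment ℝ p q) (hz' : z ∈ segment ℝ p r) : z = p := by
  obtain ⟨t, t0, t1, e1, e2⟩ := seg_par hz
  obtain ⟨u, u0, u1, f1, f2⟩ := seg_par hz'
  simp only [crs, dot, Prod.fst_sub, Prod.snd_sub] at h
  have g1 : t * (q.1 - p.1) = u * (r.1 - p.1) := by linarith
  have g2 : t * (q.2 - p.2) = u * (r.2 - p.2) := by linarith
  have key : t = 0 := by
    rcases h with h | h
    · have : t * ((q.1 - p.1) * (r.2 - p.2) - (q.2 - p.2) * (r.1 - p.1)) = 0 := by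
        have h1 : t * (q.1 - p.1) * (r.2 - p.2) = u * (r.1 - p.1) * (r.2 - p.2) := by rw [g1]
        have h2 : t * (q.2 - p.2) * (r.1 - p.1) = u * (r.2 - p.2) * (r.1 - p.1) := by rw [g2]
        linarith
      rcases mul_eq_zero.1 this with h' | h'
      · exact h'
      · exact absurd h' h
    · by_contra hne
      have tp : 0 < t := lt_of_le_of_ne t0 (Ne.symm hne)
      have h1 : t * ((q.1 - p.1) * (r.1 - p.1) + (q.2 - p.2) * (r.2 - p.2)) < 0 :=
        mul_neg_of_pos_of_neg tp h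
      have h2 : t * ((q.1 - p.1) * (r.1 - p.1) + (q.2 - p.2) * (r.2 - p.2)) =
          u * ((r.1 - p.1) ^ 2 + (r.2 - p.2) ^ 2) := by
        have h3 : t * (q.1 - p.1) * (r.1 - p.1) = u * (r.1 - p.1) * (r.1 - p.1) := by rw [g1]
        have h4 : t * (q.2 - p.2) * (r.2 - p.2) = u * (r.2 - p.2) * (r.2 - p.2) := by rw [g2]
        linarith
      have h5 : 0 ≤ u * ((r.1 - p.1) ^ 2 + (r.2 - p.2) ^ 2) := by positivity
      linarith
  refine Prod.ext ?_ ?_
  · rw [e1, key]; ring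
  · rw [e2, key]; ring

/-- common end `p`; the other ends `q`, `r` are not in the same direction (integer version) -/
def Dir (p q r : ℤ × ℤ) : Prop :=
  (q.1 - p.1) * (r.2 - p.2) - (q.2 - p.2) * (r.1 - p.1) ≠ 0 ∨
    (q.1 - p.1) * (r.1 - p.1) + (q.2 - p.2) * (r.2 - p.2) < 0

theorem cE1 {p q r : ℤ × ℤ} (h : Dir p q r) {z : Pt}
    (hz : z ∈ segment ℝ (cz p) (cz q)) (hz' : z ∈ segment ℝ (cz p) (cz r)) : z = cz p := by
  refine cE0 ?_ hz hz'
  rcases h with h | h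
  · left
    simp only [crs, cz, Prod.fst_sub, Prod.snd_sub]
    exact_mod_cast h
  · right
    simp only [dot, cz, Prod.fst_sub, Prod.snd_sub]
    exact_mod_cast h

theorem cE {C : Set Pt} {p q r : ℤ × ℤ} (hC : cz p ∈ C) (h : Dir p q r) :
    OkC C (cz p, cz q) (cz p, cz r) := fun z hz hz' => .inl (by rw [cE1 h hz hz']; exact hC)

/-- linear sufficient conditions for `Dir` -/
theorem dirH {p q r : ℤ × ℤ} (h : q.2 = p.2 ∧ q.1 ≠ p.1 ∧ r.2 ≠ p.2) : Dir p q r := by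
  left
  obtain ⟨h1, h2, h3⟩ := h
  rw [h1, sub_self, zero_mul, sub_zero]
  exact mul_ne_zero (sub_ne_zero.2 h2) (sub_ne_zero.2 h3)

theorem dirV {p q r : ℤ × ℤ} (h : q.1 = p.1 ∧ q.2 ≠ p.2 ∧ r.1 ≠ p.1) : Dir p q r := by
  left
  obtain ⟨h1, h2, h3⟩ := h
  rw [h1, sub_self, zero_mul, zero_sub]
  exact neg_ne_zero.2 (mul_ne_zero (sub_ne_zero.2 h2) (sub_ne_zero.2 h3))

theorem Dir.symm {p q r : ℤ × ℤ} (h : Dir p q r) : Dir p r q := by
  rcases h with h | h
  · left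
    intro e
    apply h
    linear_combination -e
  · right
    linarith

/-- opposite horizontal directions -/
theorem dirO {p q r : ℤ × ℤ} (h : q.2 = p.2 ∧ r.2 = p.2 ∧
    ((q.1 < p.1 ∧ p.1 < r.1) ∨ (p.1 < q.1 ∧ r.1 < p.1))) : Dir p q r := by
  right
  obtain ⟨h1, h2, h3 | h3⟩ := h <;> rw [h1, h2] <;> nlinarith

theorem dirO' {p q r : ℤ × ℤ} (h : q.1 = p.1 ∧ r.1 = p.1 ∧
    ((q.2 < p.2 ∧ p.2 < r.2) ∨ (p.2 < q.2 ∧ r.2 < p.2))) : Dir p q r := by
  right
  obtain ⟨h1, h2, h3 | h3⟩ := h <;> rw [h1, h2] <;> nlinarith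

/-- other ends on the same level -/
theorem dirL {p q r : ℤ × ℤ} (h : q.2 = r.2 ∧ q.2 ≠ p.2 ∧ q.1 ≠ r.1) : Dir p q r := by
  left
  obtain ⟨h1, h2, h3⟩ := h
  rw [← h1]
  have : (q.1 - p.1) * (q.2 - p.2) - (q.2 - p.2) * (r.1 - p.1) = (q.1 - r.1) * (q.2 - p.2) := by
    ring
  rw [this]
  exact mul_ne_zero (sub_ne_zero.2 h3) (sub_ne_zero.2 h2)

theorem dirL' {p q r : ℤ × ℤ} (h : q.1 = r.1 ∧ q.1 ≠ p.1 ∧ q.2 ≠ r.2) : Dir p q r := by
  left
  obtain ⟨h1, h2, h3⟩ := h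
  rw [← h1]
  have : (q.1 - p.1) * (r.2 - p.2) - (q.2 - p.2) * (q.1 - p.1) = (q.1 - p.1) * (r.2 - q.2) := by
    ring
  rw [this]
  exact mul_ne_zero (sub_ne_zero.2 h2) (sub_ne_zero.2 (Ne.symm h3))

/-- touching levels: the only point of the first segment on the common level is its end `a`, the
only one of the second is `c` -/
theorem cTY (C : Set Pt) {a1 a2 b1 b2 c1 c2 d1 d2 : ℤ}
    (h : a2 = c2 ∧ a1 ≠ c1 ∧ ((b2 < a2 ∧ a2 < d2) ∨ (a2 < b2 ∧ d2 < a2))) :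
    OkC C (cz (a1, a2), cz (b1, b2)) (cz (c1, c2), cz (d1, d2)) := by
  intro z hz hz'
  exfalso
  obtain ⟨rfl, h1, h2⟩ := h
  obtain ⟨t, t0, t1, e1, e2⟩ := seg_par hz
  obtain ⟨u, u0, u1, f1, f2⟩ := seg_par hz'
  simp only [cz] at e1 e2 f1 f2
  have key : t = 0 ∧ u = 0 := by
    rcases h2 with ⟨h3, h4⟩ | ⟨h3, h4⟩
    · have h3' : (b2 : ℝ) - a2 < 0 := sub_neg.2 (by exact_mod_cast h3)
      have h4' : 0 < (d2 : ℝ) - a2 := sub_pos.2 (by exact_mod_cast h4)
      constructor <;> nlinarith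
    · have h3' : 0 < (b2 : ℝ) - a2 := sub_pos.2 (by exact_mod_cast h3)
      have h4' : (d2 : ℝ) - a2 < 0 := sub_neg.2 (by exact_mod_cast h4)
      constructor <;> nlinarith
  rw [key.1] at e1
  rw [key.2] at f1
  apply h1
  have : (a1 : ℝ) = c1 := by linarith
  exact_mod_cast this

theorem cTX (C : Set Pt) {a1 a2 b1 b2 c1 c2 d1 d2 : ℤ}
    (h : a1 = c1 ∧ a2 ≠ c2 ∧ ((b1 < a1 ∧ a1 < d1) ∨ (a1 < b1 ∧ d1 < a1))) :
    OkC C (cz (a1, a2), cz (b1, b2)) (cz (c1, c2), cz (d1, d2)) := by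
  intro z hz hz'
  exfalso
  obtain ⟨rfl, h1, h2⟩ := h
  obtain ⟨t, t0, t1, e1, e2⟩ := seg_par hz
  obtain ⟨u, u0, u1, f1, f2⟩ := seg_par hz'
  simp only [cz] at e1 e2 f1 f2
  have key : t = 0 ∧ u = 0 := by
    rcases h2 with ⟨h3, h4⟩ | ⟨h3, h4⟩
    · have h3' : (b1 : ℝ) - a1 < 0 := sub_neg.2 (by exact_mod_cast h3)
      have h4' : 0 < (d1 : ℝ) - a1 := sub_pos.2 (by exact_mod_cast h4)
      constructor <;> nlinarith
    · have h3' : 0 < (b1 : ℝ) - a1 := sub_pos.2 (by exact_mod_cast h3)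
      have h4' : (d1 : ℝ) - a1 < 0 := sub_neg.2 (by exact_mod_cast h4)
      constructor <;> nlinarith
  rw [key.1] at e2
  rw [key.2] at f2
  apply h1
  have : (a2 : ℝ) = c2 := by linarith
  exact_mod_cast this


/-! ### lists of segments -/

theorem segs_cons (a b : Pt) (l : List Pt) : segs (a :: b :: l) = (a, b) :: segs (b :: l) := by
  simp [segs]

theorem segs_append (l : List Pt) (b a : Pt) :
    segs (l ++ [b, a]) = segs (l ++ [b]) ++ [(b, a)] := by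
  induction l with
  | nil => simp [segs]
  | cons x l ih =>
    cases l with
    | nil => simp [segs]
    | cons y l =>
      simp only [List.cons_append] at ih ⊢
      rw [segs_cons, segs_cons, ih, List.cons_append]

theorem segs_reverse (c : List Pt) : segs c.reverse = ((segs c).map Prod.swap).reverse := by
  induction c with
  | nil => rfl
  | cons a c ih =>
    cases c with
    | nil => rfl
    | cons b c =>
      have e : ((a, b).swap :: List.map Prod.swap (segs (b :: c))).reverse =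
          segs (b :: c).reverse ++ [(b, a)] := by rw [List.reverse_cons, ih]; rfl
      rw [segs_cons, List.map_cons, e, List.reverse_cons, List.reverse_cons, List.append_assoc]
      exact segs_append _ _ _

theorem mem_segs_reverse {c : List Pt} {s : Pt × Pt} (h : s ∈ segs c.reverse) :
    s.swap ∈ segs c := by
  rw [segs_reverse, List.mem_reverse, List.mem_map] at h
  obtain ⟨t, ht, rfl⟩ := h
  simpa using ht

theorem SimpleChain.reverse {c : List Pt} (h : SimpleChain c) : SimpleChain c.reverse := by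
  intro i j s t hij hs ht z hz hz'
  rw [segs_reverse] at hs ht
  have key : ∀ (i : ℕ) (s : Pt × Pt), ((segs c).map Prod.swap).reverse[i]? = some s →
      i < (segs c).length ∧ (segs c)[(segs c).length - 1 - i]? = some s.swap := by
    intro i s hs
    obtain ⟨hi, he⟩ := List.getElem?_eq_some_iff.1 hs
    have hi' : i < (segs c).length := by simpa using hi
    refine ⟨hi', ?_⟩
    rw [List.getElem_reverse] at he
    rw [List.getElem?_eq_some_iff]
    refine ⟨by omega, ?_⟩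
    rw [List.getElem_map] at he
    rw [← he, Prod.swap_swap]
    congr 1
    simp
  obtain ⟨hi, hs'⟩ := key i s hs
  obtain ⟨hj, ht'⟩ := key j t ht
  rw [segment_symm] at hz hz'
  obtain ⟨h1, h2⟩ := h _ _ _ _ (by omega) ht' hs' z hz' hz
  refine ⟨by omega, ?_⟩
  rw [h2]
  obtain ⟨k, hk⟩ : ∃ k, (segs c).length - 1 - j = k := ⟨_, rfl⟩
  have h3 : (segs c).length - 1 - i = k + 1 := by omega
  rw [hk] at ht'
  rw [h3] at hs'
  -- consecutive segments share a point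
  have cons : ∀ (c : List Pt) (k : ℕ) (p q : Pt × Pt), (segs c)[k]? = some p →
      (segs c)[k + 1]? = some q → p.2 = q.1 := by
    intro c k p q hp hq
    simp only [segs, List.getElem?_zip_eq_some, List.getElem?_tail] at hp hq
    exact Option.some.inj (hp.2.symm.trans hq.1)
  have := cons c k _ _ ht' hs'
  simpa using this

theorem segs_map_cz (c : List (ℤ × ℤ)) :
    segs (c.map cz) = (c.zip c.tail).map (Prod.map cz cz) := by
  rw [segs, ← List.map_tail, List.zip_map]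

/-- chains of two points are simple -/
theorem simple2 (a b : Pt) : SimpleChain [a, b] := by
  intro i j s t hij hs ht
  exfalso
  simp only [segs, List.tail_cons, List.zip_cons_cons, List.zip_nil_right] at hs ht
  obtain ⟨hj, -⟩ := List.getElem?_eq_some_iff.1 ht
  simp at hj
  omega

theorem simple3 {a b c : ℤ × ℤ} (h : Dir b a c) : SimpleChain [cz a, cz b, cz c] := by
  intro i j s t hij hs ht z hz hz'
  simp only [segs, List.tail_cons, List.zip_cons_cons, List.zip_nil_right] at hs ht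
  obtain ⟨hj, -⟩ := List.getElem?_eq_some_iff.1 ht
  simp only [List.length_cons, List.length_nil] at hj
  obtain rfl : i = 0 := by omega
  obtain rfl : j = 1 := by omega
  simp only [List.getElem?_cons_zero, List.getElem?_cons_succ, Option.some.injEq] at hs ht
  subst hs ht
  rw [segment_symm] at hz
  exact ⟨rfl, cE1 h hz hz'⟩

theorem simple4 {a b c d : ℤ × ℤ} (h : Dir b a c) (h' : Dir c b d)
    (hd : OkC ∅ (cz a, cz b) (cz c, cz d)) (hd' : dot (cz b - cz a) (cz d - cz c) ≠ 0) :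
    SimpleChain [cz a, cz b, cz c, cz d] := by
  intro i j s t hij hs ht z hz hz'
  simp only [segs, List.tail_cons, List.zip_cons_cons, List.zip_nil_right] at hs ht
  obtain ⟨hj, -⟩ := List.getElem?_eq_some_iff.1 ht
  simp only [List.length_cons, List.length_nil] at hj
  have hcase : (i = 0 ∧ j = 1) ∨ (i = 1 ∧ j = 2) ∨ (i = 0 ∧ j = 2) := by omega
  rcases hcase with ⟨rfl, rfl⟩ | ⟨rfl, rfl⟩ | ⟨rfl, rfl⟩ <;>
    simp only [List.getElem?_cons_zero, List.getElem?_cons_succ, Option.some.injEq] at hs ht <;>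
    subst hs ht
  · rw [segment_symm] at hz
    exact ⟨rfl, cE1 h hz hz'⟩
  · rw [segment_symm] at hz
    exact ⟨rfl, cE1 h' hz hz'⟩
  · exfalso
    rcases hd z hz hz' with h | ⟨_, _, h⟩
    · exact h
    · exact hd' h

/-! ### finiteness -/

theorem perp_unique {a b c d : Pt} (hab : a ≠ b) (hd : dot (b - a) (d - c) = 0) {z w : Pt}
    (hz : z ∈ segment ℝ a b) (hz' : z ∈ segment ℝ c d) (hw : w ∈ segment ℝ a b)
    (hw' : w ∈ segment ℝ c d) : z = w := by
  obtain ⟨t, -, -, e1, e2⟩ := seg_par hz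
  obtain ⟨u, -, -, f1, f2⟩ := seg_par hz'
  obtain ⟨t', -, -, e1', e2'⟩ := seg_par hw
  obtain ⟨u', -, -, f1', f2'⟩ := seg_par hw'
  simp only [dot, Prod.fst_sub, Prod.snd_sub] at hd
  have g1 : (t - t') * (b.1 - a.1) = (u - u') * (d.1 - c.1) := by linarith
  have g2 : (t - t') * (b.2 - a.2) = (u - u') * (d.2 - c.2) := by linarith
  have key : (t - t') * ((b.1 - a.1) ^ 2 + (b.2 - a.2) ^ 2) = 0 := by
    have h1 : (t - t') * (b.1 - a.1) * (b.1 - a.1) = (u - u') * (d.1 - c.1) * (b.1 - a.1) := by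
      rw [g1]
    have h2 : (t - t') * (b.2 - a.2) * (b.2 - a.2) = (u - u') * (d.2 - c.2) * (b.2 - a.2) := by
      rw [g2]
    have h3 : (u - u') * ((b.1 - a.1) * (d.1 - c.1) + (b.2 - a.2) * (d.2 - c.2)) = 0 := by
      rw [hd, mul_zero]
    linarith
  have hpos : (b.1 - a.1) ^ 2 + (b.2 - a.2) ^ 2 ≠ 0 := by
    intro h0
    apply hab
    have h1 : (b.1 - a.1) ^ 2 = 0 := by nlinarith [sq_nonneg (b.1 - a.1), sq_nonneg (b.2 - a.2)]
    have h2 : (b.2 - a.2) ^ 2 = 0 := by nlinarith [sq_nonneg (b.1 - a.1), sq_nonneg (b.2 - a.2)]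
    have h1' := pow_eq_zero_iff (two_ne_zero) |>.1 h1
    have h2' := pow_eq_zero_iff (two_ne_zero) |>.1 h2
    exact Prod.ext (by linarith) (by linarith)
  have ht : t = t' := by
    rcases mul_eq_zero.1 key with h | h
    · linarith
    · exact absurd h hpos
  subst ht
  exact Prod.ext (by rw [e1, e1']) (by rw [e2, e2'])

theorem mem_segs_ne {c : List Pt} (h : c.IsChain (· ≠ ·)) {s : Pt × Pt} (hs : s ∈ segs c) :
    s.1 ≠ s.2 := by
  induction c with
  | nil => simp [segs] at hs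
  | cons a c ih =>
    cases c with
    | nil => simp [segs] at hs
    | cons b c =>
      rw [segs_cons, List.mem_cons] at hs
      rw [List.isChain_cons_cons] at h
      rcases hs with rfl | hs
      · exact h.1
      · exact ih h.2 hs

theorem WeakDraw.fin {k : ℕ} {V : Type*} {G : SimpleGraph V} {pos : V → Pt}
    {ch : V → V → List Pt} (h : WeakDraw k G pos ch) (u v u' v' : V) (huv : G.Adj u v)
    (huv' : G.Adj u' v') (hne : s(u, v) ≠ s(u', v')) :
    {z | OnChain (ch u v) z ∧ OnChain (ch u' v') z}.Finite := by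
  have hsub : {z | OnChain (ch u v) z ∧ OnChain (ch u' v') z} ⊆
      ⋃ s ∈ {s | s ∈ segs (ch u v)}, ⋃ t ∈ {t | t ∈ segs (ch u' v')},
        ({pos u, pos v} ∪ {z | z ∈ segment ℝ s.1 s.2 ∧ z ∈ segment ℝ t.1 t.2 ∧
          dot (s.2 - s.1) (t.2 - t.1) = 0}) := by
    rintro z ⟨⟨s, hs, hz⟩, ⟨t, ht, hz'⟩⟩
    simp only [Set.mem_iUnion, Set.mem_ofPred_eq, exists_prop]
    refine ⟨s, hs, t, ht, ?_⟩
    rcases h.cross u v u' v' huv huv' hne s hs t ht z hz hz' with ⟨w, hw, -, rfl⟩ | ⟨-, -, hd⟩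
    · left
      rcases hw with rfl | rfl
      · exact .inl rfl
      · exact .inr rfl
    · exact .inr ⟨hz, hz', hd⟩
  refine Set.Finite.subset ?_ hsub
  refine Set.Finite.biUnion (List.finite_toSet _) fun s hs => ?_
  refine Set.Finite.biUnion (List.finite_toSet _) fun t ht => ?_
  refine Set.Finite.union (by simp) ?_
  refine Set.Subsingleton.finite ?_
  rintro z ⟨hz, hz', hd⟩ w ⟨hw, hw', -⟩
  exact perp_unique (mem_segs_ne (h.nondeg u v huv) hs) hd hz hz' hw hw'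

/-- `p` lies in the bounding box of `s` -/
def InBox (p : ℤ × ℤ) (s : (ℤ × ℤ) × (ℤ × ℤ)) : Prop :=
  min s.1.1 s.2.1 ≤ p.1 ∧ p.1 ≤ max s.1.1 s.2.1 ∧ min s.1.2 s.2.2 ≤ p.2 ∧ p.2 ≤ max s.1.2 s.2.2

theorem inBox_of_mem {p : ℤ × ℤ} {s : (ℤ × ℤ) × (ℤ × ℤ)}
    (h : cz p ∈ segment ℝ (cz s.1) (cz s.2)) : InBox p s := by
  refine ⟨?_, ?_, ?_, ?_⟩
  · have : ((min s.1.1 s.2.1 : ℤ) : ℝ) ≤ (p.1 : ℝ) := seg_ge1 h (by simp [cz]) (by simp [cz])
    exact_mod_cast this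
  · have : (p.1 : ℝ) ≤ ((max s.1.1 s.2.1 : ℤ) : ℝ) := seg_le1 h (by simp [cz]) (by simp [cz])
    exact_mod_cast this
  · have : ((min s.1.2 s.2.2 : ℤ) : ℝ) ≤ (p.2 : ℝ) := seg_ge2 h (by simp [cz]) (by simp [cz])
    exact_mod_cast this
  · have : (p.2 : ℝ) ≤ ((max s.1.2 s.2.2 : ℤ) : ℝ) := seg_le2 h (by simp [cz]) (by simp [cz])
    exact_mod_cast this

/-- segments of a chain of integer points -/
def segsZ (c : List (ℤ × ℤ)) : List ((ℤ × ℤ) × (ℤ × ℤ)) := c.zip c.tail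

/-- **A drawing from oriented edges with integer coordinates.** -/
theorem mkSD (k : ℕ) {V ι : Type*} (G : SimpleGraph V) (pos : V → ℤ × ℤ) (src tgt : ι → V)
    (ch : ι → List (ℤ × ℤ))
    (hadj : ∀ u v, G.Adj u v → ∃ e, (src e = u ∧ tgt e = v) ∨ (src e = v ∧ tgt e = u))
    (hloop : ∀ e, src e ≠ tgt e)
    (huniq : ∀ e e', s(src e, tgt e) = s(src e', tgt e') → e = e')
    (hinj : Function.Injective pos)
    (hhead : ∀ e, (ch e).head? = some (pos (src e)))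
    (hlast : ∀ e, (ch e).getLast? = some (pos (tgt e)))
    (hlen : ∀ e, (ch e).length ≤ k + 2)
    (hnd : ∀ e, (ch e).IsChain (· ≠ ·))
    (havoid : ∀ e, ∀ s ∈ segsZ (ch e), ∀ w, InBox (pos w) s →
      (w = src e ∧ s.1 = pos (src e)) ∨ (w = tgt e ∧ s.2 = pos (tgt e)))
    (hcross : ∀ e e', e ≠ e' → ∀ s ∈ segsZ (ch e), ∀ t ∈ segsZ (ch e'),
      OkC {z | ∃ w, (w = src e ∨ w = tgt e) ∧ (w = src e' ∨ w = tgt e') ∧ z = cz (pos w)}
        (cz s.1, cz s.2) (cz t.1, cz t.2))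
    (hsimple : ∀ e, SimpleChain ((ch e).map cz)) : SD k G := by
  classical
  -- the chain of an ordered pair
  let F : V → V → List Pt := fun u v =>
    if h : ∃ e, src e = u ∧ tgt e = v then (ch h.choose).map cz
    else if h : ∃ e, src e = v ∧ tgt e = u then ((ch h.choose).map cz).reverse else []
  have F1 : ∀ e, F (src e) (tgt e) = (ch e).map cz := by
    intro e
    have h : ∃ e', src e' = src e ∧ tgt e' = tgt e := ⟨e, rfl, rfl⟩
    have he : h.choose = e := huniq _ _ (by rw [h.choose_spec.1, h.choose_spec.2])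
    simp only [F]
    rw [dif_pos h, he]
  have F2 : ∀ e, F (tgt e) (src e) = ((ch e).map cz).reverse := by
    intro e
    have h' : ¬ ∃ e', src e' = tgt e ∧ tgt e' = src e := by
      rintro ⟨e', h1, h2⟩
      have : e' = e := huniq _ _ (by rw [h1, h2, Sym2.eq_swap])
      subst this
      exact hloop _ h1
    have h : ∃ e', src e' = src e ∧ tgt e' = tgt e := ⟨e, rfl, rfl⟩
    have he : h.choose = e := huniq _ _ (by rw [h.choose_spec.1, h.choose_spec.2])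
    simp only [F]
    rw [dif_neg h', dif_pos h, he]
  have main : WeakDraw k G (fun v => cz (pos v)) F := by
    refine ⟨?_, ?_, ?_, ?_, ?_, ?_, ?_⟩
    · intro a b hab
      exact hinj (cz_inj hab)
    · intro u v huv
      obtain ⟨e, ⟨rfl, rfl⟩ | ⟨rfl, rfl⟩⟩ := hadj u v huv
      · rw [F1, F2]
      · rw [F1, F2, List.reverse_reverse]
    · intro u v huv
      obtain ⟨e, ⟨rfl, rfl⟩ | ⟨rfl, rfl⟩⟩ := hadj u v huv
      · rw [F1, List.head?_map, hhead]; rfl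
      · rw [F2, List.head?_reverse, List.getLast?_map, hlast]; rfl
    · intro u v huv
      obtain ⟨e, ⟨rfl, rfl⟩ | ⟨rfl, rfl⟩⟩ := hadj u v huv
      · rw [F1, List.length_map]; exact hlen e
      · rw [F2, List.length_reverse, List.length_map]; exact hlen e
    · have key : ∀ e, ((ch e).map cz).IsChain (· ≠ ·) := by
        intro e
        rw [List.isChain_map]
        exact (hnd e).imp fun a b hab h => hab (cz_inj h)
      intro u v huv
      obtain ⟨e, ⟨rfl, rfl⟩ | ⟨rfl, rfl⟩⟩ := hadj u v huv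
      · rw [F1]; exact key e
      · rw [F2, List.isChain_reverse]
        exact (key e).imp fun a b hab => hab.symm
    · have key : ∀ e, ∀ s ∈ segs ((ch e).map cz), ∀ w, cz (pos w) ∈ segment ℝ s.1 s.2 →
          (w = src e ∧ s.1 = cz (pos (src e))) ∨ (w = tgt e ∧ s.2 = cz (pos (tgt e))) := by
        intro e s hs w hw
        rw [segs_map_cz, List.mem_map] at hs
        obtain ⟨s, hs, rfl⟩ := hs
        rcases havoid e s hs w (inBox_of_mem hw) with ⟨h1, h2⟩ | ⟨h1, h2⟩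
        · exact .inl ⟨h1, by simp [h2]⟩
        · exact .inr ⟨h1, by simp [h2]⟩
      intro u v huv s hs w hw
      obtain ⟨e, ⟨rfl, rfl⟩ | ⟨rfl, rfl⟩⟩ := hadj u v huv
      · rw [F1] at hs
        exact key e s hs w hw
      · rw [F2] at hs
        have hs' := mem_segs_reverse hs
        rw [segment_symm] at hw
        rcases key e _ hs' w hw with h | h
        · exact .inr h
        · exact .inl h
    · have key : ∀ e e', e ≠ e' → ∀ s ∈ segs ((ch e).map cz), ∀ t ∈ segs ((ch e').map cz),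
          OkC {z | ∃ w, (w = src e ∨ w = tgt e) ∧ (w = src e' ∨ w = tgt e') ∧ z = cz (pos w)}
            s t := by
        intro e e' hne s hs t ht
        rw [segs_map_cz, List.mem_map] at hs ht
        obtain ⟨s, hs, rfl⟩ := hs
        obtain ⟨t, ht, rfl⟩ := ht
        exact hcross e e' hne s hs t ht
      intro u v u' v' huv huv' hne s hs t ht z hz hz'
      obtain ⟨e, he⟩ := hadj u v huv
      obtain ⟨e', he'⟩ := hadj u' v' huv'
      have hne' : e ≠ e' := by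
        rintro rfl
        apply hne
        rcases he with ⟨rfl, rfl⟩ | ⟨rfl, rfl⟩ <;> rcases he' with ⟨rfl, rfl⟩ | ⟨rfl, rfl⟩ <;>
          simp [Sym2.eq_swap]
      have hs' : s ∈ segs ((ch e).map cz) ∨ s.swap ∈ segs ((ch e).map cz) := by
        rcases he with ⟨rfl, rfl⟩ | ⟨rfl, rfl⟩
        · rw [F1] at hs; exact .inl hs
        · rw [F2] at hs; exact .inr (mem_segs_reverse hs)
      have ht' : t ∈ segs ((ch e').map cz) ∨ t.swap ∈ segs ((ch e').map cz) := by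
        rcases he' with ⟨rfl, rfl⟩ | ⟨rfl, rfl⟩
        · rw [F1] at ht; exact .inl ht
        · rw [F2] at ht; exact .inr (mem_segs_reverse ht)
      have hok : OkC {z | ∃ w, (w = src e ∨ w = tgt e) ∧ (w = src e' ∨ w = tgt e') ∧
          z = cz (pos w)} s t := by
        rcases hs' with hs' | hs' <;> rcases ht' with ht' | ht'
        · exact key e e' hne' _ hs' _ ht'
        · exact (key e e' hne' _ hs' _ ht').flip'
        · exact (key e e' hne' _ hs' _ ht').flip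
        · exact (key e e' hne' _ hs' _ ht').flip.flip'
      rcases hok z hz hz' with ⟨w, h1, h2, h3⟩ | h
      · refine .inl ⟨w, ?_, ?_, h3⟩
        · rcases he with ⟨rfl, rfl⟩ | ⟨rfl, rfl⟩
          · exact h1
          · exact h1.symm
        · rcases he' with ⟨rfl, rfl⟩ | ⟨rfl, rfl⟩
          · exact h2
          · exact h2.symm
      · exact .inr h
  refine ⟨_, F, { toWeakDraw := main, simple := ?_, finite := ?_ }⟩
  · intro u v huv
    obtain ⟨e, ⟨rfl, rfl⟩ | ⟨rfl, rfl⟩⟩ := hadj u v huv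
    · rw [F1]; exact hsimple e
    · rw [F2]; exact (hsimple e).reverse
  · exact main.fin


/-- both segments horizontal, different levels -/
theorem cYY (C : Set Pt) {a1 a2 b1 b2 c1 c2 d1 d2 : ℤ} (h : a2 = b2 ∧ c2 = d2 ∧ a2 ≠ c2) :
    OkC C (cz (a1, a2), cz (b1, b2)) (cz (c1, c2), cz (d1, d2)) := by
  rcases lt_or_gt_of_ne h.2.2 with h' | h'
  · exact cSY C (by omega)
  · exact cSY' C (by omega)

/-- both segments vertical, different abscissas -/
theorem cXX (C : Set Pt) {a1 a2 b1 b2 c1 c2 d1 d2 : ℤ} (h : a1 = b1 ∧ c1 = d1 ∧ a1 ≠ c1) :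
    OkC C (cz (a1, a2), cz (b1, b2)) (cz (c1, c2), cz (d1, d2)) := by
  rcases lt_or_gt_of_ne h.2.2 with h' | h'
  · exact cSX C (by omega)
  · exact cSX' C (by omega)

theorem cSYd (C : Set Pt) {a1 a2 b1 b2 c1 c2 d1 d2 : ℤ}
    (h : (a2 < c2 ∧ a2 < d2 ∧ b2 < c2 ∧ b2 < d2) ∨ (c2 < a2 ∧ d2 < a2 ∧ c2 < b2 ∧ d2 < b2)) :
    OkC C (cz (a1, a2), cz (b1, b2)) (cz (c1, c2), cz (d1, d2)) :=
  h.elim (cSY C) (cSY' C)

theorem cSXd (C : Set Pt) {a1 a2 b1 b2 c1 c2 d1 d2 : ℤ}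
    (h : (a1 < c1 ∧ a1 < d1 ∧ b1 < c1 ∧ b1 < d1) ∨ (c1 < a1 ∧ d1 < a1 ∧ c1 < b1 ∧ d1 < b1)) :
    OkC C (cz (a1, a2), cz (b1, b2)) (cz (c1, c2), cz (d1, d2)) :=
  h.elim (cSX C) (cSX' C)

/-- the other ends differ from the common end by given vectors -/
theorem dirN {p q r : ℤ × ℤ} (q1 q2 r1 r2 : ℤ)
    (h : q.1 = p.1 + q1 ∧ q.2 = p.2 + q2 ∧ r.1 = p.1 + r1 ∧ r.2 = p.2 + r2)
    (hd : q1 * r2 - q2 * r1 ≠ 0 ∨ q1 * r1 + q2 * r2 < 0) : Dir p q r := by
  obtain ⟨h1, h2, h3, h4⟩ := h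
  simp only [Dir, h1, h2, h3, h4, add_sub_cancel_left]
  exact hd

/-- all pairs of segments of the two chains -/
def OkL (C : Set Pt) (c d : List (ℤ × ℤ)) : Prop :=
  ∀ s ∈ segsZ c, ∀ t ∈ segsZ d, OkC C (cz s.1, cz s.2) (cz t.1, cz t.2)

theorem OkL.symm {C : Set Pt} {c d : List (ℤ × ℤ)} (h : OkL C c d) : OkL C d c :=
  fun s hs t ht => (h t ht s hs).symm

theorem OkL.mono {C C' : Set Pt} (hC : C ⊆ C') {c d : List (ℤ × ℤ)} (h : OkL C c d) :
    OkL C' c d := fun s hs t ht => (h s hs t ht).mono hC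

theorem okL44 {C : Set Pt} {p0 p1 p2 p3 q0 q1 q2 q3 : ℤ × ℤ}
    (h00 : OkC C (cz p0, cz p1) (cz q0, cz q1)) (h01 : OkC C (cz p0, cz p1) (cz q1, cz q2))
    (h02 : OkC C (cz p0, cz p1) (cz q2, cz q3)) (h10 : OkC C (cz p1, cz p2) (cz q0, cz q1))
    (h11 : OkC C (cz p1, cz p2) (cz q1, cz q2)) (h12 : OkC C (cz p1, cz p2) (cz q2, cz q3))
    (h20 : OkC C (cz p2, cz p3) (cz q0, cz q1)) (h21 : OkC C (cz p2, cz p3) (cz q1, cz q2))
    (h22 : OkC C (cz p2, cz p3) (cz q2, cz q3)) : OkL C [p0, p1, p2, p3] [q0, q1, q2, q3] := by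
  intro s hs t ht
  simp only [segsZ, List.tail_cons, List.zip_cons_cons, List.zip_nil_right, List.mem_cons,
    List.not_mem_nil, or_false] at hs ht
  rcases hs with rfl | rfl | rfl <;> rcases ht with rfl | rfl | rfl <;> assumption

/-- the common end is the first point of both -/
theorem cEss {C : Set Pt} {a b d : ℤ × ℤ} (hC : cz a ∈ C) (h : Dir a b d) :
    OkC C (cz a, cz b) (cz a, cz d) := cE hC h

theorem cEse {C : Set Pt} {a b c : ℤ × ℤ} (hC : cz a ∈ C) (h : Dir a b c) :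
    OkC C (cz a, cz b) (cz c, cz a) := (cE hC h).flip'

theorem cEes {C : Set Pt} {a b d : ℤ × ℤ} (hC : cz b ∈ C) (h : Dir b a d) :
    OkC C (cz a, cz b) (cz b, cz d) := (cE hC h).flip

theorem cEee {C : Set Pt} {a b c : ℤ × ℤ} (hC : cz b ∈ C) (h : Dir b a c) :
    OkC C (cz a, cz b) (cz c, cz b) := (cE hC h).flip.flip'

end Pool.Agent.RAC
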