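import Pool.Agent.Lib_MP_638f75_lc.Base

/-!
# Drawings, the reduction graphs and the main statements
-/

namespace Pool.Agent.RAC

/-- `pos`, `ch` is a `k`-bend RAC drawing of the graph `G`, in the weak sense (the chains may cross
themselves). `ch u v` is the chain of the edge `uv`, read from `u` to `v`. -/
structure WeakDraw (k : ℕ) {V : Type*} (G : SimpleGraph V) (pos : V → Pt) (ch : V → V → List Pt) :
    Prop where
  inj : Function.Injective pos
  rev : ∀ u v, G.Adj u v → ch v u = (ch u v).reverse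
  head : ∀ u v, G.Adj u v → (ch u v).head? = some (pos u)
  len : ∀ u v, G.Adj u v → (ch u v).length ≤ k + 2
  nondeg : ∀ u v, G.Adj u v → (ch u v).IsChain (· ≠ ·)
  /-- the chain of `uv` contains no vertex except its first and its last point -/
  avoid : ∀ u v, G.Adj u v → ∀ s ∈ segs (ch u v), ∀ w, pos w ∈ segment ℝ s.1 s.2 →
    (w = u ∧ s.1 = pos u) ∨ (w = v ∧ s.2 = pos v)
  /-- common points of two edges are common endpoints or crossings at right angles in interior
  points of the segments -/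
  cross : ∀ u v u' v', G.Adj u v → G.Adj u' v' → s(u, v) ≠ s(u', v') →
    ∀ s ∈ segs (ch u v), ∀ t ∈ segs (ch u' v'), ∀ z, z ∈ segment ℝ s.1 s.2 →
      z ∈ segment ℝ t.1 t.2 →
      (∃ w, (w = u ∨ w = v) ∧ (w = u' ∨ w = v') ∧ z = pos w) ∨
      (z ∈ openSegment ℝ s.1 s.2 ∧ z ∈ openSegment ℝ t.1 t.2 ∧ dot (s.2 - s.1) (t.2 - t.1) = 0)

/-- a `k`-bend RAC drawing in the strict sense -/
structure StrictDraw (k : ℕ) {V : Type*} (G : SimpleGraph V) (pos : V → Pt)
    (ch : V → V → List Pt) : Prop extends WeakDraw k G pos ch where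
  simple : ∀ u v, G.Adj u v → SimpleChain (ch u v)
  finite : ∀ u v u' v', G.Adj u v → G.Adj u' v' → s(u, v) ≠ s(u', v') →
    {z | OnChain (ch u v) z ∧ OnChain (ch u' v') z}.Finite

/-- a digraph (without loops and opposite arcs) in which every arc enters its head at one of the
two ports of the head, every port being used at most once -/
structure Gam (V : Type*) where
  ed : V → V → Prop
  pt : V → V → Bool
  irr : ∀ u v, ed u v → u ≠ v
  asym : ∀ u v, ed u v → ¬ ed v u
  port : ∀ u u' v, ed u v → ed u' v → pt u v = pt u' v → u = u'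

variable {V : Type*}

/-- the neighbours -/
def Gam.Nb (Γ : Gam V) (u v : V) : Prop := Γ.ed u v ∨ Γ.ed v u

/-- `Γ` decomposes into two linear forests -/
def TLF (Γ : Gam V) : Prop :=
  ∃ (c : V → V → Bool) (φ : Bool → V → ℝ), (∀ u v, c u v = c v u) ∧
    ∀ b v w w', w ≠ w' → Γ.Nb v w → Γ.Nb v w' → c v w = b → c v w' = b →
      (φ b w - φ b v) * (φ b w' - φ b v) < 0

/-- vertices of the graph for two bends: eight hubs and the vertices of `Γ` -/
abbrev V2 (V : Type*) := Fin 8 ⊕ V

/-- the graph for two bends -/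
def G2 (Γ : Gam V) : SimpleGraph (V2 V) where
  Adj
    | .inl _, .inl _ => False
    | .inl _, .inr _ => True
    | .inr _, .inl _ => True
    | .inr u, .inr v => Γ.Nb u v
  symm := ⟨fun a b h => by
    rcases a with a | a <;> rcases b with b | b <;> simp_all [Gam.Nb]
    tauto⟩
  loopless := ⟨fun a h => by
    rcases a with a | a
    · exact h
    · rcases h with h | h <;> exact Γ.irr _ _ h rfl⟩

/-- vertices of the graph for one bend: four hubs, two vertices `(v, false)`, `(v, true)` for every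
vertex of `Γ`, and a vertex for every arc -/
abbrev V1 (Γ : Gam V) := Fin 4 ⊕ (V × Bool) ⊕ {e : V × V // Γ.ed e.1 e.2}

/-- generating relation of the graph for one bend -/
def rel1 (Γ : Gam V) : V1 Γ → V1 Γ → Prop
  | .inl _, .inr (.inl _) => True
  | .inr (.inl p), .inr (.inl q) => p.1 = q.1 ∧ p.2 = false ∧ q.2 = true
  | .inr (.inr e), .inr (.inl p) =>
      p.1 = e.1.1 ∨ (p.1 = e.1.2 ∧ p.2 = Γ.pt e.1.1 e.1.2)
  | _, _ => False

/-- the graph for one bend -/
def G1 (Γ : Gam V) : SimpleGraph (V1 Γ) where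
  Adj a b := rel1 Γ a b ∨ rel1 Γ b a
  symm := ⟨fun _ _ h => h.symm⟩
  loopless := ⟨fun a h => by
    rcases a with a | a | a <;> simp_all [rel1]⟩

/-- `M` disjoint copies -/
def Gam.copies (Γ : Gam V) (M : ℕ) : Gam (Fin M × V) where
  ed p q := p.1 = q.1 ∧ Γ.ed p.2 q.2
  pt p q := Γ.pt p.2 q.2
  irr p q h e := Γ.irr _ _ h.2 (congrArg Prod.snd e)
  asym p q h h' := Γ.asym _ _ h.2 h'.2
  port p p' q h h' e := Prod.ext (h.1.trans h'.1.symm) (Γ.port _ _ _ h.2 h'.2 e)

/-- every vertex has at least three neighbours -/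
def Gam.Deg3 (Γ : Gam V) : Prop :=
  ∀ v, ∃ w : Fin 3 → V, Function.Injective w ∧ ∀ i, Γ.Nb v (w i)

/-- drawable in the weak sense -/
def WD (k : ℕ) {V : Type*} (G : SimpleGraph V) : Prop := ∃ pos ch, WeakDraw k G pos ch

/-- drawable in the strict sense -/
def SD (k : ℕ) {V : Type*} (G : SimpleGraph V) : Prop := ∃ pos ch, StrictDraw k G pos ch

end Pool.Agent.RAC
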