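import Pool.Agent.Lib_MP_638f75_lc.Base

/-!
# Walls, cells and homogeneous families: definitions
-/

namespace Pool.Agent.RAC

/-- the partner of a direction on the same side: `0 ↔ 1`, `2 ↔ 3` -/
def st (m : Fin 4) : Fin 4 := ![1, 0, 3, 2] m

/-- the opposite side: `0 ↔ 2`, `1 ↔ 3` -/
def op (m : Fin 4) : Fin 4 := ![2, 3, 0, 1] m

/-- the order of the indices in which the coordinate of the direction `m` increases -/
def prec (m : Fin 4) (t u : ℕ) : Prop := if m = 0 ∨ m = 2 then t < u else u < t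

/-- if `s < u` then `lat m s u` is the later and `lat m u s` the earlier one of `s`, `u` in the
order `prec m` -/
def lat (m : Fin 4) (s u : ℕ) : ℕ := if m = 0 ∨ m = 2 then u else s

/-- `P Q` is legal with respect to the segment `a b`: common points are interior to `a b`, and
exist only if the segments are perpendicular -/
def Lg (P Q a b : Pt) : Prop :=
  ∀ z, z ∈ segment ℝ P Q → z ∈ segment ℝ a b → z ∈ openSegment ℝ a b ∧ dot (Q - P) (b - a) = 0

/-- `n` points `x t` with four walls each: the wall `m` of `x t` is the segment from `x t` to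
`e t m`, in the direction of the unit vector `d m`. -/
structure Walls (n : ℕ) (x : ℕ → Pt) (d : Fin 4 → Pt) (e : ℕ → Fin 4 → Pt) : Prop where
  unit : ∀ m, dot (d m) (d m) = 1
  rot1 : d 1 = J (d 0)
  rot3 : d 3 = - J (d 2)
  mono : ∀ m t u, t < n → u < n → prec m t u → dot (x t) (d m) < dot (x u) (d m)
  wall : ∀ t, t < n → ∀ m, ∃ l : ℝ, 0 < l ∧ e t m = x t + l • d m
  long : ∀ t u, t < n → u < n → ∀ m, dot (x u) (d m) < dot (e t m) (d m)

/-- the cell between `x s` and `x u` -/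
def K (x : ℕ → Pt) (d : Fin 4 → Pt) (s u : ℕ) : Set Pt :=
  {z | ∀ m, dot z (d m) < dot (x (lat m s u)) (d m)}

/-- A homogeneous family of `n` clusters. `P`, `S`, `E` are the labels of the points (vertices and
bends), of the segments and of the edges of a cluster. -/
structure Fam (n : ℕ) (P S E : Type) where
  pt : ℕ → P → Pt
  e1 : S → P
  e2 : S → P
  ed : S → E
  ver : P → Prop
  hub : P → Prop
  hub_ver : ∀ p, hub p → ver p
  hubc : ∀ p, hub p → ∀ t u, pt t p = pt u p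
  nd : ∀ t, t < n → ∀ σ, pt t (e1 σ) ≠ pt t (e2 σ)
  avoid : ∀ t, t < n → ∀ σ p, ver p → pt t p ∈ segment ℝ (pt t (e1 σ)) (pt t (e2 σ)) →
    p = e1 σ ∨ p = e2 σ
  same : ∀ t, t < n → ∀ σ τ, ed σ ≠ ed τ → ∀ z,
    z ∈ segment ℝ (pt t (e1 σ)) (pt t (e2 σ)) → z ∈ segment ℝ (pt t (e1 τ)) (pt t (e2 τ)) →
    (∃ p, ver p ∧ (p = e1 σ ∨ p = e2 σ) ∧ (p = e1 τ ∨ p = e2 τ) ∧ z = pt t p) ∨
    (z ∈ openSegment ℝ (pt t (e1 σ)) (pt t (e2 σ)) ∧
      z ∈ openSegment ℝ (pt t (e1 τ)) (pt t (e2 τ)) ∧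
      dot (pt t (e2 σ) - pt t (e1 σ)) (pt t (e2 τ) - pt t (e1 τ)) = 0)
  diff : ∀ t u, t < n → u < n → t ≠ u → ∀ σ τ z,
    z ∈ segment ℝ (pt t (e1 σ)) (pt t (e2 σ)) → z ∈ segment ℝ (pt u (e1 τ)) (pt u (e2 τ)) →
    (∃ p, hub p ∧ (p = e1 σ ∨ p = e2 σ) ∧ (p = e1 τ ∨ p = e2 τ) ∧ z = pt t p) ∨
    (z ∈ openSegment ℝ (pt t (e1 σ)) (pt t (e2 σ)) ∧
      z ∈ openSegment ℝ (pt u (e1 τ)) (pt u (e2 τ)) ∧
      dot (pt t (e2 σ) - pt t (e1 σ)) (pt u (e2 τ) - pt u (e1 τ)) = 0)
  homX : ∀ σ τ t u t' u', t < u → u < n → t' < u' → u' < n →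
    (Xx (pt t (e1 σ), pt t (e2 σ)) (pt u (e1 τ), pt u (e2 τ)) ↔
      Xx (pt t' (e1 σ), pt t' (e2 σ)) (pt u' (e1 τ), pt u' (e2 τ)))
  homD : ∀ a b c d : Bool × P, ∀ t u t' u', t < u → u < n → t' < u' → u' < n →
    SignType.sign (dot (pt (cond b.1 u t) b.2 - pt (cond a.1 u t) a.2)
      (pt (cond d.1 u t) d.2 - pt (cond c.1 u t) c.2)) =
    SignType.sign (dot (pt (cond b.1 u' t') b.2 - pt (cond a.1 u' t') a.2)
      (pt (cond d.1 u' t') d.2 - pt (cond c.1 u' t') c.2))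
  homC : ∀ a b c d : Bool × P, ∀ t u t' u', t < u → u < n → t' < u' → u' < n →
    SignType.sign (crs (pt (cond b.1 u t) b.2 - pt (cond a.1 u t) a.2)
      (pt (cond d.1 u t) d.2 - pt (cond c.1 u t) c.2)) =
    SignType.sign (crs (pt (cond b.1 u' t') b.2 - pt (cond a.1 u' t') a.2)
      (pt (cond d.1 u' t') d.2 - pt (cond c.1 u' t') c.2))

namespace Fam

variable {n : ℕ} {P S E : Type} (F : Fam n P S E)

/-- the segment `σ` of the cluster `t` -/
def sg (t : ℕ) (σ : S) : Pt × Pt := (F.pt t (F.e1 σ), F.pt t (F.e2 σ))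

/-- the direction vector of the segment `σ` of the cluster `t` -/
def dir (t : ℕ) (σ : S) : Pt := F.pt t (F.e2 σ) - F.pt t (F.e1 σ)

/-- `σ` is never crossed by a segment of another cluster -/
def Inert (σ : S) : Prop := ∀ t u, t < n → u < n → t ≠ u → ∀ τ, ¬ Xx (F.sg t σ) (F.sg u τ)

/-- the points `p`, `q` are joined by an inert segment -/
def Adj1 (p q : P) : Prop :=
  ∃ σ, F.Inert σ ∧ ((F.e1 σ = p ∧ F.e2 σ = q) ∨ (F.e1 σ = q ∧ F.e2 σ = p))

/-- the points `p`, `q` are joined by a path of inert segments -/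
def Conn (p q : P) : Prop := Relation.ReflTransGen F.Adj1 p q

/-- forget the first and the last cluster -/
def shift (F : Fam n P S E) (h : 2 ≤ n) : Fam (n - 2) P S E where
  pt t := F.pt (t + 1)
  e1 := F.e1
  e2 := F.e2
  ed := F.ed
  ver := F.ver
  hub := F.hub
  hub_ver := F.hub_ver
  hubc p hp t u := F.hubc p hp _ _
  nd t ht := F.nd _ (by omega)
  avoid t ht := F.avoid _ (by omega)
  same t ht := F.same _ (by omega)
  diff t u ht hu htu := F.diff _ _ (by omega) (by omega) (by omega)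
  homX σ τ t u t' u' h1 h2 h3 h4 := F.homX σ τ _ _ _ _ (by omega) (by omega) (by omega) (by omega)
  homD a b c d t u t' u' h1 h2 h3 h4 := by
    have := F.homD a b c d (t + 1) (u + 1) (t' + 1) (u' + 1) (by omega) (by omega) (by omega)
      (by omega)
    rcases a with ⟨a, _⟩; rcases b with ⟨b, _⟩; rcases c with ⟨c, _⟩; rcases d with ⟨d, _⟩
    cases a <;> cases b <;> cases c <;> cases d <;> exact this
  homC a b c d t u t' u' h1 h2 h3 h4 := by
    have := F.homC a b c d (t + 1) (u + 1) (t' + 1) (u' + 1) (by omega) (by omega) (by omega)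
      (by omega)
    rcases a with ⟨a, _⟩; rcases b with ⟨b, _⟩; rcases c with ⟨c, _⟩; rcases d with ⟨d, _⟩
    cases a <;> cases b <;> cases c <;> cases d <;> exact this

end Fam

/-- A structured vertex label of a homogeneous family: four walls and four strands. The wall
`w m` and the strand `sd m` have the direction `d m`; the strand is followed by the hub segment
`bs m`. (One bend: the strands are the walls. Two bends: the walls are the arms of four legs, the
strands the middle segments of the four other legs.) -/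
structure Lb {n : ℕ} {P S E : Type} (F : Fam n P S E) where
  a : P
  d : Fin 4 → Pt
  w : Fin 4 → S
  sd : Fin 4 → S
  bs : Fin 4 → S
  va : F.ver a
  na : ¬ F.hub a
  w1 : ∀ m, F.e1 (w m) = a
  w2 : ∀ m, ¬ F.ver (F.e2 (w m))
  wi : ∀ m m', F.ed (w m) = F.ed (w m') → m = m'
  W : Walls n (fun t => F.pt t a) d (fun t m => F.pt t (F.e2 (w m)))
  s0 : ∀ m, ¬ F.hub (F.e1 (sd m)) ∧ ¬ F.ver (F.e2 (sd m))
  s1 : ∀ t, t < n → ∀ m, ∃ l : ℝ, 0 < l ∧
    F.pt t (F.e2 (sd m)) = F.pt t (F.e1 (sd m)) + l • d m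
  sK : ∀ m s t u, s < t → t < u → u < n →
    F.pt t (F.e1 (sd m)) ∈ K (fun t => F.pt t a) d s u
  slev : ∀ m t v, t < n → v < n → prec m t v →
    dot (F.pt v a) (d (st m)) < dot (F.pt t (F.e1 (sd m))) (d (st m)) ∧
    dot (F.pt v (F.e1 (sd m))) (d (st m)) < dot (F.pt t a) (d (st m))
  slong : ∀ t u, t < n → u < n → ∀ m, dot (F.pt u a) (d m) < dot (F.pt t (F.e2 (sd m))) (d m)
  b1 : ∀ m, F.e1 (bs m) = F.e2 (sd m)
  bh : ∀ m, F.hub (F.e2 (bs m))
  bi : ∀ m m', F.e2 (bs m) = F.e2 (bs m') → m = m'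
  pre : ∀ m, F.e1 (sd m) = a ∨ ∃ σ, F.e1 σ = a ∧ F.e2 σ = F.e1 (sd m)

namespace Lb

variable {n : ℕ} {P S E : Type} {F : Fam n P S E} (L : Lb F)

/-- the positions of the label -/
def x (t : ℕ) : Pt := F.pt t L.a

/-- the cells -/
def C (s u : ℕ) : Set Pt := K (fun t => F.pt t L.a) L.d s u

/-- the point label `p` is confined in the cells of `L` -/
def IN (p : P) : Prop := ∀ s t u, s < t → t < u → u < n → F.pt t p ∈ L.C s u

/-- same cells -/
def SC (L L' : Lb F) : Prop :=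
  (∀ m, L.d m = L'.d m) ∧
  (∀ m s t, s < n → t < n → prec m s t →
    dot (F.pt s L.a) (L.d m) < dot (F.pt t L'.a) (L.d m) ∧
    dot (F.pt s L'.a) (L.d m) < dot (F.pt t L.a) (L.d m))

/-- all walls are parallel to the vectors `f`, `J f` -/
def Plus (f : Pt) : Prop := ∀ m, L.d m = f ∨ L.d m = J f ∨ L.d m = -f ∨ L.d m = - J f

end Lb

end Pool.Agent.RAC
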