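import Pool.Agent.Lib_MP_638f75_lc.RDefs

/-!
# Block R: the code of a graph on a list, generic part (piece RCODE)

HOW TO: `outL_eq` is `outG_eq` of `Lib_MP_8cd8c6_lc/Complete.lean` (there without `p ≠ q`; here the
entry is the truth value of `(graphL L R).Adj`). `fp_outL` is `fp_outG` of the same file, with
`FP.eqR` (`Lib_MP_8cd8c6_lc/Nae.lean`) for the equality of names (the type `NR` of names is a product
of `ℕ`s, so `Rep`, `RepInj`, `Inhabited` are found by the instances).
-/

namespace Pool.Agent.RAC

open Pool.Agent.Lib_MP_8cd8c6_lc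
open Pool.Agent.PartSep Pool.Agent.PartSep.TM Pool.Agent.PartSep.CL
open Pool.Agent.PartSep.TM.Rep N487b59b3

set_option synthInstance.maxSize 2000

/-- the adjacency matrix of `graphL L R` as a string -/
def outL (L : List NR) (R : NR → NR → Bool) : List Sym :=
  L.flatMap (fun p => del (L.flatMap (fun q => del [bs (!decide (p = q) && (R p q || R q p))])))

theorem outL_eq (L : List NR) (R : NR → NR → Bool) :
    outL L R = (encodeGraph (graphL L R)).map bs := by
  classical
  unfold encodeGraph outL
  rw [bitEncode_list]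
  have h1 : (List.ofFn fun i => (List.ofFn fun j => decide ((graphL L R).Adj i j))) =
      L.map (fun p => L.map (fun q => (!decide (p = q) && (R p q || R q p)))) := by
    apply List.ext_getElem
    · simp
    · intro i hi hi'
      simp only [List.getElem_ofFn, List.getElem_map]
      apply List.ext_getElem
      · simp
      · intro j hj hj'
        simp only [List.getElem_ofFn, List.getElem_map]
        rw [Bool.eq_iff_iff, decide_eq_true_eq, Bool.and_eq_true, Bool.or_eq_true,
          Bool.not_eq_true', decide_eq_false_iff_not]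
        rfl
  rw [h1, List.flatMap_map]
  congr 1
  funext p
  rw [bitEncode_list, List.flatMap_map]
  rfl

theorem fp_outL {E : Type} [Rep E] {L : E → List NR} (hL : FP L) {R : E → NR → NR → Bool}
    (hR : FP (fun z : E × NR × NR => R z.1 z.2.1 z.2.2)) : FP (fun x => outL (L x) (R x)) := by
  unfold outL
  refine FP.flatMapS hL (g := fun y : E × NR =>
    del ((L y.1).flatMap (fun q => del [bs (!decide (y.2 = q) && (R y.1 y.2 q || R y.1 q y.2))])))
    ?_
  refine FP.del (FP.flatMapS (FP.comp hL FP.fst) (g := fun z : (E × NR) × NR =>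
    del [bs (!decide (z.1.2 = z.2) && (R z.1.1 z.1.2 z.2 || R z.1.1 z.2 z.1.2))]) ?_)
  have k0 : FP (fun z : (E × NR) × NR => z.1.1) := FP.comp FP.fst FP.fst
  have k1 : FP (fun z : (E × NR) × NR => z.1.2) := FP.comp FP.snd FP.fst
  have k2 : FP (fun z : (E × NR) × NR => z.2) := FP.snd
  have h1 : FP (fun z : (E × NR) × NR =>
      (!decide (z.1.2 = z.2) && (R z.1.1 z.1.2 z.2 || R z.1.1 z.2 z.1.2))) :=
    FP.and (FP.not (FP.eqR k1 k2)) (FP.or (FP.comp hR (FP.pair k0 (FP.pair k1 k2)))
      (FP.comp hR (FP.pair k0 (FP.pair k2 k1))))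
  exact FP.del (fp_bs h1)

end Pool.Agent.RAC
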