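import Pool.Agent.Lib_MP_638f75_lc.RDefs

/-!
# Block R: drawings and injective homomorphisms (piece RISO)

PAPER PROOF. `WeakDraw.comap`: take `pos' v = pos (f v)`, `ch' u v = ch (f u) (f v)`; all
conditions are inherited (`avoid`: `pos (f w)` on the chain of `f u, f v` gives `f w = f u` or
`f w = f v`, so `w = u` or `w = v`; `cross`: `s(u, v) ≠ s(u', v')` implies
`s(f u, f v) ≠ s(f u', f v')`; the common endpoint is the image of a vertex). `Named`: the map
`W → Fin L.length`, `w ↦` the position of `name w` (`List.mem_iff_get`), and its inverse, are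
injective homomorphisms (`Named.fwd`, `Named.bwd`).
-/

namespace Pool.Agent.RAC

variable {V W T : Type} {G : SimpleGraph V} {H : SimpleGraph W} {k : ℕ}

theorem riso_sym {f : V → W} (hf : Function.Injective f) {u v u' v' : V} (h : s(u, v) ≠ s(u', v')) :
    s(f u, f v) ≠ s(f u', f v') := by
  intro e
  apply h
  rw [Sym2.eq_iff] at e ⊢
  rcases e with ⟨h1, h2⟩ | ⟨h1, h2⟩
  · exact Or.inl ⟨hf h1, hf h2⟩
  · exact Or.inr ⟨hf h1, hf h2⟩

theorem WeakDraw.comap {pos : W → Pt} {ch : W → W → List Pt} (h : WeakDraw k H pos ch) (f : V → W)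
    (hf : Function.Injective f) (ha : ∀ u v, G.Adj u v → H.Adj (f u) (f v)) :
    WeakDraw k G (fun v => pos (f v)) (fun u v => ch (f u) (f v)) := by
  refine ⟨fun u v e => hf (h.inj e), fun u v e => h.rev _ _ (ha _ _ e), fun u v e => h.head _ _ (ha _ _ e),
    fun u v e => h.len _ _ (ha _ _ e), fun u v e => h.nondeg _ _ (ha _ _ e), ?_, ?_⟩
  · intro u v e s hs w hw
    rcases h.avoid _ _ (ha _ _ e) s hs (f w) hw with ⟨h1, h2⟩ | ⟨h1, h2⟩
    · exact Or.inl ⟨hf h1, h2⟩
    · exact Or.inr ⟨hf h1, h2⟩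
  · intro u v u' v' e e' hne s hs t ht z hz hz'
    rcases h.cross _ _ _ _ (ha _ _ e) (ha _ _ e') (riso_sym hf hne) s hs t ht z hz hz' with
      ⟨w, h1, h2, h3⟩ | h1
    · left
      rcases h1 with h1 | h1 <;> rcases h2 with h2 | h2
      · exact ⟨u, Or.inl rfl, Or.inl (hf (h1.symm.trans h2)), by rw [h3, h1]⟩
      · exact ⟨u, Or.inl rfl, Or.inr (hf (h1.symm.trans h2)), by rw [h3, h1]⟩
      · exact ⟨v, Or.inr rfl, Or.inl (hf (h1.symm.trans h2)), by rw [h3, h1]⟩
      · exact ⟨v, Or.inr rfl, Or.inr (hf (h1.symm.trans h2)), by rw [h3, h1]⟩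
    · exact Or.inr h1

theorem StrictDraw.comap {pos : W → Pt} {ch : W → W → List Pt} (h : StrictDraw k H pos ch)
    (f : V → W) (hf : Function.Injective f) (ha : ∀ u v, G.Adj u v → H.Adj (f u) (f v)) :
    StrictDraw k G (fun v => pos (f v)) (fun u v => ch (f u) (f v)) := by
  refine ⟨h.toWeakDraw.comap f hf ha, fun u v e => h.simple _ _ (ha _ _ e), ?_⟩
  intro u v u' v' e e' hne
  exact h.finite _ _ _ _ (ha _ _ e) (ha _ _ e') (riso_sym hf hne)

theorem Named.fwd {L : List T} {R : T → T → Bool} {name : V → T} (h : Named G L R name) :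
    ∃ f : V → Fin L.length, Function.Injective f ∧
      ∀ u v, G.Adj u v → (graphL L R).Adj (f u) (f v) := by
  have h1 : ∀ v, ∃ i : Fin L.length, L.get i = name v := fun v => List.mem_iff_get.1 (h.mem v)
  choose f hf using h1
  refine ⟨f, fun u v e => h.inj ?_, fun u v e => ?_⟩
  · rw [← hf u, ← hf v, e]
  · obtain ⟨h2, h3⟩ := (h.adj u v).1 e
    refine ⟨?_, ?_⟩
    · rw [hf u, hf v]
      exact fun e' => h2 (h.inj e')
    · rw [hf u, hf v]
      exact h3

theorem Named.bwd {L : List T} {R : T → T → Bool} {name : V → T} (h : Named G L R name) :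
    ∃ f : Fin L.length → V, Function.Injective f ∧
      ∀ u v, (graphL L R).Adj u v → G.Adj (f u) (f v) := by
  have h1 : ∀ i : Fin L.length, ∃ v, name v = L.get i := fun i => h.surj _ (List.get_mem L i)
  choose f hf using h1
  refine ⟨f, fun u v e => ?_, fun u v e => ?_⟩
  · have h2 : L.get u = L.get v := by rw [← hf u, ← hf v, e]
    exact (List.nodup_iff_injective_get.1 h.nodup) h2
  · obtain ⟨h2, h3⟩ := e
    refine (h.adj _ _).2 ⟨?_, ?_⟩
    · intro e'
      apply h2
      rw [← hf u, ← hf v, e']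
    · rw [hf u, hf v]
      exact h3

theorem Named.wd {L : List T} {R : T → T → Bool} {name : V → T} (h : Named G L R name)
    (hw : WD k (graphL L R)) : WD k G := by
  obtain ⟨f, hf, ha⟩ := h.fwd
  obtain ⟨pos, ch, hd⟩ := hw
  exact ⟨_, _, hd.comap f hf ha⟩

theorem Named.sd {L : List T} {R : T → T → Bool} {name : V → T} (h : Named G L R name)
    (hw : SD k G) : SD k (graphL L R) := by
  obtain ⟨f, hf, ha⟩ := h.bwd
  obtain ⟨pos, ch, hd⟩ := hw
  exact ⟨_, _, hd.comap f hf ha⟩

end Pool.Agent.RAC
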