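import Pool.Agent.Lib_MP_638f75_lc.REd

/-!
# Block R: the names for one bend (piece RNAM1)

PAPER PROOF. Direct verification with the facts of `REd.lean` (`nmS_inj`, `nmS_mem`, `nmS_surj`,
`vsN_nodup`, `edN_iff`, `ptN_eq`). `L1` without repetitions: `List.nodup_append`,
`List.Nodup.map`, `List.nodup_flatMap`; the three parts are disjoint because of the first
component. The elements of the third part are the `(2, a, nmS u, nmS v)` with `a < M` and an arc
`(u, v)`; an arc of `(dat I).gam.copies M` is a pair `((a, u), (a, v))`.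
-/

namespace Pool.Agent.RAC

open Pool.Agent.Lib_MP_8cd8c6_lc

variable {ν : Type} [DecidableEq ν] [Inhabited ν]

omit [DecidableEq ν] [Inhabited ν] in
theorem nodup_fm {α β : Type*} (l : List α) (hl : l.Nodup) (f : α → List β)
    (hf : ∀ a ∈ l, (f a).Nodup) (key : β → α) (hk : ∀ a ∈ l, ∀ x ∈ f a, key x = a) :
    (l.flatMap f).Nodup := by
  rw [List.nodup_flatMap]
  refine ⟨hf, ?_⟩
  refine List.Pairwise.imp_of_mem ?_ hl
  intro a b ha hb hab
  rw [Function.onFun, List.disjoint_left]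
  intro x hx hx'
  exact hab ((hk a ha x hx).symm.trans (hk b hb x hx'))

theorem mem_L1 {M : ℕ} {I : List (Trip ν)} {x : NR} : x ∈ L1 M I ↔
    (∃ h, h < 4 ∧ x = (0, h, z3, z3)) ∨
    (∃ a, a < M ∧ ∃ p ∈ vsN I.length, ∃ b, b < 2 ∧ x = (1, a, p, (b, 0, 0))) ∨
    (∃ a, a < M ∧ ∃ p ∈ vsN I.length, ∃ q ∈ vsN I.length, edN I p q = true ∧ x = (2, a, p, q)) := by
  unfold L1
  rw [List.mem_append, List.mem_append]
  refine or_congr ?_ (or_congr ?_ ?_)
  · simp only [List.mem_map, List.mem_range]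
    exact exists_congr fun h => and_congr_right fun _ => eq_comm
  · simp only [List.mem_flatMap, List.mem_map, List.mem_range]
    refine exists_congr fun a => and_congr_right fun _ => exists_congr fun p => and_congr_right fun _ =>
      exists_congr fun b => and_congr_right fun _ => eq_comm
  · simp only [List.mem_flatMap, List.mem_range]
    refine exists_congr fun a => and_congr_right fun _ => exists_congr fun p => and_congr_right fun _ =>
      exists_congr fun q => and_congr_right fun _ => ?_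
    by_cases h : edN I p q = true
    · simp [h]
    · simp [h]

theorem L1_nodup (M : ℕ) (I : List (Trip ν)) : (L1 M I).Nodup := by
  unfold L1
  refine List.Nodup.append ?_ (List.Nodup.append ?_ ?_ ?_) ?_
  · refine List.nodup_range.map ?_
    intro a b h
    simp only [Prod.mk.injEq] at h
    exact h.2.1
  · refine nodup_fm _ List.nodup_range _ ?_ (fun x => x.2.1) ?_
    · intro a _
      refine nodup_fm _ (vsN_nodup _) _ ?_ (fun x => x.2.2.1) ?_
      · intro p _
        refine List.nodup_range.map ?_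
        intro b b' h
        simp only [Prod.mk.injEq] at h
        exact h.2.2.2.1
      · intro p _ x hx
        simp only [List.mem_map] at hx
        obtain ⟨b, -, rfl⟩ := hx
        rfl
    · intro a _ x hx
      simp only [List.mem_flatMap, List.mem_map] at hx
      obtain ⟨p, -, b, -, rfl⟩ := hx
      rfl
  · refine nodup_fm _ List.nodup_range _ ?_ (fun x => x.2.1) ?_
    · intro a _
      refine nodup_fm _ (vsN_nodup _) _ ?_ (fun x => x.2.2.1) ?_
      · intro p _
        refine nodup_fm _ (vsN_nodup _) _ ?_ (fun x => x.2.2.2) ?_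
        · intro q _
          split_ifs
          · exact List.nodup_singleton _
          · exact List.nodup_nil
        · intro q _ x hx
          split_ifs at hx
          · rw [List.mem_singleton] at hx
            rw [hx]
          · simp at hx
      · intro p _ x hx
        simp only [List.mem_flatMap] at hx
        obtain ⟨q, -, hx⟩ := hx
        split_ifs at hx
        · rw [List.mem_singleton] at hx
          rw [hx]
        · simp at hx
    · intro a _ x hx
      simp only [List.mem_flatMap] at hx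
      obtain ⟨p, -, q, -, hx⟩ := hx
      split_ifs at hx
      · rw [List.mem_singleton] at hx
        rw [hx]
      · simp at hx
  · rw [List.disjoint_left]
    intro x hx hx'
    simp only [List.mem_flatMap, List.mem_map] at hx hx'
    obtain ⟨a, -, p, -, b, -, rfl⟩ := hx
    obtain ⟨a', -, p', -, q', -, h⟩ := hx'
    split_ifs at h
    · rw [List.mem_singleton] at h
      simp at h
    · simp at h
  · rw [List.disjoint_left]
    intro x hx hx'
    simp only [List.mem_append, List.mem_flatMap, List.mem_map] at hx hx'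
    obtain ⟨h, -, rfl⟩ := hx
    rcases hx' with ⟨a', -, p', -, b', -, h⟩ | ⟨a', -, p', -, q', -, h⟩
    · simp at h
    · split_ifs at h
      · rw [List.mem_singleton] at h
        simp at h
      · simp at h

theorem rel1_iff (M : ℕ) (I : List (Trip ν)) (u v : V1 ((dat I).gam.copies M)) :
    rel1 ((dat I).gam.copies M) u v ↔ R1 (nm1 (dat I) M u) (nm1 (dat I) M v) = true := by
  have hpair : ∀ p q : Fin M × VS (dat I), p = q ↔ p.1.val = q.1.val ∧ nmS (dat I) p.2 = nmS (dat I) q.2 := by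
    intro p q
    constructor
    · rintro rfl
      exact ⟨rfl, rfl⟩
    · rintro ⟨h1, h2⟩
      exact Prod.ext (Fin.ext h1) (nmS_inj _ h2)
  rcases u with h | u | e <;> rcases v with h' | v | e'
  · simp [rel1, R1, nm1]
  · simp [rel1, R1, nm1]
  · simp [rel1, R1, nm1]
  · simp [rel1, R1, nm1]
  · have h1 : rel1 ((dat I).gam.copies M) (.inr (.inl u)) (.inr (.inl v)) ↔
        (u.1 = v.1 ∧ u.2 = false ∧ v.2 = true) := Iff.rfl
    rw [h1, hpair]
    rcases u with ⟨⟨a, x⟩, b⟩
    rcases v with ⟨⟨a', x'⟩, b'⟩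
    cases b <;> cases b' <;> simp [R1, nm1]
  · simp [rel1, R1, nm1]
  · simp [rel1, R1, nm1]
  · have h1 : rel1 ((dat I).gam.copies M) (.inr (.inr e)) (.inr (.inl v)) ↔
        (v.1 = e.1.1 ∨ (v.1 = e.1.2 ∧ v.2 = ((dat I).gam.copies M).pt e.1.1 e.1.2)) := Iff.rfl
    obtain ⟨⟨⟨a, x⟩, ⟨a', x'⟩⟩, he1, he2⟩ := e
    rcases v with ⟨⟨a'', x''⟩, b⟩
    simp only at he1 he2
    subst he1
    rw [h1, hpair, hpair]
    have h2 : ((dat I).gam.copies M).pt (a, x) (a, x') = ptN (nmS (dat I) x) (nmS (dat I) x') :=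
      (ptN_eq I x x' he2).symm
    have key : ∀ b t : Bool, ((if b = true then (1 : ℕ) else 0) = if t = true then 1 else 0) ↔ b = t := by
      decide
    have e20 : ¬ ((2 : ℕ) = 0) := by omega
    have e21 : ¬ ((2 : ℕ) = 1) := by omega
    simp only [h2, R1, nm1, Bool.or_eq_true, Bool.and_eq_true, decide_eq_true_eq, e20, e21,
      false_and, false_or, true_and]
    constructor
    · rintro (⟨h3, h4⟩ | ⟨⟨h3, h4⟩, h5⟩)
      · exact ⟨h3.symm, Or.inl h4⟩
      · exact ⟨h3.symm, Or.inr ⟨h4, (key _ _).2 h5⟩⟩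
    · rintro ⟨h3, h4 | ⟨h4, h5⟩⟩
      · exact Or.inl ⟨h3.symm, h4⟩
      · exact Or.inr ⟨⟨h3.symm, h4⟩, (key _ _).1 h5⟩
  · simp [rel1, R1, nm1]

theorem named1 (M : ℕ) (I : List (Trip ν)) :
    Named (G1 ((dat I).gam.copies M)) (L1 M I) R1 (nm1 (dat I) M) := by
  refine ⟨L1_nodup M I, ?_, ?_, ?_, ?_⟩
  · -- injective
    rintro (h | ⟨⟨a, x⟩, b⟩ | ⟨⟨⟨a, x⟩, ⟨a2, x2⟩⟩, he1, he2⟩) (h' | ⟨⟨a', x'⟩, b'⟩ | ⟨⟨⟨a', x'⟩, ⟨a2', x2'⟩⟩, he1', he2'⟩) e
    · simp only [nm1, Prod.mk.injEq] at e
      rw [Fin.ext e.2.1]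
    · simp [nm1] at e
    · simp [nm1] at e
    · simp [nm1] at e
    · simp only [nm1, Prod.mk.injEq] at e
      obtain ⟨-, e1, e2, e3, -⟩ := e
      have h1 := Fin.ext e1
      have h2 := nmS_inj _ e2
      have h3 : b = b' := by
        cases b <;> cases b' <;> simp_all
      rw [h1, h2, h3]
    · simp [nm1] at e
    · simp [nm1] at e
    · simp [nm1] at e
    · simp only [nm1, Prod.mk.injEq] at e
      obtain ⟨-, e1, e2, e3⟩ := e
      have h1 := Fin.ext e1
      have h2 := nmS_inj _ e2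
      have h3 := nmS_inj _ e3
      simp only at he1 he1'
      subst h1 h2 h3 he1 he1'
      rfl
  · -- membership
    rintro (h | ⟨⟨a, x⟩, b⟩ | ⟨⟨⟨a, x⟩, ⟨a2, x2⟩⟩, he1, he2⟩)
    · rw [mem_L1]
      exact Or.inl ⟨h.val, h.2, rfl⟩
    · rw [mem_L1]
      refine Or.inr (Or.inl ⟨a.val, a.2, _, nmS_mem I x, if b then 1 else 0, ?_, rfl⟩)
      split_ifs <;> omega
    · rw [mem_L1]
      exact Or.inr (Or.inr ⟨a.val, a.2, _, nmS_mem I x, _, nmS_mem I x2, (edN_iff I x x2).2 he2, rfl⟩)
  · -- surjective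
    intro x hx
    rw [mem_L1] at hx
    rcases hx with ⟨h, h1, rfl⟩ | ⟨a, h1, p, h2, b, h3, rfl⟩ | ⟨a, h1, p, h2, q, h3, h4, rfl⟩
    · exact ⟨.inl ⟨h, h1⟩, rfl⟩
    · obtain ⟨u, rfl⟩ := nmS_surj I h2
      refine ⟨.inr (.inl ((⟨a, h1⟩, u), decide (b = 1))), ?_⟩
      have hb : b = 0 ∨ b = 1 := by omega
      rcases hb with rfl | rfl
      · rfl
      · rfl
    · obtain ⟨u, rfl⟩ := nmS_surj I h2
      obtain ⟨v, rfl⟩ := nmS_surj I h3
      exact ⟨.inr (.inr ⟨((⟨a, h1⟩, u), (⟨a, h1⟩, v)), rfl, (edN_iff I u v).1 h4⟩), rfl⟩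
  · intro u v
    constructor
    · intro h
      refine ⟨h.ne, ?_⟩
      rcases h with h | h
      · exact Or.inl ((rel1_iff M I u v).1 h)
      · exact Or.inr ((rel1_iff M I v u).1 h)
    · rintro ⟨-, h | h⟩
      · exact Or.inl ((rel1_iff M I u v).2 h)
      · exact Or.inr ((rel1_iff M I v u).2 h)

end Pool.Agent.RAC
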