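import Pool.Agent.Lib_MP_638f75_lc.RNam2
import Pool.Agent.Lib_MP_638f75_lc.RNam1
import Pool.Agent.Lib_MP_638f75_lc.RIso
import Pool.Agent.Lib_MP_638f75_lc.RCode
import Pool.Agent.Lib_MP_638f75_lc.RFP

/-!
# Block R: the reduction
-/

namespace Pool.Agent.RAC

open Pool.Agent.Lib_MP_8cd8c6_lc
open Pool.Agent.PartSep Pool.Agent.PartSep.TM Pool.Agent.PartSep.CL
open Pool.Agent.PartSep.TM.Rep N487b59b3

set_option synthInstance.maxSize 2000

/-- Two bends: from soundness for `M` copies and completeness. -/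
theorem hard2 {M : ℕ}
    (hS : ∀ (V : Type) [Fintype V] (Γ : Gam V), Γ.Deg3 → WD 2 (G2 (Γ.copies M)) → TLF Γ)
    (hC : ∀ (V : Type) [Fintype V] (Γ : Gam V), TLF Γ → SD 2 (G2 Γ)) :
    ∀ L ∈ N68a2faeb.NP, ∃ f : List Bool → List Bool, N68a2faeb.IsPolyTime f ∧
      ∀ x, ∃ (n : ℕ) (G : SimpleGraph (Fin n)), f x = encodeGraph G ∧
        (L x = true → SD 2 G) ∧ (WD 2 G → L x = true) := by
  intro L hL
  obtain ⟨g, hg, hLg⟩ := cook_levin hL
  refine ⟨fun x => encodeGraph (graphL (L2 M (nae (g ((bitEncode x).map bs))))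
    (R2 (nae (g ((bitEncode x).map bs))))), ?_, fun x => ⟨_, _, rfl, ?_, ?_⟩⟩
  · refine isPolyTime_of_fp (g := fun s => outL (L2 M (nae (g s))) (R2 (nae (g s))))
      (fp_outL (fp_L2 M (fp_nae hg)) ?_) (fun x => outL_eq _ _)
    exact fp_R2 (FP.comp (fp_nae hg) FP.fst) (FP.comp FP.fst FP.snd) (FP.comp FP.snd FP.snd)
  · intro h
    rw [hLg, ← nae_iff, ← dat_sat] at h
    exact (named2 M _).sd (hC _ _ (((dat _).complete h).copies M))
  · intro h
    rw [hLg, ← nae_iff, ← dat_sat]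
    exact (dat _).sound (hS _ _ (dat _).deg3 ((named2 M _).wd h))

/-- One bend. -/
theorem hard1 {M : ℕ}
    (hS : ∀ (V : Type) [Fintype V] (Γ : Gam V), Γ.Deg3 → WD 1 (G1 (Γ.copies M)) → TLF Γ)
    (hC : ∀ (V : Type) [Fintype V] (Γ : Gam V), TLF Γ → SD 1 (G1 Γ)) :
    ∀ L ∈ N68a2faeb.NP, ∃ f : List Bool → List Bool, N68a2faeb.IsPolyTime f ∧
      ∀ x, ∃ (n : ℕ) (G : SimpleGraph (Fin n)), f x = encodeGraph G ∧
        (L x = true → SD 1 G) ∧ (WD 1 G → L x = true) := by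
  intro L hL
  obtain ⟨g, hg, hLg⟩ := cook_levin hL
  refine ⟨fun x => encodeGraph (graphL (L1 M (nae (g ((bitEncode x).map bs)))) R1), ?_,
    fun x => ⟨_, _, rfl, ?_, ?_⟩⟩
  · refine isPolyTime_of_fp (g := fun s => outL (L1 M (nae (g s))) R1)
      (fp_outL (fp_L1 M (fp_nae hg)) ?_) (fun x => outL_eq _ _)
    exact fp_R1 (FP.comp FP.fst FP.snd) (FP.comp FP.snd FP.snd)
  · intro h
    rw [hLg, ← nae_iff, ← dat_sat] at h
    exact (named1 M _).sd (hC _ _ (((dat _).complete h).copies M))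
  · intro h
    rw [hLg, ← nae_iff, ← dat_sat]
    exact (dat _).sound (hS _ _ (dat _).deg3 ((named1 M _).wd h))

end Pool.Agent.RAC
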