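import Pool.Agent.Lib_MP_638f75_lc.REd

/-!
# Block R: the names for two bends (piece RNAM2)

PAPER PROOF. Direct verification with the facts of `REd.lean` (`nmS_inj`, `nmS_mem`, `nmS_surj`,
`vsN_nodup`, `edN_iff`). `L2` without repetitions: `List.nodup_append`, `List.Nodup.map`,
`List.nodup_flatMap`; the two parts are disjoint because of the first component.
-/

namespace Pool.Agent.RAC

open Pool.Agent.Lib_MP_8cd8c6_lc

variable {ν : Type} [DecidableEq ν] [Inhabited ν]

theorem mem_L2 (M : ℕ) (I : List (Trip ν)) (x : NR) : x ∈ L2 M I ↔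
    (∃ h < 8, (0, h, z3, z3) = x) ∨ ∃ a < M, ∃ p ∈ vsN I.length, (1, a, p, z3) = x := by
  unfold L2
  simp only [List.mem_append, List.mem_flatMap, List.mem_map, List.mem_range]

theorem L2_nodup (M : ℕ) (I : List (Trip ν)) : (L2 M I).Nodup := by
  unfold L2
  refine List.Nodup.append ?_ ?_ ?_
  · refine List.nodup_range.map ?_
    intro a b h
    simpa using h
  · rw [List.nodup_flatMap]
    refine ⟨fun a _ => ?_, ?_⟩
    · refine (vsN_nodup I.length).map ?_
      intro p q h
      simpa using h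
    · refine List.Pairwise.imp ?_ (List.nodup_range (n := M))
      intro a a' ha
      rw [Function.onFun, List.disjoint_left]
      intro x hx hx'
      simp only [List.mem_map] at hx hx'
      obtain ⟨p, -, rfl⟩ := hx
      obtain ⟨q, -, h⟩ := hx'
      simp only [Prod.mk.injEq] at h
      exact ha h.2.1.symm
  · rw [List.disjoint_left]
    intro x hx hx'
    simp only [List.mem_flatMap, List.mem_map, List.mem_range] at hx hx'
    obtain ⟨h, -, rfl⟩ := hx
    obtain ⟨a, -, p, -, h2⟩ := hx'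
    simp only [Prod.mk.injEq] at h2
    omega

theorem nm2_inj (D : Dat) (M : ℕ) : Function.Injective (nm2 D M) := by
  rintro (h | ⟨a, u⟩) (h' | ⟨a', u'⟩) e
  · simp only [nm2, Prod.mk.injEq] at e
    rw [Fin.ext e.2.1]
  · simp only [nm2, Prod.mk.injEq] at e
    omega
  · simp only [nm2, Prod.mk.injEq] at e
    omega
  · simp only [nm2, Prod.mk.injEq] at e
    rw [Fin.ext e.2.1, nmS_inj D e.2.2.1]

theorem R2_copies (M : ℕ) (I : List (Trip ν)) (a a' : Fin M) (u u' : VS (dat I)) :
    R2 I (nm2 (dat I) M (.inr (a, u))) (nm2 (dat I) M (.inr (a', u'))) = true ↔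
      a = a' ∧ (dat I).edS u u' := by
  rw [← edN_iff]
  simp only [R2, nm2, Bool.or_eq_true, Bool.and_eq_true, decide_eq_true_eq, Fin.ext_iff]
  constructor
  · rintro (⟨h, -⟩ | ⟨-, -, h, h'⟩)
    · omega
    · exact ⟨h, h'⟩
  · rintro ⟨h, h'⟩
    exact Or.inr ⟨trivial, trivial, h, h'⟩

theorem named2 (M : ℕ) (I : List (Trip ν)) :
    Named (G2 ((dat I).gam.copies M)) (L2 M I) (R2 I) (nm2 (dat I) M) := by
  refine ⟨L2_nodup M I, nm2_inj _ M, ?_, ?_, ?_⟩
  · rintro (h | ⟨a, u⟩)
    · rw [mem_L2]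
      exact Or.inl ⟨h.val, h.2, rfl⟩
    · rw [mem_L2]
      exact Or.inr ⟨a.val, a.2, nmS (dat I) u, nmS_mem I u, rfl⟩
  · intro x hx
    rw [mem_L2] at hx
    rcases hx with ⟨h, hh, rfl⟩ | ⟨a, ha, p, hp, rfl⟩
    · exact ⟨.inl ⟨h, hh⟩, rfl⟩
    · obtain ⟨u, rfl⟩ := nmS_surj I hp
      exact ⟨.inr (⟨a, ha⟩, u), rfl⟩
  · rintro (h | ⟨a, u⟩) (h' | ⟨a', u'⟩)
    · have h1 : ¬ (G2 ((dat I).gam.copies M)).Adj (.inl h) (.inl h') := fun h2 => h2
      simp [h1, R2, nm2]
    · have h1 : (G2 ((dat I).gam.copies M)).Adj (.inl h) (.inr (a', u')) := trivial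
      simp [h1, R2, nm2]
    · have h1 : (G2 ((dat I).gam.copies M)).Adj (.inr (a, u)) (.inl h') := trivial
      simp [h1, R2, nm2]
    · rw [R2_copies, R2_copies]
      have h1 : (G2 ((dat I).gam.copies M)).Adj (.inr (a, u)) (.inr (a', u')) ↔
          (a = a' ∧ (dat I).edS u u') ∨ (a' = a ∧ (dat I).edS u' u) := Iff.rfl
      rw [h1]
      constructor
      · intro h2
        refine ⟨?_, h2⟩
        intro e
        have e1 := Sum.inr.inj e
        exact (G2 ((dat I).gam.copies M)).irrefl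
          (show (G2 ((dat I).gam.copies M)).Adj (.inr (a, u)) (.inr (a, u)) by
            have h3 := h1.2 h2
            rw [← e] at h3
            exact h3)
      · exact fun h2 => h2.2

end Pool.Agent.RAC
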