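import Pool.Agent.Lib_MP_638f75_lc.Draw

/-!
# Block S: the digraph of a not-all-equal instance

`D : Dat` is an instance: `D.N` variables (chains), `D.m` clauses with three literals; the `h`-th
literal of the clause `l` has the variable `D.idx l h` and the sign `D.sg l h` (`true`: negated).
Vertices of the digraph: `(i, j, κ)` (chain `i`, stage `j`, one of ten vertices) and a vertex for
every clause. In a stage: `κ = 0, 1, 2 = p, 3 = q, 4 = r, 5 = s, 6 = p', 7 = q', 8 = r', 9 = s'`.
-/

namespace Pool.Agent.RAC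

/-- the arcs inside a stage: tail, head, port of the head -/
def arcT : List (ℕ × ℕ × Bool) :=
  [(0, 1, false), (0, 3, true), (2, 0, true), (1, 7, true), (6, 1, true), (3, 2, false),
   (4, 2, true), (4, 3, false), (5, 4, false), (2, 5, false), (3, 5, true), (7, 6, false),
   (9, 6, true), (9, 7, false), (6, 8, false), (7, 8, true), (8, 9, false), (5, 9, true)]

/-- `(a, b)` is an arc of a stage -/
def arcE (a b : ℕ) : Bool := arcT.any (fun e => e.1 == a && e.2.1 == b)

/-- the port of the arc `(a, b)` of a stage -/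
def arcP (a b : ℕ) : Bool := arcT.any (fun e => e.1 == a && e.2.1 == b && e.2.2)

/-- not-all-equal instances -/
structure Dat where
  N : ℕ
  m : ℕ
  idx : Fin m → Fin 3 → Fin N
  sg : Fin m → Fin 3 → Bool

/-- vertices of the digraph -/
abbrev VS (D : Dat) := (Fin D.N × Fin (6 * D.m) × Fin 10) ⊕ Fin D.m

/-- the stage to which the `h`-th literal of the clause `l` is attached -/
def Dat.st (D : Dat) (l : Fin D.m) (h : Fin 3) : ℕ :=
  2 * (3 * l.val + h.val) + (if D.sg l h then 1 else 0)

theorem Dat.st_lt (D : Dat) (l : Fin D.m) (h : Fin 3) : D.st l h < 6 * D.m := by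
  unfold Dat.st
  have := l.2
  have := h.2
  split_ifs <;> omega

theorem Dat.st_inj (D : Dat) {l l' : Fin D.m} {h h' : Fin 3} (e : D.st l h = D.st l' h') :
    l = l' ∧ h = h' := by
  unfold Dat.st at e
  have := h.2
  have := h'.2
  constructor
  · apply Fin.ext
    split_ifs at e <;> omega
  · apply Fin.ext
    split_ifs at e <;> omega

/-- the arcs -/
def Dat.edS (D : Dat) : VS D → VS D → Prop
  | .inl u, .inl v => u.1 = v.1 ∧ ((u.2.1 = v.2.1 ∧ arcE u.2.2.val v.2.2.val = true) ∨
      (v.2.1.val = u.2.1.val + 1 ∧ u.2.2.val = 8 ∧ v.2.2.val = 0))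
  | .inr l, .inl v => v.2.2.val = 4 ∧ ∃ h : Fin 3, D.idx l h = v.1 ∧ v.2.1.val = D.st l h
  | _, .inr _ => False

/-- the ports -/
def Dat.ptS (D : Dat) : VS D → VS D → Bool
  | .inl u, .inl v => decide (u.2.1 = v.2.1) && arcP u.2.2.val v.2.2.val
  | .inr _, _ => true
  | .inl _, .inr _ => false

theorem arc_irr : ∀ a b : Fin 10, arcE a.val b.val = true → a ≠ b := by decide

theorem arc_asym : ∀ a b : Fin 10, arcE a.val b.val = true → arcE b.val a.val = false := by decide

theorem arc_port : ∀ a a' b : Fin 10, arcE a.val b.val = true → arcE a'.val b.val = true →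
    arcP a.val b.val = arcP a'.val b.val → a = a' := by decide

theorem arc_port0 : ∀ a : Fin 10, arcE a.val 0 = true → arcP a.val 0 = true := by decide

theorem arc_port4 : ∀ a : Fin 10, arcE a.val 4 = true → arcP a.val 4 = false := by decide

/-- the digraph -/
def Dat.gam (D : Dat) : Gam (VS D) where
  ed := D.edS
  pt := D.ptS
  irr := by
    rintro (⟨i, j, a⟩ | l) (⟨i', j', b⟩ | l') h
    · intro e
      obtain ⟨h1, h2 | h2⟩ := h
      · simp only [Sum.inl.injEq, Prod.mk.injEq] at e
        exact arc_irr a b h2.2 e.2.2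
      · simp only [Sum.inl.injEq, Prod.mk.injEq] at e
        obtain ⟨h3, h4, h5⟩ := h2
        simp only at h4 h5
        rw [e.2.2] at h4
        omega
    · simp
    · simp
    · exact h.elim
  asym := by
    rintro (⟨i, j, a⟩ | l) (⟨i', j', b⟩ | l') h h'
    · obtain ⟨h1, h2 | h2⟩ := h
      · obtain ⟨h1', h2' | h2'⟩ := h'
        · have := arc_asym a b h2.2
          rw [h2'.2] at this
          exact absurd this (by simp)
        · obtain ⟨h3, h4, h5⟩ := h2'
          have h6 := congrArg Fin.val h2.1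
          simp only at h3 h6
          omega
      · obtain ⟨h1', h2' | h2'⟩ := h'
        · obtain ⟨h3, h4, h5⟩ := h2
          have h6 := congrArg Fin.val h2'.1
          simp only at h3 h6
          omega
        · obtain ⟨h3, h4, h5⟩ := h2
          obtain ⟨h3', h4', h5'⟩ := h2'
          simp only at h3 h3'
          omega
    · exact h.elim
    · exact h'.elim
    · exact h.elim
  port := by
    rintro (⟨i, j, a⟩ | l) (⟨i', j', a'⟩ | l') (⟨i2, j2, b⟩ | l2) h h' hp
    · obtain ⟨h1, h2⟩ := h
      obtain ⟨h1', h2'⟩ := h'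
      simp only at h1 h1' h2 h2'
      subst h1 h1'
      rcases h2 with ⟨h3, h4⟩ | ⟨h3, h4, h5⟩ <;> rcases h2' with ⟨h3', h4'⟩ | ⟨h3', h4', h5'⟩
      · subst h3 h3'
        unfold Dat.ptS at hp
        simp only [decide_true, Bool.true_and] at hp
        rw [arc_port a a' b h4 h4' hp]
      · subst h3
        have h6 : j' ≠ j := by
          intro e
          rw [e] at h3'
          omega
        unfold Dat.ptS at hp
        simp only [decide_true, Bool.true_and] at hp
        rw [h5', decide_eq_false h6, Bool.false_and] at hp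
        rw [h5'] at h4
        rw [arc_port0 a h4] at hp
        exact absurd hp (by simp)
      · subst h3'
        have h6 : j ≠ j' := by
          intro e
          rw [e] at h3
          omega
        unfold Dat.ptS at hp
        simp only [decide_true, Bool.true_and] at hp
        rw [h5, decide_eq_false h6, Bool.false_and] at hp
        rw [h5] at h4'
        rw [arc_port0 a' h4'] at hp
        exact absurd hp (by simp)
      · have h6 : j = j' := Fin.ext (by omega)
        have h7 : a = a' := Fin.ext (by omega)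
        rw [h6, h7]
    · exact h.elim
    · obtain ⟨h1, h2⟩ := h
      obtain ⟨h1', h2'⟩ := h'
      simp only at h1 h2 h1' h2'
      unfold Dat.ptS at hp
      rcases h2 with ⟨h3, h4⟩ | ⟨h3, h4, h5⟩
      · simp only at hp
        rw [h1'] at h4
        rw [h1', arc_port4 a h4, Bool.and_false] at hp
        exact absurd hp (by simp)
      · omega
    · exact h.elim
    · obtain ⟨h1, h2⟩ := h
      obtain ⟨h1', h2'⟩ := h'
      simp only at h1 h2 h1' h2'
      unfold Dat.ptS at hp
      rcases h2' with ⟨h3, h4⟩ | ⟨h3, h4, h5⟩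
      · simp only at hp
        rw [h1] at h4
        rw [h1, arc_port4 a' h4, Bool.and_false] at hp
        exact absurd hp (by simp)
      · omega
    · exact h.elim
    · obtain ⟨h1, h2, h3, h4⟩ := h
      obtain ⟨h1', h2', h3', h4'⟩ := h'
      rw [h4] at h4'
      rw [(D.st_inj h4').1]
    · exact h.elim

/-- the stage `(i, j)` -/
def Dat.v (D : Dat) (i : Fin D.N) (j : Fin (6 * D.m)) (a : Fin 10) : VS D := .inl (i, j, a)

/-- satisfiability in the not-all-equal sense -/
def Dat.Sat (D : Dat) : Prop :=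
  ∃ X : Fin D.N → Bool, ∀ l : Fin D.m, ∃ h h' : Fin 3,
    xor (X (D.idx l h)) (D.sg l h) ≠ xor (X (D.idx l h')) (D.sg l h')

/-- three neighbours inside a stage -/
theorem arc_three : ∀ a : Fin 10, ∃ b c d : Fin 10, b ≠ c ∧ b ≠ d ∧ c ≠ d ∧
    (arcE a.val b.val = true ∨ arcE b.val a.val = true) ∧
    (arcE a.val c.val = true ∨ arcE c.val a.val = true) ∧
    (arcE a.val d.val = true ∨ arcE d.val a.val = true) := by decide

theorem Dat.deg3 (D : Dat) : D.gam.Deg3 := by
  rintro (⟨i, j, a⟩ | l)
  · obtain ⟨b, c, d, hbc, hbd, hcd, h1, h2, h3⟩ := arc_three a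
    refine ⟨![D.v i j b, D.v i j c, D.v i j d], ?_, ?_⟩
    · intro x y hxy
      fin_cases x <;> fin_cases y <;> simp_all [Dat.v]
    · intro x
      have key : ∀ e : Fin 10, (arcE a.val e.val = true ∨ arcE e.val a.val = true) →
          D.gam.Nb (.inl (i, j, a)) (D.v i j e) := by
        rintro e (h | h)
        · exact Or.inl ⟨rfl, Or.inl ⟨rfl, h⟩⟩
        · exact Or.inr ⟨rfl, Or.inl ⟨rfl, h⟩⟩
      fin_cases x
      · exact key b h1
      · exact key c h2
      · exact key d h3
  · refine ⟨fun h => D.v (D.idx l h) ⟨D.st l h, D.st_lt l h⟩ 4, ?_, ?_⟩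
    · intro h h' e
      simp only [Dat.v, Sum.inl.injEq, Prod.mk.injEq, Fin.mk.injEq] at e
      exact (D.st_inj e.2.1).2
    · intro h
      exact Or.inl ⟨rfl, h, rfl, rfl⟩

theorem TLF.copies {V : Type*} {Γ : Gam V} (h : TLF Γ) (M : ℕ) : TLF (Γ.copies M) := by
  obtain ⟨c, φ, hc, hφ⟩ := h
  refine ⟨fun p q => c p.2 q.2, fun b p => φ b p.2, fun p q => hc _ _, ?_⟩
  intro b v w w' hw h1 h2 h3 h4
  have key : ∀ w, (Γ.copies M).Nb v w → v.1 = w.1 ∧ Γ.Nb v.2 w.2 := by
    rintro w (⟨h, h'⟩ | ⟨h, h'⟩)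
    · exact ⟨h, Or.inl h'⟩
    · exact ⟨h.symm, Or.inr h'⟩
  obtain ⟨k1, k2⟩ := key w h1
  obtain ⟨k3, k4⟩ := key w' h2
  refine hφ b v.2 w.2 w'.2 ?_ k2 k4 h3 h4
  intro e
  exact hw (Prod.ext (k1.symm.trans k3) e)

theorem Gam.Deg3.copies {V : Type*} {Γ : Gam V} (h : Γ.Deg3) (M : ℕ) : (Γ.copies M).Deg3 := by
  rintro ⟨a, v⟩
  obtain ⟨w, hw, hn⟩ := h v
  refine ⟨fun i => (a, w i), fun i j e => hw (congrArg Prod.snd e), fun i => ?_⟩
  rcases hn i with h | h
  · exact Or.inl ⟨rfl, h⟩
  · exact Or.inr ⟨rfl, h⟩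

end Pool.Agent.RAC
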