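import Pool.Agent.Lib_MP_638f75_lc.SDefs

/-!
# Block S: local consequences of a decomposition into two linear forests

`Cert Γ c φ`: `c` is a colouring of the edges, `φ b` a potential for the colour `b`. At every vertex
at most two edges have the same colour (the two differences of potentials have opposite signs, so
three are impossible: `three`), and there is no monochromatic cycle (a vertex with the smallest
potential: `no_cycle`).
-/

namespace Pool.Agent.RAC

variable {V : Type*}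

/-- certificates for two linear forests -/
def Cert (Γ : Gam V) (c : V → V → Bool) (φ : Bool → V → ℝ) : Prop :=
  (∀ u v, c u v = c v u) ∧ ∀ b v w w', w ≠ w' → Γ.Nb v w → Γ.Nb v w' → c v w = b → c v w' = b →
    (φ b w - φ b v) * (φ b w' - φ b v) < 0

theorem Gam.Nb.symm {Γ : Gam V} {u v : V} (h : Γ.Nb u v) : Γ.Nb v u := Or.symm h

theorem Gam.Nb.ne {Γ : Gam V} {u v : V} (h : Γ.Nb u v) : u ≠ v := by
  rcases h with h | h
  · exact Γ.irr _ _ h
  · exact (Γ.irr _ _ h).symm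

variable {Γ : Gam V} {c : V → V → Bool} {φ : Bool → V → ℝ}

/-- no three edges of the same colour at a vertex -/
theorem three (hC : Cert Γ c φ) {v w1 w2 w3 : V} (h12 : w1 ≠ w2) (h13 : w1 ≠ w3) (h23 : w2 ≠ w3)
    (n1 : Γ.Nb v w1) (n2 : Γ.Nb v w2) (n3 : Γ.Nb v w3) {b : Bool} (c1 : c v w1 = b)
    (c2 : c v w2 = b) (c3 : c v w3 = b) : False := by
  have a := hC.2 b v w1 w2 h12 n1 n2 c1 c2
  have a' := hC.2 b v w1 w3 h13 n1 n3 c1 c3
  have a'' := hC.2 b v w2 w3 h23 n2 n3 c2 c3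
  have h1 := mul_pos_of_neg_of_neg a a'
  have h2 : 0 < (φ b w1 - φ b v) ^ 2 * ((φ b w2 - φ b v) * (φ b w3 - φ b v)) := by nlinarith
  have h3 : 0 ≤ (φ b w1 - φ b v) ^ 2 := sq_nonneg _
  nlinarith [mul_nonneg h3 (neg_nonneg.2 a''.le)]

/-- no monochromatic cycle -/
theorem no_cycle (hC : Cert Γ c φ) {n : ℕ} [NeZero n] (f : Fin n → V)
    (hf : ∀ i, Γ.Nb (f i) (f (i + 1))) (hd : ∀ i, f i ≠ f (i + 1 + 1)) {b : Bool}
    (hc : ∀ i, c (f i) (f (i + 1)) = b) : False := by
  obtain ⟨i, hi⟩ := Finite.exists_min (fun i => φ b (f i))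
  have e : i - 1 + 1 = i := sub_add_cancel i 1
  have h1 := hf (i - 1)
  have h2 := hf i
  have h3 := hd (i - 1)
  have h4 := hc (i - 1)
  rw [e] at h1 h3 h4
  have h5 := hC.2 b (f i) (f (i - 1)) (f (i + 1)) h3 h1.symm h2 (by rw [hC.1]; exact h4) (hc i)
  have h6 := hi (i - 1)
  have h7 := hi (i + 1)
  nlinarith [mul_nonneg (sub_nonneg.2 h6) (sub_nonneg.2 h7)]

/-- two colours on the complete graph on four vertices: every colour is a Hamiltonian path. Here
`t a` is the colour of the path which ends in `x a`. -/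
structure K4Res (c : V → V → Bool) (x : Fin 4 → V) (t : Fin 4 → Bool) : Prop where
  /-- the two ends of the same path are connected by it -/
  path : ∀ a b : Fin 4, a ≠ b → t a = t b → ∃ a' b' : Fin 4, a' ≠ a ∧ a' ≠ b ∧ b' ≠ a ∧ b' ≠ b ∧
    a' ≠ b' ∧ c (x a) (x a') = t a ∧ c (x a') (x b') = t a ∧ c (x b') (x b) = t a
  /-- two edges of the other colour at `x a` -/
  deg : ∀ a : Fin 4, ∃ b b' : Fin 4, b ≠ a ∧ b' ≠ a ∧ b ≠ b' ∧ c (x a) (x b) = !t a ∧
    c (x a) (x b') = !t a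
  /-- at most two ends of the same colour -/
  two : ∀ a b d : Fin 4, a ≠ b → a ≠ d → b ≠ d → t a = t b → t d = !t a

/-- the symmetric matrix of six Booleans -/
private def k4M (p q r s t u : Bool) : Fin 4 → Fin 4 → Bool :=
  ![![false, p, q, r], ![p, false, s, t], ![q, s, false, u], ![r, t, u, false]]

private def k4maj (a b c : Bool) : Bool := !((a && b) || (a && c) || (b && c))

private def k4T (p q r s t u : Bool) : Fin 4 → Bool :=
  ![k4maj p q r, k4maj p s t, k4maj q s u, k4maj r t u]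

set_option synthInstance.maxSize 4000 in
private theorem k4_bool : ∀ p q r s t u : Bool,
    ¬(p = s ∧ s = q) → ¬(p = t ∧ t = r) → ¬(q = u ∧ u = r) → ¬(s = u ∧ u = t) →
    ¬(p = s ∧ s = u ∧ u = r) → ¬(p = t ∧ t = u ∧ u = q) → ¬(q = s ∧ s = t ∧ t = r) →
    ¬(p = q ∧ q = r) → ¬(p = s ∧ s = t) → ¬(q = s ∧ s = u) → ¬(r = t ∧ t = u) →
    (∀ a b : Fin 4, a ≠ b → k4T p q r s t u a = k4T p q r s t u b →
      ∃ a' b' : Fin 4, a' ≠ a ∧ a' ≠ b ∧ b' ≠ a ∧ b' ≠ b ∧ a' ≠ b' ∧
        k4M p q r s t u a a' = k4T p q r s t u a ∧ k4M p q r s t u a' b' = k4T p q r s t u a ∧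
        k4M p q r s t u b' b = k4T p q r s t u a) ∧
    (∀ a : Fin 4, ∃ b b' : Fin 4, b ≠ a ∧ b' ≠ a ∧ b ≠ b' ∧
      k4M p q r s t u a b = !k4T p q r s t u a ∧ k4M p q r s t u a b' = !k4T p q r s t u a) ∧
    (∀ a b d : Fin 4, a ≠ b → a ≠ d → b ≠ d → k4T p q r s t u a = k4T p q r s t u b →
      k4T p q r s t u d = !k4T p q r s t u a) := by
  intro p q r s t u h1 h2 h3 h4 h5 h6 h7 h8 h9 h10 h11
  cases p <;> cases q <;> cases r <;> cases s <;> cases t <;> cases u <;>
    first | exact absurd ⟨rfl, rfl⟩ h1 | exact absurd ⟨rfl, rfl⟩ h2 | exact absurd ⟨rfl, rfl⟩ h3 |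
      exact absurd ⟨rfl, rfl⟩ h4 | exact absurd ⟨rfl, rfl, rfl⟩ h5 |
      exact absurd ⟨rfl, rfl, rfl⟩ h6 | exact absurd ⟨rfl, rfl, rfl⟩ h7 |
      exact absurd ⟨rfl, rfl⟩ h8 | exact absurd ⟨rfl, rfl⟩ h9 | exact absurd ⟨rfl, rfl⟩ h10 |
      exact absurd ⟨rfl, rfl⟩ h11 | (clear h1 h2 h3 h4 h5 h6 h7 h8 h9 h10 h11; decide +kernel)

/-- PAPER PROOF. The six colours `c (x a) (x b)`, `a < b`, satisfy: no monochromatic triangle
(`no_cycle` with `n = 3`), no monochromatic cycle of length four (`n = 4`, three cycles), no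
vertex with three edges of the same colour (`three`). Replace the six colours by Boolean variables
(the function `e a b := c (x a) (x b)` is symmetric), `t a` := the colour which appears once at
`x a` (`t a = (e ∧ e') ∨ (e ∧ e'') ∨ (e' ∧ e'')` negated), and check the 64 cases by `decide`. -/
theorem k4 (hC : Cert Γ c φ) (x : Fin 4 → V) (hx : Function.Injective x)
    (hN : ∀ a b, a ≠ b → Γ.Nb (x a) (x b)) : ∃ t, K4Res c x t := by
  have hM : ∀ a b : Fin 4, a ≠ b → c (x a) (x b) =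
      k4M (c (x 0) (x 1)) (c (x 0) (x 2)) (c (x 0) (x 3)) (c (x 1) (x 2)) (c (x 1) (x 3))
        (c (x 2) (x 3)) a b := by
    intro a b hab
    fin_cases a <;> fin_cases b <;> first | exact absurd rfl hab | rfl | exact hC.1 _ _
  have cyc : ∀ (n : ℕ) [NeZero n] (g : Fin n → Fin 4), (∀ i, g i ≠ g (i + 1)) →
      (∀ i, g i ≠ g (i + 1 + 1)) → ∀ b, (∀ i, c (x (g i)) (x (g (i + 1))) = b) → False := by
    intro n _ g h1 h2 b h3
    exact no_cycle hC (fun i => x (g i)) (fun i => hN _ _ (h1 i))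
      (fun i e => h2 i (hx e)) h3
  have thr : ∀ a b d e : Fin 4, a ≠ b → a ≠ d → a ≠ e → b ≠ d → b ≠ e → d ≠ e →
      ¬(c (x a) (x b) = c (x a) (x d) ∧ c (x a) (x d) = c (x a) (x e)) := by
    rintro a b d e hab had hae hbd hbe hde ⟨h1, h2⟩
    exact three hC (fun h => hbd (hx h)) (fun h => hbe (hx h)) (fun h => hde (hx h))
      (hN _ _ hab) (hN _ _ had) (hN _ _ hae) h1 rfl h2.symm
  have tri : ∀ a b d : Fin 4, a ≠ b → b ≠ d → d ≠ a →
      ¬(c (x a) (x b) = c (x b) (x d) ∧ c (x b) (x d) = c (x d) (x a)) := by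
    rintro a b d hab hbd hda ⟨h1, h2⟩
    refine cyc 3 ![a, b, d] ?_ ?_ (c (x b) (x d)) ?_
    · intro i
      fin_cases i
      exacts [hab, hbd, hda]
    · intro i
      fin_cases i
      exacts [hda.symm, hab.symm, hbd.symm]
    · intro i
      fin_cases i
      exacts [h1, rfl, h2.symm]
  have qua : ∀ a b d e : Fin 4, a ≠ b → b ≠ d → d ≠ e → e ≠ a → a ≠ d → b ≠ e →
      ¬(c (x a) (x b) = c (x b) (x d) ∧ c (x b) (x d) = c (x d) (x e) ∧
        c (x d) (x e) = c (x e) (x a)) := by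
    rintro a b d e hab hbd hde hea had hbe ⟨h1, h2, h3⟩
    refine cyc 4 ![a, b, d, e] ?_ ?_ (c (x b) (x d)) ?_
    · intro i
      fin_cases i
      exacts [hab, hbd, hde, hea]
    · intro i
      fin_cases i
      exacts [had, hbe, had.symm, hbe.symm]
    · intro i
      fin_cases i
      exacts [h1, rfl, h2.symm, (h2.trans h3).symm]
  have S : ∀ a b : Fin 4, c (x a) (x b) = c (x b) (x a) := fun a b => hC.1 _ _
  have key := k4_bool (c (x 0) (x 1)) (c (x 0) (x 2)) (c (x 0) (x 3)) (c (x 1) (x 2))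
    (c (x 1) (x 3)) (c (x 2) (x 3))
    (by rw [S 0 2]; exact tri 0 1 2 (by decide) (by decide) (by decide))
    (by rw [S 0 3]; exact tri 0 1 3 (by decide) (by decide) (by decide))
    (by rw [S 0 3]; exact tri 0 2 3 (by decide) (by decide) (by decide))
    (by rw [S 1 3]; exact tri 1 2 3 (by decide) (by decide) (by decide))
    (by rw [S 0 3]
        exact qua 0 1 2 3 (by decide) (by decide) (by decide) (by decide) (by decide) (by decide))
    (by rw [S 0 2, S 2 3]
        exact qua 0 1 3 2 (by decide) (by decide) (by decide) (by decide) (by decide) (by decide))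
    (by rw [S 0 3, S 1 2]
        exact qua 0 2 1 3 (by decide) (by decide) (by decide) (by decide) (by decide) (by decide))
    (thr 0 1 2 3 (by decide) (by decide) (by decide) (by decide) (by decide) (by decide))
    (by rw [S 0 1]
        exact thr 1 0 2 3 (by decide) (by decide) (by decide) (by decide) (by decide) (by decide))
    (by rw [S 0 2, S 1 2]
        exact thr 2 0 1 3 (by decide) (by decide) (by decide) (by decide) (by decide) (by decide))
    (by rw [S 0 3, S 1 3, S 2 3]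
        exact thr 3 0 1 2 (by decide) (by decide) (by decide) (by decide) (by decide) (by decide))
  obtain ⟨k1, k2, k3⟩ := key
  refine ⟨_, ⟨?_, ?_, k3⟩⟩
  · intro a b hab ht
    obtain ⟨a', b', h1, h2, h3, h4, h5, h6, h7, h8⟩ := k1 a b hab ht
    refine ⟨a', b', h1, h2, h3, h4, h5, ?_, ?_, ?_⟩
    · rw [hM a a' h1.symm]; exact h6
    · rw [hM a' b' h5]; exact h7
    · rw [hM b' b h4]; exact h8
  · intro a
    obtain ⟨b, b', h1, h2, h3, h4, h5⟩ := k2 a
    refine ⟨b, b', h1, h2, h3, ?_, ?_⟩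
    · rw [hM a b h1.symm]; exact h4
    · rw [hM a b' h2.symm]; exact h5

/-- a stage of the digraph -/
structure Stage (Γ : Gam V) (v : Fin 10 → V) : Prop where
  inj : Function.Injective v
  nb : ∀ a b : Fin 10, arcE a.val b.val = true → Γ.Nb (v a) (v b)

/-- PAPER PROOF. Apply `k4` to `x = ![v 2, v 3, v 4, v 5]` (result `t`) and to
`x' = ![v 6, v 7, v 8, v 9]` (result `t'`). If `w ∉ {x b}` is a neighbour of `x a` then
`c (x a) w = t a` (`K4Res.deg` and `three`). In particular `c (v 2) (v 0) = t 0`,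
`c (v 3) (v 0) = t 1`, `c (v 5) (v 9) = t 3 = t' 3`, `c (v 6) (v 1) = t' 0`, `c (v 7) (v 1) = t' 1`.
(1) `t 0 ≠ t 1`: otherwise the path of `K4Res.path` and `v 0` form a monochromatic cycle of
length 5. In the same way `t' 0 ≠ t' 1`. So `t 2 = !t 3` and `t' 2 = !t' 3` (`K4Res.two`: one of
`t 0`, `t 1` equals `t 2`, one equals `t 3`, ...).
(2) `c (v 0) (v 1) = !t 3`: otherwise let `a ∈ {0, 1}` with `t a = t 3`, `a' ∈ {0, 1}` with
`t' a' = t' 3`; the path from `x a` to `x 3 = v 5`, the path from `x' 3 = v 9` to `x' a'`, `v 1` and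
`v 0` form a monochromatic cycle of length 10.
(3) So `c (v 4) w = t 2 = !t 3 = c (v 0) (v 1)` and `c (v 8) w = t' 2 = !t' 3 = !t 3`. At `v 0`
the edges to `v 2`, `v 3` have the two colours, and `v 0 v 1` has the colour `x`, so `c (v 0) w = x`
contradicts `three`. -/
theorem stage (hC : Cert Γ c φ) {v : Fin 10 → V} (hv : Stage Γ v) :
    (∀ w, Γ.Nb (v 4) w → (∀ a, w ≠ v a) → c (v 4) w = c (v 0) (v 1)) ∧
    (∀ w, Γ.Nb (v 8) w → (∀ a, w ≠ v a) → c (v 8) w = c (v 0) (v 1)) ∧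
    (∀ w, Γ.Nb (v 0) w → (∀ a, w ≠ v a) → c (v 0) w = !c (v 0) (v 1)) := by
  have hne : ∀ a b : Fin 10, a ≠ b → v a ≠ v b := fun a b h e => h (hv.inj e)
  have nb : ∀ a b : Fin 10, (arcE a.val b.val || arcE b.val a.val) = true →
      Γ.Nb (v a) (v b) := by
    intro a b h
    rcases Bool.or_eq_true_iff.1 h with h | h
    · exact hv.nb a b h
    · exact (hv.nb b a h).symm
  let y : Fin 4 → Fin 10 := ![2, 3, 4, 5]
  let y' : Fin 4 → Fin 10 := ![6, 7, 8, 9]
  have yinj : Function.Injective y := by decide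
  have yinj' : Function.Injective y' := by decide
  have yN : ∀ a b, a ≠ b → Γ.Nb (v (y a)) (v (y b)) := by
    intro a b hab
    refine nb _ _ ?_
    revert a b
    decide
  have yN' : ∀ a b, a ≠ b → Γ.Nb (v (y' a)) (v (y' b)) := by
    intro a b hab
    refine nb _ _ ?_
    revert a b
    decide
  have y0 : ∀ a, (0 : Fin 10) ≠ y a := by decide
  have y1 : ∀ a, (1 : Fin 10) ≠ y a := by decide
  have y0' : ∀ a, (0 : Fin 10) ≠ y' a := by decide
  have y1' : ∀ a, (1 : Fin 10) ≠ y' a := by decide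
  have yy' : ∀ a b, y a ≠ y' b := by decide
  obtain ⟨t, hK⟩ := k4 hC (fun a => v (y a)) (fun a b e => yinj (hv.inj e)) yN
  obtain ⟨t', hK'⟩ := k4 hC (fun a => v (y' a)) (fun a b e => yinj' (hv.inj e)) yN'
  have out : ∀ a w, Γ.Nb (v (y a)) w → (∀ b, w ≠ v (y b)) → c (v (y a)) w = t a := by
    intro a w hw hd
    by_contra hc
    have hc' : c (v (y a)) w = !t a := by
      revert hc
      cases c (v (y a)) w <;> cases t a <;> simp
    obtain ⟨b, b', h1, h2, h3, h4, h5⟩ := hK.deg a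
    exact three hC (hd b) (hd b') (hne _ _ (fun e => h3 (yinj e))) hw (yN _ _ h1.symm)
      (yN _ _ h2.symm) hc' h4 h5
  have out' : ∀ a w, Γ.Nb (v (y' a)) w → (∀ b, w ≠ v (y' b)) → c (v (y' a)) w = t' a := by
    intro a w hw hd
    by_contra hc
    have hc' : c (v (y' a)) w = !t' a := by
      revert hc
      cases c (v (y' a)) w <;> cases t' a <;> simp
    obtain ⟨b, b', h1, h2, h3, h4, h5⟩ := hK'.deg a
    exact three hC (hd b) (hd b') (hne _ _ (fun e => h3 (yinj' e))) hw (yN' _ _ h1.symm)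
      (yN' _ _ h2.symm) hc' h4 h5
  -- the two ends of a stage
  have h20 : c (v 2) (v 0) = t 0 := out 0 (v 0) (nb 2 0 (by decide)) (fun b => hne _ _ (y0 b))
  have h30 : c (v 3) (v 0) = t 1 := out 1 (v 0) (nb 3 0 (by decide)) (fun b => hne _ _ (y0 b))
  have h59 : c (v 5) (v 9) = t 3 :=
    out 3 (v 9) (nb 5 9 (by decide)) (fun b => (hne _ _ (yy' b 3)).symm)
  have h95 : c (v 9) (v 5) = t' 3 :=
    out' 3 (v 5) (nb 9 5 (by decide)) (fun b => hne _ _ (yy' 3 b))
  have h61 : c (v 6) (v 1) = t' 0 := out' 0 (v 1) (nb 6 1 (by decide)) (fun b => hne _ _ (y1' b))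
  have h71 : c (v 7) (v 1) = t' 1 := out' 1 (v 1) (nb 7 1 (by decide)) (fun b => hne _ _ (y1' b))
  have htt : t' 3 = t 3 := by rw [← h95, ← h59, hC.1]
  -- (1)
  have path5 : ∀ (z : Fin 10) (x : Fin 4 → Fin 10) (s : Fin 4 → Bool),
      Function.Injective x → (∀ a b, a ≠ b → Γ.Nb (v (x a)) (v (x b))) → (∀ a, z ≠ x a) →
      K4Res c (fun a => v (x a)) s → Γ.Nb (v z) (v (x 0)) → Γ.Nb (v z) (v (x 1)) →
      c (v (x 0)) (v z) = s 0 → c (v (x 1)) (v z) = s 1 → s 0 ≠ s 1 := by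
    intro z x s xi xN xz hs n0 n1 c0 c1 e
    obtain ⟨a', b', h1, h2, h3, h4, h5, h6, h7, h8⟩ := hs.path 0 1 (by decide) e
    have hx : ∀ a b, a ≠ b → v (x a) ≠ v (x b) := fun a b h => hne _ _ (fun e => h (xi e))
    refine no_cycle hC (n := 5) (b := s 0) ![v z, v (x 0), v (x a'), v (x b'), v (x 1)] ?_ ?_ ?_
    · intro i
      fin_cases i
      exacts [n0, xN _ _ h1.symm, xN _ _ h5, xN _ _ h4, n1.symm]
    · intro i
      fin_cases i
      exacts [hne _ _ (xz a'), hx _ _ h3.symm, hx _ _ h2, (hne _ _ (xz b')).symm,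
        hx _ _ (by decide)]
    · intro i
      fin_cases i
      exacts [(hC.1 _ _).trans c0, h6, h7, h8, c1.trans e.symm]
  have t01 : t 0 ≠ t 1 := path5 0 y t yinj yN y0 hK (nb 0 2 (by decide)) (nb 0 3 (by decide))
    h20 h30
  have t01' : t' 0 ≠ t' 1 := path5 1 y' t' yinj' yN' y1' hK' (nb 1 6 (by decide))
    (nb 1 7 (by decide)) h61 h71
  have hex : ∀ s : Fin 4 → Bool, s 0 ≠ s 1 → ∃ a : Fin 4, (a = 0 ∨ a = 1) ∧ s a = s 3 := by
    intro s hs
    by_cases h : s 0 = s 3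
    · exact ⟨0, Or.inl rfl, h⟩
    · refine ⟨1, Or.inr rfl, ?_⟩
      revert hs h
      cases s 0 <;> cases s 1 <;> cases s 3 <;> simp
  obtain ⟨a, ha, hta⟩ := hex t t01
  obtain ⟨a', ha', hta'⟩ := hex t' t01'
  have a2 : a ≠ 2 := by rcases ha with rfl | rfl <;> decide
  have a3 : a ≠ 3 := by rcases ha with rfl | rfl <;> decide
  have a2' : a' ≠ 2 := by rcases ha' with rfl | rfl <;> decide
  have a3' : a' ≠ 3 := by rcases ha' with rfl | rfl <;> decide
  have t2 : t 2 = !t 3 := by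
    rw [← hta]
    exact hK.two a 3 2 a3 a2 (by decide) hta
  have t2' : t' 2 = !t 3 := by
    rw [← htt, ← hta']
    exact hK'.two a' 3 2 a3' a2' (by decide) hta'
  -- (2)
  have n0 : Γ.Nb (v 0) (v (y a)) := by
    rcases ha with rfl | rfl
    · exact nb 0 2 (by decide)
    · exact nb 0 3 (by decide)
  have n1 : Γ.Nb (v 1) (v (y' a')) := by
    rcases ha' with rfl | rfl
    · exact nb 1 6 (by decide)
    · exact nb 1 7 (by decide)
  have c0 : c (v 0) (v (y a)) = t 3 := by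
    rw [hC.1, ← hta]
    rcases ha with rfl | rfl
    · exact h20
    · exact h30
  have c1 : c (v (y' a')) (v 1) = t 3 := by
    rw [← htt, ← hta']
    rcases ha' with rfl | rfl
    · exact h61
    · exact h71
  have h01 : c (v 0) (v 1) = !t 3 := by
    by_contra hc
    have hc' : c (v 0) (v 1) = t 3 := by
      revert hc
      cases c (v 0) (v 1) <;> cases t 3 <;> simp
    obtain ⟨d, d', h1, h2, h3, h4, h5, h6, h7, h8⟩ := hK.path a 3 a3 hta
    obtain ⟨e, e', g1, g2, g3, g4, g5, g6, g7, g8⟩ := hK'.path a' 3 a3' hta'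
    rw [hta] at h6 h7 h8
    rw [hta', htt] at g6 g7 g8
    have hx : ∀ a b, a ≠ b → v (y a) ≠ v (y b) := fun a b h => hne _ _ (fun e => h (yinj e))
    have hx' : ∀ a b, a ≠ b → v (y' a) ≠ v (y' b) := fun a b h => hne _ _ (fun e => h (yinj' e))
    refine no_cycle hC (n := 10) (b := t 3) ![v 0, v (y a), v (y d), v (y d'), v (y 3), v (y' 3),
      v (y' e'), v (y' e), v (y' a'), v 1] ?_ ?_ ?_
    · intro i
      fin_cases i
      exacts [n0, yN _ _ h1.symm, yN _ _ h5, yN _ _ h4, nb 5 9 (by decide), yN' _ _ g4.symm,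
        yN' _ _ g5.symm, yN' _ _ g1, n1.symm, nb 1 0 (by decide)]
    · intro i
      fin_cases i
      exacts [hne _ _ (y0 d), hx _ _ h3.symm, hx _ _ h2, hne _ _ (yy' _ _), hne _ _ (yy' _ _),
        hx' _ _ g2.symm, hx' _ _ g3, (hne _ _ (y1' e)).symm, (hne _ _ (y0' a')).symm,
        hne _ _ (y1 a)]
    · intro i
      fin_cases i
      exacts [c0, h6, h7, h8, h59, (hC.1 _ _).trans g8, (hC.1 _ _).trans g7,
        (hC.1 _ _).trans g6, c1, (hC.1 _ _).trans hc']
  -- (3)
  refine ⟨fun w hw hd => ?_, fun w hw hd => ?_, fun w hw hd => ?_⟩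
  · rw [h01, ← t2]
    exact out 2 w hw (fun b => hd _)
  · rw [h01, ← t2']
    exact out' 2 w hw (fun b => hd _)
  · rw [h01]
    by_contra hc
    have hc' : c (v 0) w = !t 3 := by
      revert hc
      cases c (v 0) w <;> cases t 3 <;> simp
    have h02 : c (v 0) (v 2) = t 0 := (hC.1 _ _).trans h20
    have h03 : c (v 0) (v 3) = t 1 := (hC.1 _ _).trans h30
    rcases ha with rfl | rfl
    · refine three hC (hd 1) (hd 3) (hne 1 3 (by decide)) hw (nb 0 1 (by decide))
        (nb 0 3 (by decide)) hc' h01 ?_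
      rw [h03]
      revert t01 hta
      cases t 0 <;> cases t 1 <;> cases t 3 <;> simp
    · refine three hC (hd 1) (hd 2) (hne 1 2 (by decide)) hw (nb 0 1 (by decide))
        (nb 0 2 (by decide)) hc' h01 ?_
      rw [h02]
      revert t01 hta
      cases t 0 <;> cases t 1 <;> cases t 3 <;> simp

end Pool.Agent.RAC
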