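import Pool.Agent.Lib_MP_638f75_lc.SLoc

/-!
# Block S, soundness (piece SSOUND)

PAPER PROOF. Let `(c, φ)` be the certificate. If `D.m = 0` nothing has to be shown. For a stage
`(i, j)` the vertices `D.v i j a` form a `Stage` (`stage_v`, proved here). Let
`x i j = c (D.v i j 0) (D.v i j 1)`. By `stage` for `(i, j)` at `w = D.v i (j + 1) 0`:
`c (D.v i j 8) (D.v i (j + 1) 0) = x i j`, and by `stage` for `(i, j + 1)` at `w = D.v i j 8`:
`c (D.v i (j + 1) 0) (D.v i j 8) = !x i (j + 1)`. So `x i (j + 1) = !x i j`, and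
`x i j = xor (x i 0) (decide (j % 2 = 1))` by induction. By `stage` the edge from the clause vertex
`.inr l` to `D.v (D.idx l h) (D.st l h) 4` has the colour
`x (idx l h) (st l h) = xor (X (idx l h)) (sg l h)`, because `st l h` is even if and only if
`sg l h = false`; by `three` the three colours for `h = 0, 1, 2` are not all equal. Choose
`X i = x i 0`.
-/

namespace Pool.Agent.RAC

theorem Dat.stage_v (D : Dat) (i : Fin D.N) (j : Fin (6 * D.m)) : Stage D.gam (D.v i j) where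
  inj := by
    intro a b h
    simp only [Dat.v, Sum.inl.injEq, Prod.mk.injEq] at h
    exact h.2.2
  nb := fun a b h => Or.inl ⟨rfl, Or.inl ⟨rfl, h⟩⟩

/-- the colour of the stage `(i, j)` flips from stage to stage -/
theorem ssound_step (D : Dat) {c : VS D → VS D → Bool} {φ : Bool → VS D → ℝ}
    (hC : Cert D.gam c φ) (i : Fin D.N) (j j' : Fin (6 * D.m)) (hj : j'.val = j.val + 1) :
    c (D.v i j' 0) (D.v i j' 1) = !c (D.v i j 0) (D.v i j 1) := by
  have hN : D.gam.Nb (D.v i j 8) (D.v i j' 0) := Or.inl ⟨rfl, Or.inr ⟨hj, rfl, rfl⟩⟩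
  have hne : j' ≠ j := by
    intro e
    rw [e] at hj
    omega
  have h1 := (stage hC (D.stage_v i j)).2.1 (D.v i j' 0) hN (by
    intro a e
    simp only [Dat.v, Sum.inl.injEq, Prod.mk.injEq] at e
    exact hne e.2.1)
  have h2 := (stage hC (D.stage_v i j')).2.2 (D.v i j 8) hN.symm (by
    intro a e
    simp only [Dat.v, Sum.inl.injEq, Prod.mk.injEq] at e
    exact hne e.2.1.symm)
  rw [hC.1, h1] at h2
  rw [h2, Bool.not_not]

theorem ssound_par (D : Dat) {c : VS D → VS D → Bool} {φ : Bool → VS D → ℝ}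
    (hC : Cert D.gam c φ) (i : Fin D.N) (h0 : 0 < 6 * D.m) (n : ℕ) (hn : n < 6 * D.m) :
    c (D.v i ⟨n, hn⟩ 0) (D.v i ⟨n, hn⟩ 1) =
      xor (c (D.v i ⟨0, h0⟩ 0) (D.v i ⟨0, h0⟩ 1)) (decide (n % 2 = 1)) := by
  induction n with
  | zero => simp
  | succ n ih =>
    rw [ssound_step D hC i ⟨n, by omega⟩ ⟨n + 1, hn⟩ rfl, ih (by omega)]
    rcases Nat.mod_two_eq_zero_or_one n with h | h
    · have h' : (n + 1) % 2 = 1 := by omega
      rw [decide_eq_true h', decide_eq_false (by omega)]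
      simp
    · have h' : ¬ (n + 1) % 2 = 1 := by omega
      rw [decide_eq_false h', decide_eq_true h]
      simp

theorem ssound_clause (D : Dat) {c : VS D → VS D → Bool} {φ : Bool → VS D → ℝ}
    (hC : Cert D.gam c φ) (h0 : 0 < 6 * D.m) (l : Fin D.m) (h : Fin 3) :
    c (.inr l) (D.v (D.idx l h) ⟨D.st l h, D.st_lt l h⟩ 4) =
      xor (c (D.v (D.idx l h) ⟨0, h0⟩ 0) (D.v (D.idx l h) ⟨0, h0⟩ 1)) (D.sg l h) := by
  have hN : D.gam.Nb (D.v (D.idx l h) ⟨D.st l h, D.st_lt l h⟩ 4) (.inr l) :=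
    Or.inr ⟨rfl, h, rfl, rfl⟩
  have h1 := (stage hC (D.stage_v (D.idx l h) ⟨D.st l h, D.st_lt l h⟩)).1 (.inr l) hN (by
    intro a e
    simp [Dat.v] at e)
  rw [hC.1, h1, ssound_par D hC (D.idx l h) h0 (D.st l h) (D.st_lt l h)]
  congr 1
  unfold Dat.st
  cases hs : D.sg l h
  · rw [decide_eq_false]
    simp
  · rw [decide_eq_true]
    simp

theorem Dat.sound (D : Dat) (h : TLF D.gam) : D.Sat := by
  obtain ⟨c, φ, hc, hφ⟩ := h
  have hC : Cert D.gam c φ := ⟨hc, hφ⟩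
  refine ⟨fun i => if h0 : 0 < 6 * D.m then c (D.v i ⟨0, h0⟩ 0) (D.v i ⟨0, h0⟩ 1) else false, ?_⟩
  intro l
  have h0 : 0 < 6 * D.m := by
    have := l.2
    omega
  simp only [dif_pos h0]
  by_contra hcon
  push Not at hcon
  have e1 := hcon 1 0
  have e2 := hcon 2 0
  rw [← ssound_clause D hC h0 l 1, ← ssound_clause D hC h0 l 0] at e1
  rw [← ssound_clause D hC h0 l 2, ← ssound_clause D hC h0 l 0] at e2
  have hN : ∀ h : Fin 3, D.gam.Nb (.inr l) (D.v (D.idx l h) ⟨D.st l h, D.st_lt l h⟩ 4) :=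
    fun h => Or.inl ⟨rfl, h, rfl, rfl⟩
  have hne : ∀ h h' : Fin 3, h ≠ h' → D.v (D.idx l h) ⟨D.st l h, D.st_lt l h⟩ 4 ≠
      D.v (D.idx l h') ⟨D.st l h', D.st_lt l h'⟩ 4 := by
    intro h h' hh e
    simp only [Dat.v, Sum.inl.injEq, Prod.mk.injEq, Fin.mk.injEq] at e
    exact hh (D.st_inj e.2.1).2
  exact three hC (hne 0 1 (by decide)) (hne 0 2 (by decide)) (hne 1 2 (by decide)) (hN 0) (hN 1)
    (hN 2) rfl e1 e2

end Pool.Agent.RAC
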